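import Pool.Agent.H948.Harris
import Pool.Graph.R_pool_sql_team_seeded_3997aac3.Q69.FM.H

/-!
# Passage times restricted to boxes
-/

set_option autoImplicit false

open MeasureTheory ProbabilityTheory Filter Set
open scoped ENNReal Topology

namespace Pool.Agent.H948

open Q70.Fp
open Q69.FM (hm sq_up TB_sh)

/-! ### shifts -/

lemma measurable_sh (a : ℤ × ℤ) : Measurable (sh a) :=
  measurable_pi_iff.2 fun _ => measurable_pi_apply _

lemma int_sh (a : ℤ × ℤ) {F : (Ed → ℝ) → ℝ} (hF : Measurable F) :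
    ∫ w, F (sh a w) ∂nu = ∫ w, F w ∂nu := by
  conv_rhs => rw [← map_sh a]
  exact (integral_map (measurable_sh a).aemeasurable (f := F) hF.aestronglyMeasurable).symm

lemma integrable_sh (a : ℤ × ℤ) {F : (Ed → ℝ) → ℝ} (hF : Measurable F) (hI : Integrable F nu) :
    Integrable (fun w => F (sh a w)) nu := by
  rw [← map_sh a] at hI
  exact (integrable_map_measure hF.aestronglyMeasurable (measurable_sh a).aemeasurable).1 hI

/-! ### the box passage time of a vector -/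

/-- the passage time from `x` to `x + u` inside a box -/
noncomputable def Bk (u x : ℤ × ℤ) (w : Ed → ℝ) : ℝ := TB (pw w) (66 * dd 0 u) x (x + u)

lemma dd_add_right (x u : ℤ × ℤ) : dd x (x + u) = dd 0 u := by
  have := dd_add 0 u x
  rw [zero_add, add_comm u x] at this
  exact this

lemma measurable_Bk (u x : ℤ × ℤ) : Measurable (Bk u x) := measurable_TB _ _ _

lemma Bk_nonneg (u x : ℤ × ℤ) (w : Ed → ℝ) : 0 ≤ Bk u x w := TB_nonneg (pw_nonneg w) _ _ _

lemma TT_le_Bk (u x : ℤ × ℤ) (w : Ed → ℝ) : TT (pw w) x (x + u) ≤ Bk u x w :=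
  TT_le_TB (pw_nonneg w) (by rw [dd_add_right]; omega)

lemma Bk_dep {u x : ℤ × ℤ} {w w' : Ed → ℝ} (h : ∀ e ∈ be (66 * dd 0 u) x, w e = w' e) :
    Bk u x w = Bk u x w' := TB_dep h

lemma Bk_sh (u x a : ℤ × ℤ) (w : Ed → ℝ) : Bk u x (sh a w) = Bk u (x + a) w := by
  unfold Bk
  rw [TB_sh]
  congr 1
  abel

lemma TT_sh' (u x a : ℤ × ℤ) (w : Ed → ℝ) :
    TT (pw (sh a w)) x (x + u) = TT (pw w) (x + a) (x + a + u) := by
  rw [TT_sh]
  congr 1
  abel

lemma Bk_mono (u x : ℤ × ℤ) : Monotone (Bk u x) := by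
  intro w w' hw
  have hne := nonemptyB (pw w') (R := 66 * dd 0 u) (x := x) (y := x + u)
    (by rw [dd_add_right]; omega)
  refine le_csInf hne ?_
  rintro s ⟨n, p, hp, rfl⟩
  refine (csInf_le (bddB (pw_nonneg w) _ _ _) ⟨n, p, hp, rfl⟩).trans ?_
  refine Finset.sum_le_sum fun i _ => ?_
  exact max_le_max (hw _) le_rfl

/-- polynomial growth against the exponential -/
lemma pow_le_exp {p : ℝ} (hp : 0 < p) : ∃ C : ℝ, 0 < C ∧ ∀ x : ℝ, 0 ≤ x →
    x ^ p ≤ C * Real.exp (1 / 4 * x) := by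
  obtain ⟨C, hC, h⟩ := exp_poly p hp (c := 1 / 4) (by norm_num)
  refine ⟨max C 1, by positivity, fun x hx => ?_⟩
  have hE := Real.exp_pos (1 / 4 * x)
  rcases le_total 1 x with h1 | h1
  · have h2 := h x h1
    have hx0 : 0 < x := by linarith
    rw [Real.exp_neg, Real.rpow_neg hx0.le, inv_le_iff_one_le_mul₀ hE] at h2
    have hxp : 0 < x ^ p := by positivity
    have h3 : x ^ p ≤ C * Real.exp (1 / 4 * x) := by
      calc x ^ p = 1 * x ^ p := by ring
        _ ≤ (C * (x ^ p)⁻¹ * Real.exp (1 / 4 * x)) * x ^ p := by gcongr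
        _ = C * Real.exp (1 / 4 * x) := by field_simp
    exact h3.trans (mul_le_mul_of_nonneg_right (le_max_left _ _) hE.le)
  · have h2 : x ^ p ≤ 1 := Real.rpow_le_one hx h1 hp.le
    have h3 : (1:ℝ) ≤ Real.exp (1 / 4 * x) := Real.one_le_exp (by positivity)
    have h4 : (1:ℝ) ≤ max C 1 := le_max_right _ _
    nlinarith

/-- the box passage time is close to the passage time in every moment -/
lemma Bk_TT {p : ℝ} (hp : 0 < p) : ∃ C : ℝ, 0 < C ∧ ∀ u : ℤ × ℤ, u ≠ 0 → ∀ x : ℤ × ℤ,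
    Integrable (fun w => |Bk u x w - TT (pw w) x (x + u)| ^ p) nu ∧
    ∫ w, |Bk u x w - TT (pw w) x (x + u)| ^ p ∂nu ≤ C := by
  obtain ⟨C1, hC1, h1⟩ := pow_le_exp hp
  obtain ⟨C2, hC2, h2⟩ := half_poly p hp
  refine ⟨2 * 8 ^ p * C2 + C1, by positivity, fun u hu x => ?_⟩
  have hdd := dd_add_right x u
  obtain ⟨S, hS1, hS2, hS3, hS4, hS5⟩ := exists_major x (x + u)
  rw [hdd] at hS3 hS5
  set m : ℕ := dd 0 u with hm
  have hm1 : 1 ≤ m := dd_pos hu
  have hmR : (1:ℝ) ≤ m := by exact_mod_cast hm1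
  set E : Set (Ed → ℝ) := {w | TT (pw w) x (x + u) < Bk u x w} with hE
  have hEm : MeasurableSet E := measurableSet_lt (measurable_TT _ _) (measurable_Bk _ _)
  have hEp : nu.real E ≤ 2 * (1 / 2) ^ m := local_le (x := x) (y := x + u) (m := m) (by omega)
  have hS0 : ∀ w, 0 ≤ S w := fun w => (TT_nonneg (pw_nonneg w) _ _).trans (hS2 w)
  set K : (Ed → ℝ) → ℝ := fun w => (8 * (m:ℝ)) ^ p * E.indicator (fun _ => 1) w +
    C1 * (Real.exp (-(2 * (m:ℝ))) * Real.exp (1 / 2 * S w)) with hK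
  have hKi : Integrable K nu := by
    refine Integrable.add ?_ ((hS4.const_mul _).const_mul _)
    exact ((integrable_const (1:ℝ)).indicator hEm).const_mul _
  have hpt : ∀ w, |Bk u x w - TT (pw w) x (x + u)| ^ p ≤ K w := by
    intro w
    have e1 := TT_le_Bk u x w
    have e2 : Bk u x w ≤ S w := hS3 (66 * m) (by omega) w
    have e3 := TT_nonneg (pw_nonneg w) x (x + u)
    rw [abs_of_nonneg (by linarith)]
    have hpos : 0 ≤ C1 * (Real.exp (-(2 * (m:ℝ))) * Real.exp (1 / 2 * S w)) := by positivity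
    by_cases hw : w ∈ E
    · have e4 : (Bk u x w - TT (pw w) x (x + u)) ^ p ≤ S w ^ p :=
        Real.rpow_le_rpow (by linarith) (by linarith) hp.le
      simp only [hK, indicator_of_mem hw, mul_one]
      rcases le_total (S w) (8 * (m:ℝ)) with h3 | h3
      · have : S w ^ p ≤ (8 * (m:ℝ)) ^ p := Real.rpow_le_rpow (hS0 w) h3 hp.le
        linarith
      · have e5 := h1 (S w) (hS0 w)
        have e6 : Real.exp (1 / 4 * S w) ≤ Real.exp (-(2 * (m:ℝ))) * Real.exp (1 / 2 * S w) := by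
          rw [← Real.exp_add]
          exact Real.exp_le_exp.2 (by linarith)
        have e7 : 0 ≤ (8 * (m:ℝ)) ^ p := by positivity
        have e8 := mul_le_mul_of_nonneg_left e6 hC1.le
        linarith
    · have e4 : Bk u x w - TT (pw w) x (x + u) = 0 := by
        have : ¬ TT (pw w) x (x + u) < Bk u x w := hw
        linarith [not_lt.1 this]
      rw [e4, Real.zero_rpow hp.ne']
      simp only [hK, indicator_of_notMem hw, mul_zero, zero_add]
      exact hpos
  have hmeas : Measurable (fun w => |Bk u x w - TT (pw w) x (x + u)| ^ p) :=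
    (continuous_abs.measurable.comp ((measurable_Bk u x).sub (measurable_TT _ _))).pow_const p
  have hint : Integrable (fun w => |Bk u x w - TT (pw w) x (x + u)| ^ p) nu := by
    refine hKi.mono' hmeas.aestronglyMeasurable (Eventually.of_forall fun w => ?_)
    rw [Real.norm_eq_abs, abs_of_nonneg (by positivity)]
    exact hpt w
  refine ⟨hint, (integral_mono hint hKi hpt).trans ?_⟩
  have i1 : Integrable (fun w => (8 * (m:ℝ)) ^ p * E.indicator (fun _ => (1:ℝ)) w) nu :=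
    ((integrable_const (1:ℝ)).indicator hEm).const_mul _
  have i2 : Integrable (fun w => C1 * (Real.exp (-(2 * (m:ℝ))) * Real.exp (1 / 2 * S w))) nu :=
    (hS4.const_mul _).const_mul _
  have e1 : ∫ w, K w ∂nu = (8 * (m:ℝ)) ^ p * nu.real E +
      C1 * (Real.exp (-(2 * (m:ℝ))) * 2 ^ m) := by
    simp only [hK]
    rw [integral_add i1 i2, integral_const_mul, integral_const_mul, integral_const_mul, hS5,
      integral_indicator hEm]
    simp
  rw [e1]
  have e2 : (m:ℝ) ^ p * (1 / 2) ^ m ≤ C2 := by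
    have := h2 m
    calc (m:ℝ) ^ p * (1 / 2) ^ m ≤ ((m:ℝ) + 1) ^ p * (C2 * ((m:ℝ) + 1) ^ (-p)) := by
          gcongr; linarith
      _ = C2 * (((m:ℝ) + 1) ^ p * ((m:ℝ) + 1) ^ (-p)) := by ring
      _ = C2 := by rw [← Real.rpow_add (by positivity)]; simp
  have e3 : Real.exp (-(2 * (m:ℝ))) * 2 ^ m ≤ 1 := by
    have : (2:ℝ) ^ m ≤ Real.exp (2 * (m:ℝ)) := by
      have h3 : (2:ℝ) ≤ Real.exp 2 := by linarith [Real.add_one_le_exp (2:ℝ)]
      calc (2:ℝ) ^ m ≤ (Real.exp 2) ^ m := pow_le_pow_left₀ (by norm_num) h3 m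
        _ = Real.exp (2 * (m:ℝ)) := by rw [← Real.exp_nat_mul]; ring_nf
    calc Real.exp (-(2 * (m:ℝ))) * 2 ^ m ≤ Real.exp (-(2 * (m:ℝ))) * Real.exp (2 * (m:ℝ)) := by
          gcongr
      _ = 1 := by rw [← Real.exp_add]; simp
  calc (8 * (m:ℝ)) ^ p * nu.real E + C1 * (Real.exp (-(2 * (m:ℝ))) * 2 ^ m)
      ≤ (8 * (m:ℝ)) ^ p * (2 * (1 / 2) ^ m) + C1 * 1 := by gcongr
    _ = 2 * 8 ^ p * ((m:ℝ) ^ p * (1 / 2) ^ m) + C1 := by
        rw [Real.mul_rpow (by norm_num) (by positivity)]; ring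
    _ ≤ 2 * 8 ^ p * C2 + C1 := by gcongr

lemma memLp_Bk (u x : ℤ × ℤ) : MemLp (Bk u x) 2 nu := by
  obtain ⟨S, h1, -, h2, h3, -⟩ := exists_major x (x + u)
  rw [memLp_two_iff_integrable_sq (measurable_Bk u x).aestronglyMeasurable]
  refine (h3.const_mul 8).mono' ((measurable_Bk u x).pow_const 2).aestronglyMeasurable
    (Eventually.of_forall fun w => ?_)
  rw [Real.norm_eq_abs, abs_of_nonneg (sq_nonneg _)]
  have e1 := Bk_nonneg u x w
  have e2 : Bk u x w ≤ S w := h2 (66 * dd 0 u) (by rw [dd_add_right]; omega) w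
  have e3 := Real.quadratic_le_exp_of_nonneg (show 0 ≤ 1 / 2 * S w by linarith)
  nlinarith

lemma memLp_TT' (x u : ℤ × ℤ) : MemLp (fun w => TT (pw w) x (x + u)) 2 nu := by
  obtain ⟨S, h1, h2, -, h3, -⟩ := exists_major x (x + u)
  rw [memLp_two_iff_integrable_sq (measurable_TT _ _).aestronglyMeasurable]
  refine (h3.const_mul 8).mono' ((measurable_TT _ _).pow_const 2).aestronglyMeasurable
    (Eventually.of_forall fun w => ?_)
  rw [Real.norm_eq_abs, abs_of_nonneg (sq_nonneg _)]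
  have e1 := TT_nonneg (pw_nonneg w) x (x + u)
  have e2 := h2 w
  have e3 := Real.quadratic_le_exp_of_nonneg (show 0 ≤ 1 / 2 * S w by linarith)
  nlinarith

/-- the mean of the box passage time -/
noncomputable def fb (u : ℤ × ℤ) : ℝ := ∫ w, Bk u 0 w ∂nu

lemma int_Bk (u x : ℤ × ℤ) : ∫ w, Bk u x w ∂nu = fb u := by
  rw [fb, ← int_sh x (measurable_Bk u 0)]
  simp only [Bk_sh, zero_add]

lemma int_TT' (x u : ℤ × ℤ) : ∫ w, TT (pw w) x (x + u) ∂nu = hm u := by
  rw [integral_TT_sh]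
  have : x + u - x = u := by abel
  rw [this]; rfl

lemma hm_le_fb (u : ℤ × ℤ) : hm u ≤ fb u := by
  rw [← int_TT' 0 u]
  exact integral_mono (integrable_TT _ _) ((memLp_Bk u 0).integrable one_le_two)
    (fun w => TT_le_Bk u 0 w)

lemma fb_le : ∃ C : ℝ, 0 < C ∧ ∀ u : ℤ × ℤ, u ≠ 0 → fb u ≤ hm u + C := by
  obtain ⟨C, hC, h⟩ := Bk_TT (p := 1) one_pos
  refine ⟨C, hC, fun u hu => ?_⟩
  obtain ⟨h1, h2⟩ := h u hu 0
  have e1 : ∫ w, |Bk u 0 w - TT (pw w) 0 (0 + u)| ^ (1:ℝ) ∂nu = fb u - hm u := by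
    rw [fb, ← int_TT' 0 u, ← integral_sub ((memLp_Bk u 0).integrable one_le_two)
      (integrable_TT _ _)]
    refine integral_congr_ae (Eventually.of_forall fun w => ?_)
    have := TT_le_Bk u 0 w
    simp only [Real.rpow_one]
    rw [abs_of_nonneg (by linarith)]
  rw [e1] at h2
  linarith

end Pool.Agent.H948
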