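import Pool.Agent.H948.Geo

/-!
# The first cells of the cluster, transfer of events, size of the cluster
-/

set_option autoImplicit false

open MeasureTheory ProbabilityTheory Filter Set
open scoped ENNReal Topology Pointwise

namespace Pool.Agent.H948

open Q70.Fp
open Q69.FL (Se Ll)

variable {μ : ℝ × ℝ → ℝ}

/-- the points reached first: fewer than `N` points are reached earlier -/
def Cells (T : ℤ × ℤ → ℝ) (N : ℕ) : Set (ℤ × ℤ) := {v | {u | T u < T v}.encard < N}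

lemma cells_sub {T : ℤ × ℤ → ℝ} {t : ℝ} {N : ℕ} (A : Finset (ℤ × ℤ))
    (hA : (A : Set (ℤ × ℤ)) = {v | T v ≤ t}) (hN : N ≤ A.card) : Cells T N ⊆ {v | T v ≤ t} := by
  intro v hv
  by_contra hc
  have h1 : t < T v := not_le.1 hc
  have h2 : (A : Set (ℤ × ℤ)) ⊆ {u | T u < T v} := by
    rw [hA]
    intro u hu
    have : T u ≤ t := hu
    exact lt_of_le_of_lt this h1
  have h3 := encard_le_encard h2
  rw [encard_coe_eq_coe_finsetCard] at h3
  have h4 : {u | T u < T v}.encard < (N : ℕ∞) := hv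
  have h5 : ((A.card : ℕ) : ℕ∞) < (N : ℕ∞) := lt_of_le_of_lt h3 h4
  have h6 : A.card < N := by exact_mod_cast h5
  omega

lemma sub_cells {T : ℤ × ℤ → ℝ} {t : ℝ} {N : ℕ} (A : Finset (ℤ × ℤ))
    (hA : (A : Set (ℤ × ℤ)) = {v | T v ≤ t}) (hN : A.card < N) : {v | T v ≤ t} ⊆ Cells T N := by
  intro v hv
  have hv' : T v ≤ t := hv
  have h2 : {u | T u < T v} ⊆ (A : Set (ℤ × ℤ)) := by
    rw [hA]
    intro u hu
    have h3 : T u < T v := hu
    exact (h3.trans_le hv').le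
  have h3 := encard_le_encard h2
  rw [encard_coe_eq_coe_finsetCard] at h3
  show {u | T u < T v}.encard < (N : ℕ∞)
  refine lt_of_le_of_lt h3 ?_
  exact_mod_cast hN

lemma cells_eq {T : ℤ × ℤ → ℝ} {t : ℝ} (A : Finset (ℤ × ℤ))
    (hA : (A : Set (ℤ × ℤ)) = {v | T v ≤ t}) : Cells T A.card = {v | T v ≤ t} := by
  refine Subset.antisymm (cells_sub A hA le_rfl) ?_
  intro v hv
  have hv' : T v ≤ t := hv
  have hvA : v ∈ A := by
    have : v ∈ (A : Set (ℤ × ℤ)) := by rw [hA]; exact hv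
    exact_mod_cast this
  have h2 : {u | T u < T v} ⊆ ((A.erase v : Finset (ℤ × ℤ)) : Set (ℤ × ℤ)) := by
    intro u hu
    have h3 : T u < T v := hu
    have h4 : u ∈ (A : Set (ℤ × ℤ)) := by
      rw [hA]
      exact (h3.trans_le hv').le
    rw [Finset.mem_coe, Finset.mem_erase]
    refine ⟨?_, by exact_mod_cast h4⟩
    rintro rfl
    exact lt_irrefl _ h3
  have h3 := encard_le_encard h2
  rw [encard_coe_eq_coe_finsetCard, Finset.card_erase_of_mem hvA] at h3
  show {u | T u < T v}.encard < (A.card : ℕ∞)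
  refine lt_of_le_of_lt h3 ?_
  have : 0 < A.card := Finset.card_pos.2 ⟨v, hvA⟩
  exact_mod_cast (by omega : A.card - 1 < A.card)

variable {Ω : Type} [MeasurableSpace Ω] {P : Measure Ω} {X : Ed → Ω → ℝ}

/-- transfer of an event, upper bound -/
lemma transfer_le [IsProbabilityMeasure P] (hW : Wts P X) (Q : (ℤ × ℤ → ℝ) → Prop) :
    P.real {ω | Q (fun v => TT (fun e => X e ω) 0 v)} ≤ nu.real {w | Q (fun v => TT (pw w) 0 v)} := by
  have h1 : P {ω | Q (fun v => TT (fun e => X e ω) 0 v)} ≤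
      P ((fun ω e => X e ω : Ω → Ed → ℝ) ⁻¹' {w | Q (fun v => TT (pw w) 0 v)}) := by
    refine measure_mono_ae ?_
    filter_upwards [hW.ae] with ω hω hQ
    show Q (fun v => TT (pw (fun e => X e ω)) 0 v)
    rw [hω]
    exact hQ
  have h2 := Measure.le_map_apply (μ := P) (f := (fun ω e => X e ω : Ω → Ed → ℝ))
    hW.measPhi.aemeasurable {w | Q (fun v => TT (pw w) 0 v)}
  rw [hW.map] at h2
  exact ENNReal.toReal_mono (measure_ne_top _ _) (h1.trans h2)

/-- transfer of a measurable event -/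
lemma transfer_eq [IsProbabilityMeasure P] (hW : Wts P X) (Q : (ℤ × ℤ → ℝ) → Prop)
    (hm : MeasurableSet {w : Ed → ℝ | Q (fun v => TT (pw w) 0 v)}) :
    nu.real {w | Q (fun v => TT (pw w) 0 v)} = P.real {ω | Q (fun v => TT (fun e => X e ω) 0 v)} := by
  rw [← hW.map, map_measureReal_apply hW.measPhi hm]
  refine measureReal_congr ?_
  filter_upwards [hW.ae] with ω hω
  refine propext ?_
  show Q (fun v => TT (pw (fun e => X e ω)) 0 v) ↔ Q (fun v => TT (fun e => X e ω) 0 v)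
  rw [hω]

/-! ### crude bounds for the cluster -/

/-- a point outside a large ball is not reached -/
lemma far_le (m : ℕ) : nu.real {w | ∃ v : ℤ × ℤ, 66 * m ≤ dd 0 v ∧ TT (pw w) 0 v < 3 * (m:ℝ)} ≤
    (1 / 2) ^ m := by
  rcases Nat.eq_zero_or_pos m with h0 | h0
  · subst h0
    simpa using measureReal_le_one
  refine le_trans (measureReal_mono ?_ (measure_ne_top _ _)) (bad_le 0 (R := 66 * m) (m := m) le_rfl)
  rintro w ⟨v, hv, hw⟩
  obtain ⟨n, p, hp, hpw⟩ := Q70.Fp.exists_lt hw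
  have h1 : 66 * m - 1 < dd 0 (p n) := by rw [hp.2.1]; omega
  obtain ⟨q, e1, e2, e3, e4⟩ := bad_of_exit (pw_nonneg w) hp le_rfl h1
  have e0 : 66 * m - 1 + 1 = 66 * m := by omega
  rw [e0] at e2 e3 e4
  exact ⟨q, e1, e2, e3, e4.trans hpw.le⟩

lemma near_le (k : ℕ) : nu.real {w | ∃ v : ℤ × ℤ, dd 0 v ≤ k ∧ 3 * (k:ℝ) ≤ TT (pw w) 0 v} ≤
    (2 * (k:ℝ) + 1) ^ 4 * (1 / 2) ^ k := by
  refine le_trans (measureReal_mono ?_ (measure_ne_top _ _)) (near_pairs k k)
  rintro w ⟨v, hv, hw⟩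
  exact ⟨0, by rw [mem_ball, dd_self]; omega, v, mem_ball.2 hv, hv, hw⟩

lemma ball_card_low (k : ℕ) : k ^ 2 ≤ 4 * (ball k 0).card := by
  have h1 : (Finset.Icc (0:ℤ) (k / 2 : ℕ) ×ˢ Finset.Icc (0:ℤ) (k / 2 : ℕ)) ⊆ ball k 0 := by
    intro v hv
    rw [Finset.mem_product, Finset.mem_Icc, Finset.mem_Icc] at hv
    rw [mem_ball]
    simp only [dd, Prod.fst_zero, Prod.snd_zero, sub_zero]
    omega
  have h2 := Finset.card_le_card h1
  rw [Finset.card_product, Int.card_Icc] at h2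
  have h3 : ((k / 2 : ℕ) : ℤ) + 1 - 0 = ((k / 2 + 1 : ℕ) : ℤ) := by push_cast; ring
  rw [h3, Int.toNat_natCast] at h2
  have h4 : k < 2 * (k / 2 + 1) := Nat.lt_mul_div_succ k (by norm_num)
  nlinarith

end Pool.Agent.H948
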