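import Pool.Agent.H948.Blocks

/-!
# Sums of box passage times along a line, on several scales
-/

set_option autoImplicit false

open MeasureTheory ProbabilityTheory Filter Set
open scoped ENNReal Topology

namespace Pool.Agent.H948

open Q70.Fp
open Q69.FM (hm sq_up TB_sh)

/-- joining two walks, with the points -/
lemma join' (w : Sym2 (ℤ × ℤ) → ℝ) {x y z : ℤ × ℤ} {n m : ℕ} {p q : ℕ → ℤ × ℤ}
    (hp : IsW x y n p) (hq : IsW y z m q) :
    ∃ r, IsW x z (n + m) r ∧ Wt w r (n + m) = Wt w p n + Wt w q m ∧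
      ∀ i ≤ n + m, (∃ j ≤ n, r i = p j) ∨ ∃ j ≤ m, r i = q j := by
  set r : ℕ → ℤ × ℤ := fun i => if i ≤ n then p i else q (i - n) with hr
  have r1 : ∀ i ≤ n, r i = p i := fun i hi => by simp only [hr, if_pos hi]
  have r2 : ∀ i, r (n + i) = q i := by
    intro i
    rcases Nat.eq_zero_or_pos i with h0 | h0
    · subst h0
      rw [add_zero, r1 n le_rfl, hp.2.1, hq.1]
    · simp only [hr]
      rw [if_neg (by omega)]
      congr 1; omega
  refine ⟨r, ⟨by rw [r1 0 (Nat.zero_le _)]; exact hp.1, by rw [r2]; exact hq.2.1, ?_⟩, ?_, ?_⟩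
  · intro i hi
    rcases lt_or_ge i n with h1 | h1
    · rw [r1 i h1.le, r1 (i + 1) h1]
      exact hp.2.2 i h1
    · obtain ⟨j, rfl⟩ := Nat.exists_eq_add_of_le h1
      rw [r2, add_assoc, r2]
      exact hq.2.2 j (by omega)
  · unfold Wt
    rw [Finset.sum_range_add]
    congr 1
    · refine Finset.sum_congr rfl fun i hi => ?_
      have := Finset.mem_range.1 hi
      rw [r1 i this.le, r1 (i + 1) this]
    · refine Finset.sum_congr rfl fun i _ => ?_
      rw [r2, add_assoc, r2]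
  · intro i hi
    rcases le_or_gt i n with h1 | h1
    · exact Or.inl ⟨i, h1, r1 i h1⟩
    · refine Or.inr ⟨i - n, by omega, ?_⟩
      have := r2 (i - n)
      rwa [show n + (i - n) = i by omega] at this

lemma walk_chain {w : Ed → ℝ} (u x : ℤ × ℤ) (k : ℕ) : ∀ s : ℝ,
    ∑ l ∈ Finset.range k, Bk u (x + (l:ℤ) • u) w < s →
    ∃ n p, IsW x (x + (k:ℤ) • u) n p ∧ (∀ i ≤ n, dd x (p i) ≤ (66 + k) * dd 0 u) ∧
      Wt (pw w) p n < s := by
  induction k with
  | zero =>
    intro s hs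
    refine ⟨0, fun _ => x, ⟨rfl, by simp, fun i hi => absurd hi (Nat.not_lt_zero _)⟩, ?_, ?_⟩
    · intro i _; rw [dd_self]; exact Nat.zero_le _
    · simpa [Wt] using hs
  | succ k ih =>
    intro s hs
    rw [Finset.sum_range_succ] at hs
    set δ : ℝ := (s - (∑ l ∈ Finset.range k, Bk u (x + (l:ℤ) • u) w + Bk u (x + (k:ℤ) • u) w)) / 2
      with hδ
    have hδ0 : 0 < δ := by rw [hδ]; linarith
    obtain ⟨n, p, hp, hpr, hpw⟩ := ih (∑ l ∈ Finset.range k, Bk u (x + (l:ℤ) • u) w + δ)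
      (by linarith)
    have h1 : Bk u (x + (k:ℤ) • u) w < Bk u (x + (k:ℤ) • u) w + δ := by linarith
    have hne := nonemptyB (pw w) (R := 66 * dd 0 u) (x := x + (k:ℤ) • u)
      (y := x + (k:ℤ) • u + u) (by rw [dd_add_right]; omega)
    obtain ⟨t, ⟨m, q, ⟨hq, hqr⟩, rfl⟩, ht⟩ := exists_lt_of_csInf_lt hne h1
    obtain ⟨r, hr, hrw, hrp⟩ := join' (pw w) hp hq
    refine ⟨n + m, r, ?_, ?_, ?_⟩
    · have : x + ((k + 1 : ℕ) : ℤ) • u = x + (k:ℤ) • u + u := by
        push_cast; rw [add_smul, one_smul, add_assoc]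
      rw [this]; exact hr
    · intro i hi
      rcases hrp i hi with ⟨j, hj, e⟩ | ⟨j, hj, e⟩
      · rw [e]
        refine (hpr j hj).trans ?_
        exact Nat.mul_le_mul_right _ (by omega)
      · rw [e]
        have e1 := dd_tri x (x + (k:ℤ) • u) (q j)
        have e2 := hqr j hj
        have e3 : dd x (x + (k:ℤ) • u) = k * dd 0 u := by
          rw [dd_add_right]
          have := dd_smul k 0 u
          rwa [smul_zero] at this
        rw [e3] at e1
        calc dd x (q j) ≤ k * dd 0 u + 66 * dd 0 u := by omega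
          _ ≤ (66 + (k + 1)) * dd 0 u := by nlinarith
    · rw [hrw]; linarith

lemma dd_zero_smul (k : ℕ) (u : ℤ × ℤ) : dd 0 ((k:ℤ) • u) = k * dd 0 u := by
  have := dd_smul k 0 u
  rwa [smul_zero] at this

lemma Bk_chain (u x : ℤ × ℤ) {k : ℕ} (hk : 2 ≤ k) (w : Ed → ℝ) :
    Bk ((k:ℤ) • u) x w ≤ ∑ l ∈ Finset.range k, Bk u (x + (l:ℤ) • u) w := by
  refine le_of_forall_gt_imp_ge_of_dense fun s hs => ?_
  obtain ⟨n, p, hp, hpr, hpw⟩ := walk_chain u x k s hs
  refine le_trans (csInf_le (bddB (pw_nonneg w) _ _ _) ⟨n, p, ⟨hp, fun i hi => ?_⟩, rfl⟩) hpw.le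
  refine (hpr i hi).trans ?_
  rw [dd_zero_smul, ← mul_assoc]
  exact Nat.mul_le_mul_right _ (by omega)

/-! ### sums on several scales -/

/-- the sum of the box passage times of `k ^ j` consecutive translates -/
noncomputable def Sg (v : ℤ × ℤ) (k : ℕ) : ℕ → (ℤ × ℤ) → (Ed → ℝ) → ℝ
  | 0, x, w => Bk v x w
  | j + 1, x, w => ∑ l ∈ Finset.range k, Sg v k j (x + (l:ℤ) • (((k ^ j : ℕ) : ℤ) • v)) w

lemma measurable_Sg (v : ℤ × ℤ) (k j : ℕ) : ∀ x, Measurable (Sg v k j x) := by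
  induction j with
  | zero => exact fun x => measurable_Bk v x
  | succ j ih => exact fun x => Finset.measurable_sum _ fun l _ => ih _

lemma memLp_Sg (v : ℤ × ℤ) (k j : ℕ) : ∀ x, MemLp (Sg v k j x) 2 nu := by
  induction j with
  | zero => exact fun x => memLp_Bk v x
  | succ j ih =>
    intro x
    have := memLp_finsetSum (μ := nu) (p := 2) (Finset.range k)
      (f := fun l => Sg v k j (x + (l:ℤ) • (((k ^ j : ℕ) : ℤ) • v))) (fun l _ => ih _)
    refine this.ae_eq (Eventually.of_forall fun w => ?_)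
    simp [Sg]

lemma Sg_nonneg (v : ℤ × ℤ) (k j : ℕ) : ∀ x w, 0 ≤ Sg v k j x w := by
  induction j with
  | zero => exact fun x w => Bk_nonneg v x w
  | succ j ih => exact fun x w => Finset.sum_nonneg fun l _ => ih _ _

lemma Sg_mono (v : ℤ × ℤ) (k j : ℕ) : ∀ x, Monotone (Sg v k j x) := by
  induction j with
  | zero => exact fun x => Bk_mono v x
  | succ j ih => exact fun x w w' h => Finset.sum_le_sum fun l _ => ih _ h

lemma Sg_sh (v : ℤ × ℤ) (k j : ℕ) (a : ℤ × ℤ) : ∀ x w, Sg v k j x (sh a w) = Sg v k j (x + a) w := by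
  induction j with
  | zero => exact fun x w => Bk_sh v x a w
  | succ j ih =>
    intro x w
    simp only [Sg]
    refine Finset.sum_congr rfl fun l _ => ?_
    rw [ih]
    congr 1; abel

lemma int_Sg (v : ℤ × ℤ) (k j : ℕ) : ∀ x, ∫ w, Sg v k j x w ∂nu = (k:ℝ) ^ j * fb v := by
  induction j with
  | zero => intro x; simp only [Sg, pow_zero, one_mul]; exact int_Bk v x
  | succ j ih =>
    intro x
    simp only [Sg]
    rw [integral_finsetSum _ fun l _ => (memLp_Sg v k j _).integrable one_le_two]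
    simp only [ih, Finset.sum_const, Finset.card_range, nsmul_eq_mul]
    ring

/-- the edges on which the sum depends -/
def SE (v : ℤ × ℤ) (N : ℕ) (x : ℤ × ℤ) : Set Ed :=
  {e | ∃ i : ℕ, i < N ∧ e ∈ be (66 * dd 0 v) (x + (i:ℤ) • v)}

lemma Sg_dep (v : ℤ × ℤ) (k j : ℕ) : ∀ x (w w' : Ed → ℝ), (∀ e ∈ SE v (k ^ j) x, w e = w' e) →
    Sg v k j x w = Sg v k j x w' := by
  induction j with
  | zero =>
    intro x w w' h
    refine Bk_dep fun e he => h e ⟨0, by simp, ?_⟩
    simpa using he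
  | succ j ih =>
    intro x w w' h
    simp only [Sg]
    refine Finset.sum_congr rfl fun l hl => ih _ _ _ fun e he => h e ?_
    obtain ⟨i, hi, he⟩ := he
    have hl' := Finset.mem_range.1 hl
    refine ⟨l * k ^ j + i, ?_, ?_⟩
    · calc l * k ^ j + i < l * k ^ j + k ^ j := by omega
        _ = (l + 1) * k ^ j := by ring
        _ ≤ k * k ^ j := Nat.mul_le_mul_right _ hl'
        _ = k ^ (j + 1) := by ring
    · convert he using 2
      push_cast
      rw [add_smul, mul_smul, add_assoc]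

open Classical in
/-- the same edges as a finite set -/
noncomputable def SF (v : ℤ × ℤ) (N : ℕ) (x : ℤ × ℤ) : Finset Ed :=
  (Finset.range N).biUnion fun i => be (66 * dd 0 v) (x + (i:ℤ) • v)

lemma mem_SF {v : ℤ × ℤ} {N : ℕ} {x : ℤ × ℤ} {e : Ed} : e ∈ SF v N x ↔ e ∈ SE v N x := by
  classical
  simp [SF, SE]

/-- the sums are positively correlated -/
lemma Sg_harris (v : ℤ × ℤ) (k j : ℕ) (x x' : ℤ × ℤ) :
    ((k:ℝ) ^ j * fb v) * ((k:ℝ) ^ j * fb v) ≤ ∫ w, Sg v k j x w * Sg v k j x' w ∂nu := by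
  classical
  have h := harris (SF v (k ^ j) x ∪ SF v (k ^ j) x') (measurable_Sg v k j x)
    (measurable_Sg v k j x')
    (fun w w' hw => Sg_dep v k j x w w' fun e he =>
      hw e (Finset.mem_union_left _ (mem_SF.2 he)))
    (fun w w' hw => Sg_dep v k j x' w w' fun e he =>
      hw e (Finset.mem_union_right _ (mem_SF.2 he)))
    (Sg_mono v k j x) (Sg_mono v k j x') (Sg_nonneg v k j x) (Sg_nonneg v k j x')
    (memLp_Sg v k j x) (memLp_Sg v k j x')
  rwa [int_Sg, int_Sg] at h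

/-- the centred sum -/
noncomputable def Sc (v : ℤ × ℤ) (k j : ℕ) (x : ℤ × ℤ) (w : Ed → ℝ) : ℝ :=
  Sg v k j x w - (k:ℝ) ^ j * fb v

lemma memLp_Sc (v : ℤ × ℤ) (k j : ℕ) (x : ℤ × ℤ) : MemLp (Sc v k j x) 2 nu :=
  (memLp_Sg v k j x).sub (memLp_const _)

lemma measurable_Sc (v : ℤ × ℤ) (k j : ℕ) (x : ℤ × ℤ) : Measurable (Sc v k j x) :=
  (measurable_Sg v k j x).sub measurable_const

lemma int_Sc (v : ℤ × ℤ) (k j : ℕ) (x : ℤ × ℤ) : ∫ w, Sc v k j x w ∂nu = 0 := by
  unfold Sc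
  rw [integral_sub ((memLp_Sg v k j x).integrable one_le_two) (integrable_const _), int_Sg]
  simp

lemma Sc_cov (v : ℤ × ℤ) (k j : ℕ) (x x' : ℤ × ℤ) : 0 ≤ ∫ w, Sc v k j x w * Sc v k j x' w ∂nu := by
  have h := Sg_harris v k j x x'
  have i1 : Integrable (fun w => Sg v k j x w * Sg v k j x' w) nu :=
    (memLp_Sg v k j x).integrable_mul (memLp_Sg v k j x')
  have i2 := (memLp_Sg v k j x).integrable one_le_two
  have i3 := (memLp_Sg v k j x').integrable one_le_two
  set c : ℝ := (k:ℝ) ^ j * fb v with hc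
  have e1 : (fun w => Sc v k j x w * Sc v k j x' w) =
      fun w => Sg v k j x w * Sg v k j x' w - (c * Sg v k j x w + c * Sg v k j x' w - c * c) := by
    funext w
    simp only [Sc, ← hc]; ring
  have i4 : Integrable (fun w => c * Sg v k j x w + c * Sg v k j x' w - c * c) nu :=
    ((i2.const_mul c).add (i3.const_mul c)).sub (integrable_const _)
  have i5 : Integrable (fun w => c * Sg v k j x w + c * Sg v k j x' w) nu :=
    (i2.const_mul c).add (i3.const_mul c)
  rw [e1, integral_sub i1 i4, integral_sub i5 (integrable_const _),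
    integral_add (i2.const_mul c) (i3.const_mul c), integral_const_mul, integral_const_mul, int_Sg,
    int_Sg, ← hc]
  simp only [integral_const, probReal_univ, smul_eq_mul, one_mul]
  linarith

lemma sum_sq_eq (k : ℕ) (Z : ℕ → (Ed → ℝ) → ℝ) (hZ : ∀ l, MemLp (Z l) 2 nu) :
    ∫ w, (∑ l ∈ Finset.range k, Z l w) ^ 2 ∂nu =
      ∑ l ∈ Finset.range k, ∑ m ∈ Finset.range k, ∫ w, Z l w * Z m w ∂nu := by
  have e1 : (fun w => (∑ l ∈ Finset.range k, Z l w) ^ 2) =
      fun w => ∑ l ∈ Finset.range k, ∑ m ∈ Finset.range k, Z l w * Z m w := by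
    funext w
    rw [sq, Finset.sum_mul_sum]
  have i0 : ∀ l m, Integrable (fun w => Z l w * Z m w) nu := fun l m =>
    (hZ l).integrable_mul (hZ m)
  have i1 : ∀ l ∈ Finset.range k, Integrable (fun w => ∑ m ∈ Finset.range k, Z l w * Z m w) nu :=
    fun l _ => integrable_finsetSum _ fun m _ => i0 l m
  rw [e1, integral_finsetSum _ i1]
  refine Finset.sum_congr rfl fun l _ => ?_
  rw [integral_finsetSum _ fun m _ => i0 l m]

lemma sum_sq_ge (k : ℕ) (Z : ℕ → (Ed → ℝ) → ℝ) (hZ : ∀ l, MemLp (Z l) 2 nu) {q : ℝ}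
    (hq : ∀ l, q ≤ ∫ w, Z l w ^ 2 ∂nu) (h0 : ∀ l m, 0 ≤ ∫ w, Z l w * Z m w ∂nu) :
    (k:ℝ) * q ≤ ∫ w, (∑ l ∈ Finset.range k, Z l w) ^ 2 ∂nu := by
  rw [sum_sq_eq k Z hZ]
  calc (k:ℝ) * q = ∑ _l ∈ Finset.range k, q := by simp
    _ ≤ _ := by
      refine Finset.sum_le_sum fun l hl => ?_
      refine le_trans ?_ (Finset.single_le_sum (f := fun m => ∫ w, Z l w * Z m w ∂nu)
        (fun m _ => h0 l m) hl)
      refine (hq l).trans (le_of_eq ?_)
      refine integral_congr_ae (Eventually.of_forall fun w => ?_)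
      show Z l w ^ 2 = Z l w * Z l w
      ring

lemma sum_sq_le (k : ℕ) (Z : ℕ → (Ed → ℝ) → ℝ) (hZ : ∀ l, MemLp (Z l) 2 nu) {q : ℝ} (hq0 : 0 ≤ q)
    (hq : ∀ l, ∫ w, Z l w ^ 2 ∂nu ≤ q)
    (h0 : ∀ l m : ℕ, l + 135 ≤ m → ∫ w, Z l w * Z m w ∂nu = 0) :
    ∫ w, (∑ l ∈ Finset.range k, Z l w) ^ 2 ∂nu ≤ 270 * k * q := by
  rw [sum_sq_eq k Z hZ]
  have h1 : ∀ l m, ∫ w, Z l w * Z m w ∂nu ≤ if l < m + 135 ∧ m < l + 135 then q else 0 := by
    intro l m
    split_ifs with hc
    · have e1 : ∫ w, Z l w * Z m w ∂nu ≤ ∫ w, (Z l w ^ 2 + Z m w ^ 2) / 2 ∂nu := by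
        refine integral_mono ((hZ l).integrable_mul (hZ m))
          (((hZ l).integrable_sq.add (hZ m).integrable_sq).div_const 2) fun w => ?_
        show Z l w * Z m w ≤ (Z l w ^ 2 + Z m w ^ 2) / 2
        nlinarith [sq_nonneg (Z l w - Z m w)]
      rw [integral_div, integral_add (hZ l).integrable_sq (hZ m).integrable_sq] at e1
      linarith [hq l, hq m]
    · rw [not_and_or, not_lt, not_lt] at hc
      rcases hc with hc | hc
      · have := h0 m l hc
        rw [← this]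
        refine le_of_eq (integral_congr_ae (Eventually.of_forall fun w => ?_))
        show Z l w * Z m w = Z m w * Z l w
        ring
      · rw [h0 l m hc]
  have h2 : ∀ l ∈ Finset.range k, ∑ m ∈ Finset.range k, ∫ w, Z l w * Z m w ∂nu ≤ 270 * q := by
    intro l _
    refine (Finset.sum_le_sum fun m _ => h1 l m).trans ?_
    rw [← Finset.sum_filter, Finset.sum_const, nsmul_eq_mul]
    have hc : ((Finset.range k).filter fun m => l < m + 135 ∧ m < l + 135).card ≤ 270 := by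
      have : (Finset.range k).filter (fun m => l < m + 135 ∧ m < l + 135) ⊆
          Finset.Ico (l - 135) (l + 135) := by
        intro m hm
        rw [Finset.mem_filter] at hm
        rw [Finset.mem_Ico]
        omega
      refine (Finset.card_le_card this).trans ?_
      rw [Nat.card_Ico]; omega
    have hc' : (((Finset.range k).filter fun m => l < m + 135 ∧ m < l + 135).card : ℝ) ≤ 270 := by
      exact_mod_cast hc
    gcongr
  refine (Finset.sum_le_sum h2).trans (le_of_eq ?_)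
  rw [Finset.sum_const, Finset.card_range, nsmul_eq_mul]
  ring

lemma sq_sh (x : ℤ × ℤ) {F : (ℤ × ℤ) → (Ed → ℝ) → ℝ} (hF : Measurable (F 0))
    (hs : ∀ y w, F y (sh x w) = F (y + x) w) : ∫ w, F x w ^ 2 ∂nu = ∫ w, F 0 w ^ 2 ∂nu := by
  rw [← int_sh x (hF.pow_const 2)]
  simp only [hs, zero_add]

lemma Sc_sh (v : ℤ × ℤ) (k j : ℕ) (a x : ℤ × ℤ) (w : Ed → ℝ) :
    Sc v k j x (sh a w) = Sc v k j (x + a) w := by
  unfold Sc
  rw [Sg_sh]

/-- the variance of the sum is at least the sum of the variances -/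
lemma var_low (v : ℤ × ℤ) (k j : ℕ) :
    (k:ℝ) ^ j * ∫ w, (Bk v 0 w - fb v) ^ 2 ∂nu ≤ ∫ w, Sc v k j 0 w ^ 2 ∂nu := by
  induction j with
  | zero =>
    simp only [pow_zero, one_mul, Sc, Sg]
    exact le_rfl
  | succ j ih =>
    have e1 : ∀ w, Sc v k (j + 1) 0 w =
        ∑ l ∈ Finset.range k, Sc v k j ((l:ℤ) • (((k ^ j : ℕ) : ℤ) • v)) w := by
      intro w
      simp only [Sc, Sg, Finset.sum_sub_distrib, Finset.sum_const, Finset.card_range, nsmul_eq_mul,
        zero_add]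
      ring
    simp only [e1]
    have h := sum_sq_ge k (fun l => Sc v k j ((l:ℤ) • (((k ^ j : ℕ) : ℤ) • v)))
      (fun l => memLp_Sc v k j _) (q := ∫ w, Sc v k j 0 w ^ 2 ∂nu)
      (fun l => le_of_eq (sq_sh _ (measurable_Sc v k j 0) (fun y w => Sc_sh v k j _ y w)).symm)
      (fun l m => Sc_cov v k j _ _)
    calc (k:ℝ) ^ (j + 1) * ∫ w, (Bk v 0 w - fb v) ^ 2 ∂nu
        = k * ((k:ℝ) ^ j * ∫ w, (Bk v 0 w - fb v) ^ 2 ∂nu) := by ring
      _ ≤ k * ∫ w, Sc v k j 0 w ^ 2 ∂nu := by gcongr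
      _ ≤ _ := h

end Pool.Agent.H948
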