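import Pool.Agent.H948.Early

/-!
# The walks stay near the segment
-/

set_option autoImplicit false

open MeasureTheory ProbabilityTheory Filter Set
open scoped ENNReal Topology

namespace Pool.Agent.H948

open Q70.Fp
open Q69.FM (mu_add)

variable {μ : ℝ × ℝ → ℝ}

lemma em_neg (u : ℤ × ℤ) : em (-u) = - em u := by
  ext <;> simp [em]

lemma mu_neg (h : Shape μ) (x : ℝ × ℝ) : μ (-x) = μ x := by
  have key : ∀ x : ℝ × ℝ, μ (-x) ≤ μ x := by
    intro x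
    have h1 : ∀ n : ℕ, 1 ≤ n → (n:ℝ) * μ (-x) ≤ (n:ℝ) * μ x + 12 := by
      intro n hn
      have hn0 : (0:ℝ) ≤ n := Nat.cast_nonneg n
      rw [← h.hom _ _ hn0, ← h.hom _ _ hn0]
      have h2 := (rd_mz0 h ((n:ℝ) • x)).1
      have h3 := mz_neg h (rd ((n:ℝ) • x))
      obtain ⟨r1, r2⟩ := rd_abs ((n:ℝ) • x)
      have h4 := mu_lip h (em (-rd ((n:ℝ) • x))) ((n:ℝ) • (-x))
      have e1 : ((n:ℝ) • (-x)).1 - (em (-rd ((n:ℝ) • x))).1 =
          ((rd ((n:ℝ) • x)).1 : ℝ) - ((n:ℝ) • x).1 := by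
        simp only [Prod.smul_fst, Prod.fst_neg, smul_eq_mul, em, Int.cast_neg]; ring
      have e2 : ((n:ℝ) • (-x)).2 - (em (-rd ((n:ℝ) • x))).2 =
          ((rd ((n:ℝ) • x)).2 : ℝ) - ((n:ℝ) • x).2 := by
        simp only [Prod.smul_snd, Prod.snd_neg, smul_eq_mul, em, Int.cast_neg]; ring
      rw [e1, e2] at h4
      rw [mz_em] at h3
      linarith
    by_contra hcon
    push Not at hcon
    have hd : 0 < μ (-x) - μ x := by linarith
    obtain ⟨n, hn⟩ := exists_nat_gt (12 / (μ (-x) - μ x))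
    rw [div_lt_iff₀ hd] at hn
    have hn1 : 1 ≤ n := by
      by_contra h0
      have : n = 0 := by omega
      rw [this, Nat.cast_zero, zero_mul] at hn
      linarith
    have := h1 n hn1
    linarith
  refine le_antisymm (key x) ?_
  have := key (-x)
  rwa [neg_neg] at this

lemma Ac_neg (h : Shape μ) (e : ℝ × ℝ) (δ : ℝ) : Ac μ (-e) δ = Ac μ e δ := by
  unfold Ac
  have e1 : -e + δ • prp (-e) = -(e + δ • prp e) := by
    ext <;> simp [prp] <;> ring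
  have e2 : -e - δ • prp (-e) = -(e - δ • prp e) := by
    ext <;> simp [prp] <;> ring
  rw [e1, e2, mu_neg h, mu_neg h, mu_neg h]

lemma Ac_up (h : Shape μ) {e : ℝ × ℝ} (he : e ∈ Cir) {δ : ℝ} (hδ : 0 ≤ δ) : Ac μ e δ ≤ 9 * δ := by
  have h1 := mu_lip h e (e + δ • prp e)
  have h2 := mu_lip h e (e - δ • prp e)
  have h3 := (Cir_sum he).2
  simp only [prp, Prod.fst_add, Prod.snd_add, Prod.fst_sub, Prod.snd_sub, Prod.smul_fst,
    Prod.smul_snd, smul_eq_mul, add_sub_cancel_left, abs_mul, abs_neg, abs_of_nonneg hδ] at h1 h2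
  have e1 : e.1 - δ * -e.2 - e.1 = δ * e.2 := by ring
  have e2 : e.2 - δ * e.1 - e.2 = -(δ * e.1) := by ring
  rw [e1, e2, abs_neg, abs_mul, abs_mul, abs_of_nonneg hδ] at h2
  unfold Ac prp
  have h4 : δ * (|e.1| + |e.2|) ≤ δ * (3 / 2) := by gcongr
  linarith

/-- splitting a walk in three pieces -/
lemma Wt_split {w : Ed → ℝ} (hw : ∀ e, 0 ≤ w e) {p : ℕ → ℤ × ℤ} {a b : ℕ} (hab : a ≤ b)
    (hp : ∀ i < b, Adj (p i) (p (i + 1))) :
    TT w (p a) (p b) ≤ ∑ i ∈ Finset.Ico a b, w s(p i, p (i + 1)) := by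
  have h1 : IsW (p a) (p b) (b - a) (fun k => p (a + k)) := by
    refine ⟨rfl, ?_, fun i hi => ?_⟩
    · show p (a + (b - a)) = p b
      congr 1; omega
    · exact hp (a + i) (by omega)
  refine (TT_le hw h1).trans (le_of_eq ?_)
  unfold Wt
  rw [Finset.sum_Ico_eq_sum_range]
  rfl

lemma Wt_two {w : Ed → ℝ} (hw : ∀ e, 0 ≤ w e) {p : ℕ → ℤ × ℤ} {i N : ℕ} (hi : i ≤ N)
    (hp : ∀ i < N, Adj (p i) (p (i + 1))) :
    TT w (p 0) (p i) + TT w (p i) (p N) ≤ Wt w p N := by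
  have h1 := Wt_split hw (Nat.zero_le i) (fun k hk => hp k (by omega))
  have h2 := Wt_split hw hi hp
  have h3 : Wt w p N = ∑ i ∈ Finset.Ico 0 i, w s(p i, p (i + 1)) +
      ∑ i ∈ Finset.Ico i N, w s(p i, p (i + 1)) := by
    rw [Finset.sum_Ico_consecutive _ (Nat.zero_le i) hi]
    unfold Wt
    rw [Finset.range_eq_Ico]
  linarith

/-- the coordinates of the end point -/
lemma rd_coord {e : ℝ × ℝ} (he : e ∈ Cir) (n : ℝ) :
    |tc e (rd (n • e)) - n| ≤ 2 ∧ |zc e (rd (n • e))| ≤ 2 := by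
  obtain ⟨r1, r2⟩ := rd_abs (n • e)
  have h1 : e.1 ^ 2 + e.2 ^ 2 = 1 := he
  obtain ⟨c1, c2⟩ := Cir_abs he
  simp only [Prod.smul_fst, Prod.smul_snd, smul_eq_mul] at r1 r2
  constructor
  · have e1 : tc e (rd (n • e)) - n = ((rd (n • e)).1 - n * e.1) * e.1 +
        ((rd (n • e)).2 - n * e.2) * e.2 := by
      simp only [tc]; linear_combination n * h1
    rw [e1]
    refine (abs_add_le _ _).trans ?_
    rw [abs_mul, abs_mul]
    have e2 : |((rd (n • e)).1 : ℝ) - n * e.1| * |e.1| ≤ 1 * 1 := by gcongr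
    have e3 : |((rd (n • e)).2 : ℝ) - n * e.2| * |e.2| ≤ 1 * 1 := by gcongr
    linarith
  · have e1 : zc e (rd (n • e)) = ((rd (n • e)).2 - n * e.2) * e.1 -
        ((rd (n • e)).1 - n * e.1) * e.2 := by
      simp only [zc]; ring
    rw [e1]
    refine (abs_sub _ _).trans ?_
    rw [abs_mul, abs_mul]
    have e2 : |((rd (n • e)).2 : ℝ) - n * e.2| * |e.1| ≤ 1 * 1 := by gcongr
    have e3 : |((rd (n • e)).1 : ℝ) - n * e.1| * |e.2| ≤ 1 * 1 := by gcongr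
    linarith

lemma rd_size {e : ℝ × ℝ} (he : e ∈ Cir) {n : ℝ} (hn : 0 < n) :
    n - 2 ≤ (dd 0 (rd (n • e)) : ℝ) ∧ (dd 0 (rd (n • e)) : ℝ) ≤ 3 / 2 * n + 2 := by
  obtain ⟨h1, h2⟩ := rd_dd (n • e)
  obtain ⟨h3, h4⟩ := Cir_sum he
  simp only [Prod.smul_fst, Prod.smul_snd, smul_eq_mul, abs_mul, abs_of_pos hn] at h1 h2
  have h5 : n * 1 ≤ n * (|e.1| + |e.2|) := by gcongr
  have h6 : n * (|e.1| + |e.2|) ≤ n * (3 / 2) := by gcongr
  constructor <;> linarith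

/-- the walks with small weight stay near the segment -/
lemma conf (h : Shape μ) {e : ℝ × ℝ} (he : e ∈ Cir) {n : ℕ} (hn : 40 ≤ n) {δ : ℝ} (hδ : 0 < δ)
    (hδn : 2 ≤ δ * n) {s : ℝ} (hs : s + 19 < n * Ac μ e δ) {w : Ed → ℝ}
    (h1 : ¬ Early μ e n δ (140 * n) w)
    (h2 : ¬ Early μ (-e) n δ (140 * n) (sh (rd ((n:ℝ) • e)) w))
    {N : ℕ} {p : ℕ → ℤ × ℤ} (hp : IsW 0 (rd ((n:ℝ) • e)) N p)
    (hpb : ∀ i ≤ N, dd 0 (p i) ≤ 66 * dd 0 (rd ((n:ℝ) • e)))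
    (hW : Wt (pw w) p N ≤ mz μ (rd ((n:ℝ) • e)) + s + 1) {i : ℕ} (hi : i ≤ N)
    (ht : 3 / 10 * (n:ℝ) ≤ tc e (p i)) (ht1 : tc e (p i) ≤ 7 / 10 * (n:ℝ)) :
    |zc e (p i)| < 3 * δ * n := by
  have hn40 : (40:ℝ) ≤ n := by exact_mod_cast hn
  have hn0 : (0:ℝ) < n := by linarith
  set v := rd ((n:ℝ) • e) with hv
  set u := p i with hu
  set A := Ac μ e δ with hA
  by_contra hcon
  push Not at hcon
  obtain ⟨hp0, hpN, hpa⟩ := hp
  obtain ⟨t1, t2⟩ := rd_coord he (n:ℝ)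
  rw [← hv] at t1 t2
  obtain ⟨t3, t4⟩ := abs_le.1 t1
  obtain ⟨z1, z2⟩ := abs_le.1 t2
  have hvs := (rd_size he hn0).2
  rw [← hv] at hvs
  have hA0 : 0 ≤ A := Ac_nonneg h e δ
  -- the sizes
  have d1 : dd 0 u ≤ 66 * dd 0 v := hpb i hi
  have d1r : (dd 0 u : ℝ) ≤ 66 * (dd 0 v : ℝ) := by exact_mod_cast d1
  have d2 : dd 0 u ≤ 140 * n := by
    have : (dd 0 u : ℝ) ≤ 140 * n := by linarith
    exact_mod_cast this
  have d3 : dd 0 (u - v) ≤ 140 * n := by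
    have e1 : dd 0 (u - v) ≤ dd 0 v + dd 0 u := by
      rw [dd_sub]
      have := dd_tri v 0 u
      rw [dd_comm v 0] at this
      exact this
    have e2 : (dd 0 (u - v) : ℝ) ≤ (dd 0 v : ℝ) + dd 0 u := by exact_mod_cast e1
    have : (dd 0 (u - v) : ℝ) ≤ 140 * n := by linarith
    exact_mod_cast this
  -- the first piece
  have f1 : mz μ u - |zc e u| / (3 * δ) * A ≤ TT (pw w) 0 u := by
    by_contra hc
    push Not at hc
    refine h1 ⟨u, d2, by linarith, by linarith, ?_, hc⟩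
    nlinarith
  -- the second piece
  have f2 : mz μ (u - v) - |zc (-e) (u - v)| / (3 * δ) * A ≤ TT (pw w) v u := by
    by_contra hc
    push Not at hc
    have e0 : TT (pw (sh v w)) 0 (u - v) = TT (pw w) v u := by
      rw [TT_sh, zero_add, sub_add_cancel]
    refine h2 ⟨u - v, d3, ?_, ?_, ?_, ?_⟩
    · rw [tc_neg, tc_sub]; linarith
    · rw [tc_neg, tc_sub]; linarith
    · rw [zc_neg, zc_sub, abs_neg]
      have := abs_sub_abs_le_abs_sub (zc e u) (zc e v)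
      nlinarith
    · rw [Ac_neg h, e0]; exact hc
  have f3 : |zc (-e) (u - v)| ≤ |zc e u| + 2 := by
    rw [zc_neg, zc_sub, abs_neg]
    have := abs_sub (zc e u) (zc e v)
    linarith
  have f4 : mz μ (u - v) = mz μ (v - u) := by
    rw [← mz_neg h (v - u), neg_sub]
  have f5 := exit_lat h he (u := u) hn0 hδ (by nlinarith) (by linarith) (by linarith)
  rw [← hv, ← hA] at f5
  have f6 := Wt_two (pw_nonneg w) hi hpa
  rw [hp0, hpN, ← hu, TT_symm (pw w) u v] at f6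
  have f7 : |zc (-e) (u - v)| / (3 * δ) * A ≤ (|zc e u| + 2) / (3 * δ) * A := by gcongr
  have f8 : |zc e u| / (3 * δ) * A = 1 / 3 * (|zc e u| / δ * A) := by field_simp
  have f9 : (|zc e u| + 2) / (3 * δ) * A = 1 / 3 * (|zc e u| / δ * A) + 2 / 3 * (A / δ) := by
    field_simp
  have f10 : A / δ ≤ 9 := by
    rw [div_le_iff₀ hδ]; exact Ac_up h he hδ.le
  have f11 : 3 * (n * A) ≤ |zc e u| / δ * A := by
    have e1 : 3 * (n:ℝ) ≤ |zc e u| / δ := by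
      rw [le_div_iff₀ hδ]; linarith
    nlinarith
  linarith

end Pool.Agent.H948
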