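import Pool.Agent.H948.Mean

/-!
# The lower tail for many end points at the same time
-/

set_option autoImplicit false

open MeasureTheory ProbabilityTheory Finset Filter
open scoped Topology

namespace Pool.Agent.H948

open Q70.Fp

variable {μ : ℝ × ℝ → ℝ}

/-- the probability that none of many independent events occurs -/
lemma indep_none (K : ℕ) (S : ℕ → Finset Ed) (E : ℕ → Set (Ed → ℝ)) (hEm : ∀ i, MeasurableSet (E i))
    (hdep : ∀ i (w w' : Ed → ℝ), (∀ e ∈ S i, w e = w' e) → w ∈ E i → w' ∈ E i)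
    (hdisj : ∀ i ∈ range K, ∀ j ∈ range K, i ≠ j → Disjoint (S i) (S j)) :
    nu.real {w | ∀ i ∈ range K, w ∉ E i} = ∏ i ∈ range K, (1 - nu.real (E i)) := by
  classical
  have e1 := integral_prod_disj (range K) S
    (fun i w => (E i)ᶜ.indicator (fun _ => (1:ℝ)) w)
    (fun i => measurable_const.indicator (hEm i).compl) ?_ hdisj
  · have e2 : ∀ i, ∫ w, (E i)ᶜ.indicator (fun _ => (1:ℝ)) w ∂nu = 1 - nu.real (E i) := by
      intro i
      rw [integral_indicator_const _ (hEm i).compl, probReal_compl_eq_one_sub (hEm i)]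
      simp
    simp only [e2] at e1
    rw [← e1]
    have e3 : ∀ w, ∏ i ∈ range K, (E i)ᶜ.indicator (fun _ => (1:ℝ)) w =
        {w | ∀ i ∈ range K, w ∉ E i}.indicator (fun _ => (1:ℝ)) w := by
      intro w
      by_cases hw : ∀ i ∈ range K, w ∉ E i
      · rw [Set.indicator_of_mem (show w ∈ {w | ∀ i ∈ range K, w ∉ E i} from hw)]
        exact Finset.prod_eq_one fun i hi => Set.indicator_of_mem (show w ∈ (E i)ᶜ from hw i hi) _
      · rw [Set.indicator_of_notMem (show w ∉ {w | ∀ i ∈ range K, w ∉ E i} from hw)]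
        push Not at hw
        obtain ⟨i, hi, hwi⟩ := hw
        exact Finset.prod_eq_zero hi (Set.indicator_of_notMem (by simpa using hwi) _)
    simp only [e3]
    have hms : MeasurableSet {w : Ed → ℝ | ∀ i ∈ range K, w ∉ E i} := by
      have : {w : Ed → ℝ | ∀ i ∈ range K, w ∉ E i} = ⋂ i ∈ range K, (E i)ᶜ := by
        ext w; simp
      rw [this]
      exact Finset.measurableSet_biInter _ fun i _ => (hEm i).compl
    rw [integral_indicator_const _ hms]
    simp
  · intro i w w' hw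
    have : w ∈ (E i)ᶜ ↔ w' ∈ (E i)ᶜ := by
      simp only [Set.mem_compl_iff]
      exact not_congr ⟨hdep i w w' hw, hdep i w' w fun e he => (hw e he).symm⟩
    by_cases hw1 : w ∈ (E i)ᶜ
    · rw [Set.indicator_of_mem hw1, Set.indicator_of_mem (this.1 hw1)]
    · rw [Set.indicator_of_notMem hw1, Set.indicator_of_notMem (fun h' => hw1 (this.2 h'))]

/-- many independent attempts, with a set of end points -/
lemma attemptsU (h : Shape μ) {v : ℤ × ℤ} (hv : v ≠ 0) {K : ℕ} (hK : 1 ≤ K) {ρ s : ℝ}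
    (hs : s ≤ ρ / 8) (U : Finset (ℤ × ℤ)) (hU : ∀ u ∈ U, dd 0 u ≤ 3 * dd 0 v ∧
      mz μ u + mz μ (v - u) ≤ mz μ v + ρ / 4)
    {g : ℝ} (hg : ∀ u, dd 0 u ≤ K * (403 * dd 0 v) → nu.real {w | mz μ u + s < TT (pw w) 0 u} ≤ g)
    (hlow : nu.real {w | TT (pw w) 0 (((K * 400 : ℕ) : ℤ) • v) ≤
      mz μ (((K * 400 : ℕ) : ℤ) • v) - ρ / 2} ≤ 1 / 8)
    (hsmall : K * (1 + U.card) * g ≤ 1 / 8) :
    nu.real {w | ∃ u ∈ U, TT (pw w) 0 u < mz μ u - ρ} ≤
      1 / K + U.card * (2 * (1 / 2) ^ (3 * dd 0 v)) := by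
  classical
  set n := dd 0 v with hn
  have hn1 : 1 ≤ n := dd_pos hv
  set R := 66 * (3 * n) with hR
  let x : ℕ → ℤ × ℤ := fun i => (((i * 400 : ℕ) : ℤ)) • v
  let E : ℕ → Set (Ed → ℝ) := fun i => {w | ∃ u ∈ U, TB (pw w) R (x i) (x i + u) < mz μ u - ρ}
  have hEeq : ∀ i, E i = ⋃ u ∈ U, {w | TB (pw w) R (x i) (x i + u) < mz μ u - ρ} := by
    intro i; ext w; simp [E]
  have hEm : ∀ i, MeasurableSet (E i) := fun i => by
    rw [hEeq]
    exact Finset.measurableSet_biUnion _ fun u _ =>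
      measurableSet_lt (measurable_TB _ _ _) measurable_const
  set A : Set (Ed → ℝ) := {w | ∃ u ∈ U, TT (pw w) 0 u < mz μ u - ρ} with hA
  set π : ℝ := nu.real A - U.card * (2 * (1 / 2) ^ (3 * n)) with hπ
  have hAm : MeasurableSet A := by
    have : A = ⋃ u ∈ U, {w | TT (pw w) 0 u < mz μ u - ρ} := by ext w; simp [hA]
    rw [this]
    exact Finset.measurableSet_biUnion _ fun u _ => measurableSet_lt (measurable_TT _ _) measurable_const
  have hE : ∀ i, π ≤ nu.real (E i) := by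
    intro i
    have hsub : sh (x i) ⁻¹' A ⊆ E i ∪
        ⋃ u ∈ U, {w | TT (pw w) (x i) (x i + u) < TB (pw w) R (x i) (x i + u)} := by
      intro w hw
      obtain ⟨u, hu, hlt⟩ := hw
      rw [TT_sh, zero_add, add_comm u (x i)] at hlt
      by_contra hcon
      simp only [Set.mem_union, Set.mem_iUnion, not_or, not_exists, E, Set.mem_ofPred_eq,
        exists_prop, not_and, not_lt] at hcon
      have h1 := hcon.1 u hu
      have h2 := hcon.2 u hu
      linarith
    have e0 : nu.real (sh (x i) ⁻¹' A) = nu.real A := by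
      conv_rhs => rw [← map_sh (x i)]
      rw [map_measureReal_apply (measurable_sh _) hAm]
    have e1 := (measureReal_mono hsub (measure_ne_top nu _)).trans (measureReal_union_le _ _)
    rw [e0] at e1
    have e2 : nu.real (⋃ u ∈ U, {w | TT (pw w) (x i) (x i + u) < TB (pw w) R (x i) (x i + u)}) ≤
        U.card * (2 * (1 / 2) ^ (3 * n)) := by
      refine (measureReal_biUnion_finset_le _ _).trans ?_
      calc _ ≤ ∑ _u ∈ U, (2 * (1 / 2 : ℝ) ^ (3 * n)) := by
            refine Finset.sum_le_sum fun u hu => ?_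
            refine local_le ?_
            rw [dd_add_right]
            exact (hU u hu).1
        _ = _ := by rw [Finset.sum_const, nsmul_eq_mul]
    rw [hπ]
    linarith
  have hprod : nu.real {w | ∀ i ∈ range K, w ∉ E i} = ∏ i ∈ range K, (1 - nu.real (E i)) := by
    refine indep_none K (fun i => be R (x i)) E hEm ?_ ?_
    · rintro i w w' hw ⟨u, hu, hlt⟩
      exact ⟨u, hu, by rw [← TB_dep hw]; exact hlt⟩
    · have key : ∀ i j, i < j → Disjoint (be R (x i)) (be R (x j)) := by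
        intro i j hij
        refine be_disj ?_
        have e1 : dd (x i) (x j) = (j - i) * (400 * n) := by
          obtain ⟨k, rfl⟩ : ∃ k, j = i + k := ⟨j - i, by omega⟩
          have e3 : x (i + k) = x i + (((k * 400 : ℕ) : ℤ)) • v := by
            have e9 : (((i + k) * 400 : ℕ) : ℤ) = ((i * 400 : ℕ) : ℤ) + ((k * 400 : ℕ) : ℤ) := by
              push_cast; ring
            simp only [x]
            rw [← add_smul, e9]
          rw [e3, dd_add_right, dd_zero_smul, ← hn]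
          have : i + k - i = k := by omega
          rw [this]; ring
        rw [e1, hR]
        have : 1 ≤ j - i := by omega
        calc 2 * (66 * (3 * n)) < 1 * (400 * n) := by omega
          _ ≤ _ := Nat.mul_le_mul_right _ this
      intro i _ j _ hij
      rcases lt_or_gt_of_ne hij with h3 | h3
      · exact key i j h3
      · exact (key j i h3).symm
  have hsucc : {w | ∀ i ∈ range K, w ∉ E i}ᶜ ⊆
      {w | TT (pw w) 0 (((K * 400 : ℕ) : ℤ) • v) ≤ mz μ (((K * 400 : ℕ) : ℤ) • v) - ρ / 2} ∪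
      (⋃ i ∈ range K, ({w | TT (pw w) 0 (x i) ∈ Set.Ioi (mz μ (x i) + s)} ∪
        ⋃ u ∈ U, {w | TT (pw w) (x i + u) (x K) ∈ Set.Ioi (mz μ (x K - (x i + u)) + s)})) := by
    intro w hw
    by_contra hcon
    simp only [Set.mem_compl_iff, Set.mem_ofPred_eq, not_forall, not_not, exists_prop] at hw
    obtain ⟨i, hi, u, hu, hwi⟩ := hw
    simp only [Set.mem_union, Set.mem_iUnion, Set.mem_ofPred_eq, not_or, not_exists, not_le,
      exists_prop, not_and, Set.mem_Ioi, not_lt] at hcon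
    obtain ⟨c1, c2⟩ := hcon
    have c3 := c2 i hi
    have c4 := c3.2 u hu
    have d1 := TT_tri (pw_nonneg w) 0 (x i) (x K)
    have d2 := TT_tri (pw_nonneg w) (x i) (x i + u) (x K)
    have d3 : TT (pw w) (x i) (x i + u) ≤ TB (pw w) R (x i) (x i + u) :=
      TT_le_TB (pw_nonneg w) (by
        rw [dd_add_right]
        exact ((hU u hu).1).trans (by rw [hR]; omega))
    have hiK : i < K := Finset.mem_range.1 hi
    have m1 : mz μ (x i) = ((i * 400 : ℕ) : ℝ) * mz μ v := mz_smul h _ v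
    have m2 : mz μ (x K) = ((K * 400 : ℕ) : ℝ) * mz μ v := mz_smul h _ v
    have m3 : mz μ (x K - (x i + u)) ≤ mz μ (v - u) +
        ((K * 400 - (i * 400 + 1) : ℕ) : ℝ) * mz μ v := by
      rw [← mz_smul h _ v]
      have e5 : x K - (x i + u) = (v - u) + ((K * 400 - (i * 400 + 1) : ℕ) : ℤ) • v := by
        have e6 : ((K * 400 : ℕ) : ℤ) = ((i * 400 : ℕ) : ℤ) + 1 +
            ((K * 400 - (i * 400 + 1) : ℕ) : ℤ) := by omega
        simp only [x]
        rw [e6, add_smul, add_smul, one_smul]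
        abel
      rw [e5]
      exact mz_add h _ _
    have m4 : ((K * 400 - (i * 400 + 1) : ℕ) : ℝ) = (K * 400 : ℕ) - (i * 400 + 1 : ℕ) := by
      rw [Nat.cast_sub (by omega)]
    rw [m4] at m3
    have c1' : mz μ (x K) - ρ / 2 < TT (pw w) 0 (x K) := c1
    rw [m2] at c1'
    have c31 := c3.1
    rw [m1] at c31
    have hc := (hU u hu).2
    push_cast at c1' c31 m3
    linarith
  have hms : MeasurableSet {w : Ed → ℝ | ∀ i ∈ range K, w ∉ E i} := by
    have : {w : Ed → ℝ | ∀ i ∈ range K, w ∉ E i} = ⋂ i ∈ range K, (E i)ᶜ := by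
      ext w; simp
    rw [this]
    exact Finset.measurableSet_biInter _ fun i _ => (hEm i).compl
  have hfail : nu.real {w | ∀ i ∈ range K, w ∉ E i}ᶜ ≤ 1 / 4 := by
    refine (measureReal_mono hsucc (measure_ne_top nu _)).trans ((measureReal_union_le _ _).trans ?_)
    have e1 : nu.real (⋃ i ∈ range K, ({w | TT (pw w) 0 (x i) ∈ Set.Ioi (mz μ (x i) + s)} ∪
        ⋃ u ∈ U, {w | TT (pw w) (x i + u) (x K) ∈ Set.Ioi (mz μ (x K - (x i + u)) + s)})) ≤
        K * (1 + U.card) * g := by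
      refine (measureReal_biUnion_finset_le _ _).trans ?_
      calc _ ≤ ∑ _i ∈ range K, (g + U.card * g) := by
            refine Finset.sum_le_sum fun i hi => ?_
            have hiK : i < K := Finset.mem_range.1 hi
            refine (measureReal_union_le _ _).trans (add_le_add ?_ ?_)
            · refine hg _ ?_
              simp only [x]
              rw [dd_zero_smul, ← hn]
              calc i * 400 * n = i * (400 * n) := by ring
                _ ≤ K * (400 * n) := Nat.mul_le_mul_right _ hiK.le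
                _ ≤ _ := Nat.mul_le_mul_left _ (by omega)
            · refine (measureReal_biUnion_finset_le _ _).trans ?_
              calc _ ≤ ∑ _u ∈ U, g := by
                    refine Finset.sum_le_sum fun u hu => ?_
                    rw [nu_TT_sh (x i + u) (x K) measurableSet_Ioi]
                    refine hg _ ?_
                    have e5 : x K - (x i + u) = ((K * 400 - i * 400 : ℕ) : ℤ) • v + (-u) := by
                      have e6 : ((K * 400 : ℕ) : ℤ) = ((i * 400 : ℕ) : ℤ) +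
                          ((K * 400 - i * 400 : ℕ) : ℤ) := by omega
                      simp only [x]
                      rw [e6, add_smul]
                      abel
                    have e7 := dd_tri 0 (((K * 400 - i * 400 : ℕ) : ℤ) • v)
                      (((K * 400 - i * 400 : ℕ) : ℤ) • v + (-u))
                    rw [dd_add_right, dd_zero_smul, show dd 0 (-u) = dd 0 u by simp [dd], ← hn] at e7
                    have e8 := (hU u hu).1
                    rw [e5]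
                    calc dd 0 (((K * 400 - i * 400 : ℕ) : ℤ) • v + (-u))
                        ≤ (K * 400 - i * 400) * n + 3 * n := by omega
                      _ ≤ (K * 400) * n + 3 * n := by
                          have := Nat.mul_le_mul_right n (Nat.sub_le (K * 400) (i * 400))
                          omega
                      _ ≤ K * (403 * n) := by nlinarith
                _ = _ := by rw [Finset.sum_const, nsmul_eq_mul]
        _ = _ := by rw [Finset.sum_const, Finset.card_range, nsmul_eq_mul]; ring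
    linarith
  rw [probReal_compl_eq_one_sub hms, hprod] at hfail
  have hKpos : (0:ℝ) < K := by exact_mod_cast hK
  by_cases hπ0 : π ≤ 0
  · have : (0:ℝ) ≤ 1 / K := by positivity
    rw [hπ] at hπ0
    linarith
  · push Not at hπ0
    have hle1 : ∀ i, 0 ≤ 1 - nu.real (E i) := fun i => by linarith [measureReal_le_one (μ := nu) (s := E i)]
    have e1 : ∏ i ∈ range K, (1 - nu.real (E i)) ≤ Real.exp (-(K * π)) := by
      calc _ ≤ ∏ _i ∈ range K, Real.exp (-π) := by
            refine Finset.prod_le_prod (fun i _ => hle1 i) fun i _ => ?_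
            have := Real.add_one_le_exp (-π)
            linarith [hE i]
        _ = _ := by
            rw [Finset.prod_const, Finset.card_range, ← Real.exp_nat_mul]; congr 1; ring
    have e2 : 3 / 4 ≤ Real.exp (-(K * π)) := by linarith
    have e3 : K * π ≤ 1 := by
      by_contra hcon
      push Not at hcon
      have e4 : Real.exp (-(K * π)) < Real.exp (-1) := Real.exp_lt_exp.2 (by linarith)
      have e5 : Real.exp (-1) ≤ 1 / 2 := by
        rw [Real.exp_neg, inv_le_comm₀ (Real.exp_pos _) (by norm_num)]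
        have := Real.add_one_le_exp (1:ℝ)
        linarith
      linarith
    have e6 : π ≤ 1 / K := by
      rw [le_div_iff₀ hKpos]; linarith
    rw [hπ] at e6
    linarith

/-- the lower tail for a set of end points near a direction -/
lemma lower_tailU (h : Shape μ) {a : ℝ} (ha : 0 < a) (ha1 : a < 1) (hH : HH μ a) :
    ∃ C : ℝ, 0 < C ∧ ∀ v : ℤ × ℤ, v ≠ 0 → ∀ ρ : ℝ, 0 < ρ → ∀ U : Finset (ℤ × ℤ),
      (∀ u ∈ U, dd 0 u ≤ 3 * dd 0 v ∧ mz μ u + mz μ (v - u) ≤ mz μ v + ρ / 4) →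
      nu.real {w | ∃ u ∈ U, TT (pw w) 0 u < mz μ u - ρ} ≤ C * ((dd 0 v : ℝ) * ρ ^ (-(1 / a))) := by
  obtain ⟨C1, hC1, h1⟩ := abs_moment h ha hH
  obtain ⟨C2, hC2, h2⟩ := unif h ha (δ := 3 / a) (by positivity) (hH _ (by positivity))
  obtain ⟨C3, hC3, h3⟩ := half_poly (1 / a) (by positivity)
  rw [min_eq_left ha1.le, show 3 / a * a = 3 by field_simp] at h2
  set c0 : ℝ := min (1 / 8) (1 / (16 * C1)) with hc0
  have hc0pos : 0 < c0 := lt_min (by norm_num) (by positivity)
  have hc1 : c0 ≤ 1 / 8 := min_le_left _ _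
  have hc2 : c0 ≤ 1 / (16 * C1) := min_le_right _ _
  -- constants
  set D : ℝ := max (806 * c0 ^ (-(1 / a))) ((9 * (400 * C2 + 1)) ^ (1 / a)) with hD
  have hD0 : 0 < D := lt_max_of_lt_left (by positivity)
  refine ⟨D + 98 * C3 * 9 ^ (1 / a), by positivity, fun v hv ρ hρ U hU => ?_⟩
  set n := dd 0 v with hn
  have hn1' : 1 ≤ n := dd_pos hv
  have hn1 : (1:ℝ) ≤ n := by exact_mod_cast hn1'
  have hn0 : (0:ℝ) < n := by linarith
  have hρp : 0 < ρ ^ (-(1 / a)) := by positivity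
  have hP1 : nu.real {w | ∃ u ∈ U, TT (pw w) 0 u < mz μ u - ρ} ≤ 1 := measureReal_le_one
  by_cases hbig : 9 * (n:ℝ) < ρ
  · have : {w : Ed → ℝ | ∃ u ∈ U, TT (pw w) 0 u < mz μ u - ρ} = ∅ := by
      ext w
      simp only [Set.mem_ofPred_eq, Set.mem_empty_iff_false, iff_false, not_exists, not_and, not_lt]
      intro u hu
      have e1 := mz_up h u
      have e2 := TT_nonneg (pw_nonneg w) 0 u
      have e3 : (dd 0 u : ℝ) ≤ 3 * n := by exact_mod_cast (hU u hu).1
      linarith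
    rw [this, measureReal_empty]
    positivity
  push Not at hbig
  have hcard : (U.card : ℝ) ≤ 49 * (n:ℝ) ^ 2 := by
    have hsub : U ⊆ ball (3 * n) 0 := fun u hu => mem_ball.2 (hU u hu).1
    have e1 := (Finset.card_le_card hsub).trans (card_ball (3 * n))
    have e2 : (U.card : ℝ) ≤ ((2 * (3 * n) + 1 : ℕ) : ℝ) ^ 2 := by exact_mod_cast e1
    refine e2.trans ?_
    push_cast
    nlinarith
  have hlocal : U.card * (2 * (1 / 2 : ℝ) ^ (3 * n)) ≤ 98 * C3 * 9 ^ (1 / a) *
      ((n:ℝ) * ρ ^ (-(1 / a))) := by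
    have e1 := h3 n
    have e2 : ((n:ℝ) + 1) ^ (-(1 / a)) ≤ (n:ℝ) ^ (-(1 / a)) :=
      Real.rpow_le_rpow_of_nonpos hn0 (by linarith) (by rw [neg_nonpos]; positivity)
    have e3 : (n:ℝ) ^ (-(1 / a)) = 9 ^ (1 / a) * (9 * (n:ℝ)) ^ (-(1 / a)) := by
      rw [Real.mul_rpow (by norm_num) hn0.le, Real.rpow_neg (by norm_num : (0:ℝ) ≤ 9)]
      field_simp
    have e4 : (9 * (n:ℝ)) ^ (-(1 / a)) ≤ ρ ^ (-(1 / a)) :=
      Real.rpow_le_rpow_of_nonpos hρ hbig (by rw [neg_nonpos]; positivity)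
    have e5 : ρ ^ (-(1 / a)) ≤ (n:ℝ) * ρ ^ (-(1 / a)) := by nlinarith
    have e6 : (n:ℝ) ^ 2 * (1 / 2) ^ (2 * n) ≤ 1 := by
      have e7 : (n:ℝ) < 2 ^ n := by exact_mod_cast Nat.lt_two_pow_self (n := n)
      have e8 : ((1:ℝ) / 2) ^ (2 * n) = 1 / (2 ^ n) ^ 2 := by
        rw [one_div_pow, ← pow_mul]; congr 2; ring
      rw [e8, mul_one_div, div_le_one (by positivity)]
      exact pow_le_pow_left₀ hn0.le e7.le 2
    calc U.card * (2 * (1 / 2 : ℝ) ^ (3 * n)) ≤ 49 * (n:ℝ) ^ 2 * (2 * (1 / 2) ^ (3 * n)) := by gcongr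
      _ = 98 * ((n:ℝ) ^ 2 * (1 / 2) ^ (2 * n)) * (1 / 2) ^ n := by
          rw [show 3 * n = 2 * n + n by ring, pow_add]; ring
      _ ≤ 98 * 1 * (1 / 2) ^ n := by gcongr
      _ ≤ 98 * 1 * (C3 * ((n:ℝ) + 1) ^ (-(1 / a))) := by gcongr
      _ ≤ 98 * 1 * (C3 * (9 ^ (1 / a) * (9 * (n:ℝ)) ^ (-(1 / a)))) := by rw [← e3]; gcongr
      _ ≤ 98 * 1 * (C3 * (9 ^ (1 / a) * ((n:ℝ) * ρ ^ (-(1 / a))))) := by
          have := e4.trans e5
          gcongr
      _ = _ := by ring
  set L : ℝ := (c0 * ρ) ^ (1 / a) with hL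
  have hL0 : 0 < L := by positivity
  set K : ℕ := ⌊L / (403 * n)⌋₊ with hK
  have hLρ : L = c0 ^ (1 / a) * ρ ^ (1 / a) := Real.mul_rpow hc0pos.le hρ.le
  have hinv : ρ ^ (-(1 / a)) = (ρ ^ (1 / a))⁻¹ := Real.rpow_neg hρ.le _
  have hc0inv : c0 ^ (-(1 / a)) = (c0 ^ (1 / a))⁻¹ := Real.rpow_neg hc0pos.le _
  have hLn : 806 * n / L ≤ D * ((n:ℝ) * ρ ^ (-(1 / a))) := by
    have e1 : 806 * n / L = 806 * c0 ^ (-(1 / a)) * ((n:ℝ) * ρ ^ (-(1 / a))) := by
      rw [hLρ, hinv, hc0inv]; field_simp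
    rw [e1]
    gcongr
    exact le_max_left _ _
  have hnn : 0 ≤ 98 * C3 * 9 ^ (1 / a) * ((n:ℝ) * ρ ^ (-(1 / a))) := by positivity
  rw [add_mul]
  by_cases hK0 : K = 0
  · have e1 : L / (403 * n) < 1 := by
      have := Nat.lt_floor_add_one (L / (403 * n))
      rw [← hK, hK0] at this
      simpa using this
    have e2 : 1 ≤ 806 * n / L := by
      rw [div_lt_one (by positivity)] at e1
      rw [le_div_iff₀ hL0]; linarith
    linarith
  have hK1 : 1 ≤ K := Nat.one_le_iff_ne_zero.2 hK0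
  have hKr : (1:ℝ) ≤ K := by exact_mod_cast hK1
  have hKL : (K:ℝ) * (403 * n) ≤ L := by
    have := Nat.floor_le (show 0 ≤ L / (403 * n) by positivity)
    rw [← hK, le_div_iff₀ (by positivity)] at this
    exact this
  have hKL2 : 1 / (K:ℝ) ≤ 806 * n / L := by
    have := Nat.lt_floor_add_one (L / (403 * n))
    rw [← hK, div_lt_iff₀ (by positivity)] at this
    rw [div_le_div_iff₀ (by positivity) hL0]
    nlinarith
  set l : ℕ := K * (403 * n) with hl
  have hlr : (l:ℝ) = K * (403 * n) := by rw [hl]; push_cast; ring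
  have hl1 : 1 ≤ l := by
    rw [hl]; exact Nat.one_le_iff_ne_zero.2 (by positivity)
  have hlr1 : (1:ℝ) ≤ l := by exact_mod_cast hl1
  have hla : (l:ℝ) ^ a ≤ c0 * ρ := by
    calc (l:ℝ) ^ a ≤ L ^ a := Real.rpow_le_rpow (by positivity) (by rw [hlr]; exact hKL) ha.le
      _ = c0 * ρ := by
        rw [hL, ← Real.rpow_mul (by positivity), one_div_mul_cancel ha.ne', Real.rpow_one]
  by_cases hsmall : (l:ℝ) < 400 * C2
  · -- bounded scales
    have e1 : (n:ℝ) ≤ l := by rw [hlr]; nlinarith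
    have e2 : ρ ≤ 9 * (400 * C2 + 1) := by linarith
    have e3 : 1 ≤ (9 * (400 * C2 + 1)) ^ (1 / a) * ρ ^ (-(1 / a)) := by
      rw [hinv, ← div_eq_mul_inv, one_le_div (by positivity)]
      exact Real.rpow_le_rpow hρ.le e2 (by positivity)
    have e4 : (9 * (400 * C2 + 1)) ^ (1 / a) ≤ D := le_max_right _ _
    have e5 : (9 * (400 * C2 + 1)) ^ (1 / a) * ρ ^ (-(1 / a)) ≤ D * ((n:ℝ) * ρ ^ (-(1 / a))) := by
      have : ρ ^ (-(1 / a)) ≤ (n:ℝ) * ρ ^ (-(1 / a)) := by nlinarith
      gcongr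
    linarith
  push Not at hsmall
  have hz0 : (((K * 400 : ℕ) : ℤ) • v) ≠ 0 := by
    intro h0
    have e1 := dd_zero_smul (K * 400) v
    rw [h0, dd_self, ← hn] at e1
    have : 0 < K * 400 * n := by positivity
    omega
  have hddz : (dd 0 (((K * 400 : ℕ) : ℤ) • v) : ℝ) ≤ l := by
    have : dd 0 (((K * 400 : ℕ) : ℤ) • v) ≤ l := by
      rw [dd_zero_smul, ← hn, hl]; nlinarith
    exact_mod_cast this
  have hatt := attemptsU h hv hK1 (ρ := ρ) (s := (l:ℝ) ^ a) (by nlinarith) U hU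
    (g := C2 * (l:ℝ) ^ (-(3:ℝ))) (fun u hu => h2 l hl1 u hu) ?_ ?_
  · linarith
  · have e1 := h1 _ hz0
    have e1' : ∫ w, |TT (pw w) 0 (((K * 400 : ℕ) : ℤ) • v) - mz μ (((K * 400 : ℕ) : ℤ) • v)| ∂nu ≤
        C1 * (l:ℝ) ^ a := by
      refine e1.trans ?_
      gcongr
    have e2 := mul_meas_ge_le_integral_of_nonneg (μ := nu)
      (f := fun w => |TT (pw w) 0 (((K * 400 : ℕ) : ℤ) • v) - mz μ (((K * 400 : ℕ) : ℤ) • v)|)
      (Eventually.of_forall fun w => abs_nonneg _)
      (((integrable_TT 0 _).sub (integrable_const _)).abs) (ρ / 2)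
    have e3 : nu.real {w | TT (pw w) 0 (((K * 400 : ℕ) : ℤ) • v) ≤
        mz μ (((K * 400 : ℕ) : ℤ) • v) - ρ / 2} ≤ nu.real {w | ρ / 2 ≤
        |TT (pw w) 0 (((K * 400 : ℕ) : ℤ) • v) - mz μ (((K * 400 : ℕ) : ℤ) • v)|} := by
      refine measureReal_mono ?_ (measure_ne_top _ _)
      intro w hw
      simp only [Set.mem_ofPred_eq] at hw ⊢
      rw [le_abs]
      right
      linarith
    have e4 : C1 * (l:ℝ) ^ a ≤ ρ / 16 := by
      calc C1 * (l:ℝ) ^ a ≤ C1 * (c0 * ρ) := by gcongr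
        _ ≤ C1 * (1 / (16 * C1) * ρ) := by gcongr
        _ = ρ / 16 := by field_simp
    have e5 : ρ / 2 * nu.real {w | TT (pw w) 0 (((K * 400 : ℕ) : ℤ) • v) ≤
        mz μ (((K * 400 : ℕ) : ℤ) • v) - ρ / 2} ≤ ρ / 16 :=
      (mul_le_mul_of_nonneg_left e3 (by positivity)).trans (e2.trans (e1'.trans e4))
    by_contra hcon
    push Not at hcon
    nlinarith
  · have e2 : (l:ℝ) ^ (-(3:ℝ)) = 1 / ((l:ℝ) * l * l) := by
      rw [Real.rpow_neg (by positivity), show (3:ℝ) = ((3:ℕ):ℝ) by norm_num, Real.rpow_natCast]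
      field_simp
    rw [e2]
    have e6 : (K:ℝ) * (1 + U.card) ≤ 50 * ((l:ℝ) * l) := by
      have f1 : (K:ℝ) * (1 + U.card) ≤ K * (1 + 49 * (n:ℝ) ^ 2) := by gcongr
      have f2 : (K:ℝ) * (1 + 49 * (n:ℝ) ^ 2) ≤ 50 * (K * (n:ℝ) ^ 2) := by
        have : (1:ℝ) ≤ (n:ℝ) ^ 2 := one_le_pow₀ hn1
        nlinarith
      have f3 : (K:ℝ) * (n:ℝ) ^ 2 ≤ (l:ℝ) * l := by
        rw [hlr]
        have : (K:ℝ) * (n:ℝ) ^ 2 ≤ (K:ℝ) ^ 2 * (n:ℝ) ^ 2 := by
          have : (K:ℝ) ≤ (K:ℝ) ^ 2 := by nlinarith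
          gcongr
        nlinarith [sq_nonneg ((K:ℝ) * n)]
      linarith
    calc (K:ℝ) * (1 + U.card) * (C2 * (1 / ((l:ℝ) * l * l))) ≤
          50 * ((l:ℝ) * l) * (C2 * (1 / ((l:ℝ) * l * l))) := by gcongr
      _ = 50 * C2 / l := by field_simp
      _ ≤ 1 / 8 := by rw [div_le_iff₀ (by positivity)]; linarith

end Pool.Agent.H948
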