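import Pool.Agent.H948.Curv
import Pool.Agent.H948.Wind

/-!
# Coordinates along a direction, and the windows
-/

set_option autoImplicit false

open MeasureTheory ProbabilityTheory Filter Set
open scoped ENNReal Topology

namespace Pool.Agent.H948

open Q70.Fp
open Q69.FM (mu_add)

variable {μ : ℝ × ℝ → ℝ}

/-- the coordinate along `e` -/
def tc (e : ℝ × ℝ) (u : ℤ × ℤ) : ℝ := u.1 * e.1 + u.2 * e.2

/-- the coordinate across `e` -/
def zc (e : ℝ × ℝ) (u : ℤ × ℤ) : ℝ := u.2 * e.1 - u.1 * e.2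

/-- a lattice point as a point of the plane -/
def em (u : ℤ × ℤ) : ℝ × ℝ := ((u.1 : ℝ), (u.2 : ℝ))

/-- the rounding -/
noncomputable def rd (x : ℝ × ℝ) : ℤ × ℤ := (⌊x.1⌋, ⌊x.2⌋)

lemma mz_em (u : ℤ × ℤ) : mz μ u = μ (em u) := rfl

lemma dd_real (u : ℤ × ℤ) : (dd 0 u : ℝ) = |(u.1 : ℝ)| + |(u.2 : ℝ)| := by
  simp only [dd, Prod.fst_zero, Prod.snd_zero, sub_zero]
  push_cast [Nat.cast_natAbs]
  rfl

lemma dd_real' (u v : ℤ × ℤ) : (dd u v : ℝ) = |(v.1 : ℝ) - u.1| + |(v.2 : ℝ) - u.2| := by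
  simp only [dd]
  push_cast [Nat.cast_natAbs]
  rfl

lemma em_sub (u v : ℤ × ℤ) : em (u - v) = em u - em v := by
  ext <;> simp [em]

lemma em_eq {e : ℝ × ℝ} (he : e ∈ Cir) (u : ℤ × ℤ) : em u = tc e u • e + zc e u • prp e := by
  have h1 : e.1 ^ 2 + e.2 ^ 2 = 1 := he
  ext
  · simp only [em, tc, zc, prp, Prod.fst_add, Prod.smul_fst, smul_eq_mul]
    linear_combination (-(u.1 : ℝ)) * h1
  · simp only [em, tc, zc, prp, Prod.snd_add, Prod.smul_snd, smul_eq_mul]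
    linear_combination (-(u.2 : ℝ)) * h1

lemma tc_sub (e : ℝ × ℝ) (u v : ℤ × ℤ) : tc e (u - v) = tc e u - tc e v := by
  simp only [tc, Prod.fst_sub, Prod.snd_sub, Int.cast_sub]; ring

lemma zc_sub (e : ℝ × ℝ) (u v : ℤ × ℤ) : zc e (u - v) = zc e u - zc e v := by
  simp only [zc, Prod.fst_sub, Prod.snd_sub, Int.cast_sub]; ring

lemma tc_neg (e : ℝ × ℝ) (u : ℤ × ℤ) : tc (-e) u = - tc e u := by
  simp only [tc, Prod.fst_neg, Prod.snd_neg]; ring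

lemma zc_neg (e : ℝ × ℝ) (u : ℤ × ℤ) : zc (-e) u = - zc e u := by
  simp only [zc, Prod.fst_neg, Prod.snd_neg]; ring

lemma Cir_abs {e : ℝ × ℝ} (he : e ∈ Cir) : |e.1| ≤ 1 ∧ |e.2| ≤ 1 := by
  have h1 : e.1 ^ 2 + e.2 ^ 2 = 1 := he
  constructor <;> rw [abs_le_one_iff_mul_self_le_one] <;> nlinarith [sq_nonneg e.1, sq_nonneg e.2]

lemma Cir_sum {e : ℝ × ℝ} (he : e ∈ Cir) : 1 ≤ |e.1| + |e.2| ∧ |e.1| + |e.2| ≤ 3 / 2 := by
  have h1 : e.1 ^ 2 + e.2 ^ 2 = 1 := he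
  have h2 := sq_abs e.1
  have h3 := sq_abs e.2
  have h4 := abs_nonneg e.1
  have h5 := abs_nonneg e.2
  constructor
  · nlinarith [mul_nonneg h4 h5]
  · nlinarith [sq_nonneg (|e.1| - |e.2|)]

lemma Cir_neg {e : ℝ × ℝ} (he : e ∈ Cir) : -e ∈ Cir := by
  have h1 : e.1 ^ 2 + e.2 ^ 2 = 1 := he
  show (-e).1 ^ 2 + (-e).2 ^ 2 = 1
  simp only [Prod.fst_neg, Prod.snd_neg, neg_sq]
  exact h1

lemma tc_le {e : ℝ × ℝ} (he : e ∈ Cir) (u : ℤ × ℤ) : |tc e u| ≤ dd 0 u := by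
  obtain ⟨h1, h2⟩ := Cir_abs he
  rw [dd_real]
  calc |tc e u| ≤ |(u.1 : ℝ) * e.1| + |(u.2 : ℝ) * e.2| := abs_add_le _ _
    _ = |(u.1 : ℝ)| * |e.1| + |(u.2 : ℝ)| * |e.2| := by rw [abs_mul, abs_mul]
    _ ≤ |(u.1 : ℝ)| * 1 + |(u.2 : ℝ)| * 1 := by gcongr
    _ = _ := by ring

lemma zc_le {e : ℝ × ℝ} (he : e ∈ Cir) (u : ℤ × ℤ) : |zc e u| ≤ dd 0 u := by
  obtain ⟨h1, h2⟩ := Cir_abs he
  rw [dd_real]
  calc |zc e u| ≤ |(u.2 : ℝ) * e.1| + |(u.1 : ℝ) * e.2| := abs_sub _ _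
    _ = |(u.2 : ℝ)| * |e.1| + |(u.1 : ℝ)| * |e.2| := by rw [abs_mul, abs_mul]
    _ ≤ |(u.2 : ℝ)| * 1 + |(u.1 : ℝ)| * 1 := by gcongr
    _ = _ := by ring

lemma dd_sub (u v : ℤ × ℤ) : dd 0 (v - u) = dd u v := by
  simp only [dd, Prod.fst_zero, Prod.snd_zero, sub_zero, Prod.fst_sub, Prod.snd_sub]

lemma tc_diff {e : ℝ × ℝ} (he : e ∈ Cir) (u v : ℤ × ℤ) : |tc e v - tc e u| ≤ dd u v := by
  rw [← tc_sub, ← dd_sub]; exact tc_le he _

lemma zc_diff {e : ℝ × ℝ} (he : e ∈ Cir) (u v : ℤ × ℤ) : |zc e v - zc e u| ≤ dd u v := by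
  rw [← zc_sub, ← dd_sub]; exact zc_le he _

lemma rd_abs (x : ℝ × ℝ) : |((rd x).1 : ℝ) - x.1| ≤ 1 ∧ |((rd x).2 : ℝ) - x.2| ≤ 1 := by
  have h1 := Int.floor_le x.1
  have h2 := Int.lt_floor_add_one x.1
  have h3 := Int.floor_le x.2
  have h4 := Int.lt_floor_add_one x.2
  simp only [rd]
  constructor <;> rw [abs_le] <;> constructor <;> linarith

lemma rd_dd (x : ℝ × ℝ) : |x.1| + |x.2| - 2 ≤ dd 0 (rd x) ∧ (dd 0 (rd x) : ℝ) ≤ |x.1| + |x.2| + 2 := by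
  obtain ⟨h1, h2⟩ := rd_abs x
  rw [dd_real]
  have h3 := abs_sub_abs_le_abs_sub ((rd x).1 : ℝ) x.1
  have h4 := abs_sub_abs_le_abs_sub ((rd x).2 : ℝ) x.2
  have h5 := abs_sub_abs_le_abs_sub x.1 ((rd x).1 : ℝ)
  have h6 := abs_sub_abs_le_abs_sub x.2 ((rd x).2 : ℝ)
  rw [abs_sub_comm] at h5 h6
  constructor <;> linarith

/-- the rounding changes `μ` by at most `6` -/
lemma rd_mz (h : Shape μ) (x : ℝ × ℝ) (u : ℤ × ℤ) :
    mz μ (rd x - u) ≤ μ (x - em u) + 6 ∧ μ (x - em u) ≤ mz μ (rd x - u) + 6 := by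
  obtain ⟨h1, h2⟩ := rd_abs x
  have h3 := mu_lip h (x - em u) (em (rd x - u))
  have h4 := mu_lip h (em (rd x - u)) (x - em u)
  have e1 : (em (rd x - u)).1 - (x - em u).1 = ((rd x).1 : ℝ) - x.1 := by
    rw [em_sub]; simp only [em, Prod.fst_sub]; ring
  have e2 : (em (rd x - u)).2 - (x - em u).2 = ((rd x).2 : ℝ) - x.2 := by
    rw [em_sub]; simp only [em, Prod.snd_sub]; ring
  have e3 : (x - em u).1 - (em (rd x - u)).1 = -(((rd x).1 : ℝ) - x.1) := by rw [← e1]; ring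
  have e4 : (x - em u).2 - (em (rd x - u)).2 = -(((rd x).2 : ℝ) - x.2) := by rw [← e2]; ring
  rw [e1, e2] at h3
  rw [e3, e4, abs_neg, abs_neg] at h4
  rw [mz_em]
  constructor <;> linarith

lemma rd_mz0 (h : Shape μ) (x : ℝ × ℝ) : mz μ (rd x) ≤ μ x + 6 ∧ μ x ≤ mz μ (rd x) + 6 := by
  have := rd_mz h x 0
  have e1 : em 0 = 0 := by ext <;> simp [em]
  rw [e1, sub_zero, sub_zero] at this
  exact this

/-- the cost of a deviation, for lattice points -/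
lemma exit_lat (h : Shape μ) {e : ℝ × ℝ} (he : e ∈ Cir) {n δ : ℝ} (hn : 0 < n) (hδ : 0 < δ)
    {u : ℤ × ℤ} (hz : δ * n ≤ |zc e u|) (ht : 0 ≤ tc e u) (ht1 : tc e u ≤ n) :
    mz μ (rd (n • e)) + |zc e u| / δ * Ac μ e δ ≤ mz μ u + mz μ (rd (n • e) - u) + 12 := by
  have h1 := exit_cost h e (t := tc e u / n) (z := zc e u / n) hδ
    (by rw [abs_div, abs_of_pos hn, le_div_iff₀ hn]; exact hz) (by positivity)
    (by rw [div_le_one hn]; exact ht1)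
  have e1 : n • ((tc e u / n) • e + (zc e u / n) • prp e) = em u := by
    rw [em_eq he u, smul_add, smul_smul, smul_smul, mul_div_cancel₀ _ hn.ne',
      mul_div_cancel₀ _ hn.ne']
  have e2 : n • ((1 - tc e u / n) • e - (zc e u / n) • prp e) = n • e - em u := by
    rw [← e1, smul_add, smul_sub, smul_smul, smul_smul, smul_smul, mul_sub, mul_one, sub_smul]
    abel
  have h2 := mul_le_mul_of_nonneg_left h1 hn.le
  rw [mul_add, mul_add, ← h.hom _ _ hn.le, ← h.hom _ _ hn.le, ← h.hom _ _ hn.le, e1, e2,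
    abs_div, abs_of_pos hn] at h2
  have e3 : n * (|zc e u| / n / δ * Ac μ e δ) = |zc e u| / δ * Ac μ e δ := by
    field_simp
  rw [e3] at h2
  have h3 := (rd_mz h (n • e) u).2
  have h4 := (rd_mz0 h (n • e)).1
  rw [mz_em u]
  linarith

/-- the window around the direction `e + θ • prp e` -/
lemma window_lat (h : Shape μ) {e : ℝ × ℝ} (he : e ∈ Cir) {σ θ n δ A η : ℝ} (hσ : σ = 1 ∨ σ = -1)
    (hn : 0 < n) (hδ : 0 < δ) (hδ1 : δ ≤ 1) (hA : ∀ e' ∈ Cir, Ac μ e' δ ≤ A) (hη : 0 ≤ η)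
    (hη1 : η ≤ δ / 6) {u : ℤ × ℤ} (hz : zc e u = tc e u * (θ + σ * η)) (ht : 0 ≤ tc e u)
    (ht1 : tc e u ≤ 3 / 4 * n) :
    mz μ u + mz μ (rd (n • (e + θ • prp e)) - u) ≤
      mz μ (rd (n • (e + θ • prp e))) + n * (η / δ * A) + 12 := by
  have h1 := window_cost h he (σ := σ) (θ := θ) (η := η) (t := tc e u / n) hσ hδ hδ1 hA hη hη1
    (by positivity) (by rw [div_le_iff₀ hn]; exact ht1)
  have e1 : n • ((tc e u / n) • (e + θ • prp e) + (σ * (tc e u / n * η)) • prp e) = em u := by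
    rw [em_eq he u, hz]
    ext
    · simp only [Prod.fst_add, Prod.smul_fst, smul_eq_mul]; field_simp; ring
    · simp only [Prod.snd_add, Prod.smul_snd, smul_eq_mul]; field_simp; ring
  have e2 : n • ((1 - tc e u / n) • (e + θ • prp e) - (σ * (tc e u / n * η)) • prp e) =
      n • (e + θ • prp e) - em u := by
    rw [← e1]
    ext
    · simp only [Prod.fst_add, Prod.fst_sub, Prod.smul_fst, smul_eq_mul]; field_simp; ring
    · simp only [Prod.snd_add, Prod.snd_sub, Prod.smul_snd, smul_eq_mul]; field_simp; ring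
  have h2 := mul_le_mul_of_nonneg_left h1 hn.le
  rw [mul_add, mul_add, ← h.hom _ _ hn.le, ← h.hom _ _ hn.le, ← h.hom _ _ hn.le, e1, e2] at h2
  have h3 := (rd_mz h (n • (e + θ • prp e)) u).1
  have h4 := (rd_mz0 h (n • (e + θ • prp e))).2
  rw [mz_em u]
  linarith

lemma sum_inv_sq (J : ℕ) : ∑ j ∈ Finset.range J, 1 / ((j : ℝ) + 1) ^ 2 ≤ 2 := by
  rcases J with _ | J
  · simp
  · have h : ∀ J : ℕ, ∑ j ∈ Finset.range (J + 1), 1 / ((j : ℝ) + 1) ^ 2 ≤ 2 - 1 / ((J : ℝ) + 1) := by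
      intro J
      induction J with
      | zero => norm_num
      | succ J ih =>
        rw [Finset.sum_range_succ]
        push_cast
        have h1 : 1 / ((J : ℝ) + 1 + 1) ^ 2 ≤ 1 / ((J : ℝ) + 1) - 1 / ((J : ℝ) + 1 + 1) := by
          rw [div_sub_div _ _ (by positivity) (by positivity), div_le_div_iff₀ (by positivity)
            (by positivity)]
          nlinarith
        linarith
    have h1 := h J
    have h2 : 0 ≤ 1 / ((J : ℝ) + 1) := by positivity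
    linarith

end Pool.Agent.H948
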