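import Pool.Agent.H948.KA
import Pool.Graph.R_pool_sql_team_seeded_3997aac3.Q70.FpR

/-!
# From concentration around any centre to both one-sided bounds at the time constant
-/

set_option autoImplicit false

open MeasureTheory ProbabilityTheory Filter Set
open scoped ENNReal Topology

namespace Pool.Agent.H948

open Q70.Fp
open Q69.FL (Se Ll boostL Ll_mono neg_of_Se)

variable {μ : ℝ × ℝ → ℝ}

lemma dd_one {v : ℤ × ℤ} (hv : v ≠ 0) : (1:ℝ) ≤ dd 0 v := by exact_mod_cast dd_pos hv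

lemma neg_int {μ : ℝ × ℝ → ℝ} (hS : Shape μ) {p : ℝ} (hp : 0 < p) (v : ℤ × ℤ) :
    Integrable (fun w => max (mz μ v - TT (pw w) 0 v) 0 ^ p) nu := by
  have hm : Measurable (fun w => max (mz μ v - TT (pw w) 0 v) 0 ^ p) :=
    ((measurable_const.sub (measurable_TT 0 v)).max measurable_const).pow_const p
  refine (integrable_const ((3 * (dd 0 v : ℝ)) ^ p)).mono' hm.aestronglyMeasurable
    (Eventually.of_forall fun w => ?_)
  have h1 := TT_nonneg (pw_nonneg w) 0 v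
  have h2 := mz_up hS v
  have h0 : (0:ℝ) ≤ 3 * (dd 0 v : ℝ) := by positivity
  rw [Real.norm_eq_abs, abs_of_nonneg (by positivity)]
  exact Real.rpow_le_rpow (le_max_right _ _) (max_le (by linarith) h0) hp.le

/-- bounds for the mean and the lower tail give the upper tail -/
lemma HH_of_mean (h : Shape μ) {b : ℝ} (hb : 0 < b) (hb1 : b < 1) (hS : ∀ a, b < a → Se μ a)
    (hM : ∀ ζ : ℝ, 0 < ζ → ∃ C : ℝ, ∀ v : ℤ × ℤ, v ≠ 0 →
      Q69.FM.hm v ≤ mz μ v + C * (dd 0 v : ℝ) ^ (b + ζ)) {a : ℝ} (ha : b < a) : HH μ a := by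
  refine boost h hb hb1 (tl_of_moment (b := b) one_pos ?_) ha
  intro ζ hζ
  obtain ⟨C1, hC1⟩ := hM ζ hζ
  obtain ⟨C2, hC2, hN⟩ := neg_of_Se h (a := b + ζ) (by linarith) (hS _ (by linarith)) one_pos
  obtain ⟨C, -, hC⟩ := pos_moment h (a := 2) (by norm_num) (HH_two h) one_pos
  refine ⟨C1 + C2, fun v hv => ⟨(hC v hv).1, ?_⟩⟩
  have f1 := hC1 v hv
  have f2 := hN v hv
  have i1 := (hC v hv).1
  have i2 := neg_int h one_pos v
  rw [mul_comm b 1, one_mul]
  simp only [Real.rpow_one, mul_one] at f2 i1 i2 ⊢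
  have g2 : ∫ w, (TT (pw w) 0 v - mz μ v) ∂nu = ∫ w, max (TT (pw w) 0 v - mz μ v) 0 ∂nu -
      ∫ w, max (mz μ v - TT (pw w) 0 v) 0 ∂nu := by
    rw [← integral_sub i1 i2]
    refine integral_congr_ae (Eventually.of_forall fun w => ?_)
    show TT (pw w) 0 v - mz μ v = max (TT (pw w) 0 v - mz μ v) 0 - max (mz μ v - TT (pw w) 0 v) 0
    rcases le_total (TT (pw w) 0 v) (mz μ v) with h | h
    · rw [max_eq_right (by linarith), max_eq_left (by linarith)]; ring
    · rw [max_eq_left (by linarith), max_eq_right (by linarith)]; ring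
  have g1 : ∫ w, (TT (pw w) 0 v - mz μ v) ∂nu = Q69.FM.hm v - mz μ v := by
    rw [integral_sub (integrable_TT 0 v) (integrable_const _)]
    simp [Q69.FM.hm]
  linarith

/-- concentration around some centre, with the single rate `3 (1 - b)` -/
def Conc (b : ℝ) : Prop := ∀ ζ : ℝ, 0 < ζ → ∃ m : ℤ × ℤ → ℝ, ∃ C : ℝ, ∀ v : ℤ × ℤ, v ≠ 0 →
  nu.real {w | (dd 0 v : ℝ) ^ (b + ζ) < |TT (pw w) 0 v - m v|} ≤
    C * (dd 0 v : ℝ) ^ (-(3 * (1 - b)) + ζ)

/-- concentration around some centre gives the lower tail around the mean -/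
lemma Sm_of_conc (h : Shape μ) {b : ℝ} (hb : 0 < b) (hb1 : b < 1) (hC : Conc b) {a : ℝ}
    (ha : b < a) : Q69.FM.Se Q69.FM.hm a := by
  set ζ : ℝ := min ((a - b) / 4) ((1 - b) / 4) with hζ
  have h0 : 0 < ζ := lt_min (by linarith) (by linarith)
  have h1 : ζ ≤ (a - b) / 4 := min_le_left _ _
  have h2 : ζ ≤ (1 - b) / 4 := min_le_right _ _
  obtain ⟨m, C, hC⟩ := hC ζ h0
  have hL := Q69.FM.low_of_conc (b := b) (ζ := ζ) (q := 3 * (1 - b) - ζ) (C := C) (by linarith) h0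
    (by linarith) m (by
      intro v hv
      have := hC v hv
      rw [show -(3 * (1 - b)) + ζ = -(3 * (1 - b) - ζ) by ring] at this
      exact this)
  exact Q69.FM.boostL (Q69.FM.hm_Sub h) (b0 := b + 2 * ζ) (q := 3 * (1 - b) - ζ) (by linarith)
    (by linarith) (by linarith) (by linarith) hL (by linarith)

lemma Se_of_Sm (h : Shape μ) {a : ℝ} (hS : Q69.FM.Se Q69.FM.hm a) : Se μ a := by
  obtain ⟨κ, c, C, hκ, hc, hC, hU⟩ := hS
  refine ⟨κ, c, C, hκ, hc, hC, fun v hv => le_trans (measureReal_mono ?_ (measure_ne_top _ _))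
    (hU v hv)⟩
  intro w hw
  have hw' : TT (pw w) 0 v < mz μ v - (dd 0 v : ℝ) ^ a := hw
  have e0 : mz μ v ≤ Q69.FM.hm v := mz_le_mean h v
  show TT (pw w) 0 v < Q69.FM.hm v - (dd 0 v : ℝ) ^ a
  linarith

lemma mean_of_Sm (h : Shape μ) {b : ℝ} (hb : 0 < b) (hb1 : b < 1)
    (hS : ∀ a, b < a → Q69.FM.Se Q69.FM.hm a) : ∀ ζ : ℝ, 0 < ζ → ∃ C : ℝ, ∀ v : ℤ × ℤ, v ≠ 0 →
      Q69.FM.hm v ≤ mz μ v + C * (dd 0 v : ℝ) ^ (b + ζ) := by
  intro ζ hζ
  set ζ' : ℝ := min ζ ((1 - b) / 2) with hζ'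
  have k0 : 0 < ζ' := lt_min hζ (by linarith)
  have k1 : ζ' ≤ ζ := min_le_left _ _
  have k2 : ζ' ≤ (1 - b) / 2 := min_le_right _ _
  obtain ⟨C, hC0, hC⟩ := Q69.FM.mean_bound h (a := b + ζ') (by linarith) (by linarith)
    (hS _ (by linarith))
  refine ⟨C, fun v hv => (hC v).trans ?_⟩
  have e1 : (dd 0 v : ℝ) ^ (b + ζ') ≤ (dd 0 v : ℝ) ^ (b + ζ) :=
    Real.rpow_le_rpow_of_exponent_le (dd_one hv) (by linarith)
  have e2 := mul_le_mul_of_nonneg_left e1 hC0.le
  linarith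

/-- **both halves from concentration around some centre** -/
lemma both_of_conc (h : Shape μ) {b : ℝ} (hb : 0 < b) (hb1 : b < 1) (hC : Conc b) :
    (∀ a, b < a → Se μ a) ∧ (∀ a, b < a → HH μ a) := by
  have h1 : ∀ a, b < a → Q69.FM.Se Q69.FM.hm a := fun a ha => Sm_of_conc h hb hb1 hC ha
  have h2 : ∀ a, b < a → Se μ a := fun a ha => Se_of_Sm h (h1 a ha)
  exact ⟨h2, fun a ha => HH_of_mean h hb hb1 h2 (mean_of_Sm h hb hb1 h1) ha⟩

/-! ### the exponent one half -/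

lemma exists_median (v : ℤ × ℤ) (hv : v ≠ 0) : ∃ m : ℝ, 0 ≤ m ∧ m ≤ 3 * (dd 0 v : ℝ) ∧
    1 / 2 ≤ nu.real {w | m ≤ TT (pw w) 0 v} ∧
    ∀ s, m < s → 1 / 2 ≤ nu.real {w | TT (pw w) 0 v < s} := by
  set S : Set ℝ := {s | 1 / 2 ≤ nu.real {w | TT (pw w) 0 v < s}} with hS
  have hmem : 3 * (dd 0 v : ℝ) ∈ S := by
    have h1 := straight (x := 0) (y := v) le_rfl
    have h2 : nu.real {w | TT (pw w) 0 v < 3 * (dd 0 v : ℝ)} =
        1 - nu.real {w | 3 * (dd 0 v : ℝ) ≤ TT (pw w) 0 v} := by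
      have := probReal_compl_eq_one_sub (μ := nu)
        (measurableSet_le measurable_const (measurable_TT 0 v) :
          MeasurableSet {w | 3 * (dd 0 v : ℝ) ≤ TT (pw w) 0 v})
      rw [← this]
      congr 1
      ext w
      simp
    have h3 : ((1:ℝ) / 2) ^ dd 0 v ≤ 1 / 2 := by
      have := pow_le_pow_of_le_one (by norm_num : (0:ℝ) ≤ 1 / 2) (by norm_num) (dd_pos hv)
      simpa using this
    show 1 / 2 ≤ nu.real {w | TT (pw w) 0 v < 3 * (dd 0 v : ℝ)}
    rw [h2]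
    linarith
  have hlow : ∀ s ∈ S, 0 ≤ s := by
    intro s hs
    by_contra hneg
    push Not at hneg
    have : {w : Ed → ℝ | TT (pw w) 0 v < s} = ∅ := by
      ext w
      simp only [mem_ofPred_eq, mem_empty_iff_false, iff_false, not_lt]
      have := TT_nonneg (pw_nonneg w) 0 v
      linarith
    have h4 : 1 / 2 ≤ nu.real {w | TT (pw w) 0 v < s} := hs
    rw [this] at h4
    norm_num at h4
  have hbdd : BddBelow S := ⟨0, hlow⟩
  refine ⟨sInf S, le_csInf ⟨_, hmem⟩ hlow, csInf_le hbdd hmem, ?_, ?_⟩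
  · -- P(T < m) ≤ 1/2 by continuity from below
    have h5 : ∀ k : ℕ, nu {w | TT (pw w) 0 v < sInf S - 1 / ((k:ℝ) + 1)} ≤ ENNReal.ofReal (1 / 2) := by
      intro k
      have hk : sInf S - 1 / ((k:ℝ) + 1) ∉ S := by
        intro hc
        have := csInf_le hbdd hc
        have : 0 < 1 / ((k:ℝ) + 1) := by positivity
        linarith
      have h6 : nu.real {w | TT (pw w) 0 v < sInf S - 1 / ((k:ℝ) + 1)} < 1 / 2 := not_le.1 hk
      rw [← ENNReal.ofReal_toReal (measure_ne_top nu {w | TT (pw w) 0 v < sInf S - 1 / ((k:ℝ) + 1)})]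
      exact ENNReal.ofReal_le_ofReal h6.le
    have h7 : {w : Ed → ℝ | TT (pw w) 0 v < sInf S} =
        ⋃ k : ℕ, {w | TT (pw w) 0 v < sInf S - 1 / ((k:ℝ) + 1)} := by
      ext w
      simp only [mem_ofPred_eq, mem_iUnion]
      constructor
      · intro hw
        obtain ⟨k, hk⟩ := exists_nat_one_div_lt (sub_pos.2 hw)
        exact ⟨k, by linarith⟩
      · rintro ⟨k, hk⟩
        have : 0 < 1 / ((k:ℝ) + 1) := by positivity
        linarith
    have hmono : Monotone fun k : ℕ => {w : Ed → ℝ | TT (pw w) 0 v < sInf S - 1 / ((k:ℝ) + 1)} := by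
      intro k l hkl w hw
      have hw' : TT (pw w) 0 v < sInf S - 1 / ((k:ℝ) + 1) := hw
      have h8 : 1 / ((l:ℝ) + 1) ≤ 1 / ((k:ℝ) + 1) := by
        apply one_div_le_one_div_of_le (by positivity)
        have : (k:ℝ) ≤ l := by exact_mod_cast hkl
        linarith
      show TT (pw w) 0 v < sInf S - 1 / ((l:ℝ) + 1)
      linarith
    have h9 : nu {w | TT (pw w) 0 v < sInf S} ≤ ENNReal.ofReal (1 / 2) := by
      rw [h7, hmono.measure_iUnion]
      exact iSup_le h5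
    have h10 : nu.real {w | TT (pw w) 0 v < sInf S} ≤ 1 / 2 := by
      have := ENNReal.toReal_mono ENNReal.ofReal_ne_top h9
      rwa [ENNReal.toReal_ofReal (by norm_num)] at this
    have h11 := probReal_compl_eq_one_sub (μ := nu)
      (measurableSet_lt (measurable_TT 0 v) measurable_const :
        MeasurableSet {w | TT (pw w) 0 v < sInf S})
    have h12 : {w : Ed → ℝ | TT (pw w) 0 v < sInf S}ᶜ = {w | sInf S ≤ TT (pw w) 0 v} := by
      ext w; simp
    rw [h12] at h11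
    rw [h11]
    linarith
  · intro s hs
    obtain ⟨s', hs', hlt⟩ := exists_lt_of_csInf_lt ⟨_, hmem⟩ hs
    have h13 : 1 / 2 ≤ nu.real {w | TT (pw w) 0 v < s'} := hs'
    refine h13.trans (measureReal_mono ?_ (measure_ne_top _ _))
    intro w hw
    exact lt_trans hw hlt

lemma sqrt_gap {x y n s : ℝ} (hx : 0 ≤ x) (hs : 0 ≤ s) (hxy : x + s ≤ y) (hn : 0 < n) (hy : y ≤ 4 * n) :
    s ^ 2 / (16 * n) ≤ (Real.sqrt y - Real.sqrt x) ^ 2 := by
  have hy0 : 0 ≤ y := by linarith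
  have h1 : (Real.sqrt y - Real.sqrt x) * (Real.sqrt y + Real.sqrt x) = y - x := by
    have e1 := Real.mul_self_sqrt hy0
    have e2 := Real.mul_self_sqrt hx
    linarith [e1, e2, mul_comm (Real.sqrt y) (Real.sqrt x)]
  have h2 : Real.sqrt x ≤ Real.sqrt y := Real.sqrt_le_sqrt (by linarith)
  have h3 : 0 ≤ Real.sqrt x := Real.sqrt_nonneg _
  have h4 : (Real.sqrt y + Real.sqrt x) ^ 2 ≤ 16 * n := by
    have e1 := Real.sq_sqrt hy0
    nlinarith
  have h5 : s ^ 2 ≤ (Real.sqrt y - Real.sqrt x) ^ 2 * (16 * n) := by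
    have e1 : s ^ 2 ≤ (y - x) ^ 2 := pow_le_pow_left₀ hs (by linarith) 2
    rw [← h1, mul_pow] at e1
    refine e1.trans (mul_le_mul_of_nonneg_left h4 (sq_nonneg _))
  rw [div_le_iff₀ (by positivity)]
  exact h5

/-- **concentration at the exponent one half** (Kesten, Talagrand) -/
theorem conc_half : ∃ m : ℤ × ℤ → ℝ, ∀ v : ℤ × ℤ, v ≠ 0 → ∀ s : ℝ, 0 < s →
    s ≤ (dd 0 v : ℝ) →
    nu.real {w | s < |TT (pw w) 0 v - m v|} ≤ 4 * Real.exp (-(s ^ 2 / (128 * (dd 0 v : ℝ)))) := by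
  classical
  choose! m hm0 hm1 hm2 hm3 using exists_median
  refine ⟨m, fun v hv s hs hsn => ?_⟩
  have hn := dd_one hv
  set n : ℝ := (dd 0 v : ℝ)
  have hsub : {w : Ed → ℝ | s < |TT (pw w) 0 v - m v|} ⊆
      {w | m v + s ≤ TT (pw w) 0 v} ∪ {w | TT (pw w) 0 v < m v - s} := by
    intro w hw
    rcases lt_abs.1 (show s < |TT (pw w) 0 v - m v| from hw) with h | h
    · left; show m v + s ≤ TT (pw w) 0 v; linarith
    · right; show TT (pw w) 0 v < m v - s; linarith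
  have hup : nu.real {w | m v + s ≤ TT (pw w) 0 v} ≤ 2 * Real.exp (-(s ^ 2 / (128 * n))) := by
    have h1 := sqrt_conc 0 v (a := m v + s / 2) (b := m v + s) (by linarith [hm0 v hv]) (by linarith)
    have h2 := hm3 v hv (m v + s / 2) (by linarith)
    have h3 := sqrt_gap (x := m v + s / 2) (y := m v + s) (n := n) (s := s / 2)
      (by linarith [hm0 v hv]) (by linarith) (by linarith) (by linarith) (by linarith [hm1 v hv])
    have h4 : Real.exp (-((Real.sqrt (m v + s) - Real.sqrt (m v + s / 2)) ^ 2 / 2)) ≤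
        Real.exp (-(s ^ 2 / (128 * n))) := by
      refine Real.exp_le_exp.2 (neg_le_neg ?_)
      have : s ^ 2 / (128 * n) = (s / 2) ^ 2 / (16 * n) / 2 := by field_simp; ring
      rw [this]
      linarith
    have h5 : 0 ≤ nu.real {w | m v + s ≤ TT (pw w) 0 v} := measureReal_nonneg
    nlinarith
  have hlo : nu.real {w | TT (pw w) 0 v < m v - s} ≤ 2 * Real.exp (-(s ^ 2 / (128 * n))) := by
    rcases le_or_gt 0 (m v - s) with h0 | h0
    · have h1 := sqrt_conc 0 v (a := m v - s) (b := m v) h0 (by linarith)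
      have h2 := hm2 v hv
      have h3 := sqrt_gap (x := m v - s) (y := m v) (n := n) (s := s)
        h0 hs.le (by linarith) (by linarith) (by linarith [hm1 v hv])
      have h4 : Real.exp (-((Real.sqrt (m v) - Real.sqrt (m v - s)) ^ 2 / 2)) ≤
          Real.exp (-(s ^ 2 / (128 * n))) := by
        refine Real.exp_le_exp.2 (neg_le_neg ?_)
        have e1 : s ^ 2 / (128 * n) ≤ s ^ 2 / (16 * n) / 2 := by
          rw [div_div]
          exact div_le_div_of_nonneg_left (by positivity) (by positivity) (by linarith)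
        linarith
      have h5 : 0 ≤ nu.real {w | TT (pw w) 0 v < m v - s} := measureReal_nonneg
      nlinarith
    · have : {w : Ed → ℝ | TT (pw w) 0 v < m v - s} = ∅ := by
        ext w
        simp only [mem_ofPred_eq, mem_empty_iff_false, iff_false, not_lt]
        have := TT_nonneg (pw_nonneg w) 0 v
        linarith
      rw [this]
      simp only [measureReal_empty]
      positivity
  refine (measureReal_mono hsub (measure_ne_top _ _)).trans ((measureReal_union_le _ _).trans ?_)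
  linarith

lemma conc_of_half : Conc (1 / 2) := by
  intro ζ hζ
  set ζ' : ℝ := min ζ (1 / 2) with hζ'
  have h0 : 0 < ζ' := lt_min hζ (by norm_num)
  have h1 : ζ' ≤ ζ := min_le_left _ _
  have h2 : ζ' ≤ 1 / 2 := min_le_right _ _
  obtain ⟨m, hm⟩ := conc_half
  obtain ⟨C, hC, hE⟩ := exp_poly (3 / (2 * (2 * ζ'))) (by positivity) (c := 1 / 128) (by norm_num)
  refine ⟨m, 4 * C, fun v hv => ?_⟩
  have hn := dd_one hv
  have hn0 : (0:ℝ) < dd 0 v := by linarith
  have e1 := hm v hv ((dd 0 v : ℝ) ^ (1 / 2 + ζ')) (by positivity) (by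
    calc (dd 0 v : ℝ) ^ (1 / 2 + ζ') ≤ (dd 0 v : ℝ) ^ (1:ℝ) :=
          Real.rpow_le_rpow_of_exponent_le hn (by linarith)
      _ = _ := Real.rpow_one _)
  have e2 : ((dd 0 v : ℝ) ^ (1 / 2 + ζ')) ^ 2 / (128 * (dd 0 v : ℝ)) =
      1 / 128 * (dd 0 v : ℝ) ^ (2 * ζ') := by
    rw [← Real.rpow_natCast, ← Real.rpow_mul hn0.le]
    have : (dd 0 v : ℝ) ^ ((1 / 2 + ζ') * ((2:ℕ):ℝ)) = (dd 0 v : ℝ) ^ (2 * ζ') * (dd 0 v : ℝ) := by
      rw [← Real.rpow_add_one hn0.ne']
      congr 1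
      push_cast; ring
    rw [this]
    field_simp
  rw [e2] at e1
  have e3 := hE ((dd 0 v : ℝ) ^ (2 * ζ')) (Real.one_le_rpow hn (by positivity))
  rw [← Real.rpow_mul hn0.le, show 2 * ζ' * -(3 / (2 * (2 * ζ'))) = -(3 / 2) by
    field_simp] at e3
  calc nu.real {w | (dd 0 v : ℝ) ^ (1 / 2 + ζ) < |TT (pw w) 0 v - m v|}
      ≤ nu.real {w | (dd 0 v : ℝ) ^ (1 / 2 + ζ') < |TT (pw w) 0 v - m v|} := by
        refine measureReal_mono ?_ (measure_ne_top _ _)
        intro w hw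
        have hw' : (dd 0 v : ℝ) ^ (1 / 2 + ζ) < |TT (pw w) 0 v - m v| := hw
        show (dd 0 v : ℝ) ^ (1 / 2 + ζ') < |TT (pw w) 0 v - m v|
        refine lt_of_le_of_lt ?_ hw'
        exact Real.rpow_le_rpow_of_exponent_le hn (by linarith)
    _ ≤ 4 * (C * (dd 0 v : ℝ) ^ (-(3 / 2 : ℝ))) := e1.trans (by linarith)
    _ ≤ 4 * (C * (dd 0 v : ℝ) ^ (-(3 * (1 - 1 / 2)) + ζ)) := by
        have e4 : (dd 0 v : ℝ) ^ (-(3 / 2 : ℝ)) ≤ (dd 0 v : ℝ) ^ (-(3 * (1 - 1 / 2)) + ζ) :=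
          Real.rpow_le_rpow_of_exponent_le hn (by linarith)
        have e5 := mul_le_mul_of_nonneg_left e4 hC.le
        linarith
    _ = _ := by ring

/-- **the theorem of Kesten and Alexander** for exponential weights -/
theorem half (h : Shape μ) : (∀ a, 1 / 2 < a → Se μ a) ∧ (∀ a, 1 / 2 < a → HH μ a) :=
  both_of_conc h (by norm_num) (by norm_num) conc_of_half

end Pool.Agent.H948
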