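import Pool.Agent.H948.Wind

/-!
# Lower bounds for the variance by scaling the weights in a finite region
-/

set_option autoImplicit false

open MeasureTheory ProbabilityTheory Filter Set
open scoped ENNReal Topology

namespace Pool.Agent.H948

open Q70.Fp

/-- the density of the scaled exponential law -/
noncomputable def dn (c x : ℝ) : ℝ := c⁻¹ * Real.exp (-((1 - c) / c) * x)

lemma dn_pos {c : ℝ} (hc : 0 < c) (x : ℝ) : 0 < dn c x := by unfold dn; positivity

lemma measurable_dn (c : ℝ) : Measurable (dn c) := by unfold dn; fun_prop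

lemma map_scale {c : ℝ} (hc : 0 < c) :
    (expMeasure 1).map (fun x => c * x) = (expMeasure 1).withDensity (fun x => ENNReal.ofReal (dn c x)) := by
  have hm : Measurable (fun x : ℝ => c * x) := by fun_prop
  have hE : expMeasure 1 = (volume : Measure ℝ).withDensity (exponentialPDF 1) := rfl
  have hpdf : Measurable (exponentialPDF 1) := measurable_exponentialPDFReal 1 |>.ennreal_ofReal
  refine Measure.ext fun s hs => ?_
  rw [Measure.map_apply hm hs, withDensity_apply _ hs]
  have e1 : expMeasure 1 ((fun x => c * x) ⁻¹' s) =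
      ∫⁻ x, (s.indicator (fun y => exponentialPDF 1 (y / c)) (c * x)) := by
    rw [hE, withDensity_apply _ (hm hs), ← lintegral_indicator (hm hs)]
    refine lintegral_congr fun x => ?_
    by_cases hx : c * x ∈ s
    · rw [indicator_of_mem (show x ∈ (fun x => c * x) ⁻¹' s from hx), indicator_of_mem hx]
      congr 1; field_simp
    · rw [indicator_of_notMem (show x ∉ (fun x => c * x) ⁻¹' s from hx), indicator_of_notMem hx]
  have hG : Measurable (s.indicator (fun y : ℝ => exponentialPDF 1 (y / c))) :=
    (hpdf.comp (measurable_id.div_const c)).indicator hs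
  have e2 : ∫⁻ x, (s.indicator (fun y => exponentialPDF 1 (y / c)) (c * x)) =
      ENNReal.ofReal |c⁻¹| * ∫⁻ y, s.indicator (fun y => exponentialPDF 1 (y / c)) y := by
    rw [← lintegral_map hG hm, Real.map_volume_mul_left hc.ne', lintegral_smul_measure]
    rfl
  have e3 : ∫⁻ x in s, ENNReal.ofReal (dn c x) ∂(expMeasure 1) =
      ∫⁻ y, s.indicator (fun y => exponentialPDF 1 y * ENNReal.ofReal (dn c y)) y := by
    rw [hE, restrict_withDensity hs, lintegral_withDensity_eq_lintegral_mul _ hpdf
      (measurable_dn c).ennreal_ofReal, lintegral_indicator hs]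
    rfl
  rw [e1, e2, e3, ← lintegral_const_mul _ hG]
  refine lintegral_congr fun y => ?_
  by_cases hy : y ∈ s
  · rw [indicator_of_mem hy, indicator_of_mem hy]
    rcases lt_or_ge y 0 with h0 | h0
    · have h1 : y / c < 0 := div_neg_of_neg_of_pos h0 hc
      rw [exponentialPDF_of_neg h1, exponentialPDF_of_neg h0]; simp
    · have h1 : 0 ≤ y / c := by positivity
      rw [exponentialPDF_eq, exponentialPDF_eq, if_pos h1, if_pos h0, abs_of_pos (by positivity),
        ← ENNReal.ofReal_mul (by positivity), ← ENNReal.ofReal_mul (by positivity)]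
      congr 1
      unfold dn
      rw [one_mul, one_mul, one_mul, one_mul]
      have : Real.exp (-(y / c)) = Real.exp (-y) * Real.exp (-((1 - c) / c) * y) := by
        rw [← Real.exp_add]; congr 1; field_simp; ring
      rw [this]; ring
  · rw [indicator_of_notMem hy, indicator_of_notMem hy, mul_zero]

lemma sf_dn (c : ℝ) : SigmaFinite ((expMeasure 1).withDensity (fun x => ENNReal.ofReal (dn c x))) :=
  SigmaFinite.withDensity_of_ne_top (Eventually.of_forall fun x => ENNReal.ofReal_ne_top)

lemma pi_scale {n : ℕ} (c : Fin n → ℝ) (hc : ∀ i, 0 < c i) :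
    (Measure.pi fun _ : Fin n => expMeasure 1).map (fun x i => c i * x i) =
      (Measure.pi fun _ : Fin n => expMeasure 1).withDensity
        (fun x => ENNReal.ofReal (∏ i, dn (c i) (x i))) := by
  have hsf : ∀ i, SigmaFinite ((expMeasure 1).withDensity (fun x => ENNReal.ofReal (dn (c i) x))) :=
    fun i => sf_dn _
  have h1 : (Measure.pi fun _ : Fin n => expMeasure 1).withDensity
      (fun x => ENNReal.ofReal (∏ i, dn (c i) (x i))) =
      Measure.pi fun i : Fin n => (expMeasure 1).withDensity (fun x => ENNReal.ofReal (dn (c i) x)) := by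
    symm
    apply Measure.pi_eq
    intro s hs
    rw [withDensity_apply _ (MeasurableSet.univ_pi hs), Measure.restrict_pi_pi]
    have e1 : ∀ x : Fin n → ℝ, ENNReal.ofReal (∏ i, dn (c i) (x i)) =
        ∏ i, ENNReal.ofReal (dn (c i) (x i)) := fun x =>
      ENNReal.ofReal_prod_of_nonneg fun i _ => (dn_pos (hc i) _).le
    simp only [e1]
    rw [lint_pi (fun i => (expMeasure 1).restrict (s i)) (fun i y => ENNReal.ofReal (dn (c i) y))
      (fun i => (measurable_dn _).ennreal_ofReal)]
    refine Finset.prod_congr rfl fun i _ => ?_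
    rw [withDensity_apply _ (hs i)]
  rw [h1]
  have : ∀ i, SigmaFinite ((expMeasure 1).map (fun x => c i * x)) := fun i => by
    rw [map_scale (hc i)]; exact hsf i
  have := Measure.pi_map_pi (μ := fun _ : Fin n => expMeasure 1)
    (f := fun i r => c i * r) (fun _ => by fun_prop)
  rw [this]
  congr 1
  funext i
  exact map_scale (hc i)

open Classical in
/-- the weights scaled on a finite set -/
noncomputable def tlt (S : Finset Ed) (c : ℝ) (w : Ed → ℝ) : Ed → ℝ := fun e => if e ∈ S then c * w e else w e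

/-- the likelihood ratio -/
noncomputable def LR (S : Finset Ed) (c : ℝ) (w : Ed → ℝ) : ℝ := ∏ e ∈ S, dn c (w e)

lemma measurable_LR (S : Finset Ed) (c : ℝ) : Measurable (LR S c) :=
  Finset.measurable_prod _ fun e _ => (measurable_dn c).comp (measurable_pi_apply e)

lemma tilt_int {S Q : Finset Ed} (hSQ : S ⊆ Q) {c : ℝ} (hc : 0 < c) {F : (Ed → ℝ) → ℝ}
    (hF : Measurable F) (hFQ : ∀ w w' : Ed → ℝ, (∀ e ∈ Q, w e = w' e) → F w = F w') :
    ∫ w, F (tlt S c w) ∂nu = ∫ w, LR S c w * F w ∂nu := by
  classical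
  set n := Q.card
  set eq := Q.equivFin
  let φ : (Ed → ℝ) → (Fin n → ℝ) := fun w i => w (eq.symm i)
  let ext : (Fin n → ℝ) → (Ed → ℝ) := fun u e => if h : e ∈ Q then u (eq ⟨e, h⟩) else 0
  have hφ : Measurable φ := measurable_pi_iff.2 fun i => measurable_pi_apply _
  have hext : Measurable ext := by
    refine measurable_pi_iff.2 fun e => ?_
    by_cases h : e ∈ Q
    · simp only [ext, h, dif_pos]; exact measurable_pi_apply _
    · simp only [ext, h, dif_neg, not_false_eq_true]; exact measurable_const
  have hext2 : ∀ w : Ed → ℝ, ∀ e ∈ Q, ext (φ w) e = w e := by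
    intro w e he
    simp only [ext, φ, dif_pos he]
    simp
  have hmap : nu.map φ = Measure.pi fun _ : Fin n => expMeasure 1 := by
    have hind : iIndepFun (fun (e : Ed) (w : Ed → ℝ) => w e) nu :=
      iIndepFun_infinitePi (P := fun _ => expMeasure 1) (X := fun _ x => x) (fun _ => measurable_id)
    have hinj : Function.Injective (fun i : Fin n => (eq.symm i : Ed)) := by
      intro i j hij
      exact eq.symm.injective (Subtype.ext hij)
    have h2 := hind.precomp hinj
    rw [iIndepFun_iff_map_fun_eq_pi_map (fun i => (measurable_pi_apply _).aemeasurable)] at h2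
    refine h2.trans ?_
    congr 1
    funext i
    exact map_eval _
  let cc : Fin n → ℝ := fun i => if (eq.symm i : Ed) ∈ S then c else 1
  have hcc : ∀ i, 0 < cc i := by
    intro i; simp only [cc]; split_ifs
    · exact hc
    · exact one_pos
  have hsm : Measurable (fun (x : Fin n → ℝ) i => cc i * x i) :=
    measurable_pi_iff.2 fun i => (measurable_pi_apply i).const_mul _
  have hG : Measurable (fun u => F (ext u)) := hF.comp hext
  have hdens : Measurable (fun x : Fin n → ℝ => ∏ i, dn (cc i) (x i)) :=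
    Finset.measurable_prod _ fun i _ => (measurable_dn _).comp (measurable_pi_apply i)
  -- the left side
  have e1 : ∫ w, F (tlt S c w) ∂nu = ∫ w, F (ext (fun i => cc i * φ w i)) ∂nu := by
    refine integral_congr_ae (Eventually.of_forall fun w => ?_)
    refine hFQ _ _ fun e he => ?_
    simp only [ext, dif_pos he, cc, φ, tlt]
    simp only [Equiv.symm_apply_apply]
    split_ifs
    · rfl
    · rw [one_mul]
  have e2 : ∫ w, F (ext (fun i => cc i * φ w i)) ∂nu =
      ∫ x, F (ext (fun i => cc i * x i)) ∂(Measure.pi fun _ : Fin n => expMeasure 1) := by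
    rw [← hmap]
    exact (integral_map hφ.aemeasurable (f := fun x : Fin n → ℝ => F (ext (fun i => cc i * x i)))
      (hG.comp hsm).aestronglyMeasurable).symm
  have e3 : ∫ x, F (ext (fun i => cc i * x i)) ∂(Measure.pi fun _ : Fin n => expMeasure 1) =
      ∫ y, F (ext y) ∂((Measure.pi fun _ : Fin n => expMeasure 1).map (fun x i => cc i * x i)) :=
    (integral_map hsm.aemeasurable (f := fun y : Fin n → ℝ => F (ext y)) hG.aestronglyMeasurable).symm
  have e4 : ∫ y, F (ext y) ∂((Measure.pi fun _ : Fin n => expMeasure 1).map (fun x i => cc i * x i)) =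
      ∫ y, (∏ i, dn (cc i) (y i)) * F (ext y) ∂(Measure.pi fun _ : Fin n => expMeasure 1) := by
    rw [pi_scale cc hcc, integral_withDensity_eq_integral_toReal_smul hdens.ennreal_ofReal
      (Eventually.of_forall fun x => ENNReal.ofReal_lt_top)]
    refine integral_congr_ae (Eventually.of_forall fun y => ?_)
    show (ENNReal.ofReal (∏ i, dn (cc i) (y i))).toReal • F (ext y) = _
    rw [ENNReal.toReal_ofReal (Finset.prod_nonneg fun i _ => (dn_pos (hcc i) _).le), smul_eq_mul]
  have e5 : ∫ y, (∏ i, dn (cc i) (y i)) * F (ext y) ∂(Measure.pi fun _ : Fin n => expMeasure 1) =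
      ∫ w, (∏ i, dn (cc i) (φ w i)) * F (ext (φ w)) ∂nu := by
    rw [← hmap]
    exact integral_map hφ.aemeasurable
      (f := fun y : Fin n → ℝ => (∏ i, dn (cc i) (y i)) * F (ext y))
      (hdens.mul hG).aestronglyMeasurable
  rw [e1, e2, e3, e4, e5]
  refine integral_congr_ae (Eventually.of_forall fun w => ?_)
  show (∏ i, dn (cc i) (φ w i)) * F (ext (φ w)) = LR S c w * F w
  rw [hFQ (ext (φ w)) w (hext2 w)]
  congr 1
  have f1 : ∏ i, dn (cc i) (φ w i) = ∏ e : Q, dn (if (e : Ed) ∈ S then c else 1) (w e) := by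
    rw [← Equiv.prod_comp eq]
    refine Finset.prod_congr rfl fun e _ => ?_
    simp only [cc, φ, Equiv.symm_apply_apply]
  rw [f1, Finset.prod_coe_sort Q (fun e => dn (if e ∈ S then c else 1) (w e))]
  unfold LR
  rw [← Finset.prod_subset hSQ]
  · refine Finset.prod_congr rfl fun e he => ?_
    rw [if_pos he]
  · intro e _ he
    rw [if_neg he]
    simp [dn]

lemma int_dn {c t : ℝ} (e : Ed) (ht : t < 1) :
    Integrable (fun w : Ed → ℝ => Real.exp (t * w e)) nu ∧
    ∫ w, Real.exp (t * w e) ∂nu = (1 - t)⁻¹ := by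
  have h1 := integrable_exp t ht
  have h2 := integral_exp t ht
  rw [← map_eval e] at h1 h2
  have hm : Measurable (fun x : ℝ => Real.exp (t * x)) := by fun_prop
  constructor
  · exact (integrable_map_measure hm.aestronglyMeasurable (measurable_pi_apply e).aemeasurable).1 h1
  · rw [← h2]
    have hφ : Measurable (fun w : Ed → ℝ => w e) := measurable_pi_apply e
    exact (integral_map (μ := nu) hφ.aemeasurable (f := fun x : ℝ => Real.exp (t * x))
      hm.aestronglyMeasurable).symm

lemma int_LR (S : Finset Ed) {c : ℝ} (hc : 0 < c) (hc1 : c < 1) : ∫ w, LR S c w ∂nu = 1 := by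
  classical
  unfold LR
  rw [integral_prod_disj S (fun e => {e}) (fun e w => dn c (w e))
    (fun e => (measurable_dn c).comp (measurable_pi_apply e))
    (fun e w w' h => by rw [h e (Finset.mem_singleton_self e)])
    (fun i _ j _ hij => Finset.disjoint_singleton.2 hij)]
  refine Finset.prod_eq_one fun e _ => ?_
  have ht : -((1 - c) / c) < 1 := by
    have : 0 < (1 - c) / c := div_pos (by linarith) hc
    linarith
  unfold dn
  rw [integral_const_mul, (int_dn (c := c) e ht).2]
  field_simp
  ring

lemma LR_sq (S : Finset Ed) {c : ℝ} (hc : 0 < c) (hc1 : c < 1) :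
    MemLp (LR S c) 2 nu ∧ ∫ w, LR S c w ^ 2 ∂nu = ((c * (2 - c))⁻¹) ^ S.card := by
  classical
  have ht : 2 * -((1 - c) / c) < 1 := by
    have : 0 < (1 - c) / c := div_pos (by linarith) hc
    linarith
  have e1 : ∀ w : Ed → ℝ, LR S c w ^ 2 = ∏ e ∈ S, dn c (w e) ^ 2 := fun w => by
    unfold LR; rw [Finset.prod_pow]
  have e2 : ∀ (e : Ed) (w : Ed → ℝ), dn c (w e) ^ 2 =
      (c⁻¹) ^ 2 * Real.exp (2 * -((1 - c) / c) * w e) := by
    intro e w
    unfold dn
    rw [mul_pow, ← Real.exp_nat_mul]
    congr 2
    push_cast; ring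
  have i1 : ∀ e : Ed, Integrable (fun w : Ed → ℝ => dn c (w e) ^ 2) nu := by
    intro e
    simp only [e2 e]
    exact (int_dn (c := c) e ht).1.const_mul _
  have m1 : ∀ e : Ed, Measurable (fun w : Ed → ℝ => dn c (w e) ^ 2) := fun e =>
    ((measurable_dn c).comp (measurable_pi_apply e)).pow_const 2
  constructor
  · rw [memLp_two_iff_integrable_sq (measurable_LR S c).aestronglyMeasurable]
    simp only [e1]
    exact integrable_prod_disj S (fun e => {e}) (fun e w => dn c (w e) ^ 2) m1 i1
      (fun e w w' h => by rw [h e (Finset.mem_singleton_self e)])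
      (fun i _ j _ hij => Finset.disjoint_singleton.2 hij)
  · simp only [e1]
    rw [integral_prod_disj S (fun e => {e}) (fun e w => dn c (w e) ^ 2) m1
      (fun e w w' h => by rw [h e (Finset.mem_singleton_self e)])
      (fun i _ j _ hij => Finset.disjoint_singleton.2 hij)]
    have e3 : ∀ e : Ed, ∫ w : Ed → ℝ, dn c (w e) ^ 2 ∂nu = (c * (2 - c))⁻¹ := by
      intro e
      simp only [e2 e]
      rw [integral_const_mul, (int_dn (c := c) e ht).2]
      have h2 : 0 < 2 - c := by linarith
      have h3 : 1 - 2 * -((1 - c) / c) = (2 - c) / c := by field_simp; ring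
      rw [h3]
      field_simp
    simp only [e3, Finset.prod_const]

/-- the Cauchy-Schwarz inequality -/
lemma cs {X Y : (Ed → ℝ) → ℝ} (hX : MemLp X 2 nu) (hY : MemLp Y 2 nu) :
    (∫ w, X w * Y w ∂nu) ^ 2 ≤ (∫ w, X w ^ 2 ∂nu) * ∫ w, Y w ^ 2 ∂nu := by
  set a := ∫ w, X w ^ 2 ∂nu
  set b := ∫ w, X w * Y w ∂nu
  set d := ∫ w, Y w ^ 2 ∂nu
  have i1 := hX.integrable_sq
  have i2 := hY.integrable_sq
  have i3 : Integrable (fun w => X w * Y w) nu := hX.integrable_mul hY
  have h : ∀ t : ℝ, 0 ≤ a * (t * t) + (2 * b) * t + d := by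
    intro t
    have e1 : ∫ w, (t * X w + Y w) ^ 2 ∂nu = a * (t * t) + (2 * b) * t + d := by
      have e2 : (fun w => (t * X w + Y w) ^ 2) =
          fun w => t * t * X w ^ 2 + 2 * t * (X w * Y w) + Y w ^ 2 := by funext w; ring
      have i4 : Integrable (fun w => t * t * X w ^ 2 + 2 * t * (X w * Y w)) nu :=
        (i1.const_mul _).add (i3.const_mul _)
      rw [e2, integral_add i4 i2, integral_add (i1.const_mul _) (i3.const_mul _),
        integral_const_mul, integral_const_mul]
      ring
    rw [← e1]
    exact integral_nonneg fun w => sq_nonneg _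
  have := discrim_le_zero h
  unfold discrim at this
  nlinarith

/-- scaling the weights in a finite region changes the mean by little -/
lemma tilt {S Q : Finset Ed} (hSQ : S ⊆ Q) {c : ℝ} (hc : 0 < c) (hc1 : c < 1) {F : (Ed → ℝ) → ℝ}
    (hF : Measurable F) (hFQ : ∀ w w' : Ed → ℝ, (∀ e ∈ Q, w e = w' e) → F w = F w')
    (hF2 : MemLp F 2 nu) :
    (∫ w, F w ∂nu - ∫ w, F (tlt S c w) ∂nu) ^ 2 ≤
      (∫ w, (F w - ∫ w, F w ∂nu) ^ 2 ∂nu) * (((c * (2 - c))⁻¹) ^ S.card - 1) := by
  obtain ⟨h1, h2⟩ := LR_sq S hc hc1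
  have h3 := int_LR S hc hc1
  have h4 := tilt_int hSQ hc hF hFQ
  set m : ℝ := ∫ w, F w ∂nu with hm
  have iF := hF2.integrable one_le_two
  have iL := h1.integrable one_le_two
  have iLF : Integrable (fun w => LR S c w * F w) nu := h1.integrable_mul hF2
  have mX : MemLp (fun w => F w - m) 2 nu := hF2.sub (memLp_const _)
  have mY : MemLp (fun w => 1 - LR S c w) 2 nu := (memLp_const 1).sub h1
  have e1 : m - ∫ w, F (tlt S c w) ∂nu = ∫ w, (F w - m) * (1 - LR S c w) ∂nu := by
    have e2 : (fun w => (F w - m) * (1 - LR S c w)) =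
        fun w => (F w - m) - (LR S c w * F w - m * LR S c w) := by funext w; ring
    have i5 : Integrable (fun w => F w - m) nu := iF.sub (integrable_const _)
    have i6 : Integrable (fun w => LR S c w * F w - m * LR S c w) nu := iLF.sub (iL.const_mul m)
    rw [e2, integral_sub i5 i6, integral_sub iF (integrable_const _),
      integral_sub iLF (iL.const_mul m), integral_const_mul, h3, h4]
    simp [hm]
  have e3 : ∫ w, (1 - LR S c w) ^ 2 ∂nu = ((c * (2 - c))⁻¹) ^ S.card - 1 := by
    have e4 : (fun w => (1 - LR S c w) ^ 2) = fun w => LR S c w ^ 2 - (2 * LR S c w - 1) := by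
      funext w; ring
    have i7 : Integrable (fun w => 2 * LR S c w - 1) nu := (iL.const_mul 2).sub (integrable_const _)
    rw [e4, integral_sub h1.integrable_sq i7, integral_sub (iL.const_mul 2) (integrable_const _),
      integral_const_mul, h2, h3]
    simp
    ring
  rw [e1, ← e3]
  exact cs mX mY

end Pool.Agent.H948
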