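import Pool.Agent.H948.Conf
import Pool.Agent.H948.Tilt

/-!
# The crossing of the tube
-/

set_option autoImplicit false

open MeasureTheory ProbabilityTheory Filter Set
open scoped ENNReal Topology

namespace Pool.Agent.H948

open Q70.Fp
open Q69.FM (mu_add)

variable {μ : ℝ × ℝ → ℝ}

/-- a walk from the origin to the end point crosses the middle part -/
lemma crossing {e : ℝ × ℝ} (he : e ∈ Cir) {n : ℕ} (hn : 40 ≤ n) {N : ℕ} {p : ℕ → ℤ × ℤ}
    (hp : IsW 0 (rd ((n:ℝ) • e)) N p) : ∃ a b : ℕ, a ≤ b ∧ b ≤ N ∧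
      (∀ i, a ≤ i → i ≤ b → 3 / 10 * (n:ℝ) ≤ tc e (p i) ∧ tc e (p i) ≤ 7 / 10 * (n:ℝ)) ∧
      2 / 5 * (n:ℝ) - 2 ≤ dd (p a) (p b) := by
  classical
  have hn40 : (40:ℝ) ≤ n := by exact_mod_cast hn
  obtain ⟨hp0, hpN, hpa⟩ := hp
  have hstep : ∀ i < N, |tc e (p (i + 1)) - tc e (p i)| ≤ 1 := by
    intro i hi
    have e1 := tc_diff he (p i) (p (i + 1))
    rw [adj_iff.1 (hpa i hi)] at e1
    simpa using e1
  have hend : 7 / 10 * (n:ℝ) < tc e (p N) := by
    rw [hpN]
    have := (abs_le.1 (rd_coord he (n:ℝ)).1).1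
    linarith
  have h0 : tc e (p 0) = 0 := by rw [hp0]; simp [tc]
  have hex : ∃ j, 7 / 10 * (n:ℝ) < tc e (p j) := ⟨N, hend⟩
  set j := Nat.find hex with hj
  have hj1 : 7 / 10 * (n:ℝ) < tc e (p j) := Nat.find_spec hex
  have hj2 : ∀ i < j, tc e (p i) ≤ 7 / 10 * (n:ℝ) := fun i hi => not_lt.1 (Nat.find_min hex hi)
  have hjN : j ≤ N := Nat.find_min' hex hend
  set k := Nat.findGreatest (fun i => tc e (p i) < 3 / 10 * (n:ℝ)) j with hk
  have hk1 : tc e (p k) < 3 / 10 * (n:ℝ) :=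
    Nat.findGreatest_spec (P := fun i => tc e (p i) < 3 / 10 * (n:ℝ)) (Nat.zero_le j)
      (by rw [h0]; linarith)
  have hk2 : ∀ i, k < i → i ≤ j → 3 / 10 * (n:ℝ) ≤ tc e (p i) := fun i hi hij =>
    not_lt.1 (Nat.findGreatest_is_greatest (P := fun i => tc e (p i) < 3 / 10 * (n:ℝ)) hi hij)
  have hkj : k ≤ j := Nat.findGreatest_le j
  have hkj1 : k ≠ j := by
    intro h
    rw [h] at hk1
    linarith
  have hkj2 : k < j := lt_of_le_of_ne hkj hkj1
  have s1 := (abs_le.1 (hstep k (by omega))).2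
  have hkj3 : k + 1 ≠ j := by
    intro h
    rw [h] at s1
    linarith
  have s2 := (abs_le.1 (hstep (j - 1) (by omega))).2
  have e3 : j - 1 + 1 = j := by omega
  rw [e3] at s2
  refine ⟨k + 1, j - 1, by omega, by omega, fun i h1 h2 => ⟨hk2 i (by omega) (by omega),
    hj2 i (by omega)⟩, ?_⟩
  have e4 := (abs_le.1 (tc_diff he (p (k + 1)) (p (j - 1)))).2
  linarith

/-- the number of integers in an interval -/
lemma card_int {α β L : ℝ} (hα : 7 / 10 ≤ |α|) (hL : 0 ≤ L) (s : Finset ℤ)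
    (hs : ∀ k ∈ s, |(k:ℝ) * α - β| < L) : (s.card : ℝ) ≤ 3 * L + 2 := by
  have hα0 : 0 < |α| := by linarith
  have hα1 : α ≠ 0 := abs_pos.1 hα0
  have hsub : s ⊆ Finset.Icc ⌊β / α - L / |α|⌋ ⌊β / α + L / |α|⌋ := by
    intro k hk
    have h1 := hs k hk
    have e1 : (k:ℝ) * α - β = ((k:ℝ) - β / α) * α := by field_simp
    rw [e1, abs_mul, ← lt_div_iff₀ hα0, abs_lt] at h1
    rw [Finset.mem_Icc]
    constructor
    · have h2 : β / α - L / |α| < (k:ℝ) := by linarith [h1.1]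
      exact Int.floor_le_floor h2.le |>.trans (by rw [Int.floor_intCast])
    · apply Int.le_floor.2
      linarith [h1.2]
  have h1 := Finset.card_le_card hsub
  rw [Int.card_Icc] at h1
  have h2 : ((⌊β / α + L / |α|⌋ + 1 - ⌊β / α - L / |α|⌋).toNat : ℝ) ≤ 2 * (L / |α|) + 2 := by
    have e1 := Int.floor_le (β / α + L / |α|)
    have e2 := Int.lt_floor_add_one (β / α - L / |α|)
    have e3 : ((⌊β / α + L / |α|⌋ + 1 - ⌊β / α - L / |α|⌋).toNat : ℤ) =
        max (⌊β / α + L / |α|⌋ + 1 - ⌊β / α - L / |α|⌋) 0 := Int.toNat_eq_max _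
    have e4 : ((⌊β / α + L / |α|⌋ + 1 - ⌊β / α - L / |α|⌋).toNat : ℝ) =
        max ((⌊β / α + L / |α|⌋ : ℝ) + 1 - ⌊β / α - L / |α|⌋) 0 := by
      have : (((⌊β / α + L / |α|⌋ + 1 - ⌊β / α - L / |α|⌋).toNat : ℤ) : ℝ) =
        max ((⌊β / α + L / |α|⌋ : ℝ) + 1 - ⌊β / α - L / |α|⌋) 0 := by
        rw [e3]; push_cast; rfl
      exact_mod_cast this
    rw [e4]
    have e5 : 0 ≤ L / |α| := by positivity
    exact max_le (by linarith) (by linarith)
  have h3 : L / |α| ≤ 10 / 7 * L := by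
    rw [div_le_iff₀ hα0]
    nlinarith
  have h4 : (s.card : ℝ) ≤ ((⌊β / α + L / |α|⌋ + 1 - ⌊β / α - L / |α|⌋).toNat : ℝ) := by
    exact_mod_cast h1
  linarith

/-- the lattice points near the line -/
noncomputable def Tu (e : ℝ × ℝ) (R : ℕ) (L : ℝ) : Finset (ℤ × ℤ) :=
  (ball R 0).filter (fun u => |zc e u| < L)

lemma card_Tu {e : ℝ × ℝ} (he : e ∈ Cir) (R : ℕ) {L : ℝ} (hL : 0 ≤ L) :
    ((Tu e R L).card : ℝ) ≤ (3 * L + 2) * (2 * R + 1) := by
  classical
  have he1 : e.1 ^ 2 + e.2 ^ 2 = 1 := he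
  set K : ℕ := ⌊3 * L + 2⌋₊ with hK
  have hK1 : (K:ℝ) ≤ 3 * L + 2 := Nat.floor_le (by positivity)
  have hR : ∀ u ∈ Tu e R L, u.1.natAbs ≤ R ∧ u.2.natAbs ≤ R := by
    intro u hu
    have h1 := mem_ball.1 (Finset.mem_filter.1 hu).1
    simp only [dd, Prod.fst_zero, Prod.snd_zero, sub_zero] at h1
    omega
  have hIcc : (Finset.Icc (-(R:ℤ)) R).card = 2 * R + 1 := by
    rw [Int.card_Icc]; omega
  by_cases hc : 7 / 10 ≤ |e.1|
  · have h1 : (Tu e R L).card ≤ K * ((Tu e R L).image Prod.fst).card := by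
      refine Finset.card_le_mul_card_image _ _ fun a ha => ?_
      refine Nat.le_floor ?_
      have h2 : ({x ∈ Tu e R L | x.1 = a}).card = (({x ∈ Tu e R L | x.1 = a}).image Prod.snd).card := by
        rw [Finset.card_image_of_injOn]
        intro x hx y hy hxy
        have hx1 := (Finset.mem_filter.1 hx).2
        have hy1 := (Finset.mem_filter.1 hy).2
        exact Prod.ext (hx1.trans hy1.symm) hxy
      rw [h2]
      refine card_int (α := e.1) (β := a * e.2) hc hL _ fun k hk => ?_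
      obtain ⟨x, hx, rfl⟩ := Finset.mem_image.1 hk
      obtain ⟨hx1, hx2⟩ := Finset.mem_filter.1 hx
      have hx3 := (Finset.mem_filter.1 hx1).2
      rw [← hx2]
      exact hx3
    have h2 : ((Tu e R L).image Prod.fst).card ≤ 2 * R + 1 := by
      rw [← hIcc]
      refine Finset.card_le_card fun a ha => ?_
      obtain ⟨x, hx, rfl⟩ := Finset.mem_image.1 ha
      have := (hR x hx).1
      rw [Finset.mem_Icc]
      omega
    have h3 : (Tu e R L).card ≤ K * (2 * R + 1) := h1.trans (Nat.mul_le_mul_left _ h2)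
    have h4 : ((Tu e R L).card : ℝ) ≤ K * (2 * R + 1) := by exact_mod_cast h3
    refine h4.trans ?_
    gcongr
  · have hc2 : 7 / 10 ≤ |e.2| := by
      push Not at hc
      have e1 := sq_abs e.1
      have e2 := sq_abs e.2
      have e3 := abs_nonneg e.1
      have e4 := abs_nonneg e.2
      by_contra hc3
      push Not at hc3
      nlinarith
    have h1 : (Tu e R L).card ≤ K * ((Tu e R L).image Prod.snd).card := by
      refine Finset.card_le_mul_card_image _ _ fun a ha => ?_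
      refine Nat.le_floor ?_
      have h2 : ({x ∈ Tu e R L | x.2 = a}).card = (({x ∈ Tu e R L | x.2 = a}).image Prod.fst).card := by
        rw [Finset.card_image_of_injOn]
        intro x hx y hy hxy
        have hx1 := (Finset.mem_filter.1 hx).2
        have hy1 := (Finset.mem_filter.1 hy).2
        exact Prod.ext hxy (hx1.trans hy1.symm)
      rw [h2]
      refine card_int (α := e.2) (β := a * e.1) hc2 hL _ fun k hk => ?_
      obtain ⟨x, hx, rfl⟩ := Finset.mem_image.1 hk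
      obtain ⟨hx1, hx2⟩ := Finset.mem_filter.1 hx
      have hx3 := (Finset.mem_filter.1 hx1).2
      rw [← hx2, abs_sub_comm]
      exact hx3
    have h2 : ((Tu e R L).image Prod.snd).card ≤ 2 * R + 1 := by
      rw [← hIcc]
      refine Finset.card_le_card fun a ha => ?_
      obtain ⟨x, hx, rfl⟩ := Finset.mem_image.1 ha
      have := (hR x hx).2
      rw [Finset.mem_Icc]
      omega
    have h3 : (Tu e R L).card ≤ K * (2 * R + 1) := h1.trans (Nat.mul_le_mul_left _ h2)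
    have h4 : ((Tu e R L).card : ℝ) ≤ K * (2 * R + 1) := by exact_mod_cast h3
    refine h4.trans ?_
    gcongr

/-- the unit vectors -/
def N4 : Finset (ℤ × ℤ) := {(1, 0), (-1, 0), (0, 1), (0, -1)}

lemma mem_N4 {x y : ℤ × ℤ} (h : Adj x y) : y - x ∈ N4 := by
  have h1 : (y.1 - x.1).natAbs + (y.2 - x.2).natAbs = 1 := adj_iff.1 h
  simp only [N4, Finset.mem_insert, Finset.mem_singleton, Prod.ext_iff, Prod.fst_sub, Prod.snd_sub]
  omega

open Classical in
/-- the edges which touch a set -/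
noncomputable def Sd (D : Finset (ℤ × ℤ)) : Finset Ed :=
  (D ×ˢ N4).image (fun a => s(a.1, a.1 + a.2))

lemma mem_Sd {D : Finset (ℤ × ℤ)} {x y : ℤ × ℤ} (hx : x ∈ D) (h : Adj x y) : s(x, y) ∈ Sd D := by
  classical
  unfold Sd
  rw [Finset.mem_image]
  refine ⟨(x, y - x), Finset.mk_mem_product hx (mem_N4 h), ?_⟩
  simp

lemma card_Sd (D : Finset (ℤ × ℤ)) : (Sd D).card ≤ 4 * D.card := by
  classical
  unfold Sd
  refine Finset.card_image_le.trans ?_
  rw [Finset.card_product, mul_comm]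
  exact Nat.mul_le_mul_right _ (by decide)

/-- scaling the weights near the segment reduces the passage time -/
lemma scaled {v : ℤ × ℤ} {S : Finset Ed} {c : ℝ} (hc : 0 < c) {w : Ed → ℝ} {N : ℕ}
    {p : ℕ → ℤ × ℤ} (hp : IsW 0 v N p) (hpb : ∀ i ≤ N, dd 0 (p i) ≤ 66 * dd 0 v)
    {a b : ℕ} (hab : a ≤ b) (hb : b ≤ N) (hS : ∀ i, a ≤ i → i < b → s(p i, p (i + 1)) ∈ S)
    (hc1 : c ≤ 1) :
    Bk v 0 (tlt S c w) ≤ Wt (pw w) p N - (1 - c) * TT (pw w) (p a) (p b) := by
  classical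
  have hpw : ∀ e, pw (tlt S c w) e = if e ∈ S then c * pw w e else pw w e := by
    intro e
    unfold pw tlt
    split_ifs
    · rcases le_total (w e) 0 with h0 | h0
      · rw [max_eq_right h0, mul_zero, max_eq_right (by nlinarith)]
      · rw [max_eq_left h0, max_eq_left (by positivity)]
    · rfl
  have h1 : Bk v 0 (tlt S c w) ≤ Wt (pw (tlt S c w)) p N := by
    unfold Bk TB
    refine csInf_le (bddB (pw_nonneg _) _ _ _) ⟨N, p, ⟨?_, hpb⟩, rfl⟩
    rw [zero_add]; exact hp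
  refine h1.trans ?_
  have h2 := Wt_split (pw_nonneg w) hab (fun i hi => hp.2.2 i (by omega))
  have h3 : ∀ (f : ℕ → ℝ), ∑ i ∈ Finset.range N, f i = ∑ i ∈ Finset.Ico 0 a, f i +
      ∑ i ∈ Finset.Ico a b, f i + ∑ i ∈ Finset.Ico b N, f i := by
    intro f
    rw [Finset.sum_Ico_consecutive _ (Nat.zero_le a) hab, Finset.sum_Ico_consecutive _
      (Nat.zero_le b) hb, Finset.range_eq_Ico]
  have h4 : ∀ e, pw (tlt S c w) e ≤ pw w e := by
    intro e
    rw [hpw]
    split_ifs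
    · have := pw_nonneg w e
      nlinarith
    · exact le_rfl
  unfold Wt
  rw [h3, h3]
  have e1 : ∑ i ∈ Finset.Ico 0 a, pw (tlt S c w) s(p i, p (i + 1)) ≤
      ∑ i ∈ Finset.Ico 0 a, pw w s(p i, p (i + 1)) := Finset.sum_le_sum fun i _ => h4 _
  have e2 : ∑ i ∈ Finset.Ico b N, pw (tlt S c w) s(p i, p (i + 1)) ≤
      ∑ i ∈ Finset.Ico b N, pw w s(p i, p (i + 1)) := Finset.sum_le_sum fun i _ => h4 _
  have e3 : ∑ i ∈ Finset.Ico a b, pw (tlt S c w) s(p i, p (i + 1)) =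
      c * ∑ i ∈ Finset.Ico a b, pw w s(p i, p (i + 1)) := by
    rw [Finset.mul_sum]
    refine Finset.sum_congr rfl fun i hi => ?_
    rw [Finset.mem_Ico] at hi
    rw [hpw, if_pos (hS i hi.1 hi.2)]
  rw [e3]
  have e4 : (1 - c) * TT (pw w) (p a) (p b) ≤
      (1 - c) * ∑ i ∈ Finset.Ico a b, pw w s(p i, p (i + 1)) :=
    mul_le_mul_of_nonneg_left h2 (by linarith)
  linarith

lemma Bk_pw (v x : ℤ × ℤ) (w : Ed → ℝ) : Bk v x (pw w) = Bk v x w := by
  unfold Bk
  congr 1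
  funext e
  unfold pw
  exact max_eq_left (le_max_right _ _)

lemma Bk_tlt_le (v : ℤ × ℤ) (S : Finset Ed) {c : ℝ} (hc : 0 < c) (hc1 : c ≤ 1) (w : Ed → ℝ) :
    Bk v 0 (tlt S c w) ≤ Bk v 0 w := by
  classical
  rw [← Bk_pw v 0 w]
  apply Bk_mono
  intro e
  unfold tlt pw
  split_ifs
  · rcases le_total (w e) 0 with h0 | h0
    · exact le_trans (by nlinarith) (le_max_right _ _)
    · exact le_trans (by nlinarith) (le_max_left _ _)
  · exact le_max_left _ _

lemma measurable_tlt (S : Finset Ed) (c : ℝ) : Measurable (tlt S c) := by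
  classical
  refine measurable_pi_iff.2 fun e => ?_
  unfold tlt
  by_cases he : e ∈ S
  · simp only [he, if_true]
    have h1 : Measurable (fun w : Ed → ℝ => w e) := measurable_pi_apply e
    exact h1.const_mul c
  · simp only [he, if_false]
    exact measurable_pi_apply e

end Pool.Agent.H948
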