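import Pool.Agent.H948.Geo
import Pool.Graph.R_pool_sql_team_seeded_3997aac3.Q69.FM.E

/-!
# Second differences of the time constant
-/

set_option autoImplicit false

open MeasureTheory ProbabilityTheory Filter Set
open scoped ENNReal Topology

namespace Pool.Agent.H948

open Q70.Fp
open Q69.FM (mu_add)

variable {μ : ℝ × ℝ → ℝ}

/-- rotation by a right angle -/
def prp (e : ℝ × ℝ) : ℝ × ℝ := (-e.2, e.1)

/-- the unit circle -/
def Cir : Set (ℝ × ℝ) := {x | x.1 ^ 2 + x.2 ^ 2 = 1}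

/-- the second difference -/
def Ac (μ : ℝ × ℝ → ℝ) (e : ℝ × ℝ) (δ : ℝ) : ℝ := μ (e + δ • prp e) + μ (e - δ • prp e) - 2 * μ e

lemma mu_nonneg (h : Shape μ) (x : ℝ × ℝ) : 0 ≤ μ x :=
  le_trans (by positivity) (mu_low h x)

/-- the triangle inequality for combinations with nonnegative coefficients -/
lemma mu_comb (h : Shape μ) {a b : ℝ} (ha : 0 ≤ a) (hb : 0 ≤ b) (x y : ℝ × ℝ) :
    μ (a • x + b • y) ≤ a * μ x + b * μ y := by
  refine (mu_add h _ _).trans ?_
  rw [h.hom _ _ ha, h.hom _ _ hb]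

lemma Ac_nonneg (h : Shape μ) (e : ℝ × ℝ) (δ : ℝ) : 0 ≤ Ac μ e δ := by
  have h1 := mu_comb h (a := 1 / 2) (b := 1 / 2) (by norm_num) (by norm_num) (e + δ • prp e)
    (e - δ • prp e)
  have h2 : (1 / 2 : ℝ) • (e + δ • prp e) + (1 / 2 : ℝ) • (e - δ • prp e) = e := by
    ext <;> simp <;> ring
  rw [h2] at h1
  unfold Ac
  linarith

lemma Cir_compact : IsCompact Cir := by
  refine Metric.isCompact_of_isClosed_isBounded ?_ ?_
  · exact isClosed_eq (by fun_prop) continuous_const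
  · refine (Metric.isBounded_closedBall (x := (0 : ℝ × ℝ)) (r := 1)).subset ?_
    intro x hx
    have h1 : x.1 ^ 2 + x.2 ^ 2 = 1 := hx
    rw [Metric.mem_closedBall, dist_zero_right, Prod.norm_def, max_le_iff, Real.norm_eq_abs,
      Real.norm_eq_abs, abs_le_one_iff_mul_self_le_one, abs_le_one_iff_mul_self_le_one]
    constructor <;> nlinarith [sq_nonneg x.1, sq_nonneg x.2]

lemma Cir_nonempty : Cir.Nonempty := ⟨(1, 0), by simp [Cir]⟩

lemma exists_max (h : Shape μ) (δ : ℝ) : ∃ e ∈ Cir, ∀ e' ∈ Cir, Ac μ e' δ ≤ Ac μ e δ := by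
  have hc : Continuous fun e : ℝ × ℝ => Ac μ e δ := by
    have h1 := h.cont
    unfold Ac prp
    fun_prop
  obtain ⟨e, he, hmax⟩ := Cir_compact.exists_isMaxOn Cir_nonempty hc.continuousOn
  exact ⟨e, he, fun e' he' => hmax he'⟩

lemma curv_low (h : Shape μ) : ∃ c0 : ℝ, 0 < c0 ∧ c0 ≤ 1 ∧ ∃ p ∈ Cir, ∀ δ : ℝ, 0 ≤ δ → δ ≤ 1 →
    c0 * δ ^ 2 ≤ Ac μ p δ := by
  obtain ⟨p, hp, hmin⟩ := Cir_compact.exists_isMinOn Cir_nonempty h.cont.continuousOn
  have hp1 : p.1 ^ 2 + p.2 ^ 2 = 1 := hp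
  have hpos : 0 < μ p := by
    have h1 := mu_low h p
    have h2 : 0 < |p.1| + |p.2| := by
      by_contra hc
      push Not at hc
      have h3 := abs_nonneg p.1
      have h4 := abs_nonneg p.2
      have h5 : |p.1| = 0 := by linarith
      have h6 : |p.2| = 0 := by linarith
      rw [abs_eq_zero] at h5 h6
      rw [h5, h6] at hp1
      norm_num at hp1
    linarith
  have hlow : ∀ x : ℝ × ℝ, 0 < x.1 ^ 2 + x.2 ^ 2 → μ p * Real.sqrt (x.1 ^ 2 + x.2 ^ 2) ≤ μ x := by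
    intro x hx
    set r : ℝ := Real.sqrt (x.1 ^ 2 + x.2 ^ 2) with hr
    have hr0 : 0 < r := Real.sqrt_pos.2 hx
    have hr2 : r ^ 2 = x.1 ^ 2 + x.2 ^ 2 := Real.sq_sqrt hx.le
    have h1 : r⁻¹ • x ∈ Cir := by
      show (r⁻¹ * x.1) ^ 2 + (r⁻¹ * x.2) ^ 2 = 1
      rw [mul_pow, mul_pow, ← mul_add, ← hr2, inv_pow, inv_mul_cancel₀ (by positivity)]
    have h2 : μ p ≤ μ (r⁻¹ • x) := hmin h1
    rw [h.hom _ _ (by positivity)] at h2
    rw [← div_eq_inv_mul, le_div_iff₀ hr0] at h2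
    exact h2
  refine ⟨min 1 (2 * μ p / 3), lt_min one_pos (by positivity), min_le_left _ _, p, hp,
    fun δ hδ hδ1 => ?_⟩
  have hn1 : (p + δ • prp p).1 ^ 2 + (p + δ • prp p).2 ^ 2 = 1 + δ ^ 2 := by
    simp only [prp, Prod.fst_add, Prod.snd_add, Prod.smul_fst, Prod.smul_snd, smul_eq_mul]
    linear_combination (1 + δ ^ 2) * hp1
  have hn2 : (p - δ • prp p).1 ^ 2 + (p - δ • prp p).2 ^ 2 = 1 + δ ^ 2 := by
    simp only [prp, Prod.fst_sub, Prod.snd_sub, Prod.smul_fst, Prod.smul_snd, smul_eq_mul]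
    linear_combination (1 + δ ^ 2) * hp1
  have h1 := hlow (p + δ • prp p) (by rw [hn1]; positivity)
  have h2 := hlow (p - δ • prp p) (by rw [hn2]; positivity)
  rw [hn1] at h1
  rw [hn2] at h2
  have h3 : 1 + δ ^ 2 / 3 ≤ Real.sqrt (1 + δ ^ 2) := by
    apply Real.le_sqrt_of_sq_le
    have : δ ^ 2 ≤ 1 := by nlinarith
    nlinarith [sq_nonneg δ]
  have h4 : min 1 (2 * μ p / 3) * δ ^ 2 ≤ 2 * μ p / 3 * δ ^ 2 := by
    gcongr; exact min_le_right _ _
  unfold Ac
  nlinarith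

/-- the cost of a deviation from the segment -/
lemma exit_cost_pos (h : Shape μ) (e : ℝ × ℝ) {t z δ : ℝ} (hδ : 0 < δ) (hz : δ ≤ z) (ht : 0 ≤ t)
    (ht1 : t ≤ 1) : μ e + z / δ * Ac μ e δ ≤
      μ (t • e + z • prp e) + μ ((1 - t) • e - z • prp e) := by
  have hz0 : 0 < z := by linarith
  have hr0 : 0 ≤ δ / z := by positivity
  have hr1 : δ / z ≤ 1 := by rw [div_le_one hz0]; exact hz
  have c1 : 0 ≤ 1 - t * (δ / z) := by nlinarith
  have c2 : 0 ≤ 1 - (1 - t) * (δ / z) := by nlinarith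
  have h1 := mu_comb h hr0 c1 (t • e + z • prp e) e
  have h2 := mu_comb h hr0 c2 ((1 - t) • e - z • prp e) e
  have e1 : (δ / z) • (t • e + z • prp e) + (1 - t * (δ / z)) • e = e + δ • prp e := by
    have : δ / z * z = δ := div_mul_cancel₀ _ hz0.ne'
    rw [smul_add, smul_smul, smul_smul, this, sub_smul, one_smul, mul_comm t]
    abel
  have e2 : (δ / z) • ((1 - t) • e - z • prp e) + (1 - (1 - t) * (δ / z)) • e = e - δ • prp e := by
    have : δ / z * z = δ := div_mul_cancel₀ _ hz0.ne'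
    rw [smul_sub, smul_smul, smul_smul, this, sub_smul 1, one_smul, mul_comm (1 - t)]
    abel
  rw [e1] at h1
  rw [e2] at h2
  have h3 : Ac μ e δ ≤ δ / z * (μ (t • e + z • prp e) + μ ((1 - t) • e - z • prp e) - μ e) := by
    unfold Ac
    nlinarith
  have h4 : z / δ * Ac μ e δ ≤ z / δ * (δ / z * (μ (t • e + z • prp e) +
      μ ((1 - t) • e - z • prp e) - μ e)) := mul_le_mul_of_nonneg_left h3 (by positivity)
  have h5 : z / δ * (δ / z * (μ (t • e + z • prp e) + μ ((1 - t) • e - z • prp e) - μ e)) =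
      μ (t • e + z • prp e) + μ ((1 - t) • e - z • prp e) - μ e := by
    field_simp
  rw [h5] at h4
  linarith

lemma exit_cost (h : Shape μ) (e : ℝ × ℝ) {t z δ : ℝ} (hδ : 0 < δ) (hz : δ ≤ |z|) (ht : 0 ≤ t)
    (ht1 : t ≤ 1) : μ e + |z| / δ * Ac μ e δ ≤
      μ (t • e + z • prp e) + μ ((1 - t) • e - z • prp e) := by
  rcases le_total 0 z with h0 | h0
  · rw [abs_of_nonneg h0] at hz ⊢
    exact exit_cost_pos h e hδ hz ht ht1
  · rw [abs_of_nonpos h0] at hz ⊢
    have h1 := exit_cost_pos h e hδ hz (t := 1 - t) (by linarith) (by linarith)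
    rw [show 1 - (1 - t) = t by ring, neg_smul, sub_neg_eq_add, ← sub_eq_add_neg] at h1
    linarith

/-- the second difference at a multiple of a unit vector -/
lemma Ac_smul (h : Shape μ) {r : ℝ} (hr : 0 ≤ r) (e : ℝ × ℝ) (δ : ℝ) :
    Ac μ (r • e) δ = r * Ac μ e δ := by
  have h1 : r • e + δ • prp (r • e) = r • (e + δ • prp e) := by
    ext <;> simp [prp] <;> ring
  have h2 : r • e - δ • prp (r • e) = r • (e - δ • prp e) := by
    ext <;> simp [prp] <;> ring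
  unfold Ac
  rw [h1, h2, h.hom _ _ hr, h.hom _ _ hr, h.hom _ _ hr]
  ring

/-- the cost of a deviation in a small window -/
lemma window_cost (h : Shape μ) {e : ℝ × ℝ} (he : e ∈ Cir) {σ θ η δ t A : ℝ} (hσ : σ = 1 ∨ σ = -1)
    (hδ : 0 < δ) (hδ1 : δ ≤ 1) (hA : ∀ e' ∈ Cir, Ac μ e' δ ≤ A) (hη : 0 ≤ η) (hη1 : η ≤ δ / 6)
    (ht : 0 ≤ t) (ht1 : t ≤ 3 / 4) :
    μ (t • (e + θ • prp e) + (σ * (t * η)) • prp e) +
      μ ((1 - t) • (e + θ • prp e) - (σ * (t * η)) • prp e) ≤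
      μ (e + θ • prp e) + η / δ * A := by
  have he1 : e.1 ^ 2 + e.2 ^ 2 = 1 := he
  set K : ℝ := 1 + θ ^ 2 with hK
  have hK1 : 1 ≤ K := by rw [hK]; nlinarith [sq_nonneg θ]
  have hK0 : 0 < K := by linarith
  set f : ℝ × ℝ := e + θ • prp e with hf
  set y : ℝ := t * η with hy
  have hy0 : 0 ≤ y := by positivity
  have hσ2 : σ * σ = 1 := by rcases hσ with rfl | rfl <;> norm_num
  have hσa : |σ| = 1 := by rcases hσ with rfl | rfl <;> norm_num
  -- the size of the coefficients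
  have hθK : |θ| / K ≤ 1 / 2 := by
    rw [div_le_iff₀ hK0, hK]
    nlinarith [sq_nonneg (|θ| - 1), sq_abs θ]
  have hηθ : |σ * θ / K| ≤ 1 / 2 := by
    rw [abs_div, abs_mul, hσa, one_mul, abs_of_pos hK0]; exact hθK
  obtain ⟨b1, b2⟩ := abs_le.1 hηθ
  have hKδ : 1 / (K * δ) ≤ 1 / δ := by
    apply one_div_le_one_div_of_le hδ; nlinarith
  have hηδ : η * (1 / δ) ≤ 1 / 6 := by
    rw [mul_one_div, div_le_iff₀ hδ]; linarith
  have hη6 : η ≤ 1 / 6 := by linarith
  have hηKδ : η * (1 / (K * δ)) ≤ 1 / 6 := le_trans (by gcongr) hηδ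
  have hηKδ0 : 0 ≤ η * (1 / (K * δ)) := by positivity
  have k1 : 0 ≤ y / (K * δ) := by positivity
  have k2 : 0 ≤ t + y * (σ * θ / K) - y / (K * δ) := by
    have e1 : t + y * (σ * θ / K) - y / (K * δ) =
        t * (1 + η * (σ * θ / K) - η * (1 / (K * δ))) := by rw [hy]; ring
    rw [e1]
    apply mul_nonneg ht
    nlinarith
  have k3 : 0 ≤ 1 - t - y * (σ * θ / K) - y / (K * δ) := by
    have e1 : 1 - t - y * (σ * θ / K) - y / (K * δ) =
        1 - t - t * (η * (σ * θ / K) + η * (1 / (K * δ))) := by rw [hy]; ring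
    rw [e1]
    have e2 : η * (σ * θ / K) + η * (1 / (K * δ)) ≤ 1 / 3 := by nlinarith
    nlinarith
  have h1 := mu_comb h k1 k2 (f + (σ * δ) • prp f) f
  have h2 := mu_comb h k1 k3 (f - (σ * δ) • prp f) f
  have e1 : (y / (K * δ)) • (f + (σ * δ) • prp f) + (t + y * (σ * θ / K) - y / (K * δ)) • f =
      t • f + (σ * y) • prp e := by
    ext
    · simp only [hf, prp, Prod.fst_add, Prod.snd_add, Prod.smul_fst, Prod.smul_snd, smul_eq_mul]
      field_simp
      rw [hK]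
      ring
    · simp only [hf, prp, Prod.fst_add, Prod.snd_add, Prod.smul_fst, Prod.smul_snd, smul_eq_mul]
      field_simp
      rw [hK]
      ring
  have e2 : (y / (K * δ)) • (f - (σ * δ) • prp f) + (1 - t - y * (σ * θ / K) - y / (K * δ)) • f =
      (1 - t) • f - (σ * y) • prp e := by
    ext
    · simp only [hf, prp, Prod.fst_add, Prod.snd_add, Prod.fst_sub, Prod.snd_sub, Prod.smul_fst,
        Prod.smul_snd, smul_eq_mul]
      field_simp
      rw [hK]
      ring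
    · simp only [hf, prp, Prod.fst_add, Prod.snd_add, Prod.fst_sub, Prod.snd_sub, Prod.smul_fst,
        Prod.smul_snd, smul_eq_mul]
      field_simp
      rw [hK]
      ring
  rw [e1] at h1
  rw [e2] at h2
  -- the second difference at `f`
  have hAc : μ (f + (σ * δ) • prp f) + μ (f - (σ * δ) • prp f) = Ac μ f δ + 2 * μ f := by
    unfold Ac
    rcases hσ with rfl | rfl
    · rw [one_mul]; ring
    · rw [neg_one_mul, neg_smul, sub_neg_eq_add, ← sub_eq_add_neg]; ring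
  set r : ℝ := Real.sqrt K with hr
  have hr0 : 0 < r := Real.sqrt_pos.2 hK0
  have hr2 : r * r = K := Real.mul_self_sqrt hK0.le
  have hr1 : 1 ≤ r := by
    rw [hr]; exact Real.one_le_sqrt.2 hK1
  have hfn : f.1 ^ 2 + f.2 ^ 2 = K := by
    simp only [hf, prp, Prod.fst_add, Prod.snd_add, Prod.smul_fst, Prod.smul_snd, smul_eq_mul]
    rw [hK]
    linear_combination (1 + θ ^ 2) * he1
  have hf' : r⁻¹ • f ∈ Cir := by
    show (r⁻¹ * f.1) ^ 2 + (r⁻¹ * f.2) ^ 2 = 1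
    rw [mul_pow, mul_pow, ← mul_add, hfn, ← hr2]
    field_simp
  have hfA : Ac μ f δ ≤ r * A := by
    have h3 := hA _ hf'
    rw [Ac_smul h (by positivity), ← div_eq_inv_mul, div_le_iff₀ hr0] at h3
    linarith
  have hA0 : 0 ≤ A := (Ac_nonneg h e δ).trans (hA e he)
  have hfin : y / (K * δ) * Ac μ f δ ≤ η / δ * A := by
    calc y / (K * δ) * Ac μ f δ ≤ y / (K * δ) * (r * A) := by gcongr
      _ = (t / r) * (η / δ * A) := by rw [← hr2, hy]; field_simp
      _ ≤ 1 * (η / δ * A) := by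
          have : t / r ≤ 1 := by rw [div_le_one hr0]; linarith
          gcongr
      _ = _ := one_mul _
  have hsum : μ (t • f + (σ * y) • prp e) + μ ((1 - t) • f - (σ * y) • prp e) ≤
      y / (K * δ) * (μ (f + (σ * δ) • prp f) + μ (f - (σ * δ) • prp f)) +
        (1 - 2 * (y / (K * δ))) * μ f := by
    linarith
  rw [hAc] at hsum
  linarith

end Pool.Agent.H948
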