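import Pool.Agent.H948.Error

/-!
# The second moment of the defect, and the contradiction
-/

set_option autoImplicit false

open MeasureTheory ProbabilityTheory Filter Set
open scoped ENNReal Topology

namespace Pool.Agent.H948

open Q70.Fp
open Q69.FM (hm sq_up TB_sh add_pow_le abs_int)
open Q69.FL (Se neg_of_Se)

variable {μ : ℝ × ℝ → ℝ}

/-- a sum of nonnegative numbers raised to a power -/
lemma sum_pow_le {p : ℝ} (hp : 0 < p) (k : ℕ) (a : ℕ → ℝ) (ha : ∀ i, 0 ≤ a i) :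
    (∑ i ∈ Finset.range k, a i) ^ p ≤ (k:ℝ) ^ p * ∑ i ∈ Finset.range k, a i ^ p := by
  rcases Nat.eq_zero_or_pos k with h0 | h0
  · subst h0; simp [Real.zero_rpow hp.ne']
  obtain ⟨i0, hi0, hmax⟩ := Finset.exists_max_image (Finset.range k) a ⟨0, Finset.mem_range.2 h0⟩
  have h1 : ∑ i ∈ Finset.range k, a i ≤ k * a i0 := by
    calc ∑ i ∈ Finset.range k, a i ≤ ∑ _i ∈ Finset.range k, a i0 :=
          Finset.sum_le_sum fun i hi => hmax i hi
      _ = k * a i0 := by simp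
  have h2 : a i0 ^ p ≤ ∑ i ∈ Finset.range k, a i ^ p :=
    Finset.single_le_sum (f := fun i => a i ^ p) (fun i _ => Real.rpow_nonneg (ha i) p) hi0
  calc (∑ i ∈ Finset.range k, a i) ^ p ≤ (k * a i0) ^ p :=
        Real.rpow_le_rpow (Finset.sum_nonneg fun i _ => ha i) h1 hp.le
    _ = (k:ℝ) ^ p * a i0 ^ p := Real.mul_rpow (Nat.cast_nonneg _) (ha i0)
    _ ≤ _ := by gcongr

/-- interpolation of the second moment -/
lemma sq_interp {p L D : ℝ} (hp : 2 < p) (hL : 0 < L) (hD : 0 ≤ D) :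
    D ^ 2 ≤ L * D + L ^ (2 - p) * D ^ p := by
  rcases le_total D L with h | h
  · have : 0 ≤ L ^ (2 - p) * D ^ p := by positivity
    nlinarith
  · have hD0 : 0 < D := by linarith
    have h1 : D ^ 2 = D ^ (2 - p) * D ^ p := by
      rw [← Real.rpow_add hD0, ← Real.rpow_two]; congr 1; ring
    have h2 : D ^ (2 - p) ≤ L ^ (2 - p) := Real.rpow_le_rpow_of_nonpos hL h (by linarith)
    have h3 : D ^ (2 - p) * D ^ p ≤ L ^ (2 - p) * D ^ p :=
      mul_le_mul_of_nonneg_right h2 (by positivity)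
    have h4 : 0 ≤ L * D := by positivity
    linarith

lemma Bk_moment (h : Shape μ) {p a : ℝ} (hp : 0 < p) (ha : 0 ≤ a)
    (hM : ∃ C : ℝ, ∀ v : ℤ × ℤ, v ≠ 0 → ∫ w, |TT (pw w) 0 v - mz μ v| ^ p ∂nu ≤
      C * (dd 0 v : ℝ) ^ a) :
    ∃ C : ℝ, 0 < C ∧ ∀ u : ℤ × ℤ, u ≠ 0 → ∀ x : ℤ × ℤ,
      Integrable (fun w => |Bk u x w - mz μ u| ^ p) nu ∧
      ∫ w, |Bk u x w - mz μ u| ^ p ∂nu ≤ C * (dd 0 u : ℝ) ^ a := by
  obtain ⟨C1, h1⟩ := hM
  obtain ⟨C2, hC2, h2⟩ := Bk_TT hp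
  refine ⟨2 ^ p * (C2 + max C1 1), by positivity, fun u hu x => ?_⟩
  have hn : (1:ℝ) ≤ dd 0 u := dd_one hu
  have hna : (1:ℝ) ≤ (dd 0 u : ℝ) ^ a := Real.one_le_rpow hn ha
  obtain ⟨j1, j2⟩ := h2 u hu x
  have hmT : Measurable (fun w => |TT (pw w) 0 u - mz μ u| ^ p) :=
    (continuous_abs.measurable.comp ((measurable_TT 0 u).sub_const _)).pow_const p
  have e1 : ∀ w, |TT (pw w) x (x + u) - mz μ u| ^ p = |TT (pw (sh x w)) 0 u - mz μ u| ^ p := by
    intro w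
    rw [TT_sh, zero_add, add_comm u x]
  have i1 : Integrable (fun w => |TT (pw w) x (x + u) - mz μ u| ^ p) nu := by
    simp only [e1]
    exact integrable_sh x (F := fun w => |TT (pw w) 0 u - mz μ u| ^ p) hmT (abs_int h hp hu)
  have e2 : ∫ w, |TT (pw w) x (x + u) - mz μ u| ^ p ∂nu = ∫ w, |TT (pw w) 0 u - mz μ u| ^ p ∂nu := by
    simp only [e1]
    exact int_sh x (F := fun w => |TT (pw w) 0 u - mz μ u| ^ p) hmT
  have hpt : ∀ w, |Bk u x w - mz μ u| ^ p ≤ 2 ^ p * (|Bk u x w - TT (pw w) x (x + u)| ^ p +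
      |TT (pw w) x (x + u) - mz μ u| ^ p) := by
    intro w
    refine le_trans ?_ (add_pow_le (abs_nonneg _) (abs_nonneg _) hp)
    refine Real.rpow_le_rpow (abs_nonneg _) ?_ hp.le
    have := abs_add_le (Bk u x w - TT (pw w) x (x + u)) (TT (pw w) x (x + u) - mz μ u)
    rwa [sub_add_sub_cancel] at this
  have hK : Integrable (fun w => 2 ^ p * (|Bk u x w - TT (pw w) x (x + u)| ^ p +
      |TT (pw w) x (x + u) - mz μ u| ^ p)) nu := (j1.add i1).const_mul _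
  have hm' : Measurable (fun w => |Bk u x w - mz μ u| ^ p) :=
    (continuous_abs.measurable.comp ((measurable_Bk u x).sub_const _)).pow_const p
  have hint : Integrable (fun w => |Bk u x w - mz μ u| ^ p) nu := by
    refine hK.mono' hm'.aestronglyMeasurable (Eventually.of_forall fun w => ?_)
    rw [Real.norm_eq_abs, abs_of_nonneg (by positivity)]
    exact hpt w
  refine ⟨hint, (integral_mono hint hK hpt).trans ?_⟩
  rw [integral_const_mul, integral_add j1 i1, e2]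
  have h3 := h1 u hu
  have h4 : C1 * (dd 0 u : ℝ) ^ a ≤ max C1 1 * (dd 0 u : ℝ) ^ a := by
    gcongr; exact le_max_left _ _
  have h5 : C2 ≤ C2 * (dd 0 u : ℝ) ^ a := by nlinarith
  calc 2 ^ p * (∫ w, |Bk u x w - TT (pw w) x (x + u)| ^ p ∂nu +
        ∫ w, |TT (pw w) 0 u - mz μ u| ^ p ∂nu) ≤
      2 ^ p * (C2 * (dd 0 u : ℝ) ^ a + max C1 1 * (dd 0 u : ℝ) ^ a) := by
        gcongr
        · exact j2.trans h5
        · exact h3.trans h4
    _ = _ := by ring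

/-- the second moment of the defect -/
lemma Df_sq (h : Shape μ) {p a β e : ℝ} (hp : 2 < p) (ha : 0 ≤ a) (ha1 : a ≤ 1) (hβ : 0 ≤ β)
    (hM : ∃ C : ℝ, ∀ v : ℤ × ℤ, v ≠ 0 → ∫ w, |TT (pw w) 0 v - mz μ v| ^ p ∂nu ≤
      C * (dd 0 v : ℝ) ^ (a * p))
    (hB : ∃ C : ℝ, ∀ v : ℤ × ℤ, v ≠ 0 → hm v ≤ mz μ v + C * (dd 0 v : ℝ) ^ β) :
    ∃ C : ℝ, 0 < C ∧ ∀ u : ℤ × ℤ, u ≠ 0 → ∀ k : ℕ, 2 ≤ k → ∫ w, Df u k 0 w ^ 2 ∂nu ≤
      C * ((k:ℝ) + 1) ^ (2 * p + 1) * ((dd 0 u : ℝ) ^ (e + β) + (dd 0 u : ℝ) ^ (a * p - (p - 2) * e)) := by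
  obtain ⟨C1, hC1, h1⟩ := Bk_moment h (by linarith : 0 < p) (by positivity) hM
  obtain ⟨C2, h2⟩ := hB
  obtain ⟨C3, hC3, h3⟩ := fb_le
  refine ⟨(max C2 1 + C3) + 2 * C1, by positivity, fun u hu k hk => ?_⟩
  have hn : (1:ℝ) ≤ dd 0 u := dd_one hu
  set n : ℝ := (dd 0 u : ℝ) with hn'
  have hn0 : 0 < n := by linarith
  have hk1 : (1:ℝ) ≤ k := by exact_mod_cast (by omega : 1 ≤ k)
  have hp0 : 0 < p := by linarith
  -- the pointwise bound for the power of the defect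
  set a' : ℕ → (Ed → ℝ) → ℝ := fun l w => if l < k then |Bk u (0 + (l:ℤ) • u) w - mz μ u| else
    |Bk ((k:ℤ) • u) 0 w - mz μ ((k:ℤ) • u)| with ha'
  have hku : (k:ℤ) • u ≠ 0 := by
    intro h0
    have := dd_zero_smul k u
    rw [h0, dd_self] at this
    have h4 : 1 ≤ k * dd 0 u := Nat.mul_pos (by omega) (dd_pos hu)
    omega
  have hpt : ∀ w, Df u k 0 w ≤ ∑ l ∈ Finset.range (k + 1), a' l w := by
    intro w
    rw [Finset.sum_range_succ]
    have e1 : ∑ l ∈ Finset.range k, a' l w = ∑ l ∈ Finset.range k,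
        |Bk u (0 + (l:ℤ) • u) w - mz μ u| :=
      Finset.sum_congr rfl fun l hl => by simp only [ha', if_pos (Finset.mem_range.1 hl)]
    have e2 : a' k w = |Bk ((k:ℤ) • u) 0 w - mz μ ((k:ℤ) • u)| := by
      simp only [ha', if_neg (lt_irrefl k)]
    rw [e1, e2]
    have e3 : ∑ l ∈ Finset.range k, Bk u (0 + (l:ℤ) • u) w - k * mz μ u ≤
        ∑ l ∈ Finset.range k, |Bk u (0 + (l:ℤ) • u) w - mz μ u| := by
      calc ∑ l ∈ Finset.range k, Bk u (0 + (l:ℤ) • u) w - k * mz μ u =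
          ∑ l ∈ Finset.range k, (Bk u (0 + (l:ℤ) • u) w - mz μ u) := by
            rw [Finset.sum_sub_distrib]; simp
        _ ≤ _ := Finset.sum_le_sum fun l _ => le_abs_self _
    have e4 := neg_abs_le (Bk ((k:ℤ) • u) 0 w - mz μ ((k:ℤ) • u))
    rw [mz_smul h] at e4 ⊢
    unfold Df
    linarith
  have hmom : ∀ l, Integrable (fun w => a' l w ^ p) nu ∧ ∫ w, a' l w ^ p ∂nu ≤
      C1 * ((k:ℝ) ^ p * n ^ (a * p)) := by
    intro l
    have hkp : (1:ℝ) ≤ (k:ℝ) ^ p := Real.one_le_rpow hk1 hp0.le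
    by_cases hl : l < k
    · simp only [ha', if_pos hl]
      obtain ⟨j1, j2⟩ := h1 u hu (0 + (l:ℤ) • u)
      refine ⟨j1, j2.trans ?_⟩
      have : 0 ≤ n ^ (a * p) := by positivity
      rw [← hn']
      gcongr
      nlinarith
    · simp only [ha', if_neg hl]
      obtain ⟨j1, j2⟩ := h1 _ hku 0
      refine ⟨j1, j2.trans ?_⟩
      rw [dd_zero_smul]
      push_cast
      rw [← hn', Real.mul_rpow (by positivity) hn0.le]
      have hap : a * p ≤ p := by nlinarith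
      gcongr
  have hDp : ∀ w, Df u k 0 w ^ p ≤ ((k:ℝ) + 1) ^ p * ∑ l ∈ Finset.range (k + 1), a' l w ^ p := by
    intro w
    have := sum_pow_le hp0 (k + 1) (fun l => a' l w) (fun l => by
      simp only [ha']; split_ifs <;> exact abs_nonneg _)
    push_cast at this
    exact (Real.rpow_le_rpow (Df_nonneg u 0 hk w) (hpt w) hp0.le).trans this
  have iK : Integrable (fun w => ((k:ℝ) + 1) ^ p * ∑ l ∈ Finset.range (k + 1), a' l w ^ p) nu :=
    (integrable_finsetSum _ fun l _ => (hmom l).1).const_mul _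
  have iDp : Integrable (fun w => Df u k 0 w ^ p) nu := by
    refine iK.mono' ((measurable_Df u k 0).pow_const p).aestronglyMeasurable
      (Eventually.of_forall fun w => ?_)
    rw [Real.norm_eq_abs, abs_of_nonneg (Real.rpow_nonneg (Df_nonneg u 0 hk w) p)]
    exact hDp w
  have IDp : ∫ w, Df u k 0 w ^ p ∂nu ≤ C1 * (((k:ℝ) + 1) ^ (2 * p + 1) * n ^ (a * p)) := by
    refine (integral_mono iDp iK hDp).trans ?_
    rw [integral_const_mul, integral_finsetSum _ fun l _ => (hmom l).1]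
    calc ((k:ℝ) + 1) ^ p * ∑ l ∈ Finset.range (k + 1), ∫ w, a' l w ^ p ∂nu
        ≤ ((k:ℝ) + 1) ^ p * ∑ _l ∈ Finset.range (k + 1), C1 * ((k:ℝ) ^ p * n ^ (a * p)) := by
          gcongr with l _
          exact (hmom l).2
      _ = ((k:ℝ) + 1) ^ p * (((k:ℝ) + 1) * (C1 * ((k:ℝ) ^ p * n ^ (a * p)))) := by
          simp
      _ ≤ ((k:ℝ) + 1) ^ p * (((k:ℝ) + 1) * (C1 * (((k:ℝ) + 1) ^ p * n ^ (a * p)))) := by
          gcongr; linarith
      _ = C1 * ((((k:ℝ) + 1) ^ p * ((k:ℝ) + 1) ^ (1:ℝ) * ((k:ℝ) + 1) ^ p) * n ^ (a * p)) := by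
          rw [Real.rpow_one]; ring
      _ = _ := by
          rw [← Real.rpow_add (by positivity), ← Real.rpow_add (by positivity)]
          congr 3; ring
  -- the mean of the defect
  have ID : ∫ w, Df u k 0 w ∂nu ≤ (max C2 1 + C3) * (((k:ℝ) + 1) ^ (2 * p + 1) * n ^ β) := by
    rw [int_Df]
    have f1 := h3 u hu
    have f2 := h2 u hu
    have f3 := hm_le_fb ((k:ℤ) • u)
    have f4 := mz_le_mean h ((k:ℤ) • u)
    rw [mz_smul h] at f4
    have f5 : (k:ℝ) * mz μ u ≤ fb ((k:ℤ) • u) := f4.trans f3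
    have hnb : (1:ℝ) ≤ n ^ β := Real.one_le_rpow hn hβ
    have f6 : C2 * n ^ β ≤ max C2 1 * n ^ β := by gcongr; exact le_max_left _ _
    have f7 : fb u - mz μ u ≤ (max C2 1 + C3) * n ^ β := by
      rw [← hn'] at f2
      nlinarith
    have f8 : (k:ℝ) ≤ ((k:ℝ) + 1) ^ (2 * p + 1) := by
      calc (k:ℝ) ≤ ((k:ℝ) + 1) ^ (1:ℝ) := by rw [Real.rpow_one]; linarith
        _ ≤ _ := Real.rpow_le_rpow_of_exponent_le (by linarith) (by linarith)
    calc k * fb u - fb ((k:ℤ) • u) ≤ k * (fb u - mz μ u) := by linarith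
      _ ≤ k * ((max C2 1 + C3) * n ^ β) := by gcongr
      _ ≤ ((k:ℝ) + 1) ^ (2 * p + 1) * ((max C2 1 + C3) * n ^ β) := by gcongr
      _ = _ := by ring
  -- interpolation
  set L : ℝ := n ^ e with hL
  have hL0 : 0 < L := by positivity
  have mD := memLp_Df u k 0
  have iD := mD.integrable one_le_two
  have hsq : ∫ w, Df u k 0 w ^ 2 ∂nu ≤ L * ∫ w, Df u k 0 w ∂nu + L ^ (2 - p) * ∫ w, Df u k 0 w ^ p ∂nu := by
    rw [← integral_const_mul, ← integral_const_mul, ← integral_add (iD.const_mul L) (iDp.const_mul _)]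
    exact integral_mono mD.integrable_sq ((iD.const_mul L).add (iDp.const_mul _))
      fun w => sq_interp hp hL0 (Df_nonneg u 0 hk w)
  have g1 : L * n ^ β = n ^ (e + β) := by rw [hL, ← Real.rpow_add hn0]
  have g2 : L ^ (2 - p) * n ^ (a * p) = n ^ (a * p - (p - 2) * e) := by
    rw [hL, ← Real.rpow_mul hn0.le, ← Real.rpow_add hn0]; congr 1; ring
  set K : ℝ := ((k:ℝ) + 1) ^ (2 * p + 1) with hK
  have hK0 : 0 < K := by positivity
  calc ∫ w, Df u k 0 w ^ 2 ∂nu ≤ L * ∫ w, Df u k 0 w ∂nu + L ^ (2 - p) * ∫ w, Df u k 0 w ^ p ∂nu := hsq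
    _ ≤ L * ((max C2 1 + C3) * (K * n ^ β)) + L ^ (2 - p) * (C1 * (K * n ^ (a * p))) := by gcongr
    _ = (max C2 1 + C3) * K * (L * n ^ β) + C1 * K * (L ^ (2 - p) * n ^ (a * p)) := by ring
    _ = (max C2 1 + C3) * K * n ^ (e + β) + C1 * K * n ^ (a * p - (p - 2) * e) := by rw [g1, g2]
    _ ≤ _ := by
      have q1 : 0 ≤ K * n ^ (e + β) := by positivity
      have q2 : 0 ≤ K * n ^ (a * p - (p - 2) * e) := by positivity
      have q3 : 0 < max C2 1 + C3 := by positivity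
      nlinarith [mul_nonneg q3.le q2, mul_nonneg hC1.le q1, mul_nonneg hC1.le q2]

end Pool.Agent.H948
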