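import Pool.Agent.H948.VarLow
import Pool.Graph.R_pool_sql_team_seeded_3997aac3.Q69.FM.B

/-!
# A direction in which the limit shape is curved
-/

set_option autoImplicit false

open MeasureTheory ProbabilityTheory Finset Filter
open scoped Topology

namespace Pool.Agent.H948

open Q70.Fp
open Q69.FM (Sub hm)

variable {μ : ℝ × ℝ → ℝ}

/-- the coordinates with respect to a unit vector -/
lemma norm_coord {p : ℝ × ℝ} (hp : p ∈ Cir) (u : ℤ × ℤ) :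
    (tc p u) ^ 2 + (zc p u) ^ 2 = (u.1 : ℝ) ^ 2 + (u.2 : ℝ) ^ 2 := by
  have h1 : p.1 ^ 2 + p.2 ^ 2 = 1 := hp
  simp only [tc, zc]
  linear_combination ((u.1 : ℝ) ^ 2 + (u.2 : ℝ) ^ 2) * h1

/-- the minimiser of the norm on the circle -/
lemma exists_dir (h : Shape μ) : ∃ p ∈ Cir, 0 < μ p ∧ μ p ≤ 2 ∧
    ∀ x : ℝ × ℝ, (μ p) ^ 2 * (x.1 ^ 2 + x.2 ^ 2) ≤ (μ x) ^ 2 := by
  obtain ⟨p, hp, hmin⟩ := Cir_compact.exists_isMinOn Cir_nonempty h.cont.continuousOn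
  have hp1 : p.1 ^ 2 + p.2 ^ 2 = 1 := hp
  have hpos : 0 < μ p := by
    have h1 := mu_low h p
    have h2 : 0 < |p.1| + |p.2| := by
      have := (Cir_sum hp).1
      linarith
    exact lt_of_lt_of_le (by positivity) h1
  refine ⟨p, hp, hpos, ?_, ?_⟩
  · have h1 : μ p ≤ μ (1, 0) := hmin (show ((1:ℝ), (0:ℝ)) ∈ Cir by simp [Cir])
    have h2 : μ (1, 0) = mz μ (1, 0) := by simp [mz]
    have h3 := mz_le_mean h (1, 0)
    have h4 := Q69.FM.hm_up (1, 0)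
    have h5 : dd 0 (1, 0) = 1 := by simp [dd]
    have h6 : hm (1, 0) = ∫ w, TT (pw w) 0 (1, 0) ∂nu := rfl
    rw [h5] at h4
    push_cast at h4
    linarith
  · intro x
    by_cases hx : x.1 ^ 2 + x.2 ^ 2 = 0
    · rw [hx, mul_zero]; positivity
    · have hx0 : 0 < x.1 ^ 2 + x.2 ^ 2 := lt_of_le_of_ne (by positivity) (Ne.symm hx)
      set r : ℝ := Real.sqrt (x.1 ^ 2 + x.2 ^ 2) with hr
      have hr0 : 0 < r := Real.sqrt_pos.2 hx0
      have hr2 : r ^ 2 = x.1 ^ 2 + x.2 ^ 2 := Real.sq_sqrt hx0.le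
      have hy : (r⁻¹ • x) ∈ Cir := by
        show (r⁻¹ • x).1 ^ 2 + (r⁻¹ • x).2 ^ 2 = 1
        simp only [Prod.smul_fst, Prod.smul_snd, smul_eq_mul, mul_pow]
        rw [← mul_add, ← hr2]
        field_simp
      have h1 : μ p ≤ μ (r⁻¹ • x) := hmin hy
      rw [h.hom _ _ (by positivity)] at h1
      have h2 : r * μ p ≤ μ x := by
        have := mul_le_mul_of_nonneg_left h1 hr0.le
        rwa [← mul_assoc, mul_inv_cancel₀ hr0.ne', one_mul] at this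
      calc (μ p) ^ 2 * (x.1 ^ 2 + x.2 ^ 2) = (r * μ p) ^ 2 := by rw [← hr2]; ring
        _ ≤ (μ x) ^ 2 := pow_le_pow_left₀ (by positivity) h2 2

/-- the supporting functional of the minimiser -/
noncomputable def lf (μ : ℝ × ℝ → ℝ) (p : ℝ × ℝ) (u : ℤ × ℤ) : ℝ := μ p * tc p u

/-- the properties of the direction -/
structure Dir (μ : ℝ × ℝ → ℝ) (p : ℝ × ℝ) : Prop where
  cir : p ∈ Cir
  pos : 0 < μ p
  le : μ p ≤ 2
  sq : ∀ x : ℝ × ℝ, (μ p) ^ 2 * (x.1 ^ 2 + x.2 ^ 2) ≤ (μ x) ^ 2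

lemma Dir.mz_sq {p : ℝ × ℝ} (hd : Dir μ p) (u : ℤ × ℤ) :
    (μ p) ^ 2 * ((tc p u) ^ 2 + (zc p u) ^ 2) ≤ (mz μ u) ^ 2 := by
  rw [norm_coord hd.cir]
  exact hd.sq ((u.1 : ℝ), (u.2 : ℝ))

lemma Dir.lf_le (h : Shape μ) {p : ℝ × ℝ} (hd : Dir μ p) (u : ℤ × ℤ) : lf μ p u ≤ mz μ u := by
  have h1 := hd.mz_sq u
  have h2 := mz_nonneg h u
  unfold lf
  refine le_of_sq_le_sq ?_ h2
  nlinarith [sq_nonneg (zc p u), sq_nonneg (μ p)]

lemma lf_sub (p : ℝ × ℝ) (u v : ℤ × ℤ) : lf μ p (u - v) = lf μ p u - lf μ p v := by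
  unfold lf; rw [tc_sub]; ring

lemma lf_add (p : ℝ × ℝ) (u v : ℤ × ℤ) : lf μ p (u + v) = lf μ p u + lf μ p v := by
  unfold lf tc
  simp only [Prod.fst_add, Prod.snd_add]
  push_cast
  ring

lemma Dir.lf_dd {p : ℝ × ℝ} (hd : Dir μ p) (u : ℤ × ℤ) : lf μ p u ≤ 2 * (dd 0 u : ℝ) := by
  have h1 := tc_le hd.cir u
  have h2 := hd.pos
  have h3 := hd.le
  have h4 := le_abs_self (tc p u)
  have h5 : (0:ℝ) ≤ dd 0 u := Nat.cast_nonneg _
  unfold lf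
  nlinarith

/-- points with small excess are near the line -/
lemma Dir.near (h : Shape μ) {p : ℝ × ℝ} (hd : Dir μ p) {u : ℤ × ℤ} {K R : ℝ} (hK : 0 ≤ K)
    (hR : (dd 0 u : ℝ) ≤ R) (hu : mz μ u ≤ lf μ p u + K) :
    (μ p) ^ 2 * (zc p u) ^ 2 ≤ 4 * R * K + K ^ 2 := by
  have h1 := hd.mz_sq u
  have h2 := mz_nonneg h u
  have h3 := hd.lf_dd u
  have h5 : (mz μ u) ^ 2 ≤ (lf μ p u + K) ^ 2 := pow_le_pow_left₀ h2 hu 2
  have h6 : (lf μ p u) ^ 2 = (μ p) ^ 2 * (tc p u) ^ 2 := by unfold lf; ring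
  nlinarith

/-- the modified norm -/
noncomputable def Ph (μ : ℝ × ℝ → ℝ) (p : ℝ × ℝ) (δ : ℝ) (u : ℤ × ℤ) : ℝ :=
  max (mz μ u) ((1 + δ) * lf μ p u)

lemma Ph_Sub (h : Shape μ) {p : ℝ × ℝ} (hd : Dir μ p) {δ : ℝ} (h0 : 0 ≤ δ) (h1 : δ ≤ 1 / 2) :
    Sub (Ph μ p δ) where
  zero := by
    unfold Ph lf tc
    rw [mz_zero h]
    simp
  add := fun x y => by
    unfold Ph
    have e1 := mz_add h x y
    have e2 := lf_add (μ := μ) p x y
    refine max_le ?_ ?_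
    · exact e1.trans (add_le_add (le_max_left _ _) (le_max_left _ _))
    · rw [e2, mul_add]
      exact add_le_add (le_max_right _ _) (le_max_right _ _)
  up := fun x => by
    unfold Ph
    have e1 := mz_up h x
    have e2 := hd.lf_dd x
    have e3 : (0:ℝ) ≤ dd 0 x := Nat.cast_nonneg _
    refine max_le e1 ?_
    nlinarith
  lip := fun x y => by
    unfold Ph
    have e1 := mz_lip h x y
    have e2 := hd.lf_dd (y - x)
    rw [lf_sub, dd_sub] at e2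
    have e3 : (0:ℝ) ≤ dd x y := Nat.cast_nonneg _
    refine max_le ?_ ?_
    · have := le_max_left (mz μ x) ((1 + δ) * lf μ p x)
      linarith
    · have := le_max_right (mz μ x) ((1 + δ) * lf μ p x)
      nlinarith
  low := fun x => (mz_low h x).trans (le_max_left _ _)

end Pool.Agent.H948
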