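import Pool.Agent.H948.Mean

/-!
# Summing the doubling bound over the scales
-/

set_option autoImplicit false

open MeasureTheory ProbabilityTheory Filter

namespace Pool.Agent.H948

open Q70.Fp
open Q69.FM (hm)

/-- summing the doubling bound over the scales -/
lemma mean_of_doubling {μ : ℝ × ℝ → ℝ} (h : Shape μ) {b : ℝ} (hb : 0 < b) (hb1 : b < 1)
    (hD : ∀ ζ : ℝ, 0 < ζ → ∃ C : ℝ, ∀ v : ℤ × ℤ, v ≠ 0 →
      2 * hm v - hm ((2:ℤ) • v) ≤ C * (dd 0 v : ℝ) ^ (b + ζ)) :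
    ∀ ζ : ℝ, 0 < ζ → ∃ C : ℝ, ∀ v : ℤ × ℤ, v ≠ 0 → hm v ≤ mz μ v + C * (dd 0 v : ℝ) ^ (b + ζ) := by
  intro ζ hζ
  set ζ' : ℝ := min ζ ((1 - b) / 2) with hζ'
  have z0 : 0 < ζ' := lt_min hζ (by linarith)
  have z1 : ζ' ≤ ζ := min_le_left _ _
  have z2 : ζ' ≤ (1 - b) / 2 := min_le_right _ _
  obtain ⟨C0, hC0⟩ := hD ζ' z0
  set C : ℝ := max C0 1 with hC
  have hC1 : 1 ≤ C := le_max_right _ _
  set a : ℝ := b + ζ' with ha
  set r : ℝ := 2 ^ (a - 1) with hr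
  have hr0 : 0 < r := by positivity
  have hr1 : r < 1 := Real.rpow_lt_one_of_one_lt_of_neg (by norm_num) (by linarith)
  refine ⟨C / 2 / (1 - r), fun v hv => ?_⟩
  have hn := dd_one hv
  have hn0 : (0:ℝ) < dd 0 v := by linarith
  -- the bound at the scale `2 ^ j`
  have hstep : ∀ j : ℕ, hm (((2 ^ j : ℕ) : ℤ) • v) / 2 ^ j ≤
      hm (((2 ^ (j + 1) : ℕ) : ℤ) • v) / 2 ^ (j + 1) + C / 2 * (dd 0 v : ℝ) ^ a * r ^ j := by
    intro j
    have hvj : ((2 ^ j : ℕ) : ℤ) • v ≠ 0 := by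
      intro h0
      have e1 := dd_zero_smul (2 ^ j) v
      rw [h0, dd_self] at e1
      have e2 : 1 ≤ 2 ^ j * dd 0 v := Nat.mul_pos (by positivity) (dd_pos hv)
      omega
    have h1 := hC0 _ hvj
    have e1 : (2:ℤ) • (((2 ^ j : ℕ) : ℤ) • v) = ((2 ^ (j + 1) : ℕ) : ℤ) • v := by
      rw [smul_smul]; congr 1; push_cast; ring
    rw [e1, dd_zero_smul] at h1
    push_cast at h1
    have e2 : ((2:ℝ) ^ j * (dd 0 v : ℝ)) ^ a = (2 ^ j * r ^ j) * (dd 0 v : ℝ) ^ a := by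
      rw [Real.mul_rpow (by positivity) hn0.le]
      congr 1
      rw [← Real.rpow_natCast 2 j, ← Real.rpow_mul (by norm_num), hr, ← Real.rpow_natCast _ j,
        ← Real.rpow_mul (by norm_num), ← Real.rpow_add (by norm_num)]
      congr 1; ring
    have h2 : C0 * ((2:ℝ) ^ j * (dd 0 v : ℝ)) ^ (b + ζ') ≤ C * ((2:ℝ) ^ j * (dd 0 v : ℝ)) ^ a := by
      rw [ha]
      gcongr
      exact le_max_left _ _
    rw [e2] at h1 h2
    have hp : (0:ℝ) < 2 ^ j := by positivity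
    rw [pow_succ (2:ℝ) j]
    have h3 : 2 * hm (((2 ^ j : ℕ) : ℤ) • v) ≤ hm (((2 ^ (j + 1) : ℕ) : ℤ) • v) +
        C * ((2 ^ j * r ^ j) * (dd 0 v : ℝ) ^ a) := by
      push_cast
      linarith
    have e3 : hm (((2 ^ (j + 1) : ℕ) : ℤ) • v) / (2 ^ j * 2) + C / 2 * (dd 0 v : ℝ) ^ a * r ^ j =
        (hm (((2 ^ (j + 1) : ℕ) : ℤ) • v) + C * ((2 ^ j * r ^ j) * (dd 0 v : ℝ) ^ a)) / (2 ^ j * 2) := by
      field_simp
    rw [e3, div_le_div_iff₀ hp (by positivity)]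
    nlinarith
  have hsum : ∀ J : ℕ, hm v ≤ hm (((2 ^ J : ℕ) : ℤ) • v) / 2 ^ J +
      C / 2 * (dd 0 v : ℝ) ^ a * ∑ j ∈ Finset.range J, r ^ j := by
    intro J
    induction J with
    | zero => simp
    | succ J ih =>
      rw [Finset.sum_range_succ]
      have := hstep J
      linarith
  have hgeo : ∀ J : ℕ, ∑ j ∈ Finset.range J, r ^ j ≤ 1 / (1 - r) := by
    intro J
    rw [geom_sum_eq hr1.ne, ← neg_div_neg_eq, neg_sub, neg_sub]
    have : 0 < 1 - r := by linarith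
    have h2 : 0 ≤ r ^ J := by positivity
    gcongr
    linarith
  have hK : ∀ J : ℕ, hm v - C / 2 / (1 - r) * (dd 0 v : ℝ) ^ a ≤ hm (((2 ^ J : ℕ) : ℤ) • v) / 2 ^ J := by
    intro J
    have h1 := hsum J
    have h2 := mul_le_mul_of_nonneg_left (hgeo J) (show 0 ≤ C / 2 * (dd 0 v : ℝ) ^ a by positivity)
    have h3 : C / 2 * (dd 0 v : ℝ) ^ a * (1 / (1 - r)) = C / 2 / (1 - r) * (dd 0 v : ℝ) ^ a := by ring
    linarith
  -- the limit
  have hlim : hm v - C / 2 / (1 - r) * (dd 0 v : ℝ) ^ a ≤ mz μ v := by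
    refine le_of_forall_pos_le_add fun ε hε => ?_
    -- a multiple of `v` whose mean is close to the time constant
    obtain ⟨C3, hC3, h3⟩ : ∃ C3 : ℝ, 0 < C3 ∧ ∀ u : ℤ × ℤ, u ≠ 0 →
        hm u ≤ mz μ u + C3 * (dd 0 u : ℝ) ^ (3 / 4 : ℝ) := by
      obtain ⟨C3, hC3, h3⟩ := pos_moment h (a := 3 / 4) (by norm_num)
        ((half h).2 (3 / 4) (by norm_num)) (p := 1) one_pos
      refine ⟨C3, hC3, fun u hu => ?_⟩
      obtain ⟨i1, i2⟩ := h3 u hu
      have e1 : hm u - mz μ u ≤ ∫ w, max (TT (pw w) 0 u - mz μ u) 0 ^ (1:ℝ) ∂nu := by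
        have e2 : hm u - mz μ u = ∫ w, (TT (pw w) 0 u - mz μ u) ∂nu := by
          rw [integral_sub (integrable_TT _ _) (integrable_const _)]
          simp [hm]
        rw [e2]
        refine integral_mono ((integrable_TT _ _).sub (integrable_const _)) i1 fun w => ?_
        show TT (pw w) 0 u - mz μ u ≤ max (TT (pw w) 0 u - mz μ u) 0 ^ (1:ℝ)
        rw [Real.rpow_one]
        exact le_max_left _ _
      rw [mul_one] at i2
      linarith
    have t1 : Tendsto (fun J : ℕ => C3 * (dd 0 v : ℝ) ^ (3 / 4 : ℝ) * ((2:ℝ) ^ (-(1 / 4) : ℝ)) ^ J)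
        atTop (nhds (C3 * (dd 0 v : ℝ) ^ (3 / 4 : ℝ) * 0)) := by
      refine Tendsto.const_mul _ (tendsto_pow_atTop_nhds_zero_of_lt_one (by positivity) ?_)
      exact Real.rpow_lt_one_of_one_lt_of_neg (by norm_num) (by norm_num)
    rw [mul_zero] at t1
    obtain ⟨J, hJ⟩ := (t1.eventually (gt_mem_nhds hε)).exists
    refine (hK J).trans ?_
    have hvJ : ((2 ^ J : ℕ) : ℤ) • v ≠ 0 := by
      intro h0
      have e1 := dd_zero_smul (2 ^ J) v
      rw [h0, dd_self] at e1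
      have e2 : 1 ≤ 2 ^ J * dd 0 v := Nat.mul_pos (by positivity) (dd_pos hv)
      omega
    have h4 := h3 _ hvJ
    rw [mz_smul h, dd_zero_smul] at h4
    push_cast at h4
    have hp : (0:ℝ) < 2 ^ J := by positivity
    have e2 : ((2:ℝ) ^ J * (dd 0 v : ℝ)) ^ (3 / 4 : ℝ) =
        2 ^ J * (((2:ℝ) ^ (-(1 / 4) : ℝ)) ^ J * (dd 0 v : ℝ) ^ (3 / 4 : ℝ)) := by
      rw [Real.mul_rpow (by positivity) hn0.le, ← mul_assoc]
      congr 1
      rw [← Real.rpow_natCast 2 J, ← Real.rpow_mul (by norm_num), ← Real.rpow_natCast _ J,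
        ← Real.rpow_mul (by norm_num), ← Real.rpow_add (by norm_num)]
      congr 1; ring
    rw [e2] at h4
    rw [div_le_iff₀ hp]
    push_cast
    nlinarith
  have hle : (dd 0 v : ℝ) ^ a ≤ (dd 0 v : ℝ) ^ (b + ζ) :=
    Real.rpow_le_rpow_of_exponent_le hn (by linarith)
  have hpos : 0 ≤ C / 2 / (1 - r) := by
    have : 0 < 1 - r := by linarith
    positivity
  have := mul_le_mul_of_nonneg_left hle hpos
  linarith

end Pool.Agent.H948
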