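import Pool.Agent.H948.Far

/-!
# End points which are reached early
-/

set_option autoImplicit false

open MeasureTheory ProbabilityTheory Filter Set
open scoped ENNReal Topology

namespace Pool.Agent.H948

open Q70.Fp
open Q69.FM (mu_add)

variable {μ : ℝ × ℝ → ℝ}

lemma far_wide (h : Shape μ) {a1 : ℝ} (ha1 : 1 / 2 < a1) : ∃ C : ℝ, 0 < C ∧
    ∀ (e : ℝ × ℝ) (n δ A : ℝ) (R : ℕ), 1 ≤ R → 0 < n → 0 < δ → 0 ≤ A →
      (R : ℝ) ^ a1 ≤ n * A / (12 * δ) →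
      nu.real {w | ∃ u, dd 0 u ≤ R ∧ n / 4 ≤ tc e u ∧ tc e u < |zc e u| ∧
        TT (pw w) 0 u < mz μ u - |zc e u| / (3 * δ) * A} ≤ C / R := by
  classical
  obtain ⟨κ, c, C, hκ, hc, hC, h1⟩ := Q69.FL.unifL h (by linarith) ((half h).1 a1 ha1)
  obtain ⟨C2, hC2, h2⟩ := exp_poly (3 / κ) (by positivity) hc
  refine ⟨9 * C * C2, by positivity, fun e n δ A R hR hn hδ hA hRa => ?_⟩
  have hR1 : (1:ℝ) ≤ R := by exact_mod_cast hR
  have hR0 : (0:ℝ) < R := by linarith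
  have hsub : {w : Ed → ℝ | ∃ u, dd 0 u ≤ R ∧ n / 4 ≤ tc e u ∧ tc e u < |zc e u| ∧
        TT (pw w) 0 u < mz μ u - |zc e u| / (3 * δ) * A} ⊆
      ⋃ u ∈ ball R 0, {w | TT (pw w) 0 u < mz μ u - (R : ℝ) ^ a1} := by
    rintro w ⟨u, u1, u2, u3, u4⟩
    simp only [Set.mem_iUnion]
    refine ⟨u, mem_ball.2 u1, ?_⟩
    have e1 : n * A / (12 * δ) ≤ |zc e u| / (3 * δ) * A := by
      have e2 : n * A / (12 * δ) = (n / 4) / (3 * δ) * A := by field_simp; ring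
      rw [e2]
      have : n / 4 ≤ |zc e u| := by linarith
      gcongr
    show TT (pw w) 0 u < mz μ u - (R : ℝ) ^ a1
    linarith
  refine (measureReal_mono hsub (measure_ne_top nu _)).trans
    ((measureReal_biUnion_finset_le _ _).trans ?_)
  have e1 : ((ball R 0).card : ℝ) ≤ 9 * (R : ℝ) ^ 2 := by
    have e2 : ((ball R 0).card : ℝ) ≤ ((2 * R + 1 : ℕ) : ℝ) ^ 2 := by exact_mod_cast card_ball R
    refine e2.trans ?_
    push_cast
    nlinarith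
  have e2 : Real.exp (-(c * (R : ℝ) ^ κ)) ≤ C2 * (1 / (R : ℝ) ^ 3) := by
    have e3 := h2 ((R : ℝ) ^ κ) (Real.one_le_rpow hR1 hκ.le)
    have e4 : ((R : ℝ) ^ κ) ^ (-(3 / κ)) = 1 / (R : ℝ) ^ 3 := by
      rw [← Real.rpow_mul hR0.le, show κ * -(3 / κ) = -((3:ℕ):ℝ) by field_simp; norm_num,
        Real.rpow_neg hR0.le, Real.rpow_natCast, one_div]
    rw [e4] at e3
    exact e3
  calc ∑ u ∈ ball R 0, nu.real {w | TT (pw w) 0 u < mz μ u - (R : ℝ) ^ a1} ≤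
      ∑ _u ∈ ball R 0, C * Real.exp (-(c * (R : ℝ) ^ κ)) :=
        Finset.sum_le_sum fun u hu => h1 R hR u (mem_ball.1 hu)
    _ = ((ball R 0).card : ℝ) * (C * Real.exp (-(c * (R : ℝ) ^ κ))) := by
        rw [Finset.sum_const, nsmul_eq_mul]
    _ ≤ 9 * (R : ℝ) ^ 2 * (C * (C2 * (1 / (R : ℝ) ^ 3))) := by gcongr
    _ = 9 * C * C2 / R := by field_simp

/-- some end point far from the segment is reached early -/
def Early (μ : ℝ × ℝ → ℝ) (e : ℝ × ℝ) (n δ : ℝ) (R : ℕ) (w : Ed → ℝ) : Prop :=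
  ∃ u, dd 0 u ≤ R ∧ n / 4 ≤ tc e u ∧ tc e u ≤ 3 / 4 * n ∧ 2 * δ * n ≤ |zc e u| ∧
    TT (pw w) 0 u < mz μ u - |zc e u| / (3 * δ) * Ac μ e δ

lemma measurable_Early (μ : ℝ × ℝ → ℝ) (e : ℝ × ℝ) (n δ : ℝ) (R : ℕ) :
    MeasurableSet {w | Early μ e n δ R w} := by
  classical
  have : {w | Early μ e n δ R w} = ⋃ u ∈ (ball R 0).filter (fun u => n / 4 ≤ tc e u ∧
      tc e u ≤ 3 / 4 * n ∧ 2 * δ * n ≤ |zc e u|),
      {w | TT (pw w) 0 u < mz μ u - |zc e u| / (3 * δ) * Ac μ e δ} := by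
    ext w
    simp only [Early, Set.mem_ofPred_eq, Set.mem_iUnion, Finset.mem_filter, mem_ball, exists_prop,
      and_assoc]
  rw [this]
  exact Finset.measurableSet_biUnion _ fun u _ =>
    measurableSet_lt (measurable_TT _ _) measurable_const

/-- the width -/
noncomputable def wd (b ε : ℝ) (n : ℕ) : ℝ := (n : ℝ) ^ ((b - 1) / 2 + ε)

lemma early_small (h : Shape μ) {b ε : ℝ} (hb : 0 < b) (hε : 0 < ε) (hbε : b + ε ≤ 1 / 2)
    (hH : HH μ (b + ε)) : ∀ᶠ n : ℕ in atTop, ∀ e ∈ Cir,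
      (∀ e' ∈ Cir, Ac μ e' (wd b ε n) ≤ Ac μ e (wd b ε n)) →
      nu.real {w | Early μ e n (wd b ε n) (140 * n) w} ≤ 1 / 16 := by
  obtain ⟨c0, hc0, hc01, p, hp, hcurv⟩ := curv_low h
  obtain ⟨C1, hC1, h1⟩ := far_narrow h (a := b + ε) (by linarith) hbε hH
  obtain ⟨C2, hC2, h2⟩ := far_wide h (a1 := 1 / 2 + b / 4) (by linarith)
  have E1 := pow_small (c := 0) (a := b + 2 * ε) (K := 150 / c0) (by linarith)
  have E2 := pow_small (c := 1 - (b + 2 * ε) / (b + ε)) (a := 0)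
    (K := 8 * (C1 * c0 ^ (-(1 / (b + ε))))) (by
      rw [sub_neg, lt_div_iff₀ (by linarith)]; linarith)
  have E3 := pow_small (c := 1 / 2 + b / 4) (a := (1 + b) / 2 + ε)
    (K := 3 * 140 ^ (1 / 2 + b / 4) / c0) (by linarith)
  have E4 := pow_small (c := -1) (a := 0) (K := 8 * C2) (by norm_num)
  filter_upwards [E1, E2, E3, E4, eventually_ge_atTop 8] with n F1 F2 F3 F4 hn e he hmax
  have hn8 : (8:ℝ) ≤ n := by exact_mod_cast hn
  have hn0 : (0:ℝ) < n := by linarith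
  have hn1 : (1:ℝ) ≤ n := by linarith
  set δ : ℝ := wd b ε n with hδ
  set A : ℝ := Ac μ e δ with hA
  have hδ0 : 0 < δ := by rw [hδ, wd]; positivity
  have hδ1 : δ ≤ 1 := by
    rw [hδ, wd]
    exact Real.rpow_le_one_of_one_le_of_nonpos hn1 (by linarith)
  have hAlow : c0 * δ ^ 2 ≤ A := (hcurv δ hδ0.le hδ1).trans (hmax p hp)
  have hδ2 : (n : ℝ) * δ ^ 2 = (n : ℝ) ^ (b + 2 * ε) := by
    rw [hδ, wd, ← Real.rpow_natCast _ 2, ← Real.rpow_mul hn0.le]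
    conv_lhs => rw [← Real.rpow_one (n : ℝ)]
    rw [← Real.rpow_mul hn0.le, ← Real.rpow_add hn0]
    congr 1; push_cast; ring
  have hδ3 : (n : ℝ) * δ = (n : ℝ) ^ ((1 + b) / 2 + ε) := by
    rw [hδ, wd]
    conv_lhs => rw [← Real.rpow_one (n : ℝ)]
    rw [← Real.rpow_mul hn0.le, ← Real.rpow_add hn0]
    congr 1; push_cast; ring
  have hnA : c0 * (n : ℝ) ^ (b + 2 * ε) ≤ n * A := by
    rw [← hδ2]; nlinarith
  have hA0 : 0 ≤ A := Ac_nonneg h e δ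
  have hnA1 : 600 ≤ (n:ℝ) * A := by
    rw [Real.rpow_zero, mul_one] at F1
    have e1 : c0 * (4 * (150 / c0)) ≤ c0 * (n : ℝ) ^ (b + 2 * ε) := by
      apply mul_le_mul_of_nonneg_left _ hc0.le
      linarith
    have e2 : c0 * (4 * (150 / c0)) = 600 := by field_simp; norm_num
    linarith
  have hnar := h1 e he n δ A hn8 hδ0 hδ1 hmax hnA1
  have hnar2 : C1 * ((n:ℝ) * ((n:ℝ) * A) ^ (-(1 / (b + ε)))) ≤ 1 / 32 := by
    have e1 : ((n:ℝ) * A) ^ (-(1 / (b + ε))) ≤ (c0 * (n : ℝ) ^ (b + 2 * ε)) ^ (-(1 / (b + ε))) :=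
      Real.rpow_le_rpow_of_nonpos (by positivity) hnA (by
        rw [neg_nonpos]; have : 0 < b + ε := by linarith
        positivity)
    have e2 : (n:ℝ) * (c0 * (n : ℝ) ^ (b + 2 * ε)) ^ (-(1 / (b + ε))) =
        c0 ^ (-(1 / (b + ε))) * (n:ℝ) ^ (1 - (b + 2 * ε) / (b + ε)) := by
      rw [Real.mul_rpow hc0.le (by positivity), ← Real.rpow_mul hn0.le, mul_left_comm]
      congr 1
      conv_lhs => enter [1]; rw [← Real.rpow_one (n : ℝ)]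
      rw [← Real.rpow_add hn0]
      congr 1; ring
    rw [Real.rpow_zero] at F2
    calc C1 * ((n:ℝ) * ((n:ℝ) * A) ^ (-(1 / (b + ε)))) ≤
        C1 * ((n:ℝ) * (c0 * (n : ℝ) ^ (b + 2 * ε)) ^ (-(1 / (b + ε)))) := by gcongr
      _ = C1 * c0 ^ (-(1 / (b + ε))) * (n:ℝ) ^ (1 - (b + 2 * ε) / (b + ε)) := by rw [e2]; ring
      _ ≤ 1 / 32 := by linarith
  have hwide := h2 e n δ A (140 * n) (by omega) hn0 hδ0 hA0 (by
    push_cast
    rw [Real.mul_rpow (by norm_num) hn0.le]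
    have e1 : c0 * (n : ℝ) ^ ((1 + b) / 2 + ε) / 12 ≤ n * A / (12 * δ) := by
      rw [← hδ3, div_le_div_iff₀ (by norm_num) (by positivity)]
      nlinarith
    have e2 : c0 * (4 * (3 * 140 ^ (1 / 2 + b / 4) / c0 * (n : ℝ) ^ (1 / 2 + b / 4))) ≤
        c0 * (n : ℝ) ^ ((1 + b) / 2 + ε) := by
      apply mul_le_mul_of_nonneg_left _ hc0.le
      linarith
    have e3 : c0 * (4 * (3 * 140 ^ (1 / 2 + b / 4) / c0 * (n : ℝ) ^ (1 / 2 + b / 4))) =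
        12 * (140 ^ (1 / 2 + b / 4) * (n : ℝ) ^ (1 / 2 + b / 4)) := by field_simp; ring
    linarith)
  have hwide2 : C2 / ((140 * n : ℕ) : ℝ) ≤ 1 / 32 := by
    rw [Real.rpow_zero, Real.rpow_neg_one] at F4
    have e1 : C2 / ((140 * n : ℕ) : ℝ) ≤ C2 * (n:ℝ)⁻¹ := by
      rw [← div_eq_mul_inv]
      push_cast
      gcongr
      linarith
    linarith
  have hsub : {w | Early μ e n δ (140 * n) w} ⊆
      {w | ∃ u, (n:ℝ) / 4 ≤ tc e u ∧ tc e u ≤ 3 / 4 * n ∧ 2 * δ * n ≤ |zc e u| ∧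
        |zc e u| ≤ tc e u ∧ TT (pw w) 0 u < mz μ u - |zc e u| / (3 * δ) * A} ∪
      {w | ∃ u, dd 0 u ≤ 140 * n ∧ (n:ℝ) / 4 ≤ tc e u ∧ tc e u < |zc e u| ∧
        TT (pw w) 0 u < mz μ u - |zc e u| / (3 * δ) * A} := by
    rintro w ⟨u, u1, u2, u3, u4, u5⟩
    rcases le_or_gt |zc e u| (tc e u) with hle | hlt
    · exact Or.inl ⟨u, u2, u3, u4, hle, u5⟩
    · exact Or.inr ⟨u, u1, u2, hlt, u5⟩
  refine (measureReal_mono hsub (measure_ne_top nu _)).trans ((measureReal_union_le _ _).trans ?_)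
  linarith

end Pool.Agent.H948
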