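import Pool.Agent.H948.Cells

/-!
# Deterministic relations between the events
-/

set_option autoImplicit false

open MeasureTheory ProbabilityTheory Filter Set
open scoped ENNReal Topology Pointwise

namespace Pool.Agent.H948

open Q70.Fp
open Q69.FL (Se Ll)

variable {μ : ℝ × ℝ → ℝ}

/-- the limit shape -/
def Sh (μ : ℝ × ℝ → ℝ) : Set (ℝ × ℝ) := {x | μ x ≤ 1}

/-- the fattened cluster leaves the dilate by `c` -/
def pOut (μ : ℝ × ℝ → ℝ) (T : ℤ × ℤ → ℝ) (c t : ℝ) : Prop := ¬ (Fat {v | T v ≤ t} ⊆ c • Sh μ)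

/-- the fattened cluster misses a part of the dilate by `c` -/
def pInn (μ : ℝ × ℝ → ℝ) (T : ℤ × ℤ → ℝ) (c t : ℝ) : Prop := ¬ (c • Sh μ ⊆ Fat {v | T v ≤ t})

/-- the fattened cluster is not `s`-close to any dilate -/
def pDil (μ : ℝ × ℝ → ℝ) (T : ℤ × ℤ → ℝ) (s t : ℝ) : Prop :=
  ¬ ∃ r : ℝ, s < r ∧ (r - s) • Sh μ ⊆ Fat {v | T v ≤ t} ∧ Fat {v | T v ≤ t} ⊆ (r + s) • Sh μ

/-- the cluster is not `s`-close to its mirror image -/
def pSym (T : ℤ × ℤ → ℝ) (s t : ℝ) : Prop :=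
  ∃ v : ℤ × ℤ, T v ≤ t ∧ ∀ u : ℤ × ℤ, T u ≤ t → s < (dd u (-v) : ℝ)

/-- the first `N` cells are not close to the dilate of area `N` -/
noncomputable def rad (μ : ℝ × ℝ → ℝ) (N : ℕ) : ℝ := Real.sqrt (N / area μ)

def pCell (μ : ℝ × ℝ → ℝ) (T : ℤ × ℤ → ℝ) (κ : ℝ) (N : ℕ) : Prop :=
  ¬ (((1 - κ) * rad μ N) • Sh μ ⊆ Fat (Cells T N) ∧ Fat (Cells T N) ⊆ ((1 + κ) * rad μ N) • Sh μ)

lemma dil_of {T : ℤ × ℤ → ℝ} {s t : ℝ} (hst : s < t) (h1 : ¬ pOut μ T (t + s) t)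
    (h2 : ¬ pInn μ T (t - s) t) : ¬ pDil μ T s t := by
  simp only [pOut, pInn, pDil, not_not] at *
  exact ⟨t, hst, h2, h1⟩

lemma sym_of (h : Shape μ) {T : ℤ × ℤ → ℝ} {s s' t : ℝ} (hs : 0 ≤ s) (hss : 44 * s + 1 ≤ s')
    (h1 : ¬ pDil μ T s t) : ¬ pSym T s' t := by
  simp only [pDil, not_not] at h1
  obtain ⟨r, hr, h2, h3⟩ := h1
  rintro ⟨v, hv, hu⟩
  obtain ⟨u, hu1, hu2⟩ := sym_of_dilate h hs hr h2 h3 (v := v) hv
  have := hu u hu1
  linarith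

/-- a bounded cluster is finite -/
lemma fin_of_out (h : Shape μ) {T : ℤ × ℤ → ℝ} {c t : ℝ} (hc : 0 < c) (h1 : ¬ pOut μ T c t) :
    ∃ A : Finset (ℤ × ℤ), (A : Set (ℤ × ℤ)) = {v | T v ≤ t} := by
  simp only [pOut, not_not] at h1
  have h2 : {v | T v ≤ t} ⊆ ((ball ⌈22 * c⌉₊ 0 : Finset (ℤ × ℤ)) : Set (ℤ × ℤ)) := by
    intro v hv
    have h3 := h1 (mem_Fat hv)
    have h4 := (Q69.FL.mem_smul_iff h hc _).1 h3
    change mz μ v ≤ c at h4
    have h5 := mz_low h v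
    rw [Finset.mem_coe, mem_ball]
    have h6 : (dd 0 v : ℝ) ≤ ⌈22 * c⌉₊ := (by linarith : (dd 0 v : ℝ) ≤ 22 * c).trans (Nat.le_ceil _)
    exact_mod_cast h6
  have hfin : {v | T v ≤ t}.Finite := (Finset.finite_toSet _).subset h2
  exact ⟨hfin.toFinset, by simp⟩

lemma rad_sq (h : Shape μ) (N : ℕ) : rad μ N ^ 2 * area μ = N := by
  have h1 := area_pos h
  rw [rad, Real.sq_sqrt (by positivity)]
  field_simp

lemma cell_of (h : Shape μ) {T : ℤ × ℤ → ℝ} {κ t1 s1 t2 s2 : ℝ} {N : ℕ}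
    (h1 : ¬ pOut μ T (t1 + s1) t1) (h2 : ¬ pInn μ T (t1 - s1) t1)
    (h3 : ¬ pOut μ T (t2 + s2) t2) (h4 : ¬ pInn μ T (t2 - s2) t2)
    (e0 : 0 < (1 - κ) * rad μ N) (e1 : rad μ N ≤ t1 - s1) (e2 : t1 + s1 ≤ (1 + κ) * rad μ N)
    (e3 : t2 + s2 < rad μ N) (e4 : (1 - κ) * rad μ N ≤ t2 - s2) (hs1 : 0 ≤ s1) (hs2 : 0 ≤ s2) :
    ¬ pCell μ T κ N := by
  have hr0 : 0 ≤ rad μ N := Real.sqrt_nonneg _
  have ha := area_pos h
  have hN := rad_sq h N
  have hr1 : 0 < rad μ N := by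
    rcases hr0.lt_or_eq with hr | hr
    · exact hr
    · rw [← hr, mul_zero] at e0
      exact absurd e0 (lt_irrefl _)
  obtain ⟨A1, hA1⟩ := fin_of_out h (by linarith) h1
  obtain ⟨A2, hA2⟩ := fin_of_out h (by linarith) h3
  simp only [pOut, pInn, not_not] at h1 h2 h3 h4
  simp only [pCell, not_not]
  constructor
  · -- the second time
    have g1 : (A2.card : ℝ) ≤ (t2 + s2) ^ 2 * area μ := by
      apply card_le_of_sub h
      rw [hA2]; exact h3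
    have g2 : (A2.card : ℝ) < N := by
      rw [← hN]
      refine lt_of_le_of_lt g1 (mul_lt_mul_of_pos_right ?_ ha)
      exact pow_lt_pow_left₀ e3 (by linarith) (by norm_num)
    have g3 : A2.card < N := by exact_mod_cast g2
    have g4 := Fat_mono (sub_cells A2 hA2 g3)
    exact (smul_mono h e0 e4).trans (h4.trans g4)
  · have g1 : (t1 - s1) ^ 2 * area μ ≤ A1.card := by
      apply le_card_of_sub h
      rw [hA1]; exact h2
    have g2 : (N:ℝ) ≤ A1.card := by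
      rw [← hN]
      refine le_trans (mul_le_mul_of_nonneg_right ?_ ha.le) g1
      exact pow_le_pow_left₀ hr0 e1 2
    have g3 : N ≤ A1.card := by exact_mod_cast g2
    have g4 := Fat_mono (cells_sub A1 hA1 g3)
    exact (g4.trans h1).trans (smul_mono h (by linarith) e2)

lemma dil_of_cell (h : Shape μ) {T : ℤ × ℤ → ℝ} {κ s t : ℝ} (A : Finset (ℤ × ℤ))
    (hA : (A : Set (ℤ × ℤ)) = {v | T v ≤ t}) (h1 : ¬ pCell μ T κ A.card) (hκ : 0 ≤ κ)
    (hs : κ * rad μ A.card ≤ s) (hsr : s < rad μ A.card) : ¬ pDil μ T s t := by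
  simp only [pCell, not_not] at h1
  simp only [pDil, not_not]
  rw [cells_eq A hA] at h1
  have hr0 : 0 ≤ rad μ A.card := Real.sqrt_nonneg _
  refine ⟨rad μ A.card, hsr, ?_, ?_⟩
  · refine Subset.trans (smul_mono h (by linarith) ?_) h1.1
    linarith
  · refine h1.2.trans (smul_mono h ?_ ?_)
    · have : 0 ≤ s := le_trans (by positivity) hs
      have h2 : 0 < rad μ A.card := by linarith
      positivity
    · linarith

end Pool.Agent.H948
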