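import Pool.Agent.H948.Chain

/-!
# The error of the additive approximation, and two parallel tracks
-/

set_option autoImplicit false

open MeasureTheory ProbabilityTheory Filter Set
open scoped ENNReal Topology

namespace Pool.Agent.H948

open Q70.Fp
open Q69.FM (hm sq_up TB_sh)

/-- the multiple `k ^ j v` -/
def kv (v : ℤ × ℤ) (k j : ℕ) : ℤ × ℤ := ((k ^ j : ℕ) : ℤ) • v

lemma kv_succ (v : ℤ × ℤ) (k j : ℕ) : kv v k (j + 1) = (k:ℤ) • kv v k j := by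
  unfold kv
  rw [smul_smul]
  congr 1
  push_cast; ring

lemma kv_zero (v : ℤ × ℤ) (k : ℕ) : kv v k 0 = v := by
  unfold kv; simp

lemma dd_kv (v : ℤ × ℤ) (k j : ℕ) : dd 0 (kv v k j) = k ^ j * dd 0 v := dd_zero_smul _ _

/-- the error -/
noncomputable def Ze (v : ℤ × ℤ) (k j : ℕ) (x : ℤ × ℤ) (w : Ed → ℝ) : ℝ :=
  (Bk (kv v k j) x w - fb (kv v k j)) - Sc v k j x w

/-- the defect of subadditivity -/
noncomputable def Df (u : ℤ × ℤ) (k : ℕ) (x : ℤ × ℤ) (w : Ed → ℝ) : ℝ :=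
  ∑ l ∈ Finset.range k, Bk u (x + (l:ℤ) • u) w - Bk ((k:ℤ) • u) x w

lemma Df_nonneg (u x : ℤ × ℤ) {k : ℕ} (hk : 2 ≤ k) (w : Ed → ℝ) : 0 ≤ Df u k x w :=
  sub_nonneg.2 (Bk_chain u x hk w)

lemma memLp_sum (k : ℕ) {Z : ℕ → (Ed → ℝ) → ℝ} (hZ : ∀ l, MemLp (Z l) 2 nu) :
    MemLp (fun w => ∑ l ∈ Finset.range k, Z l w) 2 nu := by
  have := memLp_finsetSum (μ := nu) (p := 2) (Finset.range k) (f := Z) (fun l _ => hZ l)
  refine this.ae_eq (Eventually.of_forall fun w => ?_)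
  simp

lemma memLp_Df (u : ℤ × ℤ) (k : ℕ) (x : ℤ × ℤ) : MemLp (Df u k x) 2 nu :=
  (memLp_sum k fun _ => memLp_Bk u _).sub (memLp_Bk _ x)

lemma measurable_Df (u : ℤ × ℤ) (k : ℕ) (x : ℤ × ℤ) : Measurable (Df u k x) :=
  (Finset.measurable_sum _ fun l _ => measurable_Bk u _).sub (measurable_Bk _ x)

lemma int_Df (u : ℤ × ℤ) (k : ℕ) (x : ℤ × ℤ) : ∫ w, Df u k x w ∂nu = k * fb u - fb ((k:ℤ) • u) := by
  unfold Df
  rw [integral_sub ((memLp_sum k fun _ => memLp_Bk u _).integrable one_le_two)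
    ((memLp_Bk _ x).integrable one_le_two), int_Bk,
    integral_finsetSum _ fun l _ => (memLp_Bk u _).integrable one_le_two]
  simp only [int_Bk, Finset.sum_const, Finset.card_range, nsmul_eq_mul]

lemma memLp_Ze (v : ℤ × ℤ) (k j : ℕ) (x : ℤ × ℤ) : MemLp (Ze v k j x) 2 nu :=
  ((memLp_Bk _ x).sub (memLp_const _)).sub (memLp_Sc v k j x)

lemma measurable_Ze (v : ℤ × ℤ) (k j : ℕ) (x : ℤ × ℤ) : Measurable (Ze v k j x) :=
  ((measurable_Bk _ x).sub measurable_const).sub (measurable_Sc v k j x)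

lemma int_Ze (v : ℤ × ℤ) (k j : ℕ) (x : ℤ × ℤ) : ∫ w, Ze v k j x w ∂nu = 0 := by
  unfold Ze
  have i1 : Integrable (fun w => Bk (kv v k j) x w - fb (kv v k j)) nu :=
    ((memLp_Bk _ x).sub (memLp_const _)).integrable one_le_two
  rw [integral_sub i1 ((memLp_Sc v k j x).integrable one_le_two),
    integral_sub ((memLp_Bk _ x).integrable one_le_two) (integrable_const _), int_Bk, int_Sc]
  simp

lemma Ze_sh (v : ℤ × ℤ) (k j : ℕ) (a x : ℤ × ℤ) (w : Ed → ℝ) :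
    Ze v k j x (sh a w) = Ze v k j (x + a) w := by
  unfold Ze
  rw [Bk_sh, Sc_sh]

lemma SE_sub {v : ℤ × ℤ} {N : ℕ} (hN : 1 ≤ N) (x : ℤ × ℤ) :
    SE v N x ⊆ (be (67 * (N * dd 0 v)) x : Set Ed) := by
  rintro e ⟨i, hi, he⟩
  induction e using Sym2.ind with
  | h a b =>
  rw [Finset.mem_coe]
  rw [mem_be] at he ⊢
  have e1 : dd x (x + (i:ℤ) • v) = i * dd 0 v := by rw [dd_add_right, dd_zero_smul]
  have e2 := dd_tri x (x + (i:ℤ) • v) a
  have e3 := dd_tri x (x + (i:ℤ) • v) b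
  have e4 : i * dd 0 v ≤ N * dd 0 v := Nat.mul_le_mul_right _ hi.le
  have e5 : dd 0 v ≤ N * dd 0 v := Nat.le_mul_of_pos_left _ hN
  constructor <;> omega

lemma Ze_dep (v : ℤ × ℤ) {k : ℕ} (hk : 1 ≤ k) (j : ℕ) (x : ℤ × ℤ) (w w' : Ed → ℝ)
    (h : ∀ e ∈ be (67 * (k ^ j * dd 0 v)) x, w e = w' e) : Ze v k j x w = Ze v k j x w' := by
  have hk1 : 1 ≤ k ^ j := Nat.one_le_pow _ _ hk
  have e1 : Bk (kv v k j) x w = Bk (kv v k j) x w' := by
    refine Bk_dep fun e he => h e ?_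
    induction e using Sym2.ind with
    | h a b =>
    rw [dd_kv, mem_be] at he
    rw [mem_be]
    omega
  have e2 : Sg v k j x w = Sg v k j x w' :=
    Sg_dep v k j x w w' fun e he => h e (SE_sub hk1 x he)
  unfold Ze Sc
  rw [e1, e2]

lemma Ze_orth (v : ℤ × ℤ) {k : ℕ} (hk : 1 ≤ k) (j : ℕ) {x x' : ℤ × ℤ}
    (h : 2 * (67 * (k ^ j * dd 0 v)) < dd x x') : ∫ w, Ze v k j x w * Ze v k j x' w ∂nu = 0 := by
  rw [integral_mul_disj _ _ (be_disj h) (measurable_Ze v k j x) (measurable_Ze v k j x')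
    (Ze_dep v hk j x) (Ze_dep v hk j x'), int_Ze, zero_mul]

lemma Ze_succ (v : ℤ × ℤ) (k j : ℕ) (x : ℤ × ℤ) (w : Ed → ℝ) :
    Ze v k (j + 1) x w = ∑ l ∈ Finset.range k, Ze v k j (x + (l:ℤ) • kv v k j) w -
      (Df (kv v k j) k x w - ∫ w, Df (kv v k j) k x w ∂nu) := by
  rw [int_Df]
  simp only [Ze, Sc, Sg, Df, kv_succ, Finset.sum_sub_distrib, Finset.sum_const, Finset.card_range,
    nsmul_eq_mul]
  have e1 : ∀ l : ℕ, x + (l:ℤ) • (((k ^ j : ℕ) : ℤ) • v) = x + (l:ℤ) • kv v k j := fun l => rfl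
  simp only [e1]
  ring

lemma centred_sq {F : (Ed → ℝ) → ℝ} (hF : MemLp F 2 nu) :
    ∫ w, (F w - ∫ w, F w ∂nu) ^ 2 ∂nu ≤ ∫ w, F w ^ 2 ∂nu := by
  set c : ℝ := ∫ w, F w ∂nu with hc
  have i1 := hF.integrable_sq
  have i2 := hF.integrable one_le_two
  have e1 : (fun w => (F w - c) ^ 2) = fun w => F w ^ 2 - (2 * c * F w - c ^ 2) := by
    funext w; ring
  have i3 : Integrable (fun w => 2 * c * F w - c ^ 2) nu := (i2.const_mul _).sub (integrable_const _)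
  rw [e1, integral_sub i1 i3, integral_sub (i2.const_mul _) (integrable_const _),
    integral_const_mul, ← hc]
  simp only [integral_const, probReal_univ, smul_eq_mul, one_mul]
  nlinarith [sq_nonneg c]

lemma Ze_step {v : ℤ × ℤ} (hv : v ≠ 0) {k : ℕ} (hk : 1 ≤ k) (j : ℕ) :
    ∫ w, Ze v k (j + 1) 0 w ^ 2 ∂nu ≤
      540 * k * ∫ w, Ze v k j 0 w ^ 2 ∂nu + 2 * ∫ w, Df (kv v k j) k 0 w ^ 2 ∂nu := by
  set A : (Ed → ℝ) → ℝ := fun w => ∑ l ∈ Finset.range k, Ze v k j (0 + (l:ℤ) • kv v k j) w with hA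
  set B : (Ed → ℝ) → ℝ := fun w => Df (kv v k j) k 0 w - ∫ w, Df (kv v k j) k 0 w ∂nu with hB
  have mA : MemLp A 2 nu := memLp_sum k fun l => memLp_Ze v k j _
  have mB : MemLp B 2 nu := (memLp_Df _ k 0).sub (memLp_const _)
  have e1 : ∫ w, Ze v k (j + 1) 0 w ^ 2 ∂nu ≤ ∫ w, (2 * A w ^ 2 + 2 * B w ^ 2) ∂nu := by
    refine integral_mono (memLp_Ze v k (j + 1) 0).integrable_sq
      ((mA.integrable_sq.const_mul 2).add (mB.integrable_sq.const_mul 2)) fun w => ?_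
    have : Ze v k (j + 1) 0 w = A w - B w := Ze_succ v k j 0 w
    show Ze v k (j + 1) 0 w ^ 2 ≤ 2 * A w ^ 2 + 2 * B w ^ 2
    rw [this]
    nlinarith [sq_nonneg (A w + B w)]
  rw [integral_add (mA.integrable_sq.const_mul 2) (mB.integrable_sq.const_mul 2),
    integral_const_mul, integral_const_mul] at e1
  have e2 : ∫ w, A w ^ 2 ∂nu ≤ 270 * k * ∫ w, Ze v k j 0 w ^ 2 ∂nu := by
    refine sum_sq_le k (fun l => Ze v k j (0 + (l:ℤ) • kv v k j)) (fun l => memLp_Ze v k j _)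
      (integral_nonneg fun w => sq_nonneg _) (fun l => ?_) (fun l m hlm => ?_)
    · refine le_of_eq (sq_sh _ (measurable_Ze v k j 0) (fun y w => ?_))
      exact Ze_sh v k j _ y w
    · refine Ze_orth v hk j ?_
      have h1 : dd (0 + (l:ℤ) • kv v k j) (0 + (m:ℤ) • kv v k j) = (m - l) * dd 0 (kv v k j) := by
        have e3 : (0:ℤ × ℤ) + (m:ℤ) • kv v k j =
            (0 + (l:ℤ) • kv v k j) + ((m - l : ℕ) : ℤ) • kv v k j := by
          rw [zero_add, zero_add, ← add_smul]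
          congr 1
          omega
        rw [e3, dd_add_right, dd_zero_smul]
      rw [h1, dd_kv]
      have h2 : 1 ≤ k ^ j * dd 0 v := Nat.mul_pos (Nat.one_le_pow _ _ hk) (dd_pos hv)
      have h3 : 135 ≤ m - l := by omega
      calc 2 * (67 * (k ^ j * dd 0 v)) < 135 * (k ^ j * dd 0 v) := by omega
        _ ≤ (m - l) * (k ^ j * dd 0 v) := Nat.mul_le_mul_right _ h3
  have e3 : ∫ w, B w ^ 2 ∂nu ≤ ∫ w, Df (kv v k j) k 0 w ^ 2 ∂nu := centred_sq (memLp_Df _ k 0)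
  linarith

lemma Ze_zero (v : ℤ × ℤ) (k : ℕ) (x : ℤ × ℤ) (w : Ed → ℝ) : Ze v k 0 x w = 0 := by
  simp [Ze, Sc, Sg, kv_zero]

lemma Ze_bound {v : ℤ × ℤ} (hv : v ≠ 0) {k : ℕ} (hk : 1 ≤ k) {E : ℝ} (hE : 0 ≤ E) (J : ℕ)
    (hD : ∀ j < J, ∫ w, Df (kv v k j) k 0 w ^ 2 ∂nu ≤ (k:ℝ) ^ j * E) :
    ∫ w, Ze v k J 0 w ^ 2 ∂nu ≤ (542 * (k:ℝ)) ^ J * E := by
  have hk1 : (1:ℝ) ≤ k := by exact_mod_cast hk
  induction J with
  | zero => simpa [Ze_zero] using hE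
  | succ J ih =>
    have h1 := ih fun j hj => hD j (by omega)
    have h2 := hD J (by omega)
    have h3 := Ze_step hv hk J
    have h4 : (k:ℝ) ^ J ≤ k * (542 * (k:ℝ)) ^ J := by
      calc (k:ℝ) ^ J ≤ (542 * (k:ℝ)) ^ J := pow_le_pow_left₀ (by positivity) (by linarith) J
        _ = 1 * (542 * (k:ℝ)) ^ J := by ring
        _ ≤ k * (542 * (k:ℝ)) ^ J := by gcongr
    calc ∫ w, Ze v k (J + 1) 0 w ^ 2 ∂nu
        ≤ 540 * k * ((542 * (k:ℝ)) ^ J * E) + 2 * ((k:ℝ) ^ J * E) := by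
          refine h3.trans (add_le_add ?_ ?_)
          · gcongr
          · gcongr
      _ ≤ 540 * k * ((542 * (k:ℝ)) ^ J * E) + 2 * (k * (542 * (k:ℝ)) ^ J * E) := by gcongr
      _ = (542 * (k:ℝ)) ^ (J + 1) * E := by ring

/-! ### two parallel tracks -/

/-- the shift of the second track -/
def uv (v : ℤ × ℤ) : ℤ × ℤ := (-(200 * v.2), 200 * v.1)

lemma dd_uv (v : ℤ × ℤ) : dd 0 (uv v) = 200 * dd 0 v := by
  simp only [dd, uv, Prod.fst_zero, Prod.snd_zero, sub_zero]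
  omega

lemma track_dist (v : ℤ × ℤ) (i j : ℕ) :
    2 * (66 * dd 0 v) < dd ((i:ℤ) • v) (uv v + (j:ℤ) • v) ∨ v = 0 := by
  by_cases hv : v = 0
  · exact Or.inr hv
  left
  set m : ℤ := (j:ℤ) - i with hm
  set A : ℤ := (-(200 * v.2)) + m * v.1 with hA
  set B : ℤ := 200 * v.1 + m * v.2 with hB
  have h1 : dd ((i:ℤ) • v) (uv v + (j:ℤ) • v) = A.natAbs + B.natAbs := by
    simp only [dd, uv, Prod.fst_add, Prod.snd_add, Prod.smul_fst, Prod.smul_snd, smul_eq_mul]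
    rw [hA, hB, hm]
    congr 2 <;> ring
  have h2 : dd 0 v = v.1.natAbs + v.2.natAbs := by
    simp [dd]
  have h3 : A ^ 2 + B ^ 2 = (200 ^ 2 + m ^ 2) * (v.1 ^ 2 + v.2 ^ 2) := by
    rw [hA, hB]; ring
  have hn : 1 ≤ dd 0 v := dd_pos hv
  rw [h1]
  by_contra hc
  push Not at hc
  zify at hc h2 hn
  have e1 : A ^ 2 = |A| ^ 2 := (sq_abs A).symm
  have e2 : B ^ 2 = |B| ^ 2 := (sq_abs B).symm
  have e3 : v.1 ^ 2 = |v.1| ^ 2 := (sq_abs _).symm
  have e4 : v.2 ^ 2 = |v.2| ^ 2 := (sq_abs _).symm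
  have a0 := abs_nonneg A
  have b0 := abs_nonneg B
  have c0 := abs_nonneg v.1
  have d0 := abs_nonneg v.2
  rw [h2] at hc hn
  rw [e1, e2, e3, e4] at h3
  have h4 : |A| ^ 2 + |B| ^ 2 ≤ (2 * (66 * (|v.1| + |v.2|))) ^ 2 := by nlinarith
  have h5 : 200 ^ 2 * (|v.1| ^ 2 + |v.2| ^ 2) ≤ (200 ^ 2 + m ^ 2) * (|v.1| ^ 2 + |v.2| ^ 2) := by
    nlinarith [sq_nonneg m, sq_nonneg |v.1|, sq_nonneg |v.2|, mul_nonneg (sq_nonneg m) (sq_nonneg |v.1|),
      mul_nonneg (sq_nonneg m) (sq_nonneg |v.2|)]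
  nlinarith [sq_nonneg (|v.1| - |v.2|)]

lemma Sc_orth {v : ℤ × ℤ} (hv : v ≠ 0) (k j : ℕ) :
    ∫ w, Sc v k j 0 w * Sc v k j (uv v) w ∂nu = 0 := by
  have h := integral_mul_set (SE v (k ^ j) 0) (measurable_Sc v k j 0) (measurable_Sc v k j (uv v))
    (fun w w' hw => by unfold Sc; rw [Sg_dep v k j 0 w w' hw])
    (fun w w' hw => by
      unfold Sc
      rw [Sg_dep v k j (uv v) w w' fun e he => hw e ?_]
      rintro ⟨i, hi, h1⟩
      obtain ⟨i', hi', h2⟩ := he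
      rcases track_dist v i i' with h3 | h3
      · rw [zero_add] at h1
        exact (Finset.disjoint_left.1 (be_disj h3)) h1 h2
      · exact hv h3)
  rw [h, int_Sc, zero_mul]

lemma TT_shift (x u : ℤ × ℤ) : ∫ w, TT (pw w) x (x + u) ^ 2 ∂nu = ∫ w, TT (pw w) 0 u ^ 2 ∂nu := by
  rw [← int_sh x ((measurable_TT 0 u).pow_const 2)]
  refine integral_congr_ae (Eventually.of_forall fun w => ?_)
  show TT (pw w) x (x + u) ^ 2 = TT (pw (sh x w)) 0 u ^ 2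
  rw [TT_sh, zero_add, add_comm u x]

lemma track_diff : ∃ C : ℝ, 0 < C ∧ ∀ v : ℤ × ℤ, v ≠ 0 → ∀ u : ℤ × ℤ, u ≠ 0 →
    ∫ w, (Bk u 0 w - Bk u (uv v) w) ^ 2 ∂nu ≤ C * (dd 0 v : ℝ) ^ 2 := by
  obtain ⟨C, hC, h⟩ := Bk_TT (p := 2) (by norm_num)
  refine ⟨8 * C + 8 * (40 * 200 ^ 2), by positivity, fun v hv u hu => ?_⟩
  have hn : (1:ℝ) ≤ dd 0 v := dd_one hv
  have huv : uv v ≠ 0 := by
    intro h0
    have := dd_uv v
    rw [h0, dd_self] at this
    have := dd_pos hv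
    omega
  set A : (Ed → ℝ) → ℝ := fun w => Bk u 0 w - TT (pw w) 0 (0 + u)
  set B : (Ed → ℝ) → ℝ := fun w => Bk u (uv v) w - TT (pw w) (uv v) (uv v + u)
  set D : (Ed → ℝ) → ℝ := fun w => TT (pw w) 0 (0 + uv v)
  set E : (Ed → ℝ) → ℝ := fun w => TT (pw w) u (u + uv v)
  have mA : MemLp A 2 nu := (memLp_Bk u 0).sub (memLp_TT' 0 u)
  have mB : MemLp B 2 nu := (memLp_Bk u _).sub (memLp_TT' _ u)
  have mD : MemLp D 2 nu := memLp_TT' 0 _
  have mE : MemLp E 2 nu := memLp_TT' u _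
  have a1 : ∫ w, A w ^ 2 ∂nu ≤ C := by
    have := (h u hu 0).2
    refine le_trans (le_of_eq (integral_congr_ae (Eventually.of_forall fun w => ?_))) this
    show A w ^ 2 = |Bk u 0 w - TT (pw w) 0 (0 + u)| ^ (2:ℝ)
    rw [Real.rpow_two, sq_abs]
  have b1 : ∫ w, B w ^ 2 ∂nu ≤ C := by
    have := (h u hu (uv v)).2
    refine le_trans (le_of_eq (integral_congr_ae (Eventually.of_forall fun w => ?_))) this
    show B w ^ 2 = |Bk u (uv v) w - TT (pw w) (uv v) (uv v + u)| ^ (2:ℝ)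
    rw [Real.rpow_two, sq_abs]
  have d1 : ∫ w, D w ^ 2 ∂nu ≤ 40 * 200 ^ 2 * (dd 0 v : ℝ) ^ 2 := by
    have := sq_up huv
    rw [dd_uv] at this
    show ∫ w, TT (pw w) 0 (0 + uv v) ^ 2 ∂nu ≤ _
    rw [TT_shift]
    refine this.trans (le_of_eq ?_)
    push_cast; ring
  have e1 : ∫ w, E w ^ 2 ∂nu ≤ 40 * 200 ^ 2 * (dd 0 v : ℝ) ^ 2 := by
    have := sq_up huv
    rw [dd_uv] at this
    show ∫ w, TT (pw w) u (u + uv v) ^ 2 ∂nu ≤ _
    rw [TT_shift]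
    refine this.trans (le_of_eq ?_)
    push_cast; ring
  have hle : ∫ w, (Bk u 0 w - Bk u (uv v) w) ^ 2 ∂nu ≤
      ∫ w, (4 * A w ^ 2 + 4 * B w ^ 2 + 4 * D w ^ 2 + 4 * E w ^ 2) ∂nu := by
    refine integral_mono ((memLp_Bk u 0).sub (memLp_Bk u _)).integrable_sq
      ((((mA.integrable_sq.const_mul 4).add (mB.integrable_sq.const_mul 4)).add
      (mD.integrable_sq.const_mul 4)).add (mE.integrable_sq.const_mul 4)) fun w => ?_
    have hw := pw_nonneg w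
    have t1 := TT_tri hw 0 (uv v) u
    have t2 := TT_tri hw (uv v) (uv v + u) u
    have t3 := TT_tri hw (uv v) 0 (uv v + u)
    have t4 := TT_tri hw 0 u (uv v + u)
    have s1 := TT_symm (pw w) (uv v) 0
    have s2 := TT_symm (pw w) (uv v + u) u
    have hD0 : D w = TT (pw w) 0 (uv v) := by simp only [D, zero_add]
    have hE0 : E w = TT (pw w) u (uv v + u) := by simp only [E, add_comm u (uv v)]
    have hA0 : A w = Bk u 0 w - TT (pw w) 0 u := by simp only [A, zero_add]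
    have hB0 : B w = Bk u (uv v) w - TT (pw w) (uv v) (uv v + u) := rfl
    have k1 : |Bk u 0 w - Bk u (uv v) w - A w + B w| ≤ D w + E w := by
      rw [abs_le, hD0, hE0, hA0, hB0]
      constructor <;> linarith
    have hD1 : 0 ≤ D w := TT_nonneg hw _ _
    have hE1 : 0 ≤ E w := TT_nonneg hw _ _
    show (Bk u 0 w - Bk u (uv v) w) ^ 2 ≤ 4 * A w ^ 2 + 4 * B w ^ 2 + 4 * D w ^ 2 + 4 * E w ^ 2
    set X : ℝ := Bk u 0 w - Bk u (uv v) w - A w + B w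
    have hX : Bk u 0 w - Bk u (uv v) w = X + (A w - B w) := by simp only [X]; ring
    have hX2 : X ^ 2 ≤ (D w + E w) ^ 2 := by
      rw [← sq_abs X]
      exact pow_le_pow_left₀ (abs_nonneg _) k1 2
    rw [hX]
    nlinarith [sq_nonneg (X - (A w - B w)), sq_nonneg (A w + B w), sq_nonneg (D w - E w)]
  refine hle.trans ?_
  have i1 : Integrable (fun w => 4 * A w ^ 2 + 4 * B w ^ 2) nu :=
    (mA.integrable_sq.const_mul 4).add (mB.integrable_sq.const_mul 4)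
  have i2 : Integrable (fun w => 4 * A w ^ 2 + 4 * B w ^ 2 + 4 * D w ^ 2) nu :=
    i1.add (mD.integrable_sq.const_mul 4)
  rw [integral_add i2 (mE.integrable_sq.const_mul 4), integral_add i1 (mD.integrable_sq.const_mul 4),
    integral_add (mA.integrable_sq.const_mul 4) (mB.integrable_sq.const_mul 4),
    integral_const_mul, integral_const_mul, integral_const_mul, integral_const_mul]
  have hn2 : (1:ℝ) ≤ (dd 0 v : ℝ) ^ 2 := one_le_pow₀ hn
  nlinarith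

/-- the comparison of the two tracks -/
lemma two_tracks : ∃ C : ℝ, 0 < C ∧ ∀ v : ℤ × ℤ, v ≠ 0 → ∀ k : ℕ, 1 ≤ k → ∀ (J : ℕ) (E : ℝ), 0 ≤ E →
    (∀ j < J, ∫ w, Df (kv v k j) k 0 w ^ 2 ∂nu ≤ (k:ℝ) ^ j * E) →
    (k:ℝ) ^ J * ∫ w, (Bk v 0 w - fb v) ^ 2 ∂nu ≤ 3 * ((542 * (k:ℝ)) ^ J * E) +
      C * (dd 0 v : ℝ) ^ 2 := by
  obtain ⟨C, hC, hT⟩ := track_diff
  refine ⟨2 * C, by positivity, fun v hv k hk J E hE hD => ?_⟩
  have h1 := Ze_bound hv hk hE J hD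
  have h2 := var_low v k J
  have h3 := Sc_orth hv k J
  have hkv : kv v k J ≠ 0 := by
    intro h0
    have e1 := dd_kv v k J
    rw [h0, dd_self] at e1
    have e2 : 1 ≤ k ^ J * dd 0 v := Nat.mul_pos (Nat.one_le_pow _ _ hk) (dd_pos hv)
    omega
  have h4 := hT v hv _ hkv
  have m0 := memLp_Sc v k J 0
  have m1 := memLp_Sc v k J (uv v)
  have z0 := memLp_Ze v k J 0
  have z1 := memLp_Ze v k J (uv v)
  have b0 : MemLp (fun w => Bk (kv v k J) 0 w - Bk (kv v k J) (uv v) w) 2 nu :=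
    (memLp_Bk _ 0).sub (memLp_Bk _ _)
  have s1 : ∫ w, Sc v k J (uv v) w ^ 2 ∂nu = ∫ w, Sc v k J 0 w ^ 2 ∂nu :=
    sq_sh _ (measurable_Sc v k J 0) (fun y w => Sc_sh v k J _ y w)
  have s2 : ∫ w, Ze v k J (uv v) w ^ 2 ∂nu = ∫ w, Ze v k J 0 w ^ 2 ∂nu :=
    sq_sh _ (measurable_Ze v k J 0) (fun y w => Ze_sh v k J _ y w)
  have i0 : Integrable (fun w => Sc v k J 0 w * Sc v k J (uv v) w) nu := m0.integrable_mul m1
  have e1 : ∫ w, (Sc v k J 0 w - Sc v k J (uv v) w) ^ 2 ∂nu = 2 * ∫ w, Sc v k J 0 w ^ 2 ∂nu := by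
    have e2 : (fun w => (Sc v k J 0 w - Sc v k J (uv v) w) ^ 2) =
        fun w => Sc v k J 0 w ^ 2 + Sc v k J (uv v) w ^ 2 -
          2 * (Sc v k J 0 w * Sc v k J (uv v) w) := by
      funext w; ring
    have i1 : Integrable (fun w => Sc v k J 0 w ^ 2 + Sc v k J (uv v) w ^ 2) nu :=
      m0.integrable_sq.add m1.integrable_sq
    rw [e2, integral_sub i1 (i0.const_mul 2), integral_add m0.integrable_sq m1.integrable_sq,
      integral_const_mul, h3, s1]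
    ring
  have e3 : ∫ w, (Sc v k J 0 w - Sc v k J (uv v) w) ^ 2 ∂nu ≤
      ∫ w, (3 * Ze v k J 0 w ^ 2 + 3 * Ze v k J (uv v) w ^ 2 +
        3 * (Bk (kv v k J) 0 w - Bk (kv v k J) (uv v) w) ^ 2) ∂nu := by
    refine integral_mono (m0.sub m1).integrable_sq
      (((z0.integrable_sq.const_mul 3).add (z1.integrable_sq.const_mul 3)).add
      (b0.integrable_sq.const_mul 3)) fun w => ?_
    show (Sc v k J 0 w - Sc v k J (uv v) w) ^ 2 ≤ 3 * Ze v k J 0 w ^ 2 + 3 * Ze v k J (uv v) w ^ 2 +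
        3 * (Bk (kv v k J) 0 w - Bk (kv v k J) (uv v) w) ^ 2
    have : Sc v k J 0 w - Sc v k J (uv v) w = -Ze v k J 0 w + Ze v k J (uv v) w +
        (Bk (kv v k J) 0 w - Bk (kv v k J) (uv v) w) := by
      unfold Ze; ring
    rw [this]
    set a := Ze v k J 0 w
    set b := Ze v k J (uv v) w
    set c := Bk (kv v k J) 0 w - Bk (kv v k J) (uv v) w
    nlinarith [sq_nonneg (a + b), sq_nonneg (a + c), sq_nonneg (b - c)]
  have i2 : Integrable (fun w => 3 * Ze v k J 0 w ^ 2 + 3 * Ze v k J (uv v) w ^ 2) nu :=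
    (z0.integrable_sq.const_mul 3).add (z1.integrable_sq.const_mul 3)
  rw [e1, integral_add i2 (b0.integrable_sq.const_mul 3),
    integral_add (z0.integrable_sq.const_mul 3) (z1.integrable_sq.const_mul 3),
    integral_const_mul, integral_const_mul, integral_const_mul, s2] at e3
  have hn : (0:ℝ) ≤ (dd 0 v : ℝ) ^ 2 := by positivity
  nlinarith

end Pool.Agent.H948
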