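import Pool.Agent.H948.PairProb

/-!
# The extremal part of a fast chain
-/

set_option autoImplicit false

open MeasureTheory ProbabilityTheory Finset Filter
open scoped Topology

namespace Pool.Agent.H948

open Q70.Fp

variable {μ : ℝ × ℝ → ℝ}

/-- a fast pair whose first point lies in a given cell -/
def CF (μ : ℝ × ℝ → ℝ) (m s : ℕ) (xs ys : ℤ × ℤ) (E g : ℝ) (q : ℤ × ℤ) (W : Ed → ℝ) : Prop :=
  ∃ x y, Q69.FL.rd s x = q ∧ dd x y = m ∧ Rg μ (ys - xs) E (x - xs) ∧ Rg μ (ys - xs) E (y - xs) ∧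
    TB W (66 * m) x y < ls μ (em (ys - xs)) (em y - em x) - g

/-- a small passage time forces fast cells which are far from each other -/
lemma far_cells (h : Shape μ) {w : Ed → ℝ} (hw : ∀ e, 0 ≤ w e) {v : ℤ × ℤ} {n m₁ s r : ℕ}
    (hn : dd 0 v = n) (hn1 : 1 ≤ n) (hm1 : 1 ≤ m₁) (hs1 : 1 ≤ s) (hsm : s ≤ m₁) {S D : ℝ}
    (hS1 : 2 ≤ S) (hD : 0 ≤ D) (hT : TT w 0 v < mz μ v - S)
    (G1 : ¬ Bad w 0 (66 * n + 1) (3 * (n:ℝ)))
    (G2 : ∀ x ∈ ball (66 * n) 0, ∀ y ∈ ball (66 * n) 0, dd x y = 66 * m₁ → 3 * (m₁:ℝ) ≤ TT w x y)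
    (G3 : ∀ x ∈ ball (66 * n) 0, ∀ y ∈ ball (66 * n) 0, dd x y ≤ 664 * (66 * m₁) →
      TT w x y < 3 * ((664 * (66 * m₁) : ℕ) : ℝ))
    (G4 : ∀ x ∈ ball (66 * n) 0, ∀ y ∈ ball (66 * n) 0, dd x y = 66 * m₁ →
      TB w (66 * (66 * m₁)) x y ≤ TT w x y)
    (G5 : ∀ x ∈ ball (66 * n) 0, ∀ y ∈ ball (66 * n) 0, dd x y ≤ 66 * m₁ →
      mz μ (y - x) - D ≤ TT w x y)
    (hr : 43825 * (r:ℝ) * D + D ≤ S / 4) :
    ∃ xs ∈ ball (66 * n) 0, ∃ ys ∈ ball (66 * n) 0, ∃ j : ℕ, j < 1000 * n ∧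
      S / 2 * 2 ^ j ≤ mz μ (ys - xs) ∧
      ∃ I : Finset (ℤ × ℤ), I ⊆ (ball (66 * n) 0).image (Q69.FL.rd s) ∧ I.card = r ∧
      (∀ x ∈ I, ∀ y ∈ I, x ≠ y → 2 * (66 * (66 * m₁) + 2 * s) < dd x y) ∧
      ∀ q ∈ I, CF μ (66 * m₁) s xs ys (S / 2 * 2 ^ j) (S / 2 * 2 ^ j * m₁ / (4 * n)) q w := by
  classical
  have hup : mz μ v ≤ 3 * (n:ℝ) := by rw [← hn]; exact mz_up h v
  have hm0 : (0:ℝ) < m₁ := by exact_mod_cast hm1
  have hn0 : (0:ℝ) < n := by exact_mod_cast hn1
  -- a nearly optimal walk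
  obtain ⟨N, p, hp, hlt⟩ := exists_lt (show TT w 0 v < TT w 0 v + 1 by linarith)
  have hlt3 : Wt w p N < 3 * (n:ℝ) := by linarith
  have hin : ∀ j ≤ N, p j ∈ ball (66 * n) 0 := by
    intro j hj
    rw [mem_ball]
    by_contra hcon
    push Not at hcon
    obtain ⟨q, h1, h2, h3, h4⟩ := bad_of_exit hw hp hj hcon
    exact G1 ⟨q, h1, h2, h3, h4.trans hlt3.le⟩
  obtain ⟨k, z, z0, z1, z2, z3, z4⟩ := Q69.FL.cut_walk hw (show 1 ≤ 66 * m₁ by omega) v N 0 p hp
  have hzin : ∀ i ≤ k, z i ∈ ball (66 * n) 0 := by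
    intro i hi
    obtain ⟨j, hj, hj'⟩ := z3 i hi
    rw [hj']; exact hin j hj
  have hvin : v ∈ ball (66 * n) 0 := mem_ball.2 (by omega)
  have hopt : ∑ i ∈ range k, TT w (z i) (z (i + 1)) + TT w (z k) v < TT w (z 0) v + 1 := by
    rw [z0]; exact lt_of_le_of_lt z4 hlt
  -- the number of pieces
  have hge : ∀ i j : ℕ, i ≤ j → j ≤ k → ((j:ℝ) - i) * (3 * m₁) ≤
      ∑ l ∈ Finset.Ico i j, TT w (z l) (z (l + 1)) := by
    intro i j hij hj
    calc ((j:ℝ) - i) * (3 * m₁) = ∑ _l ∈ Finset.Ico i j, (3 * (m₁:ℝ)) := by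
          rw [Finset.sum_const, Nat.card_Ico, nsmul_eq_mul]
          push_cast [Nat.cast_sub hij]
          ring
      _ ≤ _ := by
          refine Finset.sum_le_sum fun l hl => ?_
          rw [Finset.mem_Ico] at hl
          exact G2 _ (hzin l (by omega)) _ (hzin (l + 1) (by omega)) (z1 l (by omega))
  have hk : (k:ℝ) * m₁ ≤ n := by
    have e1 := hge 0 k (Nat.zero_le _) le_rfl
    rw [← Finset.range_eq_Ico] at e1
    have e2 := TT_nonneg hw (z k) v
    push_cast at e1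
    nlinarith [hopt, z4]
  -- pieces far apart
  have hfar : ∀ i j : ℕ, i + 43825 ≤ j → j ≤ k → 664 * (66 * m₁) < dd (z i) (z j) := by
    intro i j hij hj
    by_contra hcon
    push Not at hcon
    have e1 := hge i j (by omega) hj
    have e2 := Q69.FL.chain_opt hw hopt (show i ≤ j by omega) hj
    have e3 := G3 _ (hzin i (by omega)) _ (hzin j hj) hcon
    have e4 : (i:ℝ) + 43825 ≤ j := by exact_mod_cast hij
    have e5 : (1:ℝ) ≤ m₁ := by exact_mod_cast hm1
    push_cast at e3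
    nlinarith
  -- the extended chain
  set y : ℕ → ℤ × ℤ := fun i => if i ≤ k then z i else v with hy
  have hyk : ∀ i ≤ k, y i = z i := fun i hi => by simp only [hy, if_pos hi]
  have hyk1 : y (k + 1) = v := by simp only [hy]; rw [if_neg (by omega)]
  have hyin : ∀ i, y i ∈ ball (66 * n) 0 := by
    intro i
    by_cases hi : i ≤ k
    · rw [hyk i hi]; exact hzin i hi
    · simp only [hy, if_neg hi]; exact hvin
  set C : ℕ → ℕ → ℝ := fun i j => ∑ l ∈ Finset.Ico i j, TT w (y l) (y (l + 1)) with hC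
  have hCadd : ∀ i l j, i ≤ l → l ≤ j → C i l + C l j = C i j := fun i l j h1 h2 =>
    Finset.sum_Ico_consecutive _ h1 h2
  have hCtot : C 0 (k + 1) < TT w 0 v + 1 := by
    have e1 : C 0 (k + 1) = ∑ i ∈ range k, TT w (z i) (z (i + 1)) + TT w (z k) v := by
      simp only [hC]
      rw [← Finset.range_eq_Ico, Finset.sum_range_succ, hyk k le_rfl, hyk1]
      congr 1
      refine Finset.sum_congr rfl fun i hi => ?_
      rw [Finset.mem_range] at hi
      rw [hyk i (by omega), hyk (i + 1) (by omega)]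
    rw [e1]
    rw [z0] at hopt
    exact hopt
  -- the extremal pair
  set P : Finset (ℕ × ℕ) := (range (k + 2) ×ˢ range (k + 2)).filter (fun a => a.1 ≤ a.2) with hP
  obtain ⟨a, haP, hamax⟩ := Finset.exists_max_image P
    (fun a => mz μ (y a.2 - y a.1) - C a.1 a.2) ⟨(0, k + 1), by simp [hP]⟩
  obtain ⟨i0, j0⟩ := a
  simp only [hP, Finset.mem_filter, Finset.mem_product, Finset.mem_range] at haP
  obtain ⟨⟨hi0, hj0⟩, hij0⟩ := haP
  have hmax : ∀ i j : ℕ, i ≤ j → j ≤ k + 1 →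
      mz μ (y j - y i) - C i j ≤ mz μ (y j0 - y i0) - C i0 j0 := by
    intro i j h1 h2
    exact hamax (i, j) (by
      simp only [hP, Finset.mem_filter, Finset.mem_product, Finset.mem_range]; omega)
  set Ds : ℝ := mz μ (y j0 - y i0) - C i0 j0 with hDs
  have hDs1 : S / 2 ≤ Ds := by
    have e1 := hmax 0 (k + 1) (Nat.zero_le _) le_rfl
    have e2 : y 0 = 0 := by rw [hyk 0 (Nat.zero_le _), z0]
    rw [hyk1, e2, sub_zero] at e1
    linarith
  have hCnn : 0 ≤ C i0 j0 := Finset.sum_nonneg fun l _ => TT_nonneg hw _ _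
  -- the dyadic level
  obtain ⟨j, hj1, hj2⟩ : ∃ j : ℕ, S / 2 * 2 ^ j ≤ Ds ∧ Ds < S / 2 * 2 ^ (j + 1) := by
    have hex : ∃ j : ℕ, Ds < S / 2 * 2 ^ (j + 1) := by
      obtain ⟨j, hj⟩ := pow_unbounded_of_one_lt Ds (show (1:ℝ) < 2 by norm_num)
      refine ⟨j, lt_of_lt_of_le hj ?_⟩
      rw [pow_succ]
      have : (0:ℝ) < 2 ^ j := by positivity
      nlinarith
    refine ⟨Nat.find hex, ?_, Nat.find_spec hex⟩
    rcases Nat.eq_zero_or_pos (Nat.find hex) with h0 | h0
    · rw [h0, pow_zero, mul_one]; exact hDs1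
    · have := Nat.find_min hex (Nat.sub_lt h0 one_pos)
      have e1 : Nat.find hex - 1 + 1 = Nat.find hex := by omega
      rw [e1, not_lt] at this
      exact this
  set E : ℝ := S / 2 * 2 ^ j with hE
  have hE0 : 0 < E := by positivity
  have hDs2 : Ds ≤ 2 * E := by rw [hE]; rw [pow_succ] at hj2; linarith
  have hES : S / 2 ≤ E := by
    rw [hE]
    have : (1:ℝ) ≤ 2 ^ j := one_le_pow₀ (by norm_num)
    nlinarith
  set xs := y i0 with hxs
  set ys := y j0 with hys
  have hEv : E ≤ mz μ (ys - xs) := by linarith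
  have hxyd : (dd 0 (ys - xs) : ℝ) ≤ 132 * n := by
    have e1 : dd 0 xs ≤ 66 * n := mem_ball.1 (hyin i0)
    have e2 : dd 0 ys ≤ 66 * n := mem_ball.1 (hyin j0)
    have e3 := dd_tri xs 0 ys
    rw [dd_comm xs 0] at e3
    rw [dd_sub]
    have e4 : dd xs ys ≤ 132 * n := by omega
    exact_mod_cast e4
  have hjn : j < 1000 * n := by
    have e1 := mz_up h (ys - xs)
    have e2 : (j:ℝ) < 2 ^ j := by exact_mod_cast Nat.lt_two_pow_self (n := j)
    have e3 : (2:ℝ) ^ j ≤ E := by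
      rw [hE]
      have : (0:ℝ) < 2 ^ j := by positivity
      nlinarith
    have e4 : (j:ℝ) < 1000 * n := by linarith
    exact_mod_cast e4
  -- the region
  have hreg : ∀ l, i0 ≤ l → l ≤ j0 → Rg μ (ys - xs) E (y l - xs) := by
    intro l h1 h2
    have e1 := hmax i0 l h1 (by omega)
    have e2 := hmax l j0 h2 (by omega)
    have e3 := hCadd i0 l j0 h1 h2
    unfold Rg
    have e4 : ys - xs - (y l - xs) = ys - y l := by abel
    rw [e4]
    linarith
  -- the supporting functional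
  have hl := ls_spec h (em (ys - xs))
  set ℓ := ls μ (em (ys - xs)) with hℓ
  set g : ℝ := E * m₁ / (4 * n) with hg
  have hg0 : 0 ≤ g := by positivity
  set J := min j0 k with hJ
  set F : Finset ℕ := (Finset.Ico i0 J).filter
    (fun i => TT w (y i) (y (i + 1)) < ℓ (em (y (i + 1)) - em (y i)) - g) with hF
  have hℓmz : ∀ i, ℓ (em (y (i + 1)) - em (y i)) ≤ mz μ (y (i + 1) - y i) := by
    intro i
    rw [← em_sub]; exact hl.1 _
  have hdef : ∀ i ≤ k, ℓ (em (y (i + 1)) - em (y i)) - TT w (y i) (y (i + 1)) ≤ D := by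
    intro i hi
    have e0 := hℓmz i
    have e1 : dd (y i) (y (i + 1)) ≤ 66 * m₁ := by
      rcases hi.lt_or_eq with h1 | h1
      · rw [hyk i hi, hyk (i + 1) h1]
        exact (z1 i h1).le
      · rw [h1, hyk k le_rfl, hyk1]
        exact z2.le
    have := G5 _ (hyin i) _ (hyin (i + 1)) e1
    linarith
  have hDsum : Ds = ∑ i ∈ Finset.Ico i0 j0,
      (ℓ (em (y (i + 1)) - em (y i)) - TT w (y i) (y (i + 1))) := by
    rw [Finset.sum_sub_distrib, ← map_sum, Finset.sum_Ico_sub (fun i => em (y i)) hij0,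
      ← em_sub, hDs]
    have : ℓ (em (y j0 - y i0)) = mz μ (y j0 - y i0) := hl.2
    rw [this]
  have hcard : 43825 * r ≤ F.card := by
    by_contra hcon
    push Not at hcon
    have c1 : (F.card : ℝ) ≤ 43825 * r := by
      have : F.card ≤ 43825 * r := hcon.le
      exact_mod_cast this
    have c2 : Ds ≤ ∑ i ∈ Finset.Ico i0 J,
        (ℓ (em (y (i + 1)) - em (y i)) - TT w (y i) (y (i + 1))) + D := by
      rw [hDsum]
      rcases Nat.lt_or_ge j0 (k + 1) with h1 | h1
      · have : J = j0 := min_eq_left (by omega)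
        rw [this]; linarith
      · have hj : j0 = k + 1 := by omega
        have hJk : J = k := min_eq_right (by omega)
        rw [hJk, hj]
        rcases Nat.lt_or_ge k i0 with h2 | h2
        · rw [Finset.Ico_eq_empty (by omega), Finset.Ico_eq_empty (by omega)]
          simpa using hD
        · rw [Finset.sum_Ico_succ_top h2]
          have := hdef k le_rfl
          linarith
    have c4 : ∑ i ∈ Finset.Ico i0 J, (ℓ (em (y (i + 1)) - em (y i)) - TT w (y i) (y (i + 1))) ≤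
        F.card * D + k * g := by
      rw [← Finset.sum_filter_add_sum_filter_not (Finset.Ico i0 J)
        (fun i => TT w (y i) (y (i + 1)) < ℓ (em (y (i + 1)) - em (y i)) - g)]
      refine add_le_add ?_ ?_
      · calc _ ≤ ∑ _i ∈ F, D := Finset.sum_le_sum fun i hi => by
              rw [Finset.mem_filter, Finset.mem_Ico] at hi
              exact hdef i (by omega)
          _ = _ := by rw [Finset.sum_const, nsmul_eq_mul]
      · calc _ ≤ ∑ _i ∈ (Finset.Ico i0 J).filter (fun i => ¬ TT w (y i) (y (i + 1)) <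
                ℓ (em (y (i + 1)) - em (y i)) - g), g := Finset.sum_le_sum fun i hi => by
              rw [Finset.mem_filter, not_lt] at hi
              linarith [hi.2]
          _ = (((Finset.Ico i0 J).filter (fun i => ¬ TT w (y i) (y (i + 1)) <
                ℓ (em (y (i + 1)) - em (y i)) - g)).card : ℝ) * g := by
              rw [Finset.sum_const, nsmul_eq_mul]
          _ ≤ k * g := by
              refine mul_le_mul_of_nonneg_right ?_ hg0
              have := Finset.card_filter_le (Finset.Ico i0 J) (fun i => ¬ TT w (y i) (y (i + 1)) <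
                ℓ (em (y (i + 1)) - em (y i)) - g)
              rw [Nat.card_Ico] at this
              have h2 : J ≤ k := min_le_right _ _
              exact_mod_cast (by omega : _ ≤ k)
    have c5 : (F.card : ℝ) * D ≤ 43825 * r * D := mul_le_mul_of_nonneg_right c1 hD
    have c6 : (k:ℝ) * g ≤ E / 4 := by
      have e1 : (k:ℝ) * g = (k * m₁) / n * (E / 4) := by rw [hg]; field_simp
      rw [e1]
      have e2 : (k:ℝ) * m₁ / n ≤ 1 := by rw [div_le_one hn0]; exact hk
      nlinarith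
    linarith
  -- one residue class
  obtain ⟨ρ, -, hρ⟩ := Finset.exists_le_card_fiber_of_mul_le_card_of_maps_to
    (s := F) (t := range 43825) (f := fun i => i % 43825) (n := r)
    (fun i _ => Finset.mem_range.2 (Nat.mod_lt _ (by norm_num))) ⟨0, by simp⟩
    (by rw [Finset.card_range]; exact hcard)
  set F' := F.filter (fun i => i % 43825 = ρ) with hF'
  obtain ⟨F'', hF1, hF2⟩ := Finset.exists_subset_card_eq hρ
  have hmem : ∀ i ∈ F'', (i0 ≤ i ∧ i < j0 ∧ i < k) ∧
      TT w (y i) (y (i + 1)) < ℓ (em (y (i + 1)) - em (y i)) - g ∧ i % 43825 = ρ := by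
    intro i hi
    have := hF1 hi
    rw [hF', Finset.mem_filter, hF, Finset.mem_filter, Finset.mem_Ico, hJ, lt_min_iff] at this
    exact ⟨⟨this.1.1.1, this.1.1.2.1, this.1.1.2.2⟩, this.1.2, this.2⟩
  have hdist : ∀ i ∈ F'', ∀ j ∈ F'', i < j →
      2 * (66 * (66 * m₁) + 2 * s) < dd (Q69.FL.rd s (z i)) (Q69.FL.rd s (z j)) := by
    intro i hi j hj hij
    have e1 := hmem i hi
    have e2 := hmem j hj
    have e3 := hfar i j (by omega) (by omega)
    have e4 := Q69.FL.dd_rd hs1 (z i)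
    have e5 := Q69.FL.dd_rd hs1 (z j)
    have e6 := dd_tri (z i) (Q69.FL.rd s (z i)) (z j)
    have e7 := dd_tri (Q69.FL.rd s (z i)) (Q69.FL.rd s (z j)) (z j)
    rw [dd_comm (Q69.FL.rd s (z j))] at e7
    omega
  have hinj : Set.InjOn (fun i => Q69.FL.rd s (z i)) (F'' : Set ℕ) := by
    intro i hi j hj hij
    rcases lt_trichotomy i j with hlt | heq | hgt
    · have := hdist i hi j hj hlt
      simp only at hij
      rw [hij, dd_self] at this
      omega
    · exact heq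
    · have := hdist j hj i hi hgt
      simp only at hij
      rw [hij, dd_self] at this
      omega
  refine ⟨xs, hyin i0, ys, hyin j0, j, hjn, hEv, F''.image (fun i => Q69.FL.rd s (z i)),
    ?_, ?_, ?_, ?_⟩
  · intro x hx
    obtain ⟨i, hi, rfl⟩ := Finset.mem_image.1 hx
    exact Finset.mem_image.2 ⟨z i, hzin i (hmem i hi).1.2.2.le, rfl⟩
  · rw [Finset.card_image_of_injOn hinj, hF2]
  · intro x hx y hy hxy
    obtain ⟨i, hi, rfl⟩ := Finset.mem_image.1 hx
    obtain ⟨j, hj, rfl⟩ := Finset.mem_image.1 hy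
    rcases lt_trichotomy i j with hlt | heq | hgt
    · exact hdist i hi j hj hlt
    · rw [heq] at hxy; exact absurd rfl hxy
    · rw [dd_comm]; exact hdist j hj i hi hgt
  · intro x hx
    obtain ⟨i, hi, rfl⟩ := Finset.mem_image.1 hx
    obtain ⟨⟨b1, b2, b3⟩, hfast, -⟩ := hmem i hi
    refine ⟨z i, z (i + 1), rfl, z1 i b3, ?_, ?_, ?_⟩
    · have := hreg i b1 b2.le
      rwa [hyk i b3.le] at this
    · have := hreg (i + 1) (by omega) b2
      rwa [hyk (i + 1) b3] at this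
    · have t1 := G4 _ (hzin i b3.le) _ (hzin (i + 1) b3) (z1 i b3)
      rw [hyk i b3.le, hyk (i + 1) b3] at hfast
      exact lt_of_le_of_lt t1 hfast

end Pool.Agent.H948
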