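import Pool.Agent.H948.Coord

/-!
# Far end points: the lower tail
-/

set_option autoImplicit false

open MeasureTheory ProbabilityTheory Filter Set
open scoped ENNReal Topology

namespace Pool.Agent.H948

open Q70.Fp
open Q69.FM (mu_add)

variable {μ : ℝ × ℝ → ℝ}

/-- the end points in a window -/
def Win (e : ℝ × ℝ) (n δ σ : ℝ) (j : ℕ) (u : ℤ × ℤ) : Prop :=
  n / 4 ≤ tc e u ∧ tc e u ≤ 3 / 4 * n ∧ 2 * δ * n ≤ |zc e u| ∧
    ∃ x : ℝ, 0 ≤ x ∧ x ≤ 1 ∧ zc e u = tc e u * (σ * (δ / 100 * j) + σ * (δ / 100 * x))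

lemma far_narrow (h : Shape μ) {a : ℝ} (ha : 0 < a) (ha1 : a ≤ 1 / 2) (hH : HH μ a) :
    ∃ C : ℝ, 0 < C ∧ ∀ e : ℝ × ℝ, e ∈ Cir → ∀ n δ A : ℝ, 8 ≤ n → 0 < δ → δ ≤ 1 →
      (∀ e' ∈ Cir, Ac μ e' δ ≤ A) → 600 ≤ n * A →
      nu.real {w | ∃ u, n / 4 ≤ tc e u ∧ tc e u ≤ 3 / 4 * n ∧ 2 * δ * n ≤ |zc e u| ∧
        |zc e u| ≤ tc e u ∧ TT (pw w) 0 u < mz μ u - |zc e u| / (3 * δ) * A} ≤
        C * (n * (n * A) ^ (-(1 / a))) := by
  classical
  obtain ⟨C1, hC1, h1⟩ := lower_tailU h ha (by linarith) hH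
  refine ⟨2 * (8 * C1 * 2000 ^ (1 / a)), by positivity, fun e he n δ A hn hδ hδ1 hA hnA => ?_⟩
  have he1 : e.1 ^ 2 + e.2 ^ 2 = 1 := he
  have hn0 : 0 < n := by linarith
  have hA0 : 0 ≤ A := (Ac_nonneg h e δ).trans (hA e he)
  set J : ℕ := ⌊100 / δ⌋₊ + 1 with hJ
  let f : ℝ → ℕ → ℝ × ℝ := fun σ j => e + (σ * (δ / 100 * j)) • prp e
  let v : ℝ → ℕ → ℤ × ℤ := fun σ j => rd (n • f σ j)
  let ρ : ℕ → ℝ := fun j => n * A / 2000 * (j + 1)
  let U : ℝ → ℕ → Finset (ℤ × ℤ) := fun σ j =>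
    (ball (3 * dd 0 (v σ j)) 0).filter (Win e n δ σ j)
  have hρ : ∀ j, 0 < ρ j := fun j => by
    have : 0 < n * A := by linarith
    simp only [ρ]; positivity
  -- the size of the windows
  have hf : ∀ σ : ℝ, (σ = 1 ∨ σ = -1) → ∀ j, (f σ j).1 ^ 2 + (f σ j).2 ^ 2 ≥ 1 := by
    intro σ _ j
    simp only [f, prp, Prod.fst_add, Prod.snd_add, Prod.smul_fst, Prod.smul_snd, smul_eq_mul]
    nlinarith [sq_nonneg ((σ * (δ / 100 * j)) * e.1), sq_nonneg ((σ * (δ / 100 * j)) * e.2)]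
  have hf1 : ∀ σ : ℝ, (σ = 1 ∨ σ = -1) → ∀ j, 1 ≤ |(f σ j).1| + |(f σ j).2| := by
    intro σ hσ j
    have e1 := hf σ hσ j
    have e2 := sq_abs (f σ j).1
    have e3 := sq_abs (f σ j).2
    have e4 := abs_nonneg (f σ j).1
    have e5 := abs_nonneg (f σ j).2
    nlinarith [mul_nonneg e4 e5]
  have hvlow : ∀ σ : ℝ, (σ = 1 ∨ σ = -1) → ∀ j, n - 2 ≤ (dd 0 (v σ j) : ℝ) := by
    intro σ hσ j
    have e1 := (rd_dd (n • f σ j)).1
    simp only [Prod.smul_fst, Prod.smul_snd, smul_eq_mul, abs_mul, abs_of_pos hn0] at e1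
    have e2 := hf1 σ hσ j
    have e3 : n * 1 ≤ n * (|(f σ j).1| + |(f σ j).2|) := by gcongr
    show n - 2 ≤ (dd 0 (rd (n • f σ j)) : ℝ)
    linarith
  have hv0 : ∀ σ : ℝ, (σ = 1 ∨ σ = -1) → ∀ j, v σ j ≠ 0 := by
    intro σ hσ j h0
    have e1 := hvlow σ hσ j
    rw [h0, dd_self] at e1
    norm_num at e1
    linarith
  have hvup : ∀ σ : ℝ, (σ = 1 ∨ σ = -1) → ∀ j, j < J → (dd 0 (v σ j) : ℝ) ≤ 4 * n := by
    intro σ hσ j hj
    have e1 := (rd_dd (n • f σ j)).2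
    simp only [Prod.smul_fst, Prod.smul_snd, smul_eq_mul, abs_mul, abs_of_pos hn0] at e1
    have e2 : δ / 100 * (j : ℝ) ≤ 1 := by
      have e3 : j ≤ ⌊100 / δ⌋₊ := by omega
      have e4 : (j : ℝ) ≤ 100 / δ := (Nat.cast_le.2 e3).trans (Nat.floor_le (by positivity))
      calc δ / 100 * (j : ℝ) ≤ δ / 100 * (100 / δ) := by gcongr
        _ = 1 := by field_simp
    have e3 : |σ * (δ / 100 * (j : ℝ))| ≤ 1 := by
      rw [abs_mul]
      have : |σ| = 1 := by rcases hσ with rfl | rfl <;> norm_num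
      rw [this, one_mul, abs_of_nonneg (by positivity)]
      exact e2
    have e4 : |(f σ j).1| ≤ |e.1| + |e.2| := by
      show |e.1 + (σ * (δ / 100 * (j : ℝ))) * (-e.2)| ≤ _
      calc _ ≤ |e.1| + |(σ * (δ / 100 * (j : ℝ))) * (-e.2)| := abs_add_le _ _
        _ = |e.1| + |σ * (δ / 100 * (j : ℝ))| * |e.2| := by rw [abs_mul, abs_neg]
        _ ≤ |e.1| + 1 * |e.2| := by gcongr
        _ = _ := by ring
    have e5 : |(f σ j).2| ≤ |e.1| + |e.2| := by
      show |e.2 + (σ * (δ / 100 * (j : ℝ))) * e.1| ≤ _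
      calc _ ≤ |e.2| + |(σ * (δ / 100 * (j : ℝ))) * e.1| := abs_add_le _ _
        _ = |e.2| + |σ * (δ / 100 * (j : ℝ))| * |e.1| := by rw [abs_mul]
        _ ≤ |e.2| + 1 * |e.1| := by gcongr
        _ = _ := by ring
    have e6 := (Cir_sum he).2
    have e7 : |(f σ j).1| + |(f σ j).2| ≤ 3 := by linarith
    have e8 : n * (|(f σ j).1| + |(f σ j).2|) ≤ n * 3 := by gcongr
    show (dd 0 (rd (n • f σ j)) : ℝ) ≤ 4 * n
    linarith
  -- the windows
  have hwin : ∀ (σ : ℝ) (j : ℕ) (u : ℤ × ℤ), (σ = 1 ∨ σ = -1) → Win e n δ σ j u →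
      800 / 3 ≤ (j : ℝ) + 1 := by
    rintro σ j u hσ ⟨w1, w2, w3, x, hx0, hx1, w4⟩
    have e1 : |zc e u| = tc e u * (δ / 100 * (j + x)) := by
      rw [w4, abs_mul, abs_of_nonneg (by linarith : 0 ≤ tc e u)]
      congr 1
      rw [← mul_add, abs_mul]
      have : |σ| = 1 := by rcases hσ with rfl | rfl <;> norm_num
      rw [this, one_mul, abs_of_nonneg (by positivity)]
      ring
    rw [e1] at w3
    have e2 : tc e u * (δ / 100 * (j + x)) ≤ 3 / 4 * n * (δ / 100 * (j + 1)) := by gcongr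
    have e3 : 0 < n * δ := by positivity
    have e4 : (n * δ) * (800 / 3) ≤ (n * δ) * ((j : ℝ) + 1) := by nlinarith
    exact le_of_mul_le_mul_left e4 e3
  have hU : ∀ (σ : ℝ) (j : ℕ), (σ = 1 ∨ σ = -1) → ∀ u ∈ U σ j, dd 0 u ≤ 3 * dd 0 (v σ j) ∧
      mz μ u + mz μ (v σ j - u) ≤ mz μ (v σ j) + ρ j / 4 := by
    intro σ j hσ u hu
    rw [Finset.mem_filter] at hu
    obtain ⟨hu1, hu2⟩ := hu
    have hj := hwin σ j u hσ hu2
    obtain ⟨w1, w2, w3, x, hx0, hx1, w4⟩ := hu2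
    refine ⟨mem_ball.1 hu1, ?_⟩
    have e1 := window_lat h he (σ := σ) (θ := σ * (δ / 100 * j)) (η := δ / 100 * x) hσ hn0 hδ hδ1 hA
      (by positivity) (by nlinarith) (u := u) w4 (by linarith) w2
    have e2 : n * (δ / 100 * x / δ * A) ≤ n * A / 100 := by
      have e3 : n * (δ / 100 * x / δ * A) = n * A / 100 * x := by field_simp
      rw [e3]
      have e4 : 0 ≤ n * A / 100 := by positivity
      nlinarith
    have e3 : n * A / 2000 * (800 / 3) ≤ ρ j := by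
      simp only [ρ]; gcongr
    show mz μ u + mz μ (rd (n • f σ j) - u) ≤ mz μ (rd (n • f σ j)) + ρ j / 4
    simp only [f]
    linarith
  have hbound : ∀ (σ : ℝ) (j : ℕ), (σ = 1 ∨ σ = -1) → j < J →
      nu.real {w | ∃ u ∈ U σ j, TT (pw w) 0 u < mz μ u - ρ j} ≤
        4 * C1 * 2000 ^ (1 / a) * (n * (n * A) ^ (-(1 / a))) * (1 / ((j : ℝ) + 1) ^ 2) := by
    intro σ j hσ hj
    refine (h1 (v σ j) (hv0 σ hσ j) (ρ j) (hρ j) (U σ j) (hU σ j hσ)).trans ?_
    have e1 : ρ j ^ (-(1 / a)) ≤ 2000 ^ (1 / a) * (n * A) ^ (-(1 / a)) * (1 / ((j : ℝ) + 1) ^ 2) := by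
      have e2 : ρ j = (n * A) * (1 / 2000) * ((j : ℝ) + 1) := by simp only [ρ]; ring
      have hnA0 : 0 ≤ n * A := by linarith
      rw [e2, Real.mul_rpow (by positivity) (by positivity), Real.mul_rpow hnA0 (by norm_num)]
      have e3 : ((1:ℝ) / 2000) ^ (-(1 / a)) = 2000 ^ (1 / a) := by
        rw [one_div (2000:ℝ), Real.inv_rpow (by norm_num), Real.rpow_neg (by norm_num), inv_inv]
      have e4 : ((j : ℝ) + 1) ^ (-(1 / a)) ≤ 1 / ((j : ℝ) + 1) ^ 2 := by
        have e5 : ((j : ℝ) + 1) ^ (-(1 / a)) ≤ ((j : ℝ) + 1) ^ (-(2:ℝ)) := by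
          apply Real.rpow_le_rpow_of_exponent_le
          · have : (0:ℝ) ≤ j := Nat.cast_nonneg j
            linarith
          · have : 2 ≤ 1 / a := by rw [le_div_iff₀ ha]; linarith
            linarith
        refine e5.trans (le_of_eq ?_)
        rw [Real.rpow_neg (by positivity), show (2:ℝ) = ((2:ℕ):ℝ) by norm_num, Real.rpow_natCast,
          one_div]
      rw [e3]
      calc (n * A) ^ (-(1 / a)) * 2000 ^ (1 / a) * ((j : ℝ) + 1) ^ (-(1 / a)) ≤
          (n * A) ^ (-(1 / a)) * 2000 ^ (1 / a) * (1 / ((j : ℝ) + 1) ^ 2) := by gcongr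
        _ = _ := by ring
    calc C1 * ((dd 0 (v σ j) : ℝ) * ρ j ^ (-(1 / a))) ≤
        C1 * (4 * n * (2000 ^ (1 / a) * (n * A) ^ (-(1 / a)) * (1 / ((j : ℝ) + 1) ^ 2))) := by
          have := hvup σ hσ j hj
          gcongr
      _ = _ := by ring
  -- the covering
  have hcov : {w : Ed → ℝ | ∃ u, n / 4 ≤ tc e u ∧ tc e u ≤ 3 / 4 * n ∧ 2 * δ * n ≤ |zc e u| ∧
        |zc e u| ≤ tc e u ∧ TT (pw w) 0 u < mz μ u - |zc e u| / (3 * δ) * A} ⊆
      (⋃ j ∈ Finset.range J, {w | ∃ u ∈ U 1 j, TT (pw w) 0 u < mz μ u - ρ j}) ∪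
      (⋃ j ∈ Finset.range J, {w | ∃ u ∈ U (-1) j, TT (pw w) 0 u < mz μ u - ρ j}) := by
    rintro w ⟨u, u1, u2, u3, u4, u5⟩
    have ht0 : 0 < tc e u := by linarith
    set s : ℝ := |zc e u| / tc e u with hs
    have hs0 : 0 ≤ s := by positivity
    have hs1 : s ≤ 1 := by rw [hs, div_le_one ht0]; exact u4
    have hsz : |zc e u| = tc e u * s := by rw [hs]; field_simp
    set j : ℕ := ⌊s / (δ / 100)⌋₊ with hj
    set x : ℝ := s / (δ / 100) - j with hx
    have hx0 : 0 ≤ x := by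
      have := Nat.floor_le (show 0 ≤ s / (δ / 100) by positivity)
      rw [← hj] at this
      linarith
    have hx1 : x ≤ 1 := by
      have := Nat.lt_floor_add_one (s / (δ / 100))
      rw [← hj] at this
      linarith
    have hjJ : j < J := by
      rw [hJ, hj]
      apply Nat.lt_succ_of_le
      apply Nat.floor_le_floor
      rw [div_le_div_iff₀ (by positivity) hδ]
      nlinarith
    have hsx : s = δ / 100 * j + δ / 100 * x := by
      rw [hx]; field_simp; ring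
    -- both signs at the same time
    have key : ∀ σ : ℝ, (σ = 1 ∨ σ = -1) → zc e u = σ * |zc e u| →
        ∃ u ∈ U σ j, TT (pw w) 0 u < mz μ u - ρ j := by
      intro σ hσ hz
      have hw : Win e n δ σ j u := by
        refine ⟨u1, u2, u3, x, hx0, hx1, ?_⟩
        rw [hz, hsz, hsx]; ring
      refine ⟨u, ?_, ?_⟩
      · rw [Finset.mem_filter]
        refine ⟨mem_ball.2 ?_, hw⟩
        have e1 := hvlow σ hσ j
        have e2 : (dd 0 u : ℝ) ≤ 9 / 4 * n := by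
          rw [dd_real]
          have e3 := em_eq he u
          have e4 : |(u.1 : ℝ)| ≤ |tc e u| * |e.1| + |zc e u| * |e.2| := by
            have e5 : (u.1 : ℝ) = tc e u * e.1 + zc e u * (-e.2) := congrArg Prod.fst e3
            rw [e5]
            refine (abs_add_le _ _).trans ?_
            rw [abs_mul, abs_mul, abs_neg]
          have e5 : |(u.2 : ℝ)| ≤ |tc e u| * |e.2| + |zc e u| * |e.1| := by
            have e6 : (u.2 : ℝ) = tc e u * e.2 + zc e u * e.1 := congrArg Prod.snd e3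
            rw [e6]
            refine (abs_add_le _ _).trans ?_
            rw [abs_mul, abs_mul]
          rw [abs_of_pos ht0] at e4 e5
          have e6 := (Cir_sum he).2
          have e7 := abs_nonneg e.1
          have e8 := abs_nonneg e.2
          calc |(u.1 : ℝ)| + |(u.2 : ℝ)| ≤ (tc e u + |zc e u|) * (|e.1| + |e.2|) := by linarith
            _ ≤ (3 / 4 * n + 3 / 4 * n) * (3 / 2) := by
                have : |zc e u| ≤ 3 / 4 * n := u4.trans u2
                gcongr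
            _ = 9 / 4 * n := by ring
        have e3 : (dd 0 u : ℝ) ≤ 3 * (dd 0 (v σ j) : ℝ) := by linarith
        exact_mod_cast e3
      · have hj2 := hwin σ j u hσ hw
        have e1 : ρ j ≤ |zc e u| / (3 * δ) * A := by
          have e2 : |zc e u| / (3 * δ) * A = tc e u * (j + x) * A / 300 := by
            rw [hsz, hsx]; field_simp; ring
          rw [e2]
          have e3 : n / 4 * (j + 0) * A ≤ tc e u * (j + x) * A := by gcongr
          have e4 : 3 / 5 * ((j : ℝ) + 1) ≤ j := by linarith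
          have e5 : 0 ≤ n * A := by positivity
          have e6 := mul_le_mul_of_nonneg_left e4 e5
          simp only [ρ]
          linarith
        linarith
    rcases le_total 0 (zc e u) with hz | hz
    · left
      simp only [Set.mem_iUnion, Finset.mem_range]
      exact ⟨j, hjJ, key 1 (Or.inl rfl) (by rw [abs_of_nonneg hz, one_mul])⟩
    · right
      simp only [Set.mem_iUnion, Finset.mem_range]
      exact ⟨j, hjJ, key (-1) (Or.inr rfl) (by rw [abs_of_nonpos hz]; ring)⟩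
  have hsum : ∀ σ : ℝ, (σ = 1 ∨ σ = -1) →
      nu.real (⋃ j ∈ Finset.range J, {w | ∃ u ∈ U σ j, TT (pw w) 0 u < mz μ u - ρ j}) ≤
        8 * C1 * 2000 ^ (1 / a) * (n * (n * A) ^ (-(1 / a))) := by
    intro σ hσ
    refine (measureReal_biUnion_finset_le _ _).trans ?_
    calc _ ≤ ∑ j ∈ Finset.range J, 4 * C1 * 2000 ^ (1 / a) * (n * (n * A) ^ (-(1 / a))) *
          (1 / ((j : ℝ) + 1) ^ 2) :=
          Finset.sum_le_sum fun j hj => hbound σ j hσ (Finset.mem_range.1 hj)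
      _ = 4 * C1 * 2000 ^ (1 / a) * (n * (n * A) ^ (-(1 / a))) *
          ∑ j ∈ Finset.range J, (1 / ((j : ℝ) + 1) ^ 2) := by rw [Finset.mul_sum]
      _ ≤ 4 * C1 * 2000 ^ (1 / a) * (n * (n * A) ^ (-(1 / a))) * 2 := by
          have := sum_inv_sq J
          have hnA0 : 0 ≤ n * A := by linarith
          gcongr
      _ = _ := by ring
  refine (measureReal_mono hcov (measure_ne_top nu _)).trans ((measureReal_union_le _ _).trans ?_)
  have e1 := hsum 1 (Or.inl rfl)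
  have e2 := hsum (-1) (Or.inr rfl)
  linarith

end Pool.Agent.H948
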