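import Pool.Agent.H948.Dir
import Pool.Agent.H948.Core

/-!
# Some step is not slow
-/

set_option autoImplicit false

open MeasureTheory ProbabilityTheory Finset Filter
open scoped Topology

namespace Pool.Agent.H948

open Q70.Fp
open Q69.FM (Sub hm)

variable {μ : ℝ × ℝ → ℝ}

/-- the lower tail at the scale `m` is small -/
def Hyp (μ : ℝ × ℝ → ℝ) (b : ℝ) (m : ℕ) : Prop := ∀ z : ℤ × ℤ, dd 0 z ≤ 4700 * m →
  nu.real {w | TT (pw w) 0 z < mz μ z - (m:ℝ) ^ b} ≤ (m:ℝ) ^ (-(20:ℝ))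

lemma exists_fast (h : Shape μ) {p : ℝ × ℝ} (hd : Dir μ p) {b a : ℝ} (hb : 0 < b) (hba : b < a)
    (ha : a < 1) : ∀ᶠ m : ℕ in atTop, Hyp μ b m → ∃ u : ℤ × ℤ, m ≤ dd 0 u ∧ dd 0 u ≤ 70 * m ∧
      (m:ℝ) ^ (-(8:ℝ)) < nu.real {w | TT (pw w) 0 u < lf μ p u + (m:ℝ) ^ a} := by
  have hp0 := hd.pos
  have hp2 := hd.le
  obtain ⟨C, hC, hhalf⟩ := half_poly (20 / b) (by positivity)
  obtain ⟨C3, hC3, hup⟩ := (half h).2 (3 / 5) (by norm_num) 1 one_pos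
  have F1 := pow_small (c := -8) (a := 0) (K := 266 ^ 4 * (7 * C + 1)) (by norm_num)
  have F2 := pow_small (c := -1) (a := 0) (K := 2 * (266 ^ 2 * 2538 * 2)) (by norm_num)
  have F3 := pow_small (c := b) (a := a) (K := 50 * 2400 / μ p) hba
  have F4 := pow_small (c := 0) (a := 2) (K := 87652 * 2400 / μ p) (by norm_num)
  have F5 := pow_small (c := 0) (a := 2 + a) (K := 2400 / μ p) (by linarith)
  have F6 := pow_small (c := 9 / 5) (a := 2 + a) (K := 800 * 2 / μ p) (by linarith)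
  have F7 := pow_small (c := 0) (a := 2 + a) (K := 800 * 10 / μ p) (by linarith)
  have F8 := pow_small (c := -3) (a := 0) (K := 2 * C3) (by norm_num)
  filter_upwards [F1, F2, F3, F4, F5, F6, F7, F8, eventually_ge_atTop 4] with m F1 F2 F3 F4 F5 F6 F7
    F8 hm4 hH
  by_contra hcon
  push Not at hcon
  have hm4' : (4:ℝ) ≤ m := by exact_mod_cast hm4
  have hm1 : (1:ℝ) ≤ m := by linarith
  have hm0 : (0:ℝ) < m := by linarith
  rw [Real.rpow_zero] at F1 F2 F4 F5 F7 F8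
  -- the numbers
  set D0 : ℝ := (m:ℝ) ^ b with hD0
  set κ : ℝ := (m:ℝ) ^ a with hκ
  have hD01 : 1 ≤ D0 := Real.one_le_rpow hm1 hb.le
  have hκ1 : 1 ≤ κ := Real.one_le_rpow hm1 (by linarith)
  have hDκ : D0 ≤ κ := Real.rpow_le_rpow_of_exponent_le hm1 hba.le
  have hκm : κ ≤ m := by
    calc κ ≤ (m:ℝ) ^ (1:ℝ) := Real.rpow_le_rpow_of_exponent_le hm1 ha.le
      _ = m := Real.rpow_one _
  set M : ℝ := (m:ℝ) ^ 3 with hM
  have hMm : (m:ℝ) * 16 ≤ M := by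
    rw [hM]
    have : (4:ℝ) ^ 2 ≤ (m:ℝ) ^ 2 := pow_le_pow_left₀ (by norm_num) hm4' 2
    nlinarith
  have hM64 : 64 ≤ M := by linarith
  have hM0 : 0 < M := by linarith
  set δ : ℝ := κ / (200 * m) with hδ
  have hδ0 : 0 < δ := by rw [hδ]; positivity
  have hδ1 : δ ≤ 1 / 200 := by
    rw [hδ, div_le_iff₀ (by positivity)]
    linarith
  set s : ℕ := ⌊D0⌋₊ with hs
  have s_up : (s:ℝ) ≤ D0 := Nat.floor_le (by linarith)
  have s_lo : D0 < s + 1 := Nat.lt_floor_add_one _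
  have hs1 : 1 ≤ s := Nat.le_floor (by simpa using hD01)
  have hsm : s ≤ m := by
    have : (s:ℝ) ≤ m := by linarith
    exact_mod_cast this
  -- the end point
  set v : ℤ × ℤ := rd (M • p) with hv
  obtain ⟨v1, v2⟩ := rd_size hd.cir hM0
  obtain ⟨v3, v4⟩ := rd_coord hd.cir M
  rw [← hv] at v1 v2 v3 v4
  obtain ⟨n, hn⟩ : ∃ n, n = dd 0 v := ⟨_, rfl⟩
  rw [← hn] at v1 v2
  have hn2 : (n:ℝ) ≤ 2 * M := by linarith
  have hn1 : M / 2 ≤ n := by linarith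
  have hmn : m ≤ n := by
    have : (m:ℝ) ≤ n := by linarith
    exact_mod_cast this
  have hn0 : (0:ℝ) < n := by linarith
  have hv0 : v ≠ 0 := by
    rintro h0
    rw [h0, dd_self] at hn
    rw [hn] at hn0
    simp at hn0
  have hlf : μ p * (M / 2) ≤ lf μ p v := by
    unfold lf
    have := (abs_le.1 v3).1
    have e1 : M / 2 ≤ tc p v := by linarith
    gcongr
  have hmz : mz μ v ≤ lf μ p v + 10 := by
    have e1 := (rd_mz0 h (M • p)).1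
    rw [← hv, h.hom _ _ hM0.le] at e1
    have e2 := (abs_le.1 v3).1
    unfold lf
    nlinarith
  set S : ℝ := δ * lf μ p v / 2 with hS
  have hSlow : κ * μ p * (m:ℝ) ^ 2 / 800 ≤ S := by
    have e1 : κ * μ p * (m:ℝ) ^ 2 / 800 = δ * (μ p * (M / 2)) / 2 := by
      rw [hδ, hM]; field_simp; norm_num
    rw [e1, hS]
    gcongr
  have hκm2 : κ * (m:ℝ) ^ 2 = (m:ℝ) ^ (2 + a) := by
    rw [hκ, ← Real.rpow_natCast (m:ℝ) 2, ← Real.rpow_add hm0]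
    congr 1; push_cast; ring
  -- the conditions
  have c1 : 50 * (m:ℝ) ^ 2 * D0 ≤ κ * μ p * (m:ℝ) ^ 2 / 2400 := by
    have e1 : 50 * 2400 / μ p * D0 ≤ κ := by linarith
    have e2 : 50 * 2400 / μ p * D0 * (μ p * (m:ℝ) ^ 2 / 2400) ≤ κ * (μ p * (m:ℝ) ^ 2 / 2400) :=
      mul_le_mul_of_nonneg_right e1 (by positivity)
    have e3 : 50 * 2400 / μ p * D0 * (μ p * (m:ℝ) ^ 2 / 2400) = 50 * (m:ℝ) ^ 2 * D0 := by field_simp
    linarith
  have c2 : 87652 * κ ≤ κ * μ p * (m:ℝ) ^ 2 / 2400 := by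
    have e0 : (m:ℝ) ^ (2:ℝ) = (m:ℝ) ^ 2 := by rw [← Real.rpow_natCast]; norm_num
    rw [e0] at F4
    have e1 : 87652 * 2400 / μ p ≤ (m:ℝ) ^ 2 := by
      have : (0:ℝ) ≤ (m:ℝ) ^ 2 := by positivity
      linarith
    have e2 : 87652 * 2400 / μ p * (κ * μ p / 2400) ≤ (m:ℝ) ^ 2 * (κ * μ p / 2400) :=
      mul_le_mul_of_nonneg_right e1 (by positivity)
    have e3 : 87652 * 2400 / μ p * (κ * μ p / 2400) = 87652 * κ := by field_simp
    linarith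
  have c3 : 1 ≤ κ * μ p * (m:ℝ) ^ 2 / 2400 := by
    rw [← hκm2] at F5
    have e1 : 2400 / μ p ≤ κ * (m:ℝ) ^ 2 := by
      have : (0:ℝ) ≤ κ * (m:ℝ) ^ 2 := by positivity
      linarith
    have e2 : 2400 / μ p * (μ p / 2400) ≤ κ * (m:ℝ) ^ 2 * (μ p / 2400) :=
      mul_le_mul_of_nonneg_right e1 (by positivity)
    have e3 : 2400 / μ p * (μ p / 2400) = 1 := by field_simp
    linarith
  have c4 : 2 * (m:ℝ) ^ (9 / 5 : ℝ) ≤ κ * μ p * (m:ℝ) ^ 2 / 800 / 4 := by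
    rw [← hκm2] at F6
    have e2 : 800 * 2 / μ p * (m:ℝ) ^ (9 / 5 : ℝ) * (μ p / 800) ≤ κ * (m:ℝ) ^ 2 / 4 * (μ p / 800) :=
      mul_le_mul_of_nonneg_right F6 (by positivity)
    have e3 : 800 * 2 / μ p * (m:ℝ) ^ (9 / 5 : ℝ) * (μ p / 800) = 2 * (m:ℝ) ^ (9 / 5 : ℝ) := by
      field_simp
    linarith
  have c5 : 10 ≤ κ * μ p * (m:ℝ) ^ 2 / 800 / 4 := by
    rw [← hκm2] at F7
    have e2 : 800 * 10 / μ p * 1 * (μ p / 800) ≤ κ * (m:ℝ) ^ 2 / 4 * (μ p / 800) :=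
      mul_le_mul_of_nonneg_right F7 (by positivity)
    have e3 : 800 * 10 / μ p * 1 * (μ p / 800) = 10 := by field_simp
    linarith
  have hSpos : 0 < κ * μ p * (m:ℝ) ^ 2 / 800 := by positivity
  have c6 : (n:ℝ) ^ (3 / 5 : ℝ) ≤ 2 * (m:ℝ) ^ (9 / 5 : ℝ) := by
    calc (n:ℝ) ^ (3 / 5 : ℝ) ≤ (2 * M) ^ (3 / 5 : ℝ) :=
          Real.rpow_le_rpow hn0.le hn2 (by norm_num)
      _ = 2 ^ (3 / 5 : ℝ) * M ^ (3 / 5 : ℝ) := Real.mul_rpow (by norm_num) hM0.le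
      _ = 2 ^ (3 / 5 : ℝ) * (m:ℝ) ^ (9 / 5 : ℝ) := by
          rw [hM, ← Real.rpow_natCast (m:ℝ) 3, ← Real.rpow_mul hm0.le]; norm_num
      _ ≤ 2 * (m:ℝ) ^ (9 / 5 : ℝ) := by
          have : (2:ℝ) ^ (3 / 5 : ℝ) ≤ 2 ^ (1:ℝ) :=
            Real.rpow_le_rpow_of_exponent_le (by norm_num) (by norm_num)
          rw [Real.rpow_one] at this
          gcongr
  -- the steps
  set g : ℝ := D0 + 24 * s with hg
  set D : ℝ := κ + D0 with hD
  have hlow : ∀ z : ℤ × ℤ, dd 0 z ≤ 70 * m → δ * lf μ p z ≤ κ := by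
    intro z hz
    have e1 := hd.lf_dd z
    have e2 : (dd 0 z : ℝ) ≤ 70 * m := by exact_mod_cast hz
    calc δ * lf μ p z ≤ δ * (140 * m) := by
          apply mul_le_mul_of_nonneg_left _ hδ0.le
          linarith
      _ = 140 / 200 * κ := by rw [hδ]; field_simp
      _ ≤ κ := by linarith
  have h5 : ∀ z : ℤ × ℤ, dd 0 z ≤ 66 * m → nu.real {w | TT (pw w) 0 z < Ph μ p δ z - D} ≤
      (m:ℝ) ^ (-(20:ℝ)) := by
    intro z hz
    refine (measureReal_mono ?_ (measure_ne_top _ _)).trans (hH z (by omega))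
    intro w hw
    have hw' : TT (pw w) 0 z < Ph μ p δ z - D := hw
    show TT (pw w) 0 z < mz μ z - D0
    have e1 := hlow z (by omega)
    have e2 := hd.lf_le h z
    have e3 : Ph μ p δ z ≤ mz μ z + κ := by
      unfold Ph
      refine max_le (by linarith) (by linarith)
    linarith
  have hpp : ∀ z : ℤ × ℤ, 66 * m ≤ dd 0 z + 4 * s → dd 0 z ≤ 66 * m + 4 * s →
      nu.real {w | TT (pw w) 0 z < Ph μ p δ z - (g - 24 * s)} ≤
        2 * (m:ℝ) ^ (-(8:ℝ)) := by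
    intro z hz1 hz2
    have e1 := hlow z (by omega)
    have hsub : {w : Ed → ℝ | TT (pw w) 0 z < Ph μ p δ z - (g - 24 * s)} ⊆
        {w | TT (pw w) 0 z < mz μ z - D0} ∪ {w | TT (pw w) 0 z < lf μ p z + κ} := by
      intro w hw
      have hw' : TT (pw w) 0 z < Ph μ p δ z - (g - 24 * s) := hw
      have e4 : g - 24 * s = D0 := by rw [hg]; ring
      rw [e4] at hw'
      unfold Ph at hw'
      rcases max_cases (mz μ z) ((1 + δ) * lf μ p z) with ⟨h1, -⟩ | ⟨h1, -⟩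
      · left
        rw [h1] at hw'
        exact hw'
      · right
        rw [h1] at hw'
        show TT (pw w) 0 z < lf μ p z + κ
        linarith
    have e2 := hH z (by omega)
    have e3 := hcon z (by omega) (by omega)
    have e4 : (m:ℝ) ^ (-(20:ℝ)) ≤ (m:ℝ) ^ (-(8:ℝ)) :=
      Real.rpow_le_rpow_of_exponent_le hm1 (by norm_num)
    have e5 := (measureReal_mono hsub (measure_ne_top nu _)).trans (measureReal_union_le _ _)
    linarith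
  have hr : 43825 * ((1:ℕ):ℝ) * D + (n:ℝ) / m * g + D + 1 ≤ S := by
    have e1 : D ≤ 2 * κ := by linarith
    have e2 : g ≤ 25 * D0 := by linarith
    have e3 : (n:ℝ) / m ≤ 2 * (m:ℝ) ^ 2 := by
      rw [div_le_iff₀ hm0]
      calc (n:ℝ) ≤ 2 * M := hn2
        _ = 2 * (m:ℝ) ^ 2 * m := by rw [hM]; ring
    have e4 : (n:ℝ) / m * g ≤ (2 * (m:ℝ) ^ 2) * (25 * D0) := by gcongr
    have e5 : (2 * (m:ℝ) ^ 2) * (25 * D0) = 50 * (m:ℝ) ^ 2 * D0 := by ring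
    push_cast
    linarith
  have hg0 : 0 ≤ g := by positivity
  have hD0' : 0 ≤ D := by positivity
  have hS1 : 1 ≤ S := by
    have : 0 ≤ (n:ℝ) / m * g := by positivity
    push_cast at hr
    linarith
  have main := Q69.FM.prob_step (Ph_Sub h hd hδ0.le (by linarith)) hn.symm (show 1 ≤ m by omega) hs1 hsm
    hmn hS1 hD0' hg0 (show 0 ≤ 2 * (m:ℝ) ^ (-(8:ℝ)) by positivity)
    (show 0 ≤ (m:ℝ) ^ (-(20:ℝ)) by positivity) h5 hpp hr
  -- the bound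
  have hb1 : (133 * (n:ℝ)) ^ 4 * (7 * (1 / 2) ^ s + (m:ℝ) ^ (-(20:ℝ))) ≤ 1 / 4 := by
    have e1 : (133 * (n:ℝ)) ^ 4 ≤ 266 ^ 4 * (m:ℝ) ^ (12:ℝ) := by
      calc (133 * (n:ℝ)) ^ 4 ≤ (133 * (2 * M)) ^ 4 := by gcongr
        _ = 266 ^ 4 * (m:ℝ) ^ (12:ℕ) := by rw [hM]; ring
        _ = _ := by rw [← Real.rpow_natCast (m:ℝ) 12]; norm_num
    have e2 : ((1:ℝ) / 2) ^ s ≤ C * (m:ℝ) ^ (-(20:ℝ)) := by
      refine (hhalf s).trans ?_
      have e3 : ((s:ℝ) + 1) ^ (-(20 / b)) ≤ D0 ^ (-(20 / b)) :=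
        Real.rpow_le_rpow_of_nonpos (by linarith) s_lo.le (by
          have : 0 < 20 / b := by positivity
          linarith)
      have e4 : D0 ^ (-(20 / b)) = (m:ℝ) ^ (-(20:ℝ)) := by
        rw [hD0, ← Real.rpow_mul hm0.le]
        congr 1
        field_simp
      rw [e4] at e3
      gcongr
    calc (133 * (n:ℝ)) ^ 4 * (7 * (1 / 2) ^ s + (m:ℝ) ^ (-(20:ℝ)))
        ≤ (266 ^ 4 * (m:ℝ) ^ (12:ℝ)) * (7 * (C * (m:ℝ) ^ (-(20:ℝ))) + (m:ℝ) ^ (-(20:ℝ))) := by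
          gcongr
      _ = 266 ^ 4 * (7 * C + 1) * ((m:ℝ) ^ (12:ℝ) * (m:ℝ) ^ (-(20:ℝ))) := by ring
      _ = 266 ^ 4 * (7 * C + 1) * (m:ℝ) ^ (-8 : ℝ) := by
          rw [← Real.rpow_add hm0]; norm_num
      _ ≤ 1 / 4 := by linarith
  have hb2 : ((((ball (66 * n) 0).image (Q69.FL.rd s)).card : ℝ) *
      (18 * (2 * ((66 * m / s : ℕ) : ℝ) + 9) * (2 * (m:ℝ) ^ (-(8:ℝ))))) ^ 1 ≤ 1 / 8 := by
    rw [pow_one]
    have e1 : (((ball (66 * n) 0).image (Q69.FL.rd s)).card : ℝ) ≤ (133 * (n:ℝ)) ^ 2 := by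
      have f1 : ((ball (66 * n) 0).image (Q69.FL.rd s)).card ≤ (133 * n) ^ 2 :=
        Finset.card_image_le.trans ((card_ball (66 * n)).trans (Nat.pow_le_pow_left (by omega) 2))
      exact_mod_cast f1
    have e2 : (133 * (n:ℝ)) ^ 2 ≤ 266 ^ 2 * (m:ℝ) ^ (6:ℝ) := by
      calc (133 * (n:ℝ)) ^ 2 ≤ (133 * (2 * M)) ^ 2 := by gcongr
        _ = 266 ^ 2 * (m:ℝ) ^ (6:ℕ) := by rw [hM]; ring
        _ = _ := by rw [← Real.rpow_natCast (m:ℝ) 6]; norm_num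
    have e3 : (18:ℝ) * (2 * ((66 * m / s : ℕ) : ℝ) + 9) ≤ 2538 * m := by
      have f1 : ((66 * m / s : ℕ) : ℝ) ≤ ((66 * m : ℕ) : ℝ) := by
        exact_mod_cast Nat.div_le_self _ _
      push_cast at f1
      linarith
    calc (((ball (66 * n) 0).image (Q69.FL.rd s)).card : ℝ) *
        (18 * (2 * ((66 * m / s : ℕ) : ℝ) + 9) * (2 * (m:ℝ) ^ (-(8:ℝ))))
        ≤ (266 ^ 2 * (m:ℝ) ^ (6:ℝ)) * ((2538 * m) * (2 * (m:ℝ) ^ (-(8:ℝ)))) := by
          gcongr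
          exact e1.trans e2
      _ = 266 ^ 2 * 2538 * 2 * ((m:ℝ) ^ (6:ℝ) * (m:ℝ) ^ (1:ℝ) * (m:ℝ) ^ (-(8:ℝ))) := by
          rw [Real.rpow_one]; ring
      _ = 266 ^ 2 * 2538 * 2 * (m:ℝ) ^ (-1 : ℝ) := by
          rw [← Real.rpow_add hm0, ← Real.rpow_add hm0]; norm_num
      _ ≤ 1 / 8 := by linarith
  have hb3 : nu.real {w | mz μ v + (dd 0 v : ℝ) ^ (3 / 5 : ℝ) < TT (pw w) 0 v} ≤ 1 / 4 := by
    refine (hup v hv0).trans ?_
    rw [← hn]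
    have e1 : (n:ℝ) ^ (-(1:ℝ)) ≤ (M / 2) ^ (-(1:ℝ)) :=
      Real.rpow_le_rpow_of_nonpos (by positivity) hn1 (by norm_num)
    have e2 : (M / 2) ^ (-(1:ℝ)) = 2 * (m:ℝ) ^ (-3 : ℝ) := by
      rw [Real.rpow_neg_one, Real.rpow_neg hm0.le, hM, ← Real.rpow_natCast (m:ℝ) 3, inv_div]
      norm_num
      rfl
    rw [e2] at e1
    calc C3 * (n:ℝ) ^ (-(1:ℝ)) ≤ C3 * (2 * (m:ℝ) ^ (-3 : ℝ)) := by gcongr
      _ ≤ 1 / 4 := by linarith
  -- the contradiction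
  have hcover : (Set.univ : Set (Ed → ℝ)) ⊆ {w | TT (pw w) 0 v < Ph μ p δ v - S} ∪
      {w | mz μ v + (dd 0 v : ℝ) ^ (3 / 5 : ℝ) < TT (pw w) 0 v} := by
    intro w _
    by_contra hno
    simp only [Set.mem_union, Set.mem_ofPred_eq, not_or, not_lt] at hno
    obtain ⟨g1, g2⟩ := hno
    have e1 : (1 + δ) * lf μ p v ≤ Ph μ p δ v := le_max_right _ _
    rw [← hn] at g2
    have e2 : δ * lf μ p v = 2 * S := by rw [hS]; ring
    linarith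
  have e1 := (measureReal_mono hcover (measure_ne_top nu _)).trans (measureReal_union_le _ _)
  rw [probReal_univ] at e1
  linarith

end Pool.Agent.H948
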