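import Pool.Agent.H948.SymDiff

/-!
# Geometry: areas of unions of unit squares and of dilates of the limit shape
-/

set_option autoImplicit false

open MeasureTheory ProbabilityTheory Filter Set
open scoped ENNReal Topology Pointwise

namespace Pool.Agent.H948

open Q70.Fp
open Q69.FL (Se Ll)

variable {μ : ℝ × ℝ → ℝ}

/-- the union of the closed unit squares around the points of a set -/
def Fat (A : Set (ℤ × ℤ)) : Set (ℝ × ℝ) :=
  {x : ℝ × ℝ | ∃ v ∈ A, |x.1 - (v.1 : ℝ)| ≤ 1 / 2 ∧ |x.2 - (v.2 : ℝ)| ≤ 1 / 2}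

lemma Fat_mono {A B : Set (ℤ × ℤ)} (h : A ⊆ B) : Fat A ⊆ Fat B := by
  rintro x ⟨v, hv, h1⟩
  exact ⟨v, h hv, h1⟩

lemma mem_Fat {A : Set (ℤ × ℤ)} {v : ℤ × ℤ} (hv : v ∈ A) : (((v.1:ℝ), (v.2:ℝ)) : ℝ × ℝ) ∈ Fat A :=
  ⟨v, hv, by simp, by simp⟩

lemma vol_Fat_le (A : Finset (ℤ × ℤ)) : volume (Fat (A : Set (ℤ × ℤ))) ≤ A.card := by
  have h1 : Fat (A : Set (ℤ × ℤ)) = ⋃ v ∈ A,
      (Icc ((v.1:ℝ) - 1 / 2) ((v.1:ℝ) + 1 / 2) ×ˢ Icc ((v.2:ℝ) - 1 / 2) ((v.2:ℝ) + 1 / 2)) := by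
    ext x
    simp only [Fat, mem_ofPred_eq, mem_iUnion, mem_prod, mem_Icc, exists_prop, Finset.mem_coe,
      abs_le]
    constructor
    · rintro ⟨v, hv, ⟨h1, h2⟩, h3, h4⟩
      exact ⟨v, hv, ⟨by linarith, by linarith⟩, by linarith, by linarith⟩
    · rintro ⟨v, hv, ⟨h1, h2⟩, h3, h4⟩
      exact ⟨v, hv, ⟨by linarith, by linarith⟩, by linarith, by linarith⟩
  rw [h1]
  refine (measure_biUnion_finset_le _ _).trans ?_
  have h2 : ∀ v ∈ A, volume (Icc ((v.1:ℝ) - 1 / 2) ((v.1:ℝ) + 1 / 2) ×ˢ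
      Icc ((v.2:ℝ) - 1 / 2) ((v.2:ℝ) + 1 / 2)) = 1 := by
    intro v _
    rw [Measure.volume_eq_prod, Measure.prod_prod, Real.volume_Icc, Real.volume_Icc]
    norm_num
  rw [Finset.sum_congr rfl h2]
  simp

lemma le_vol_Fat (A : Finset (ℤ × ℤ)) : (A.card : ℝ≥0∞) ≤ volume (Fat (A : Set (ℤ × ℤ))) := by
  set sq : ℤ × ℤ → Set (ℝ × ℝ) := fun v =>
    Ico ((v.1:ℝ) - 1 / 2) ((v.1:ℝ) + 1 / 2) ×ˢ Ico ((v.2:ℝ) - 1 / 2) ((v.2:ℝ) + 1 / 2) with hsq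
  have h0 : (⋃ v ∈ A, sq v) ⊆ Fat (A : Set (ℤ × ℤ)) := by
    intro x hx
    simp only [mem_iUnion, exists_prop] at hx
    obtain ⟨v, hv, h1, h2⟩ := hx
    rw [mem_Ico] at h1 h2
    refine ⟨v, hv, ?_, ?_⟩
    · rw [abs_le]; constructor <;> linarith [h1.1, h1.2]
    · rw [abs_le]; constructor <;> linarith [h2.1, h2.2]
  refine le_trans (le_of_eq ?_) (measure_mono h0)
  rw [measure_biUnion_finset]
  · have h2 : ∀ v ∈ A, volume (sq v) = 1 := by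
      intro v _
      rw [hsq]
      rw [Measure.volume_eq_prod, Measure.prod_prod, Real.volume_Ico, Real.volume_Ico]
      norm_num
    rw [Finset.sum_congr rfl h2]
    simp
  · intro u _ v _ huv
    rw [Function.onFun, Set.disjoint_left]
    rintro x ⟨h1, h2⟩ ⟨h3, h4⟩
    rw [mem_Ico] at h1 h2 h3 h4
    apply huv
    have key : ∀ a b : ℤ, ∀ y : ℝ, (a:ℝ) - 1 / 2 ≤ y → y < a + 1 / 2 → (b:ℝ) - 1 / 2 ≤ y →
        y < b + 1 / 2 → a = b := by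
      intro a b y e1 e2 e3 e4
      have f1 : (a:ℝ) < b + 1 := by linarith
      have f2 : (b:ℝ) < a + 1 := by linarith
      have g1 : a < b + 1 := by exact_mod_cast f1
      have g2 : b < a + 1 := by exact_mod_cast f2
      omega
    exact Prod.ext (key _ _ _ h1.1 h1.2 h3.1 h3.2) (key _ _ _ h2.1 h2.2 h4.1 h4.2)
  · intro v _
    exact measurableSet_Ico.prod measurableSet_Ico

lemma mu_low (h : Shape μ) (x : ℝ × ℝ) : (|x.1| + |x.2|) / 22 ≤ μ x := by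
  have h1 := fl_lim h x
  have h2 : Tendsto (fun n : ℕ => (|(n:ℝ)⁻¹ * (⌊(n:ℝ) * x.1⌋ : ℝ)| +
      |(n:ℝ)⁻¹ * (⌊(n:ℝ) * x.2⌋ : ℝ)|) / 22) atTop (𝓝 ((|x.1| + |x.2|) / 22)) :=
    (((floor_lim x.1).abs).add ((floor_lim x.2).abs)).div_const 22
  refine le_of_tendsto_of_tendsto' h2 h1 fun n => ?_
  have h3 := mz_low h (fl n x)
  have h4 : (dd 0 (fl n x) : ℝ) = |(⌊(n:ℝ) * x.1⌋ : ℝ)| + |(⌊(n:ℝ) * x.2⌋ : ℝ)| := by
    simp only [dd, fl, Prod.fst_zero, Prod.snd_zero, sub_zero]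
    push_cast [Nat.cast_natAbs]
    rfl
  rw [h4] at h3
  have h5 : (0:ℝ) ≤ (n:ℝ)⁻¹ := by positivity
  rw [abs_mul, abs_mul, abs_of_nonneg h5]
  calc ((n:ℝ)⁻¹ * |(⌊(n:ℝ) * x.1⌋ : ℝ)| + (n:ℝ)⁻¹ * |(⌊(n:ℝ) * x.2⌋ : ℝ)|) / 22
      = (n:ℝ)⁻¹ * ((|(⌊(n:ℝ) * x.1⌋ : ℝ)| + |(⌊(n:ℝ) * x.2⌋ : ℝ)|) / 22) := by ring
    _ ≤ _ := mul_le_mul_of_nonneg_left h3 h5

/-- the area of the limit shape -/
noncomputable def area (μ : ℝ × ℝ → ℝ) : ℝ := (volume {x : ℝ × ℝ | μ x ≤ 1}).toReal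

lemma vol_lt_top (h : Shape μ) : volume {x : ℝ × ℝ | μ x ≤ 1} < ∞ := by
  have h1 : {x : ℝ × ℝ | μ x ≤ 1} ⊆ Icc (-22) 22 ×ˢ Icc (-22) 22 := by
    intro x hx
    have h2 := mu_low h x
    have h3 : μ x ≤ 1 := hx
    have h4 := abs_nonneg x.1
    have h5 := abs_nonneg x.2
    refine ⟨abs_le.1 (by linarith), abs_le.1 (by linarith)⟩
  refine lt_of_le_of_lt (measure_mono h1) ?_
  rw [Measure.volume_eq_prod, Measure.prod_prod, Real.volume_Icc]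
  exact ENNReal.mul_lt_top ENNReal.ofReal_lt_top ENNReal.ofReal_lt_top

lemma mu_zero (h : Shape μ) : μ 0 = 0 := by
  have := h.hom 0 0 le_rfl
  simpa using this

lemma area_pos (h : Shape μ) : 0 < area μ := by
  have h1 : IsOpen {x : ℝ × ℝ | μ x < 1} := isOpen_lt h.cont continuous_const
  have h2 : (0 : ℝ × ℝ) ∈ {x : ℝ × ℝ | μ x < 1} := by
    show μ 0 < 1
    rw [mu_zero h]; exact one_pos
  have h3 := h1.measure_pos volume ⟨0, h2⟩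
  have h4 : {x : ℝ × ℝ | μ x < 1} ⊆ {x : ℝ × ℝ | μ x ≤ 1} := by
    intro x hx
    have h5 : μ x < 1 := hx
    exact h5.le
  exact ENNReal.toReal_pos (h3.trans_le (measure_mono h4)).ne' (vol_lt_top h).ne

lemma vol_smul (h : Shape μ) (c : ℝ) :
    volume (c • {x : ℝ × ℝ | μ x ≤ 1}) = ENNReal.ofReal (c ^ 2 * area μ) := by
  rw [Measure.addHaar_smul]
  have h1 : Module.finrank ℝ (ℝ × ℝ) = 2 := by simp
  rw [h1, abs_of_nonneg (by positivity), ENNReal.ofReal_mul (by positivity), area,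
    ENNReal.ofReal_toReal (vol_lt_top h).ne]

lemma card_le_of_sub (h : Shape μ) {A : Finset (ℤ × ℤ)} {c : ℝ}
    (hA : Fat (A : Set (ℤ × ℤ)) ⊆ c • {x : ℝ × ℝ | μ x ≤ 1}) : (A.card : ℝ) ≤ c ^ 2 * area μ := by
  have h1 := (le_vol_Fat A).trans (measure_mono hA)
  rw [vol_smul h c] at h1
  have h2 := ENNReal.toReal_mono ENNReal.ofReal_ne_top h1
  have h3 := area_pos h
  rwa [ENNReal.toReal_ofReal (by positivity), ENNReal.toReal_natCast] at h2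

lemma le_card_of_sub (h : Shape μ) {A : Finset (ℤ × ℤ)} {c : ℝ}
    (hA : c • {x : ℝ × ℝ | μ x ≤ 1} ⊆ Fat (A : Set (ℤ × ℤ))) : c ^ 2 * area μ ≤ A.card := by
  have h1 := (measure_mono hA).trans (vol_Fat_le A)
  rw [vol_smul h c] at h1
  have h2 := ENNReal.toReal_mono (ENNReal.natCast_ne_top _) h1
  have h3 := area_pos h
  rwa [ENNReal.toReal_ofReal (by positivity), ENNReal.toReal_natCast] at h2

lemma smul_mono (h : Shape μ) {c d : ℝ} (hc : 0 < c) (hcd : c ≤ d) :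
    c • {x : ℝ × ℝ | μ x ≤ 1} ⊆ d • {x : ℝ × ℝ | μ x ≤ 1} := by
  intro x hx
  rw [Q69.FL.mem_smul_iff h hc] at hx
  rw [Q69.FL.mem_smul_iff h (by linarith)]
  linarith

/-- a set that is close to a dilate of the limit shape is almost symmetric -/
lemma sym_of_dilate (h : Shape μ) {A : Set (ℤ × ℤ)} {r s : ℝ} (hs : 0 ≤ s) (hr : s < r)
    (h1 : (r - s) • {x : ℝ × ℝ | μ x ≤ 1} ⊆ Fat A) (h2 : Fat A ⊆ (r + s) • {x : ℝ × ℝ | μ x ≤ 1})
    {v : ℤ × ℤ} (hv : v ∈ A) : ∃ u ∈ A, (dd u (-v) : ℝ) ≤ 44 * s + 1 := by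
  have h3 := h2 (mem_Fat hv)
  rw [Q69.FL.mem_smul_iff h (by linarith)] at h3
  change mz μ v ≤ r + s at h3
  -- the point on the segment from the origin to `-v`
  obtain ⟨l, hl0, hl1, hl2, hl3⟩ : ∃ l : ℝ, 0 ≤ l ∧ l ≤ 1 ∧ l * mz μ v ≤ r - s ∧
      (1 - l) * (dd 0 v : ℝ) ≤ 44 * s := by
    by_cases hc : mz μ v ≤ r - s
    · exact ⟨1, by norm_num, le_rfl, by linarith, by linarith⟩
    · push Not at hc
      have hpos : 0 < mz μ v := by linarith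
      refine ⟨(r - s) / mz μ v, by have : 0 ≤ r - s := by linarith
                                   positivity, ?_, ?_, ?_⟩
      · rw [div_le_one hpos]; linarith
      · rw [div_mul_cancel₀ _ hpos.ne']
      · have e1 : 1 - (r - s) / mz μ v = (mz μ v - (r - s)) / mz μ v := by field_simp
        have e2 := mz_low h v
        have e3 : (dd 0 v : ℝ) ≤ 22 * mz μ v := by linarith
        rw [e1]
        have e4 : (mz μ v - (r - s)) / mz μ v ≤ 2 * s / mz μ v := by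
          apply div_le_div_of_nonneg_right _ hpos.le
          linarith
        have e5 : 0 ≤ (mz μ v - (r - s)) / mz μ v := by
          apply div_nonneg _ hpos.le
          linarith
        calc (mz μ v - (r - s)) / mz μ v * (dd 0 v : ℝ) ≤ (2 * s / mz μ v) * (22 * mz μ v) := by
              apply mul_le_mul e4 e3 (by positivity) (by positivity)
          _ = 44 * s := by field_simp; ring
  have h4 : (((-(l * v.1) : ℝ), (-(l * v.2) : ℝ)) : ℝ × ℝ) ∈ Fat A := by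
    apply h1
    rw [Q69.FL.mem_smul_iff h (by linarith)]
    have e1 : (((-(l * v.1) : ℝ), (-(l * v.2) : ℝ)) : ℝ × ℝ) =
        l • ((((-v).1 : ℤ) : ℝ), (((-v).2 : ℤ) : ℝ)) := by
      simp
    rw [e1, h.hom _ _ hl0]
    have e2 := mz_neg h v
    have e3 : μ ((((-v).1 : ℤ) : ℝ), (((-v).2 : ℤ) : ℝ)) = mz μ (-v) := rfl
    rw [e3, e2]
    exact hl2
  obtain ⟨u, hu, h5, h6⟩ := h4
  refine ⟨u, hu, ?_⟩
  have e1 : (dd u (-v) : ℝ) = |(-(v.1:ℝ)) - u.1| + |(-(v.2:ℝ)) - u.2| := by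
    simp only [dd, Prod.fst_neg, Prod.snd_neg]
    push_cast [Nat.cast_natAbs]
    rfl
  have e2 : (dd 0 v : ℝ) = |(v.1:ℝ)| + |(v.2:ℝ)| := by
    simp only [dd, Prod.fst_zero, Prod.snd_zero, sub_zero]
    push_cast [Nat.cast_natAbs]
    rfl
  rw [e2] at hl3
  rw [e1]
  simp only at h5 h6
  have e3 : |(-(v.1:ℝ)) - u.1| ≤ |-(l * v.1) - (u.1:ℝ)| + (1 - l) * |(v.1:ℝ)| := by
    have : (-(v.1:ℝ)) - u.1 = (-(l * v.1) - (u.1:ℝ)) + (-((1 - l) * v.1)) := by ring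
    rw [this]
    refine (abs_add_le _ _).trans ?_
    rw [abs_neg, abs_mul, abs_of_nonneg (show 0 ≤ 1 - l by linarith)]
  have e4 : |(-(v.2:ℝ)) - u.2| ≤ |-(l * v.2) - (u.2:ℝ)| + (1 - l) * |(v.2:ℝ)| := by
    have : (-(v.2:ℝ)) - u.2 = (-(l * v.2) - (u.2:ℝ)) + (-((1 - l) * v.2)) := by ring
    rw [this]
    refine (abs_add_le _ _).trans ?_
    rw [abs_neg, abs_mul, abs_of_nonneg (show 0 ≤ 1 - l by linarith)]
  have e5 : (1 - l) * (|(v.1:ℝ)| + |(v.2:ℝ)|) = (1 - l) * |(v.1:ℝ)| + (1 - l) * |(v.2:ℝ)| := by ring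
  linarith

end Pool.Agent.H948
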