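import Pool.Agent.H948.Sym

/-!
# The Harris inequality for the passage times
-/

set_option autoImplicit false

open MeasureTheory ProbabilityTheory Filter Set
open scoped ENNReal Topology

namespace Pool.Agent.H948

open Q70.Fp

lemma int_of_bdd {α : Type*} [MeasurableSpace α] {ρ : Measure α} [IsFiniteMeasure ρ] {f : α → ℝ}
    (hf : Measurable f) {M : ℝ} (hM : ∀ x, |f x| ≤ M) : Integrable f ρ :=
  Integrable.of_bound hf.aestronglyMeasurable M (Eventually.of_forall fun x => by
    rw [Real.norm_eq_abs]; exact hM x)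

/-- Chebyshev's inequality for two increasing functions of one variable -/
lemma cheb (ρ : Measure ℝ) [IsProbabilityMeasure ρ] {f g : ℝ → ℝ} (hf : Measurable f)
    (hg : Measurable g) (mf : Monotone f) (mg : Monotone g) {M : ℝ} (bf : ∀ x, |f x| ≤ M)
    (bg : ∀ x, |g x| ≤ M) : (∫ x, f x ∂ρ) * ∫ x, g x ∂ρ ≤ ∫ x, f x * g x ∂ρ := by
  have hM : 0 ≤ M := (abs_nonneg _).trans (bf 0)
  have If := int_of_bdd (ρ := ρ) hf bf
  have Ig := int_of_bdd (ρ := ρ) hg bg
  have Ifg : Integrable (fun x => f x * g x) ρ := int_of_bdd (hf.mul hg) (M := M * M) fun x => by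
    rw [abs_mul]; exact mul_le_mul (bf x) (bg x) (abs_nonneg _) hM
  have h1 : ∀ x, 0 ≤ ∫ y, (f x - f y) * (g x - g y) ∂ρ := by
    intro x
    refine integral_nonneg fun y => ?_
    rcases le_total x y with h | h
    · have := mf h; have := mg h
      exact mul_nonneg_of_nonpos_of_nonpos (by linarith) (by linarith)
    · have := mf h; have := mg h
      exact mul_nonneg (by linarith) (by linarith)
  have h2 : ∀ x, ∫ y, (f x - f y) * (g x - g y) ∂ρ =
      f x * g x - f x * ∫ y, g y ∂ρ - g x * ∫ y, f y ∂ρ + ∫ y, f y * g y ∂ρ := by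
    intro x
    have e1 : (fun y => (f x - f y) * (g x - g y)) =
        fun y => ((f x * g x - f x * g y) - g x * f y) + f y * g y := by
      funext y; ring
    have i1 : Integrable (fun _ : ℝ => f x * g x) ρ := integrable_const _
    have i2 : Integrable (fun y => f x * g y) ρ := Ig.const_mul _
    have i3 : Integrable (fun y => g x * f y) ρ := If.const_mul _
    have i4 : Integrable (fun y => f x * g x - f x * g y) ρ := i1.sub i2
    have i5 : Integrable (fun y => f x * g x - f x * g y - g x * f y) ρ := i4.sub i3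
    rw [e1, integral_add i5 Ifg, integral_sub i4 i3, integral_sub i1 i2]
    have k2 : ∫ y, f x * g y ∂ρ = f x * ∫ y, g y ∂ρ := integral_const_mul _ _
    have k3 : ∫ y, g x * f y ∂ρ = g x * ∫ y, f y ∂ρ := integral_const_mul _ _
    rw [k2, k3]
    simp
  have h3 : 0 ≤ ∫ x, (f x * g x - f x * ∫ y, g y ∂ρ - g x * ∫ y, f y ∂ρ + ∫ y, f y * g y ∂ρ) ∂ρ :=
    integral_nonneg fun x => by rw [← h2 x]; exact h1 x
  have j2 : Integrable (fun x => f x * ∫ y, g y ∂ρ) ρ := If.mul_const _
  have j3 : Integrable (fun x => g x * ∫ y, f y ∂ρ) ρ := Ig.mul_const _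
  have j4 : Integrable (fun x => f x * g x - f x * ∫ y, g y ∂ρ) ρ := Ifg.sub j2
  have j5 : Integrable (fun x => f x * g x - f x * ∫ y, g y ∂ρ - g x * ∫ y, f y ∂ρ) ρ := j4.sub j3
  have j6 : Integrable (fun _ : ℝ => ∫ y, f y * g y ∂ρ) ρ := integrable_const _
  rw [integral_add j5 j6, integral_sub j4 j3, integral_sub Ifg j2, integral_mul_const,
    integral_mul_const] at h3
  simp only [integral_const, probReal_univ, smul_eq_mul, one_mul] at h3
  linarith [mul_comm (∫ x, f x ∂ρ) (∫ x, g x ∂ρ)]

/-- the Harris inequality for finitely many coordinates -/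
lemma harris_fin (ρ : Measure ℝ) [IsProbabilityMeasure ρ] (n : ℕ) :
    ∀ (f g : (Fin n → ℝ) → ℝ), Measurable f → Measurable g → Monotone f → Monotone g →
      ∀ M : ℝ, (∀ x, |f x| ≤ M) → (∀ x, |g x| ≤ M) →
      (∫ x, f x ∂(Measure.pi fun _ => ρ)) * ∫ x, g x ∂(Measure.pi fun _ => ρ) ≤
        ∫ x, f x * g x ∂(Measure.pi fun _ => ρ) := by
  induction n with
  | zero =>
    intro f g _ _ _ _ M _ _
    have e1 : f = fun _ => f default := by funext x; rw [Subsingleton.elim x default]
    have e2 : g = fun _ => g default := by funext x; rw [Subsingleton.elim x default]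
    rw [e1, e2]
    simp
  | succ n ih =>
    intro f g hf hg mf mg M bf bg
    have hM : 0 ≤ M := (abs_nonneg _).trans (bf 0)
    set π : Measure (Fin n → ℝ) := Measure.pi fun _ => ρ with hπ
    have hmp : MeasurePreserving (MeasurableEquiv.piFinSuccAbove (fun _ : Fin (n + 1) => ℝ) 0).symm
        (ρ.prod π) (Measure.pi fun _ : Fin (n + 1) => ρ) :=
      (measurePreserving_piFinSuccAbove (fun _ : Fin (n + 1) => ρ) 0).symm
    have hcons : ∀ z : ℝ × (Fin n → ℝ),
        (MeasurableEquiv.piFinSuccAbove (fun _ : Fin (n + 1) => ℝ) 0).symm z =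
          Fin.cons z.1 z.2 := by
      intro z
      rw [MeasurableEquiv.piFinSuccAbove_symm_apply]
      simp [Fin.insertNthEquiv, Fin.insertNth_zero]
    have hcm : Measurable (fun z : ℝ × (Fin n → ℝ) => (Fin.cons z.1 z.2 : Fin (n + 1) → ℝ)) := by
      have h0 := hmp.measurable
      have h1 : (fun z : ℝ × (Fin n → ℝ) => (Fin.cons z.1 z.2 : Fin (n + 1) → ℝ)) =
          (MeasurableEquiv.piFinSuccAbove (fun _ : Fin (n + 1) => ℝ) 0).symm := by
        funext z; rw [hcons]
      rw [h1]; exact h0
    have tr : ∀ F : (Fin (n + 1) → ℝ) → ℝ, Measurable F → (∀ x, |F x| ≤ max M (M * M)) →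
        ∫ x, F x ∂(Measure.pi fun _ : Fin (n + 1) => ρ) =
          ∫ x, ∫ y, F (Fin.cons x y) ∂π ∂ρ := by
      intro F hF bF
      rw [← hmp.map_eq, integral_map_equiv]
      simp only [hcons]
      rw [integral_prod]
      exact int_of_bdd (hF.comp hcm) (fun z => bF _)
    have hfg : ∀ x, |f x * g x| ≤ max M (M * M) := fun x => by
      rw [abs_mul]; exact (mul_le_mul (bf x) (bg x) (abs_nonneg _) hM).trans (le_max_right _ _)
    have monoc : ∀ (F : (Fin (n + 1) → ℝ) → ℝ), Monotone F → ∀ x, Monotone fun y : Fin n → ℝ =>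
        F (Fin.cons x y) := by
      intro F hF x y y' hy
      refine hF ?_
      intro i
      refine Fin.cases ?_ (fun j => ?_) i
      · simp
      · simpa using hy j
    have monox : ∀ (F : (Fin (n + 1) → ℝ) → ℝ), Monotone F → ∀ y : Fin n → ℝ, Monotone fun x : ℝ =>
        F (Fin.cons x y) := by
      intro F hF y x x' hx
      refine hF ?_
      intro i
      refine Fin.cases ?_ (fun j => ?_) i
      · simpa using hx
      · simp
    have measy : ∀ (F : (Fin (n + 1) → ℝ) → ℝ), Measurable F → ∀ x, Measurable fun y : Fin n → ℝ =>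
        F (Fin.cons x y) := by
      intro F hF x
      exact (hF.comp hcm).comp measurable_prodMk_left
    have measx : ∀ (F : (Fin (n + 1) → ℝ) → ℝ), Measurable F → Measurable fun x : ℝ =>
        ∫ y, F (Fin.cons x y) ∂π := by
      intro F hF
      exact ((hF.comp hcm).stronglyMeasurable.integral_prod_right' (ν := π)).measurable
    have bdx : ∀ (F : (Fin (n + 1) → ℝ) → ℝ), (∀ x, |F x| ≤ M) → ∀ x : ℝ,
        |∫ y, F (Fin.cons x y) ∂π| ≤ M := by
      intro F hF x
      have := norm_integral_le_of_norm_le_const (μ := π) (f := fun y => F (Fin.cons x y)) (C := M)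
        (Eventually.of_forall fun y => by rw [Real.norm_eq_abs]; exact hF _)
      simpa using this
    have monoi : ∀ (F : (Fin (n + 1) → ℝ) → ℝ), Measurable F → Monotone F → (∀ x, |F x| ≤ M) →
        Monotone fun x : ℝ => ∫ y, F (Fin.cons x y) ∂π := by
      intro F hF mF bF x x' hx
      refine integral_mono (int_of_bdd (measy F hF x) fun y => bF _)
        (int_of_bdd (measy F hF x') fun y => bF _) ?_
      intro y
      exact monox F mF y hx
    rw [tr f hf (fun x => (bf x).trans (le_max_left _ _)),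
      tr g hg (fun x => (bg x).trans (le_max_left _ _)), tr (fun x => f x * g x) (hf.mul hg) hfg]
    refine (cheb ρ (measx f hf) (measx g hg) (monoi f hf mf bf) (monoi g hg mg bg)
      (bdx f bf) (bdx g bg)).trans ?_
    refine integral_mono ?_ ?_ ?_
    · exact int_of_bdd ((measx f hf).mul (measx g hg)) (M := M * M) fun x => by
        rw [abs_mul]; exact mul_le_mul (bdx f bf x) (bdx g bg x) (abs_nonneg _) hM
    · refine int_of_bdd (measx (fun x => f x * g x) (hf.mul hg)) (M := max M (M * M)) fun x => ?_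
      have := norm_integral_le_of_norm_le_const (μ := π)
        (f := fun y => f (Fin.cons x y) * g (Fin.cons x y)) (C := max M (M * M))
        (Eventually.of_forall fun y => by rw [Real.norm_eq_abs]; exact hfg _)
      simpa using this
    · intro x
      exact ih _ _ (measy f hf x) (measy g hg x) (monoc f mf x) (monoc g mg x) M
        (fun y => bf _) (fun y => bg _)

/-- the Harris inequality for bounded functions of finitely many weights -/
lemma harris_bdd (S : Finset Ed) {f g : (Ed → ℝ) → ℝ} (hf : Measurable f) (hg : Measurable g)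
    (hfS : ∀ w w' : Ed → ℝ, (∀ e ∈ S, w e = w' e) → f w = f w')
    (hgS : ∀ w w' : Ed → ℝ, (∀ e ∈ S, w e = w' e) → g w = g w')
    (mf : Monotone f) (mg : Monotone g) {M : ℝ} (bf : ∀ x, |f x| ≤ M) (bg : ∀ x, |g x| ≤ M) :
    (∫ w, f w ∂nu) * ∫ w, g w ∂nu ≤ ∫ w, f w * g w ∂nu := by
  set n := S.card
  set eq := S.equivFin
  let φ : (Ed → ℝ) → (Fin n → ℝ) := fun w i => w (eq.symm i)
  let ext : (Fin n → ℝ) → (Ed → ℝ) := fun u e => if h : e ∈ S then u (eq ⟨e, h⟩) else 0
  have hφ : Measurable φ := measurable_pi_iff.2 fun i => measurable_pi_apply _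
  have hext : Measurable ext := by
    refine measurable_pi_iff.2 fun e => ?_
    by_cases h : e ∈ S
    · simp only [ext, h, dif_pos]; exact measurable_pi_apply _
    · simp only [ext, h, dif_neg, not_false_eq_true]; exact measurable_const
  have mext : Monotone ext := by
    intro u u' hu e
    by_cases h : e ∈ S
    · simp only [ext, h, dif_pos]; exact hu _
    · simp only [ext, h, dif_neg, not_false_eq_true]; exact le_rfl
  have hext2 : ∀ w : Ed → ℝ, ∀ e ∈ S, ext (φ w) e = w e := by
    intro w e he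
    simp only [ext, φ, dif_pos he]
    simp
  have hmap : nu.map φ = Measure.pi fun _ : Fin n => expMeasure 1 := by
    have hind : iIndepFun (fun (e : Ed) (w : Ed → ℝ) => w e) nu :=
      iIndepFun_infinitePi (P := fun _ => expMeasure 1) (X := fun _ x => x) (fun _ => measurable_id)
    have hinj : Function.Injective (fun i : Fin n => (eq.symm i : Ed)) := by
      intro i j hij
      exact eq.symm.injective (Subtype.ext hij)
    have h2 := hind.precomp hinj
    rw [iIndepFun_iff_map_fun_eq_pi_map (fun i => (measurable_pi_apply _).aemeasurable)] at h2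
    refine h2.trans ?_
    congr 1
    funext i
    exact map_eval _
  have tr : ∀ F : (Ed → ℝ) → ℝ, Measurable F →
      (∀ w w' : Ed → ℝ, (∀ e ∈ S, w e = w' e) → F w = F w') →
      ∫ w, F w ∂nu = ∫ u, F (ext u) ∂(Measure.pi fun _ : Fin n => expMeasure 1) := by
    intro F hF hFS
    have h0 : ∫ u, F (ext u) ∂(nu.map φ) = ∫ w, F (ext (φ w)) ∂nu :=
      integral_map hφ.aemeasurable (f := fun u => F (ext u)) (hF.comp hext).aestronglyMeasurable
    rw [← hmap, h0]
    refine integral_congr_ae (Eventually.of_forall fun w => ?_)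
    exact (hFS _ _ (hext2 w)).symm
  rw [tr f hf hfS, tr g hg hgS, tr (fun w => f w * g w) (hf.mul hg) (fun w w' h => by
    rw [hfS w w' h, hgS w w' h])]
  exact harris_fin (expMeasure 1) n _ _ (hf.comp hext) (hg.comp hext) (mf.comp mext)
    (mg.comp mext) M (fun x => bf _) (fun x => bg _)

/-- the Harris inequality for square integrable nonnegative functions of finitely many weights -/
lemma harris (S : Finset Ed) {f g : (Ed → ℝ) → ℝ} (hf : Measurable f) (hg : Measurable g)
    (hfS : ∀ w w' : Ed → ℝ, (∀ e ∈ S, w e = w' e) → f w = f w')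
    (hgS : ∀ w w' : Ed → ℝ, (∀ e ∈ S, w e = w' e) → g w = g w')
    (mf : Monotone f) (mg : Monotone g) (f0 : ∀ w, 0 ≤ f w) (g0 : ∀ w, 0 ≤ g w)
    (If : MemLp f 2 nu) (Ig : MemLp g 2 nu) :
    (∫ w, f w ∂nu) * ∫ w, g w ∂nu ≤ ∫ w, f w * g w ∂nu := by
  have hb : ∀ (F : (Ed → ℝ) → ℝ), (∀ w, 0 ≤ F w) → ∀ (N : ℕ) (w), |min (F w) N| ≤ N := by
    intro F F0 N w
    rw [abs_of_nonneg (le_min (F0 w) (Nat.cast_nonneg _))]
    exact min_le_right _ _
  have h1 : ∀ N : ℕ, (∫ w, min (f w) N ∂nu) * ∫ w, min (g w) N ∂nu ≤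
      ∫ w, min (f w) N * min (g w) N ∂nu := by
    intro N
    exact harris_bdd S (hf.min measurable_const) (hg.min measurable_const)
      (fun w w' h => by simp only [hfS w w' h]) (fun w w' h => by simp only [hgS w w' h])
      (fun w w' h => min_le_min_right _ (mf h)) (fun w w' h => min_le_min_right _ (mg h))
      (hb f f0 N) (hb g g0 N)
  have hlim : ∀ x : ℝ, Tendsto (fun N : ℕ => min x (N:ℝ)) atTop (𝓝 x) := by
    intro x
    refine tendsto_const_nhds.congr' ?_
    filter_upwards [tendsto_natCast_atTop_atTop.eventually (eventually_ge_atTop x)] with N hN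
    rw [min_eq_left hN]
  have l1 : ∀ (F : (Ed → ℝ) → ℝ), Measurable F → (∀ w, 0 ≤ F w) → MemLp F 2 nu →
      Tendsto (fun N : ℕ => ∫ w, min (F w) N ∂nu) atTop (𝓝 (∫ w, F w ∂nu)) := by
    intro F hF F0 FI
    refine tendsto_integral_of_dominated_convergence F
      (fun N => (hF.min measurable_const).aestronglyMeasurable) (FI.integrable one_le_two)
      (fun N => Eventually.of_forall fun w => ?_) (Eventually.of_forall fun w => hlim _)
    rw [Real.norm_eq_abs, abs_of_nonneg (le_min (F0 w) (Nat.cast_nonneg _))]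
    exact min_le_left _ _
  have l2 : Tendsto (fun N : ℕ => ∫ w, min (f w) N * min (g w) N ∂nu) atTop
      (𝓝 (∫ w, f w * g w ∂nu)) := by
    refine tendsto_integral_of_dominated_convergence (fun w => f w * g w)
      (fun N => ((hf.min measurable_const).mul (hg.min measurable_const)).aestronglyMeasurable)
      (If.integrable_mul Ig)
      (fun N => Eventually.of_forall fun w => ?_)
      (Eventually.of_forall fun w => (hlim _).mul (hlim _))
    have e1 : 0 ≤ min (f w) (N:ℝ) := le_min (f0 w) (Nat.cast_nonneg _)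
    have e2 : 0 ≤ min (g w) (N:ℝ) := le_min (g0 w) (Nat.cast_nonneg _)
    rw [Real.norm_eq_abs, abs_of_nonneg (mul_nonneg e1 e2)]
    exact mul_le_mul (min_le_left _ _) (min_le_left _ _) e2 (f0 w)
  exact le_of_tendsto_of_tendsto' ((l1 f hf f0 If).mul (l1 g hg g0 Ig)) l2 h1

end Pool.Agent.H948
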