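import Pool.Agent.H948.Eden

/-!
# The equivalent forms of the question
-/

set_option autoImplicit false

open MeasureTheory ProbabilityTheory Filter Set
open scoped ENNReal Topology Pointwise

namespace Pool.Agent.H948

open Q70.Fp
open Q69.FL (Se Ll)

section
variable {Ω : Type} [MeasurableSpace Ω] (P : Measure Ω) (X : Ed → Ω → ℝ) (μ : ℝ × ℝ → ℝ)

/-- the passage times from the origin -/
noncomputable def TX (ω : Ω) : ℤ × ℤ → ℝ := fun v => TT (fun e => X e ω) 0 v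

def I1 (b : ℝ) : Prop := ∀ ζ : ℝ, 0 < ζ → ζ < 1 - b → ∀ q : ℝ, 0 < q →
  Asymptotics.IsBigO atTop (fun t : ℝ => P.real {ω | pOut μ (TX X ω) ((1 + t ^ (b - 1 + ζ)) * t) t})
    (fun t : ℝ => t ^ (-q)) ∧
  Asymptotics.IsBigO atTop (fun t : ℝ => P.real {ω | pInn μ (TX X ω) ((1 - t ^ (b - 1 + ζ)) * t) t})
    (fun t : ℝ => t ^ (-q))

def I2 (b : ℝ) : Prop := ∀ ζ : ℝ, 0 < ζ → ζ < 1 - b → ∀ q : ℝ, 0 < q →
  Asymptotics.IsBigO atTop (fun t : ℝ => P.real {ω | pDil μ (TX X ω) (t ^ (b + ζ)) t})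
    (fun t : ℝ => t ^ (-q))

def I3 (b : ℝ) : Prop := ∀ ζ : ℝ, 0 < ζ → ζ < 1 - b →
  Asymptotics.IsBigO atTop (fun t : ℝ => P.real {ω | pDil μ (TX X ω) (t ^ (b + ζ)) t})
    (fun t : ℝ => t ^ (-(4 - 3 * b)))

def I4 (b : ℝ) : Prop := ∀ ζ : ℝ, 0 < ζ → ζ < (1 - b) / 2 → ∀ q : ℝ, 0 < q →
  Asymptotics.IsBigO atTop
    (fun N : ℕ => P.real {ω | pCell μ (TX X ω) ((N:ℝ) ^ ((b - 1) / 2 + ζ)) N})
    (fun N : ℕ => (N:ℝ) ^ (-q))

def I5 (b : ℝ) : Prop := ∀ ζ : ℝ, 0 < ζ → ζ < (1 - b) / 2 →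
  Asymptotics.IsBigO atTop
    (fun N : ℕ => P.real {ω | pCell μ (TX X ω) ((N:ℝ) ^ ((b - 1) / 2 + ζ)) N})
    (fun N : ℕ => (N:ℝ) ^ (-(3 - 3 * b / 2)))

def I6 (b : ℝ) : Prop := ∀ ζ : ℝ, 0 < ζ → ζ < 1 - b → ∀ q : ℝ, 0 < q →
  Asymptotics.IsBigO atTop (fun t : ℝ => P.real {ω | pSym (TX X ω) (t ^ (b + ζ)) t})
    (fun t : ℝ => t ^ (-q))

def I7 (b : ℝ) : Prop := ∀ ζ : ℝ, 0 < ζ → ζ < 1 - b →
  Asymptotics.IsBigO atTop (fun t : ℝ => P.real {ω | pSym (TX X ω) (t ^ (b + ζ)) t})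
    (fun t : ℝ => t ^ (-(4 - 3 * b)))

def I8 (b : ℝ) : Prop := ∀ ζ : ℝ, 0 < ζ → ∃ C : ℝ, ∀ v : ℤ × ℤ, v ≠ 0 →
  P.real {ω | (dd 0 v : ℝ) ^ (b + ζ) < |TX X ω v - TX X ω (-v)|} ≤
    C * (dd 0 v : ℝ) ^ (-(3 * (1 - b)) + ζ)

end

variable {Ω : Type} [MeasurableSpace Ω] {P : Measure Ω} {X : Ed → Ω → ℝ} {μ : ℝ × ℝ → ℝ}

lemma O_iff {f : ℝ → ℝ} (hf : ∀ t, 0 ≤ f t) (q : ℝ) :
    Asymptotics.IsBigO atTop f (fun t : ℝ => t ^ (-q)) ↔ ∃ C : ℝ, ∀ᶠ t : ℝ in atTop, f t ≤ C * t ^ (-q) := by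
  constructor
  · intro h
    obtain ⟨C, hC⟩ := h.bound
    refine ⟨C, ?_⟩
    filter_upwards [hC, eventually_gt_atTop 0] with t h1 h2
    rwa [Real.norm_eq_abs, abs_of_nonneg (hf t), Real.norm_eq_abs, abs_of_nonneg (by positivity)] at h1
  · rintro ⟨C, hC⟩
    refine Asymptotics.IsBigO.of_bound C ?_
    filter_upwards [hC, eventually_gt_atTop 0] with t h1 h2
    rwa [Real.norm_eq_abs, abs_of_nonneg (hf t), Real.norm_eq_abs, abs_of_nonneg (by positivity)]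

lemma O_iff_nat {f : ℕ → ℝ} (hf : ∀ t, 0 ≤ f t) (q : ℝ) :
    Asymptotics.IsBigO atTop f (fun t : ℕ => (t:ℝ) ^ (-q)) ↔
      ∃ C : ℝ, ∀ᶠ t : ℕ in atTop, f t ≤ C * (t:ℝ) ^ (-q) := by
  constructor
  · intro h
    obtain ⟨C, hC⟩ := h.bound
    refine ⟨C, ?_⟩
    filter_upwards [hC] with t h1
    rwa [Real.norm_eq_abs, abs_of_nonneg (hf t), Real.norm_eq_abs, abs_of_nonneg (by positivity)] at h1
  · rintro ⟨C, hC⟩
    refine Asymptotics.IsBigO.of_bound C ?_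
    filter_upwards [hC] with t h1
    rwa [Real.norm_eq_abs, abs_of_nonneg (hf t), Real.norm_eq_abs, abs_of_nonneg (by positivity)]

lemma exp_one {κ q : ℝ} (hκ : 0 < κ) (hq : 0 < q) :
    ∃ C : ℝ, 0 < C ∧ ∀ x : ℝ, 1 ≤ x → Real.exp (-(x ^ κ)) ≤ C * x ^ (-q) := by
  obtain ⟨C, hC, h⟩ := exp_small hκ one_pos hq
  exact ⟨C, hC, fun x hx => by simpa using h x hx⟩

lemma I1_of_both [IsProbabilityMeasure P] (hW : Wts P X) (h : Shape μ) {b : ℝ} (hb : 0 < b)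
    (hB : Both μ b) : I1 P X μ b := by
  intro ζ hζ hζ1 q hq
  constructor
  · obtain ⟨κ, hκ, hU⟩ := Q69.FL.outer_of_Se (P := P) (X := X) hW h hb hB.1 hζ
    obtain ⟨C1, hC1, hE⟩ := exp_one hκ hq
    rw [O_iff (fun _ => measureReal_nonneg)]
    refine ⟨2 * C1, ?_⟩
    filter_upwards [hU, eventually_ge_atTop 1] with t ht ht1
    have h1 := hE t ht1
    calc P.real {ω | pOut μ (TX X ω) ((1 + t ^ (b - 1 + ζ)) * t) t}
        = (P (Q69.FL.Ou X μ ((1 + t ^ (b - 1 + ζ)) * t) t)).toReal := rfl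
      _ ≤ 2 * Real.exp (-(t ^ κ)) := ht
      _ ≤ 2 * C1 * t ^ (-q) := by linarith
  · exact inner_of_HH (P := P) (X := X) hW h hb hB.2 hζ hζ1 hq

lemma I2_of_I1 [IsProbabilityMeasure P] {b : ℝ} (h1 : I1 P X μ b) : I2 P X μ b := by
  intro ζ hζ hζ1 q hq
  obtain ⟨hO, hI⟩ := h1 ζ hζ hζ1 q hq
  rw [O_iff (fun _ => measureReal_nonneg)] at hO hI ⊢
  obtain ⟨C1, e1⟩ := hO
  obtain ⟨C2, e2⟩ := hI
  refine ⟨C1 + C2, ?_⟩
  filter_upwards [e1, e2, eventually_gt_atTop 1] with t e1 e2 ht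
  have ht0 : 0 < t := by linarith
  have hs : t ^ (b + ζ) < t := by
    calc t ^ (b + ζ) < t ^ (1:ℝ) := Real.rpow_lt_rpow_of_exponent_lt ht (by linarith)
      _ = t := Real.rpow_one t
  have f1 : (1 + t ^ (b - 1 + ζ)) * t = t + t ^ (b + ζ) := Q69.FL.one_add_mul ht0
  have f2 : (1 - t ^ (b - 1 + ζ)) * t = t - t ^ (b + ζ) := one_sub_mul ht0
  rw [f1] at e1
  rw [f2] at e2
  have hsub : {ω | pDil μ (TX X ω) (t ^ (b + ζ)) t} ⊆
      {ω | pOut μ (TX X ω) (t + t ^ (b + ζ)) t} ∪ {ω | pInn μ (TX X ω) (t - t ^ (b + ζ)) t} := by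
    intro ω hω
    by_contra hc
    simp only [mem_union, mem_ofPred_eq, not_or] at hc
    exact dil_of hs hc.1 hc.2 hω
  refine (measureReal_mono hsub (measure_ne_top _ _)).trans ((measureReal_union_le _ _).trans ?_)
  linarith

lemma I6_of_I1 [IsProbabilityMeasure P] (h : Shape μ) {b : ℝ} (hb : 0 < b) (h1 : I1 P X μ b) :
    I6 P X b := by
  intro ζ hζ hζ1 q hq
  have h2 := I2_of_I1 h1 (ζ / 2) (by linarith) (by linarith) q hq
  rw [O_iff (fun _ => measureReal_nonneg)] at h2 ⊢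
  obtain ⟨C, e1⟩ := h2
  refine ⟨C, ?_⟩
  filter_upwards [e1, rpow_small (c := b + ζ / 2) (a := b + ζ) (K := 45) (by linarith),
    eventually_ge_atTop 1] with t e1 e2 ht
  refine le_trans (measureReal_mono ?_ (measure_ne_top _ _)) e1
  intro ω hω
  by_contra hc
  have f1 : (1:ℝ) ≤ t ^ (b + ζ / 2) := Real.one_le_rpow ht (by linarith)
  exact sym_of h (by linarith) (by linarith) hc hω

lemma I7_of_I3 [IsProbabilityMeasure P] (h : Shape μ) {b : ℝ} (hb : 0 < b) (h1 : I3 P X μ b) :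
    I7 P X b := by
  intro ζ hζ hζ1
  have h2 := h1 (ζ / 2) (by linarith) (by linarith)
  rw [O_iff (fun _ => measureReal_nonneg)] at h2 ⊢
  obtain ⟨C, e1⟩ := h2
  refine ⟨C, ?_⟩
  filter_upwards [e1, rpow_small (c := b + ζ / 2) (a := b + ζ) (K := 45) (by linarith),
    eventually_ge_atTop 1] with t e1 e2 ht
  refine le_trans (measureReal_mono ?_ (measure_ne_top _ _)) e1
  intro ω hω
  by_contra hc
  have f1 : (1:ℝ) ≤ t ^ (b + ζ / 2) := Real.one_le_rpow ht (by linarith)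
  exact sym_of h (by linarith) (by linarith) hc hω

lemma diff_of_I7 [IsProbabilityMeasure P] (hW : Wts P X) {b : ℝ} (hb : 0 < b) (hb1 : b < 1)
    (h1 : I7 P X b) : Diff b := by
  refine diff_of_sym hb hb1 fun ζ hζ hζ1 => ?_
  have h2 := h1 ζ hζ hζ1
  rw [O_iff (fun _ => measureReal_nonneg)] at h2
  obtain ⟨C, e1⟩ := h2
  refine ⟨C, ?_⟩
  filter_upwards [tendsto_natCast_atTop_atTop.eventually e1] with t e1
  refine le_trans (le_of_eq ?_) e1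
  exact transfer_eq hW (fun T => pSym T ((t:ℝ) ^ (b + ζ)) t) (measurable_Asym _ _)

lemma I8_of_diff [IsProbabilityMeasure P] (hW : Wts P X) {b : ℝ} (h1 : Diff b) : I8 P X b := by
  intro ζ hζ
  obtain ⟨C, hC⟩ := h1 ζ hζ
  refine ⟨C, fun v hv => le_trans ?_ (hC v hv)⟩
  exact transfer_le hW (fun T => (dd 0 v : ℝ) ^ (b + ζ) < |T v - T (-v)|)

lemma diff_of_I8 [IsProbabilityMeasure P] (hW : Wts P X) {b : ℝ} (h1 : I8 P X b) : Diff b := by
  intro ζ hζ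
  obtain ⟨C, hC⟩ := h1 ζ hζ
  refine ⟨C, fun v hv => le_trans (le_of_eq ?_) (hC v hv)⟩
  refine transfer_eq hW (fun T => (dd 0 v : ℝ) ^ (b + ζ) < |T v - T (-v)|) ?_
  exact measurableSet_lt measurable_const
    (continuous_abs.measurable.comp ((measurable_TT 0 v).sub (measurable_TT 0 (-v))))

/-- both halves give the comparison of opposite directions -/
lemma diff_of_both (h : Shape μ) {b : ℝ} (hb : 0 < b) (hB : Both μ b) : Diff b := by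
  intro ζ hζ
  set q : ℝ := max (3 * (1 - b)) 1 with hq
  have hq0 : 0 < q := lt_max_of_lt_right one_pos
  have hq1 : 3 * (1 - b) ≤ q := le_max_left _ _
  obtain ⟨C, hC, h1⟩ := one_point h (a := b + ζ / 2) (by linarith) (hB.1 _ (by linarith))
    (hB.2 _ (by linarith)) hq0
  have hev := pow_small (c := b + ζ / 2) (a := b + ζ) (K := 8) (by linarith)
  obtain ⟨N, hN⟩ := eventually_atTop.1 hev
  set M : ℝ := max N 1 with hM
  have hM1 : 1 ≤ M := le_max_right _ _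
  refine ⟨2 * C + M ^ q, fun v hv => ?_⟩
  have hn := dd_one hv
  have hn0 : (0:ℝ) < dd 0 v := by linarith
  have hpow : (dd 0 v : ℝ) ^ (-q) ≤ (dd 0 v : ℝ) ^ (-(3 * (1 - b)) + ζ) :=
    Real.rpow_le_rpow_of_exponent_le hn (by linarith)
  by_cases hc : N ≤ dd 0 v
  · have e1 := h1 (dd 0 v) (dd_pos hv) v le_rfl
    have e2 := h1 (dd 0 v) (dd_pos hv) (-v) (by rw [dd_neg])
    rw [mz_neg h] at e2
    have e3 := hN _ hc
    have hsub : {w : Ed → ℝ | (dd 0 v : ℝ) ^ (b + ζ) < |TT (pw w) 0 v - TT (pw w) 0 (-v)|} ⊆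
        {w | (dd 0 v : ℝ) ^ (b + ζ / 2) < |TT (pw w) 0 v - mz μ v|} ∪
        {w | (dd 0 v : ℝ) ^ (b + ζ / 2) < |TT (pw w) 0 (-v) - mz μ v|} := by
      intro w hw
      by_contra hcon
      simp only [mem_union, mem_ofPred_eq, not_or, not_lt] at hcon
      have hw' : (dd 0 v : ℝ) ^ (b + ζ) < |TT (pw w) 0 v - TT (pw w) 0 (-v)| := hw
      have e4 : |TT (pw w) 0 v - TT (pw w) 0 (-v)| ≤ |TT (pw w) 0 v - mz μ v| +
          |TT (pw w) 0 (-v) - mz μ v| := by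
        have : TT (pw w) 0 v - TT (pw w) 0 (-v) = (TT (pw w) 0 v - mz μ v) +
          (-(TT (pw w) 0 (-v) - mz μ v)) := by ring
        rw [this]
        refine (abs_add_le _ _).trans ?_
        rw [abs_neg]
      have e5 : (0:ℝ) ≤ (dd 0 v : ℝ) ^ (b + ζ / 2) := by positivity
      linarith [hcon.1, hcon.2]
    refine (measureReal_mono hsub (measure_ne_top _ _)).trans ((measureReal_union_le _ _).trans ?_)
    have e6 : (0:ℝ) ≤ M ^ q * (dd 0 v : ℝ) ^ (-(3 * (1 - b)) + ζ) := by positivity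
    have e7 := mul_le_mul_of_nonneg_left hpow hC.le
    linarith
  · push Not at hc
    have e1 : (1:ℝ) ≤ M ^ q * (dd 0 v : ℝ) ^ (-(3 * (1 - b)) + ζ) := by
      have e2 : (dd 0 v : ℝ) ≤ M := by
        have : (dd 0 v : ℝ) < N := by exact_mod_cast hc
        exact this.le.trans (le_max_left _ _)
      calc (1:ℝ) = (dd 0 v : ℝ) ^ q * (dd 0 v : ℝ) ^ (-q) := by
            rw [← Real.rpow_add hn0]; simp
        _ ≤ M ^ q * (dd 0 v : ℝ) ^ (-(3 * (1 - b)) + ζ) := by gcongr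
    have e3 : (0:ℝ) ≤ 2 * C * (dd 0 v : ℝ) ^ (-(3 * (1 - b)) + ζ) := by positivity
    have e4 : nu.real {w | (dd 0 v : ℝ) ^ (b + ζ) < |TT (pw w) 0 v - TT (pw w) 0 (-v)|} ≤ 1 :=
      measureReal_le_one
    linarith

end Pool.Agent.H948
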