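import Pool.Agent.H948.Items

/-!
# The first cells (Eden clusters)
-/

set_option autoImplicit false

open MeasureTheory ProbabilityTheory Filter Set
open scoped ENNReal Topology Pointwise

namespace Pool.Agent.H948

open Q70.Fp
open Q69.FL (Se Ll)

variable {Ω : Type} [MeasurableSpace Ω] {P : Measure Ω} {X : Ed → Ω → ℝ} {μ : ℝ × ℝ → ℝ}

lemma rad_tendsto (h : Shape μ) : Tendsto (fun N : ℕ => rad μ N) atTop atTop := by
  have ha := area_pos h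
  have h1 : Tendsto (fun N : ℕ => (N:ℝ) / area μ) atTop atTop :=
    tendsto_natCast_atTop_atTop.atTop_div_const ha
  exact Real.tendsto_sqrt_atTop.comp h1

lemma I4_of_I1 [IsProbabilityMeasure P] (h : Shape μ) {b : ℝ} (hb : 0 < b) (hb1 : b < 1)
    (h1 : I1 P X μ b) : I4 P X μ b := by
  intro ζ hζ hζ1 q hq
  obtain ⟨hO, hI⟩ := h1 ζ hζ (by linarith) (2 * q) (by linarith)
  rw [O_iff (fun _ => measureReal_nonneg)] at hO hI
  rw [O_iff_nat (fun _ => measureReal_nonneg)]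
  obtain ⟨C1', e1'⟩ := hO
  obtain ⟨C2', e2'⟩ := hI
  set C1 : ℝ := max C1' 1
  set C2 : ℝ := max C2' 1
  have hC1 : 1 ≤ C1 := le_max_right _ _
  have hC2 : 1 ≤ C2 := le_max_right _ _
  have ha := area_pos h
  set a : ℝ := area μ with ha'
  obtain ⟨T1, hT1⟩ := eventually_atTop.1 (e1'.and e2')
  have k1 := rpow_small (c := b + ζ) (a := b + 2 * ζ)
    (K := 4 * 2 ^ (b + ζ) * (a ^ ((b - 1) / 2 + ζ))⁻¹) (by linarith)
  have hr := rad_tendsto h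
  refine ⟨2 * (C1 + C2) * (2 ^ (2 * q) * a ^ q), ?_⟩
  filter_upwards [hr.eventually k1, hr.eventually (eventually_ge_atTop (2 * T1)),
    hr.eventually (eventually_ge_atTop 1), eventually_ge_atTop 2] with N k1 k2 k3 hN
  have hN1 : (1:ℝ) < N := by exact_mod_cast (show 1 < N by omega)
  have hN0 : (0:ℝ) < N := by linarith
  set ρ : ℝ := rad μ N with hρ
  have hρ0 : 0 < ρ := by linarith
  set κ : ℝ := (N:ℝ) ^ ((b - 1) / 2 + ζ) with hκ
  have hκ0 : 0 < κ := by positivity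
  have hκ1 : κ < 1 := Real.rpow_lt_one_of_one_lt_of_neg hN1 (by linarith)
  have hNρ : (N:ℝ) = ρ ^ 2 * a := (rad_sq h N).symm
  have hκρ : κ * ρ = a ^ ((b - 1) / 2 + ζ) * ρ ^ (b + 2 * ζ) := by
    rw [hκ, hNρ, Real.mul_rpow (by positivity) ha.le, ← Real.rpow_natCast, ← Real.rpow_mul hρ0.le]
    have : ρ ^ (b + 2 * ζ) = ρ ^ (((2:ℕ):ℝ) * ((b - 1) / 2 + ζ)) * ρ := by
      rw [← Real.rpow_add_one hρ0.ne']
      congr 1; push_cast; ring
    rw [this]; ring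
  have hcoef : 0 < a ^ ((b - 1) / 2 + ζ) := by positivity
  have hmain : (2 * ρ) ^ (b + ζ) < κ * ρ / 2 := by
    rw [hκρ, Real.mul_rpow (by norm_num) hρ0.le]
    have e1 : 4 * 2 ^ (b + ζ) * (a ^ ((b - 1) / 2 + ζ))⁻¹ * ρ ^ (b + ζ) ≤ ρ ^ (b + 2 * ζ) := k1
    have e2 := mul_le_mul_of_nonneg_left e1 hcoef.le
    have e3 : a ^ ((b - 1) / 2 + ζ) * (4 * 2 ^ (b + ζ) * (a ^ ((b - 1) / 2 + ζ))⁻¹ * ρ ^ (b + ζ)) =
        4 * (2 ^ (b + ζ) * ρ ^ (b + ζ)) := by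
      field_simp
    rw [e3] at e2
    have e4 : (0:ℝ) < 2 ^ (b + ζ) * ρ ^ (b + ζ) := by positivity
    linarith
  -- the two times
  set t1 : ℝ := (1 + κ / 2) * ρ with ht1
  set t2 : ℝ := (1 - κ / 2) * ρ with ht2
  have b1 : ρ ≤ t1 := by rw [ht1]; nlinarith
  have b2 : t1 ≤ 2 * ρ := by rw [ht1]; nlinarith
  have b3 : ρ / 2 ≤ t2 := by rw [ht2]; nlinarith
  have b4 : t2 ≤ ρ := by rw [ht2]; nlinarith
  have c1 : t1 ^ (b + ζ) < κ * ρ / 2 :=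
    lt_of_le_of_lt (Real.rpow_le_rpow (by linarith) b2 (by linarith)) hmain
  have c2 : t2 ^ (b + ζ) < κ * ρ / 2 :=
    lt_of_le_of_lt (Real.rpow_le_rpow (by linarith) (by linarith) (by linarith)) hmain
  have f1 : (1 + t1 ^ (b - 1 + ζ)) * t1 = t1 + t1 ^ (b + ζ) := Q69.FL.one_add_mul (by linarith)
  have f2 : (1 - t1 ^ (b - 1 + ζ)) * t1 = t1 - t1 ^ (b + ζ) := one_sub_mul (by linarith)
  have f3 : (1 + t2 ^ (b - 1 + ζ)) * t2 = t2 + t2 ^ (b + ζ) := Q69.FL.one_add_mul (by linarith)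
  have f4 : (1 - t2 ^ (b - 1 + ζ)) * t2 = t2 - t2 ^ (b + ζ) := one_sub_mul (by linarith)
  have g1 := hT1 t1 (by linarith)
  have g2 := hT1 t2 (by linarith)
  rw [f1, f2] at g1
  rw [f3, f4] at g2
  have hsub : {ω | pCell μ (TX X ω) κ N} ⊆
      ({ω | pOut μ (TX X ω) (t1 + t1 ^ (b + ζ)) t1} ∪ {ω | pInn μ (TX X ω) (t1 - t1 ^ (b + ζ)) t1}) ∪
      ({ω | pOut μ (TX X ω) (t2 + t2 ^ (b + ζ)) t2} ∪ {ω | pInn μ (TX X ω) (t2 - t2 ^ (b + ζ)) t2}) := by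
    intro ω hω
    by_contra hc
    simp only [mem_union, mem_ofPred_eq, not_or] at hc
    obtain ⟨⟨d1, d2⟩, d3, d4⟩ := hc
    have e5 : (1 + κ) * ρ = (1 + κ / 2) * ρ + κ * ρ / 2 := by ring
    have e6 : (1 - κ) * ρ = (1 - κ / 2) * ρ - κ * ρ / 2 := by ring
    have e7 : (1 + κ / 2) * ρ = ρ + κ * ρ / 2 := by ring
    have e8 : (1 - κ / 2) * ρ = ρ - κ * ρ / 2 := by ring
    refine cell_of h d1 d2 d3 d4 ?_ ?_ ?_ ?_ ?_ (by positivity) ?_ hω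
    · exact mul_pos (by linarith) hρ0
    · show ρ ≤ t1 - t1 ^ (b + ζ)
      have : t1 = ρ + κ * ρ / 2 := by rw [ht1, e7]
      linarith
    · show t1 + t1 ^ (b + ζ) ≤ (1 + κ) * ρ
      rw [e5]; linarith
    · show t2 + t2 ^ (b + ζ) < ρ
      have : t2 = ρ - κ * ρ / 2 := by rw [ht2, e8]
      linarith
    · show (1 - κ) * ρ ≤ t2 - t2 ^ (b + ζ)
      rw [e6]; linarith
    · have : 0 ≤ t2 := by linarith
      positivity
  refine (measureReal_mono hsub (measure_ne_top _ _)).trans ((measureReal_union_le _ _).trans ?_)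
  refine (add_le_add (measureReal_union_le _ _) (measureReal_union_le _ _)).trans ?_
  have m1 : t1 ^ (-(2 * q)) ≤ 2 ^ (2 * q) * a ^ q * (N:ℝ) ^ (-q) := by
    have e1 : t1 ^ (-(2 * q)) ≤ (ρ / 2) ^ (-(2 * q)) :=
      Real.rpow_le_rpow_of_nonpos (by linarith) (by linarith) (by linarith)
    refine e1.trans (le_of_eq ?_)
    rw [hNρ, Real.mul_rpow (by positivity) ha.le, Real.div_rpow hρ0.le (by norm_num),
      Real.rpow_neg (by norm_num : (0:ℝ) ≤ 2), ← Real.rpow_natCast ρ 2, ← Real.rpow_mul hρ0.le,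
      Real.rpow_neg ha.le, div_inv_eq_mul]
    have : a ^ q * (a ^ q)⁻¹ = 1 := mul_inv_cancel₀ (by positivity)
    have e2 : ((2:ℕ):ℝ) * -q = -(2 * q) := by push_cast; ring
    rw [e2]
    calc ρ ^ (-(2 * q)) * 2 ^ (2 * q) = 2 ^ (2 * q) * ρ ^ (-(2 * q)) * (a ^ q * (a ^ q)⁻¹) := by
          rw [this]; ring
      _ = _ := by ring
  have m2 : t2 ^ (-(2 * q)) ≤ 2 ^ (2 * q) * a ^ q * (N:ℝ) ^ (-q) := by
    have e1 : t2 ^ (-(2 * q)) ≤ (ρ / 2) ^ (-(2 * q)) :=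
      Real.rpow_le_rpow_of_nonpos (by linarith) (by linarith) (by linarith)
    refine e1.trans (le_of_eq ?_)
    rw [hNρ, Real.mul_rpow (by positivity) ha.le, Real.div_rpow hρ0.le (by norm_num),
      Real.rpow_neg (by norm_num : (0:ℝ) ≤ 2), ← Real.rpow_natCast ρ 2, ← Real.rpow_mul hρ0.le,
      Real.rpow_neg ha.le, div_inv_eq_mul]
    have : a ^ q * (a ^ q)⁻¹ = 1 := mul_inv_cancel₀ (by positivity)
    have e2 : ((2:ℕ):ℝ) * -q = -(2 * q) := by push_cast; ring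
    rw [e2]
    calc ρ ^ (-(2 * q)) * 2 ^ (2 * q) = 2 ^ (2 * q) * ρ ^ (-(2 * q)) * (a ^ q * (a ^ q)⁻¹) := by
          rw [this]; ring
      _ = _ := by ring
  have n1 : ∀ (C' C t : ℝ), C = max C' 1 → 0 < t → t ^ (-(2 * q)) ≤ 2 ^ (2 * q) * a ^ q * (N:ℝ) ^ (-q) →
      C' * t ^ (-(2 * q)) ≤ C * (2 ^ (2 * q) * a ^ q * (N:ℝ) ^ (-q)) := by
    intro C' C t hC ht hle
    have e1 : C' ≤ C := by rw [hC]; exact le_max_left _ _
    have e2 : 0 ≤ C := by rw [hC]; exact le_trans zero_le_one (le_max_right _ _)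
    calc C' * t ^ (-(2 * q)) ≤ C * t ^ (-(2 * q)) := by gcongr
      _ ≤ _ := by gcongr
  have p1 := n1 C1' C1 t1 rfl (by linarith) m1
  have p2 := n1 C2' C2 t1 rfl (by linarith) m1
  have p3 := n1 C1' C1 t2 rfl (by linarith) m2
  have p4 := n1 C2' C2 t2 rfl (by linarith) m2
  have : 2 * (C1 + C2) * (2 ^ (2 * q) * a ^ q) * (N:ℝ) ^ (-q) =
      (C1 * (2 ^ (2 * q) * a ^ q * (N:ℝ) ^ (-q)) + C2 * (2 ^ (2 * q) * a ^ q * (N:ℝ) ^ (-q))) +
      (C1 * (2 ^ (2 * q) * a ^ q * (N:ℝ) ^ (-q)) + C2 * (2 ^ (2 * q) * a ^ q * (N:ℝ) ^ (-q))) := by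
    ring
  rw [this]
  linarith [g1.1, g1.2, g2.1, g2.2]

end Pool.Agent.H948
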