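import Pool.Agent.H948.Items2

/-!
# From the first cells back to the random dilates
-/

set_option autoImplicit false

open MeasureTheory ProbabilityTheory Filter Set
open scoped ENNReal Topology Pointwise

namespace Pool.Agent.H948

open Q70.Fp
open Q69.FL (Se Ll)

variable {Ω : Type} [MeasurableSpace Ω] {P : Measure Ω} {X : Ed → Ω → ℝ} {μ : ℝ × ℝ → ℝ}

lemma I3_of_I5 [IsProbabilityMeasure P] (hW : Wts P X) (h : Shape μ) {b : ℝ} (hb : 0 < b)
    (hb1 : b < 1) (h1 : I5 P X μ b) : I3 P X μ b := by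
  intro ζ hζ hζ1
  have h2 := h1 (ζ / 4) (by linarith) (by linarith)
  rw [O_iff_nat (fun _ => measureReal_nonneg)] at h2
  rw [O_iff (fun _ => measureReal_nonneg)]
  obtain ⟨C0', e0⟩ := h2
  set C0 : ℝ := max C0' 1 with hC0
  have hC01 : 1 ≤ C0 := le_max_right _ _
  obtain ⟨N0, hN0⟩ := eventually_atTop.1 e0
  set s : ℝ := 4 - 3 * b with hs
  have hs0 : 0 < s := by rw [hs]; linarith
  set r : ℝ := 3 - 3 * b / 2 with hr
  have hr0 : 0 < r := by rw [hr]; linarith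
  obtain ⟨C1, hC1, g1⟩ := half_poly s hs0
  obtain ⟨C2, hC2, g2⟩ := half_poly (s + 4) (by linarith)
  have ha := area_pos h
  set a : ℝ := area μ with ha'
  have k1 := rpow_small (c := b + ζ / 2) (a := b + ζ) (K := 4 * (67 ^ (b + ζ / 2) * (a ^ (1 / 2 : ℝ))⁻¹))
    (by linarith)
  have k2 := rpow_small (c := b + ζ) (a := 1) (K := 4 * (12 * a ^ (1 / 2 : ℝ))) (by linarith)
  refine ⟨C1 * 3 ^ s + 16 * C2 * 3 ^ s + 68 ^ 2 * C0 * 144 ^ r, ?_⟩
  filter_upwards [k1, k2, eventually_ge_atTop 6, eventually_ge_atTop (12 * ((N0 : ℝ) + 1))]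
    with t k1 k2 ht6 htN
  have ht0 : 0 < t := by linarith
  -- the scales
  set k : ℕ := ⌊t / 3⌋₊ with hk
  set m : ℕ := k + 1 with hm
  have hk1 : (k:ℝ) ≤ t / 3 := Nat.floor_le (by positivity)
  have hk2 : t / 3 < (k:ℝ) + 1 := Nat.lt_floor_add_one _
  have hmc : (m:ℝ) = (k:ℝ) + 1 := by rw [hm]; push_cast; rfl
  set E1 : Set Ω := {ω | ∃ v : ℤ × ℤ, 66 * m ≤ dd 0 v ∧ TX X ω v < 3 * (m:ℝ)} with hE1
  set E2 : Set Ω := {ω | ∃ v : ℤ × ℤ, dd 0 v ≤ k ∧ 3 * (k:ℝ) ≤ TX X ω v} with hE2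
  set S : Finset ℕ := Finset.Icc ⌈t ^ 2 / 144⌉₊ ⌊(67 * t) ^ 2⌋₊ with hS
  set κ : ℕ → ℝ := fun N => (N:ℝ) ^ ((b - 1) / 2 + ζ / 4) with hκ
  have hsub : {ω | pDil μ (TX X ω) (t ^ (b + ζ)) t} ⊆
      (E1 ∪ E2) ∪ ⋃ N ∈ S, {ω | pCell μ (TX X ω) (κ N) N} := by
    intro ω hω
    by_contra hc
    simp only [mem_union, mem_iUnion, not_or, not_exists, exists_prop, not_and, mem_ofPred_eq] at hc
    obtain ⟨⟨hc1, hc2⟩, hc3⟩ := hc
    simp only [hE1, hE2, mem_ofPred_eq, not_exists, not_and, not_lt, not_le] at hc1 hc2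
    have hin : {v | TX X ω v ≤ t} ⊆ ((ball (66 * m) 0 : Finset (ℤ × ℤ)) : Set (ℤ × ℤ)) := by
      intro v hv
      have hv' : TX X ω v ≤ t := hv
      rw [Finset.mem_coe, mem_ball]
      by_contra hcon
      have := hc1 v (by omega)
      linarith
    have hfin : {v | TX X ω v ≤ t}.Finite := (Finset.finite_toSet _).subset hin
    obtain ⟨A, hA⟩ : ∃ A : Finset (ℤ × ℤ), (A : Set (ℤ × ℤ)) = {v | TX X ω v ≤ t} :=
      ⟨hfin.toFinset, by simp⟩
    have hA1 : A ⊆ ball (66 * m) 0 := by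
      rw [← Finset.coe_subset, hA]; exact hin
    have hA2 : ball k 0 ⊆ A := by
      rw [← Finset.coe_subset, hA]
      intro v hv
      rw [Finset.mem_coe, mem_ball] at hv
      have := hc2 v hv
      show TX X ω v ≤ t
      linarith
    have hc1' : (A.card : ℝ) ≤ (67 * t) ^ 2 := by
      have f1 : (A.card : ℝ) ≤ ((2 * (66 * m) + 1 : ℕ) : ℝ) ^ 2 := by
        exact_mod_cast (Finset.card_le_card hA1).trans (card_ball _)
      refine f1.trans (pow_le_pow_left₀ (by positivity) ?_ 2)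
      push_cast
      rw [hmc]
      linarith
    have hc2' : t ^ 2 / 144 ≤ (A.card : ℝ) := by
      have f1 : ((k:ℝ)) ^ 2 ≤ 4 * (A.card : ℝ) := by
        exact_mod_cast (ball_card_low k).trans (Nat.mul_le_mul_left 4 (Finset.card_le_card hA2))
      have f2 : t / 6 ≤ (k:ℝ) := by linarith
      nlinarith
    have hmem : A.card ∈ S := by
      rw [hS, Finset.mem_Icc]
      exact ⟨Nat.ceil_le.2 hc2', Nat.le_floor hc1'⟩
    have hnc := hc3 _ hmem
    have hN0' : (0:ℝ) < A.card := lt_of_lt_of_le (by positivity) hc2'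
    refine dil_of_cell h A hA hnc (by positivity) ?_ ?_ hω
    · -- κ rad ≤ t^(b+ζ)
      have e1 : κ A.card * rad μ A.card = (A.card : ℝ) ^ (b / 2 + ζ / 4) * (a ^ (1 / 2 : ℝ))⁻¹ := by
        simp only [hκ, rad]
        rw [Real.sqrt_eq_rpow, Real.div_rpow hN0'.le ha.le,
          div_eq_mul_inv ((A.card : ℝ) ^ (1 / 2 : ℝ)), ← mul_assoc, ← Real.rpow_add hN0']
        congr 2; ring
      have e2 : (A.card : ℝ) ^ (b / 2 + ζ / 4) ≤ 67 ^ (b + ζ / 2) * t ^ (b + ζ / 2) := by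
        calc (A.card : ℝ) ^ (b / 2 + ζ / 4) ≤ ((67 * t) ^ 2) ^ (b / 2 + ζ / 4) :=
              Real.rpow_le_rpow hN0'.le hc1' (by linarith)
          _ = (67 * t) ^ (b + ζ / 2) := by
              rw [← Real.rpow_natCast, ← Real.rpow_mul (by positivity)]
              congr 1; push_cast; ring
          _ = _ := Real.mul_rpow (by norm_num) ht0.le
      have e3 : (0:ℝ) < (a ^ (1 / 2 : ℝ))⁻¹ := by positivity
      rw [e1]
      have e4 := mul_le_mul_of_nonneg_right e2 e3.le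
      have e5 : 4 * (67 ^ (b + ζ / 2) * (a ^ (1 / 2 : ℝ))⁻¹) * t ^ (b + ζ / 2) =
        4 * (67 ^ (b + ζ / 2) * t ^ (b + ζ / 2) * (a ^ (1 / 2 : ℝ))⁻¹) := by ring
      rw [e5] at k1
      have e6 : 0 ≤ (A.card : ℝ) ^ (b / 2 + ζ / 4) * (a ^ (1 / 2 : ℝ))⁻¹ := by positivity
      linarith
    · -- t^(b+ζ) < rad
      have e1 : rad μ A.card = (A.card : ℝ) ^ (1 / 2 : ℝ) * (a ^ (1 / 2 : ℝ))⁻¹ := by
        simp only [rad]
        rw [Real.sqrt_eq_rpow, Real.div_rpow hN0'.le ha.le, div_eq_mul_inv]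
      have e2 : t / 12 ≤ (A.card : ℝ) ^ (1 / 2 : ℝ) := by
        calc t / 12 = ((t / 12) ^ 2) ^ (1 / 2 : ℝ) := by
              rw [← Real.sqrt_eq_rpow, Real.sqrt_sq (by positivity)]
          _ ≤ _ := by
              apply Real.rpow_le_rpow (by positivity) _ (by norm_num)
              refine le_trans (le_of_eq ?_) hc2'
              ring
      rw [Real.rpow_one] at k2
      have e3 : (0:ℝ) < a ^ (1 / 2 : ℝ) := by positivity
      have e7 : 0 < t ^ (b + ζ) := by positivity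
      rw [e1, ← div_eq_mul_inv, lt_div_iff₀ e3]
      have e8 : 4 * (12 * a ^ (1 / 2 : ℝ)) * t ^ (b + ζ) = 48 * (t ^ (b + ζ) * a ^ (1 / 2 : ℝ)) := by
        ring
      rw [e8] at k2
      have e9 : 0 < t ^ (b + ζ) * a ^ (1 / 2 : ℝ) := by positivity
      linarith
  refine (measureReal_mono hsub (measure_ne_top _ _)).trans ((measureReal_union_le _ _).trans ?_)
  refine (add_le_add (measureReal_union_le _ _) (measureReal_biUnion_finset_le _ _)).trans ?_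
  have ht3 : (t / 3) ^ (-s) = 3 ^ s * t ^ (-s) := by
    rw [Real.div_rpow ht0.le (by norm_num), Real.rpow_neg (by norm_num : (0:ℝ) ≤ 3), div_inv_eq_mul]
    ring
  have b1 : P.real E1 ≤ C1 * 3 ^ s * t ^ (-s) := by
    refine (transfer_le hW (fun T => ∃ v : ℤ × ℤ, 66 * m ≤ dd 0 v ∧ T v < 3 * (m:ℝ))).trans ?_
    refine (far_le m).trans ((g1 m).trans ?_)
    have e1 : ((m:ℝ) + 1) ^ (-s) ≤ (t / 3) ^ (-s) :=
      Real.rpow_le_rpow_of_nonpos (by positivity) (by rw [hmc]; linarith) (by linarith)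
    rw [ht3] at e1
    calc C1 * ((m:ℝ) + 1) ^ (-s) ≤ C1 * (3 ^ s * t ^ (-s)) := by gcongr
      _ = _ := by ring
  have b2 : P.real E2 ≤ 16 * C2 * 3 ^ s * t ^ (-s) := by
    refine (transfer_le hW (fun T => ∃ v : ℤ × ℤ, dd 0 v ≤ k ∧ 3 * (k:ℝ) ≤ T v)).trans ?_
    refine (near_le k).trans ?_
    have e0 := g2 k
    have e1 : ((k:ℝ) + 1) ^ (-s) ≤ (t / 3) ^ (-s) :=
      Real.rpow_le_rpow_of_nonpos (by positivity) hk2.le (by linarith)
    rw [ht3] at e1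
    have e2 : (2 * (k:ℝ) + 1) ^ 4 ≤ 16 * ((k:ℝ) + 1) ^ 4 := by
      calc (2 * (k:ℝ) + 1) ^ 4 ≤ (2 * ((k:ℝ) + 1)) ^ 4 := by
            apply pow_le_pow_left₀ (by positivity); linarith
        _ = _ := by ring
    have e3 : ((k:ℝ) + 1) ^ 4 * ((k:ℝ) + 1) ^ (-(s + 4)) = ((k:ℝ) + 1) ^ (-s) := by
      rw [← Real.rpow_natCast, ← Real.rpow_add (by positivity)]
      congr 1; push_cast; ring
    calc (2 * (k:ℝ) + 1) ^ 4 * (1 / 2) ^ k
        ≤ (16 * ((k:ℝ) + 1) ^ 4) * (C2 * ((k:ℝ) + 1) ^ (-(s + 4))) := by gcongr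
      _ = 16 * C2 * (((k:ℝ) + 1) ^ 4 * ((k:ℝ) + 1) ^ (-(s + 4))) := by ring
      _ = 16 * C2 * ((k:ℝ) + 1) ^ (-s) := by rw [e3]
      _ ≤ 16 * C2 * (3 ^ s * t ^ (-s)) := by gcongr
      _ = _ := by ring
  have b3 : ∑ N ∈ S, P.real {ω | pCell μ (TX X ω) (κ N) N} ≤ 68 ^ 2 * C0 * 144 ^ r * t ^ (-s) := by
    have c1 : ∀ N ∈ S, P.real {ω | pCell μ (TX X ω) (κ N) N} ≤ C0 * 144 ^ r * t ^ (-(2 * r)) := by
      intro N hN
      rw [hS, Finset.mem_Icc] at hN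
      have f1 : t ^ 2 / 144 ≤ (N:ℝ) := (Nat.le_ceil _).trans (by exact_mod_cast hN.1)
      have f2 : N0 ≤ N := by
        have : (N0 : ℝ) ≤ N := by
          have : (N0 : ℝ) + 1 ≤ t / 12 := by linarith
          have h0 : (0:ℝ) ≤ N0 := Nat.cast_nonneg _
          nlinarith
        exact_mod_cast this
      have f3 := hN0 N f2
      have f0 : (0:ℝ) < N := lt_of_lt_of_le (by positivity) f1
      have f4 : (N:ℝ) ^ (-r) ≤ 144 ^ r * t ^ (-(2 * r)) := by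
        calc (N:ℝ) ^ (-r) ≤ (t ^ 2 / 144) ^ (-r) :=
              Real.rpow_le_rpow_of_nonpos (by positivity) f1 (by linarith)
          _ = _ := by
              rw [Real.div_rpow (by positivity) (by norm_num),
                Real.rpow_neg (by norm_num : (0:ℝ) ≤ 144), div_inv_eq_mul, ← Real.rpow_natCast,
                ← Real.rpow_mul ht0.le]
              rw [mul_comm]
              congr 2; push_cast; ring
      calc P.real {ω | pCell μ (TX X ω) (κ N) N} ≤ C0' * (N:ℝ) ^ (-r) := f3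
        _ ≤ C0 * (N:ℝ) ^ (-r) := by
            apply mul_le_mul_of_nonneg_right (le_max_left _ _) (by positivity)
        _ ≤ C0 * (144 ^ r * t ^ (-(2 * r))) := by gcongr
        _ = _ := by ring
    have c2 : (S.card : ℝ) ≤ (68 * t) ^ 2 := by
      have d1 : S.card ≤ ⌊(67 * t) ^ 2⌋₊ + 1 := by
        rw [hS, Nat.card_Icc]; omega
      have d2 : (⌊(67 * t) ^ 2⌋₊ : ℝ) ≤ (67 * t) ^ 2 := Nat.floor_le (by positivity)
      have d3 : (S.card : ℝ) ≤ (⌊(67 * t) ^ 2⌋₊ : ℝ) + 1 := by exact_mod_cast d1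
      nlinarith
    have c3 : t ^ 2 * t ^ (-(2 * r)) = t ^ (-s) := by
      rw [← Real.rpow_natCast, ← Real.rpow_add ht0]
      congr 1; rw [hr, hs]; push_cast; ring
    calc ∑ N ∈ S, P.real {ω | pCell μ (TX X ω) (κ N) N}
        ≤ ∑ _N ∈ S, C0 * 144 ^ r * t ^ (-(2 * r)) := Finset.sum_le_sum c1
      _ = (S.card : ℝ) * (C0 * 144 ^ r * t ^ (-(2 * r))) := by rw [Finset.sum_const, nsmul_eq_mul]
      _ ≤ (68 * t) ^ 2 * (C0 * 144 ^ r * t ^ (-(2 * r))) := by gcongr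
      _ = 68 ^ 2 * C0 * 144 ^ r * (t ^ 2 * t ^ (-(2 * r))) := by ring
      _ = _ := by rw [c3]
  calc P.real E1 + P.real E2 + ∑ N ∈ S, P.real {ω | pCell μ (TX X ω) (κ N) N}
      ≤ C1 * 3 ^ s * t ^ (-s) + 16 * C2 * 3 ^ s * t ^ (-s) + 68 ^ 2 * C0 * 144 ^ r * t ^ (-s) := by
        linarith
    _ = _ := by ring

lemma I5_of_I4 [IsProbabilityMeasure P] {b : ℝ} (hb1 : b < 1) (h1 : I4 P X μ b) : I5 P X μ b :=
  fun ζ hζ hζ1 => h1 ζ hζ hζ1 _ (by linarith)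

lemma I3_of_I2 [IsProbabilityMeasure P] {b : ℝ} (hb1 : b < 1) (h1 : I2 P X μ b) : I3 P X μ b :=
  fun ζ hζ hζ1 => h1 ζ hζ hζ1 _ (by linarith)

lemma I7_of_I6 [IsProbabilityMeasure P] {b : ℝ} (hb1 : b < 1) (h1 : I6 P X b) : I7 P X b :=
  fun ζ hζ hζ1 => h1 ζ hζ hζ1 _ (by linarith)

end Pool.Agent.H948
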