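import Pool.Graph.R_pool_sql_team_seeded_3997aac3.Q69.FM.J
import Pool.Graph.R_seed8.Helper392.Mey.PL

/-!
# Concentration of the square root of the passage time

For exponential weights `w e = r e ^ 2` the passage time is the square of a `1`-Lipschitz function of
`r`, and the law of `r` is a product of strongly log-concave laws.
-/

set_option autoImplicit false

open MeasureTheory ProbabilityTheory Filter Set
open scoped ENNReal Topology

namespace Pool.Agent.H948

open Q70.Fp

/-- the density of the square root of an exponential variable -/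
noncomputable def gd (r : ℝ) : ℝ≥0∞ := ENNReal.ofReal (if 0 < r then 2 * r * Real.exp (-(r ^ 2)) else 0)

lemma meas_gd : Measurable gd := by
  unfold gd
  refine ENNReal.measurable_ofReal.comp ?_
  refine Measurable.ite measurableSet_Ioi ?_ measurable_const
  fun_prop

lemma map_sq : ((volume : Measure ℝ).withDensity gd).map (fun r => r ^ 2) = expMeasure 1 := by
  have hsq : Measurable (fun r : ℝ => r ^ 2) := by fun_prop
  refine Measure.ext fun s hs => ?_
  rw [Measure.map_apply hsq hs, withDensity_apply _ (hsq hs)]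
  have e1 : expMeasure 1 s = ∫⁻ x in s, exponentialPDF 1 x := by
    rw [show expMeasure 1 = (volume : Measure ℝ).withDensity (exponentialPDF 1) from rfl,
      withDensity_apply _ hs]
  rw [e1]
  -- the integral over the negative half line vanishes on both sides
  set A : Set ℝ := (fun r : ℝ => r ^ 2) ⁻¹' s with hA
  have hAm : MeasurableSet A := hsq hs
  have h1 : ∫⁻ r in A, gd r = ∫⁻ r in A ∩ Ioi 0, gd r := by
    rw [← lintegral_inter_add_sdiff (μ := volume) gd A measurableSet_Ioi (B := Ioi (0:ℝ))]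
    have : ∫⁻ x in A \ Ioi 0, gd x = 0 := by
      rw [setLIntegral_congr_fun (g := fun _ => 0) (hAm.diff measurableSet_Ioi)]
      · simp
      · intro x hx
        have : ¬ 0 < x := hx.2
        simp [gd, this]
    rw [this, add_zero]
  have h2 : ∫⁻ x in s, exponentialPDF 1 x = ∫⁻ x in s ∩ Ioi 0, exponentialPDF 1 x := by
    rw [← lintegral_inter_add_sdiff (μ := volume) (exponentialPDF 1) s measurableSet_Ioi (B := Ioi (0:ℝ))]
    have : ∫⁻ x in s \ Ioi 0, exponentialPDF 1 x = 0 := by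
      have hz : (∫⁻ x in s \ Ioi 0, exponentialPDF 1 x) ≤ ∫⁻ x in Iic 0, exponentialPDF 1 x := by
        refine lintegral_mono_set fun x hx => ?_
        have : ¬ 0 < x := hx.2
        exact not_lt.1 this
      have hz2 : ∫⁻ x in Iic (0:ℝ), exponentialPDF 1 x = 0 := by
        rw [← setLIntegral_congr (Iio_ae_eq_Iic (μ := volume) (a := (0:ℝ)))]
        rw [setLIntegral_congr_fun (g := fun _ => 0) measurableSet_Iio]
        · simp
        · intro x hx
          exact exponentialPDF_of_neg hx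
      rw [hz2] at hz
      exact le_antisymm hz bot_le
    rw [this, add_zero]
  rw [h1, h2]
  have himg : s ∩ Ioi 0 = (fun r : ℝ => r ^ 2) '' (A ∩ Ioi 0) := by
    ext x
    constructor
    · rintro ⟨hx, hx0⟩
      refine ⟨Real.sqrt x, ⟨?_, Real.sqrt_pos.2 hx0⟩, Real.sq_sqrt (le_of_lt hx0)⟩
      show (Real.sqrt x) ^ 2 ∈ s
      rw [Real.sq_sqrt (le_of_lt hx0)]
      exact hx
    · rintro ⟨r, ⟨hr, hr0⟩, rfl⟩
      exact ⟨hr, by have : (0:ℝ) < r := hr0; exact pow_pos this 2⟩
  rw [himg]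
  rw [lintegral_image_eq_lintegral_abs_deriv_mul (hAm.inter measurableSet_Ioi)
    (f := fun r : ℝ => r ^ 2) (f' := fun r => 2 * r)]
  · refine setLIntegral_congr_fun (hAm.inter measurableSet_Ioi) fun r hr => ?_
    have hr0 : (0:ℝ) < r := hr.2
    simp only [gd]
    rw [if_pos hr0, exponentialPDF_eq, if_pos (by positivity), ← ENNReal.ofReal_mul (abs_nonneg _)]
    congr 1
    rw [abs_of_pos (by positivity)]
    ring_nf
  · intro r _
    have := (hasDerivAt_pow 2 r).hasDerivWithinAt (s := A ∩ Ioi 0)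
    simpa using this
  · intro a ha b hb hab
    have ha0 : (0:ℝ) < a := ha.2
    have hb0 : (0:ℝ) < b := hb.2
    have : a ^ 2 = b ^ 2 := hab
    exact (pow_left_inj₀ ha0.le hb0.le (by norm_num)).1 this

lemma lint_pi {n : ℕ} (μ : Fin n → Measure ℝ)
    [∀ i, SigmaFinite (μ i)] (f : Fin n → ℝ → ℝ≥0∞) (hf : ∀ i, Measurable (f i)) :
    ∫⁻ x : Fin n → ℝ, ∏ i, f i (x i) ∂(Measure.pi μ) = ∏ i, ∫⁻ x, f i x ∂(μ i) := by
  induction n with
  | zero => simp
  | succ n n_ih =>
      calc
        _ = ∫⁻ x : ℝ × (Fin n → ℝ),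
            f 0 x.1 * ∏ i : Fin n, f (Fin.succ i) (x.2 i)
            ∂((μ 0).prod (Measure.pi (fun i ↦ μ i.succ))) := by
          rw [← ((measurePreserving_piFinSuccAbove μ 0).symm).lintegral_comp_emb
            (MeasurableEquiv.measurableEmbedding _)]
          simp_rw [MeasurableEquiv.piFinSuccAbove_symm_apply, Fin.insertNthEquiv,
            Fin.prod_univ_succ, Fin.insertNth_zero, Equiv.coe_fn_mk, Fin.cons_succ,
            Fin.zero_succAbove, cast_eq, Fin.cons_zero]
        _ = (∫⁻ x, f 0 x ∂μ 0)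
            * ∏ i : Fin n, ∫⁻ (x : ℝ), f (Fin.succ i) x ∂(μ i.succ) := by
          rw [← n_ih (fun i => μ i.succ) (fun i => f i.succ) (fun i => hf _)]
          exact lintegral_prod_mul (hf 0).aemeasurable (Finset.measurable_prod _ (fun i _ =>
            (hf _).comp (measurable_pi_apply i))).aemeasurable
        _ = ∏ i, ∫⁻ x, f i x ∂(μ i) := by rw [Fin.prod_univ_succ]

instance sf_gd : SigmaFinite ((volume : Measure ℝ).withDensity gd) :=
  SigmaFinite.withDensity_of_ne_top (Eventually.of_forall fun x => by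
    simp [gd])

/-- the product of exponential laws as the image of a law with a density -/
lemma pi_sq (n : ℕ) : (Measure.pi fun _ : Fin n => expMeasure 1) =
    ((volume : Measure (Fin n → ℝ)).withDensity (fun x => ∏ i, gd (x i))).map
      (fun x i => x i ^ 2) := by
  have h1 : (volume : Measure (Fin n → ℝ)).withDensity (fun x => ∏ i, gd (x i)) =
      Measure.pi fun _ : Fin n => (volume : Measure ℝ).withDensity gd := by
    symm
    apply Measure.pi_eq
    intro s hs
    rw [withDensity_apply _ (MeasurableSet.univ_pi hs), volume_pi, Measure.restrict_pi_pi,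
      lint_pi _ _ (fun _ => meas_gd)]
    apply Finset.prod_congr rfl
    intro i _
    rw [withDensity_apply _ (hs i)]
  rw [h1]
  have : SigmaFinite (((volume : Measure ℝ).withDensity gd).map (fun r => r ^ 2)) := by
    rw [map_sq]; infer_instance
  have := Measure.pi_map_pi (μ := fun _ : Fin n => (volume : Measure ℝ).withDensity gd)
    (f := fun _ r => r ^ 2) (fun _ => by fun_prop)
  rw [this]
  simp only [map_sq]

lemma gd_mul (a b : ℝ) : gd a * gd b ≤
    (gd ((a + b) / 2)) ^ 2 * ENNReal.ofReal (Real.exp (-((a - b) ^ 2 / 2))) := by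
  unfold gd
  by_cases ha : 0 < a
  · by_cases hb : 0 < b
    · rw [if_pos ha, if_pos hb, if_pos (by linarith), ← ENNReal.ofReal_mul (by positivity),
        ← ENNReal.ofReal_pow (by positivity), ← ENNReal.ofReal_mul (by positivity)]
      refine ENNReal.ofReal_le_ofReal ?_
      have e1 : 2 * a * Real.exp (-(a ^ 2)) * (2 * b * Real.exp (-(b ^ 2))) =
          4 * (a * b) * Real.exp (-(a ^ 2 + b ^ 2)) := by
        rw [show -(a ^ 2 + b ^ 2) = -(a ^ 2) + -(b ^ 2) by ring, Real.exp_add]; ring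
      have e2 : (2 * ((a + b) / 2) * Real.exp (-(((a + b) / 2) ^ 2))) ^ 2 *
          Real.exp (-((a - b) ^ 2 / 2)) = (a + b) ^ 2 * Real.exp (-(a ^ 2 + b ^ 2)) := by
        rw [mul_pow, ← Real.exp_nat_mul, mul_assoc, ← Real.exp_add]
        congr 1
        · ring
        · congr 1; push_cast; ring
      rw [e1, e2]
      refine mul_le_mul_of_nonneg_right ?_ (Real.exp_pos _).le
      nlinarith [sq_nonneg (a - b)]
    · rw [if_neg hb]; simp
  · rw [if_neg ha]; simp

/-- two sets of weights whose square roots are far from each other -/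
lemma far_sets {n : ℕ} {A B : Set (Fin n → ℝ)} (hA : MeasurableSet A) (hB : MeasurableSet B)
    {D : ℝ} (H : ∀ a ∈ A, ∀ b ∈ B, (∀ i, 0 ≤ a i) → (∀ i, 0 ≤ b i) →
      D ≤ ∑ i, (Real.sqrt (a i) - Real.sqrt (b i)) ^ 2) :
    (Measure.pi fun _ : Fin n => expMeasure 1) A * (Measure.pi fun _ : Fin n => expMeasure 1) B ≤
      ENNReal.ofReal (Real.exp (-(D / 2))) := by
  have hm : Measurable (fun (x : Fin n → ℝ) (i : Fin n) => x i ^ 2) :=
    measurable_pi_iff.2 fun i => (measurable_pi_apply i).pow_const 2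
  have hρ : Measurable (fun x : Fin n → ℝ => ∏ i, gd (x i)) :=
    Finset.measurable_prod _ fun i _ => meas_gd.comp (measurable_pi_apply i)
  set A' : Set (Fin n → ℝ) := (fun (x : Fin n → ℝ) (i : Fin n) => x i ^ 2) ⁻¹' A
  set B' : Set (Fin n → ℝ) := (fun (x : Fin n → ℝ) (i : Fin n) => x i ^ 2) ⁻¹' B
  have hA' : MeasurableSet A' := hm hA
  have hB' : MeasurableSet B' := hm hB
  have htot : ∫⁻ x : Fin n → ℝ, ∏ i, gd (x i) = 1 := by
    have h1 := congrArg (fun m : Measure (Fin n → ℝ) => m Set.univ) (pi_sq n)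
    simp only [measure_univ, Measure.map_apply hm MeasurableSet.univ, preimage_univ,
      withDensity_apply _ MeasurableSet.univ, Measure.restrict_univ] at h1
    exact h1.symm
  have h := Pool.Agent.Helper392.Mey.PL.pln n
    (A'.indicator fun x : Fin n → ℝ => ∏ i, gd (x i))
    (B'.indicator fun x : Fin n → ℝ => ∏ i, gd (x i))
    (fun x : Fin n → ℝ => ENNReal.ofReal (Real.exp (-(D / 4))) * ∏ i, gd (x i))
    (hρ.indicator hA') (hρ.indicator hB') (hρ.const_mul _) ?_
  · rw [lintegral_indicator hA', lintegral_indicator hB', lintegral_const_mul _ hρ, htot,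
      mul_one] at h
    rw [pi_sq, Measure.map_apply hm hA, Measure.map_apply hm hB, withDensity_apply _ hA',
      withDensity_apply _ hB']
    refine h.trans (le_of_eq ?_)
    rw [← ENNReal.ofReal_pow (Real.exp_pos _).le, ← Real.exp_nat_mul]
    congr 2
    push_cast; ring
  · intro s t
    by_cases hs : s ∈ A'
    · by_cases ht : t ∈ B'
      · rw [indicator_of_mem hs, indicator_of_mem ht, ← Finset.prod_mul_distrib]
        by_cases hpos : (∀ i, 0 < s i) ∧ (∀ i, 0 < t i)
        · obtain ⟨hs0, ht0⟩ := hpos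
          have h1 : D ≤ ∑ i, (s i - t i) ^ 2 := by
            have := H _ hs _ ht (fun i => sq_nonneg _) (fun i => sq_nonneg _)
            refine this.trans (le_of_eq (Finset.sum_congr rfl fun i _ => ?_))
            rw [Real.sqrt_sq (hs0 i).le, Real.sqrt_sq (ht0 i).le]
          calc ∏ i, gd (s i) * gd (t i)
              ≤ ∏ i, ((gd ((s i + t i) / 2)) ^ 2 *
                ENNReal.ofReal (Real.exp (-((s i - t i) ^ 2 / 2)))) :=
                Finset.prod_le_prod' fun i _ => gd_mul _ _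
            _ = (∏ i, gd ((s i + t i) / 2)) ^ 2 *
                ENNReal.ofReal (Real.exp (-((∑ i, (s i - t i) ^ 2) / 2))) := by
                rw [Finset.prod_mul_distrib, Finset.prod_pow]
                congr 1
                rw [← ENNReal.ofReal_prod_of_nonneg (fun i _ => (Real.exp_pos _).le),
                  ← Real.exp_sum]
                congr 2
                rw [Finset.sum_neg_distrib, Finset.sum_div]
            _ ≤ (∏ i, gd ((s i + t i) / 2)) ^ 2 * ENNReal.ofReal (Real.exp (-(D / 2))) := by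
                gcongr
            _ = (ENNReal.ofReal (Real.exp (-(D / 4))) * ∏ i, gd ((s i + t i) / 2)) ^ 2 := by
                rw [mul_pow, ← ENNReal.ofReal_pow (Real.exp_pos _).le, ← Real.exp_nat_mul, mul_comm]
                congr 3
                push_cast; ring
        · have h0 : ∏ i, gd (s i) * gd (t i) = 0 := by
            rw [not_and_or] at hpos
            rcases hpos with hp | hp
            · push Not at hp
              obtain ⟨i, hi⟩ := hp
              refine Finset.prod_eq_zero (Finset.mem_univ i) ?_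
              simp [gd, not_lt.2 hi]
            · push Not at hp
              obtain ⟨i, hi⟩ := hp
              refine Finset.prod_eq_zero (Finset.mem_univ i) ?_
              simp [gd, not_lt.2 hi]
          rw [h0]
          exact bot_le
      · rw [indicator_of_notMem ht, mul_zero]
        exact bot_le
    · rw [indicator_of_notMem hs, zero_mul]
      exact bot_le


/-- the same for two events of the edge weights that depend on finitely many edges -/
lemma nu_far (S : Finset Ed) {A B : Set (Ed → ℝ)} (hA : MeasurableSet A) (hB : MeasurableSet B)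
    (hAS : ∀ w w' : Ed → ℝ, (∀ e ∈ S, w e = w' e) → w ∈ A → w' ∈ A)
    (hBS : ∀ w w' : Ed → ℝ, (∀ e ∈ S, w e = w' e) → w ∈ B → w' ∈ B) {D : ℝ}
    (H : ∀ a ∈ A, ∀ b ∈ B, (∀ e, 0 ≤ a e) → (∀ e, 0 ≤ b e) →
      D ≤ ∑ e ∈ S, (Real.sqrt (a e) - Real.sqrt (b e)) ^ 2) :
    nu A * nu B ≤ ENNReal.ofReal (Real.exp (-(D / 2))) := by
  set n := S.card
  set eq := S.equivFin
  let φ : (Ed → ℝ) → (Fin n → ℝ) := fun w i => w (eq.symm i)
  let ext : (Fin n → ℝ) → (Ed → ℝ) := fun u e => if h : e ∈ S then u (eq ⟨e, h⟩) else 0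
  have hφ : Measurable φ := measurable_pi_iff.2 fun i => measurable_pi_apply _
  have hext : Measurable ext := by
    refine measurable_pi_iff.2 fun e => ?_
    by_cases h : e ∈ S
    · simp only [ext, h, dif_pos]; exact measurable_pi_apply _
    · simp only [ext, h, dif_neg, not_false_eq_true]; exact measurable_const
  have hext2 : ∀ w : Ed → ℝ, ∀ e ∈ S, ext (φ w) e = w e := by
    intro w e he
    simp only [ext, φ, dif_pos he]
    simp
  have hAe : A = φ ⁻¹' (ext ⁻¹' A) := by
    ext w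
    exact ⟨fun h => hAS _ _ (fun e he => (hext2 w e he).symm) h, fun h => hAS _ _ (hext2 w) h⟩
  have hBe : B = φ ⁻¹' (ext ⁻¹' B) := by
    ext w
    exact ⟨fun h => hBS _ _ (fun e he => (hext2 w e he).symm) h, fun h => hBS _ _ (hext2 w) h⟩
  have hmap : nu.map φ = Measure.pi fun _ : Fin n => expMeasure 1 := by
    have hind : iIndepFun (fun (e : Ed) (w : Ed → ℝ) => w e) nu :=
      iIndepFun_infinitePi (P := fun _ => expMeasure 1) (X := fun _ x => x) (fun _ => measurable_id)
    have hinj : Function.Injective (fun i : Fin n => (eq.symm i : Ed)) := by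
      intro i j hij
      exact eq.symm.injective (Subtype.ext hij)
    have h2 := hind.precomp hinj
    rw [iIndepFun_iff_map_fun_eq_pi_map (fun i => (measurable_pi_apply _).aemeasurable)] at h2
    refine h2.trans ?_
    congr 1
    funext i
    exact map_eval _
  have h3 := far_sets (n := n) (hext hA) (hext hB) (D := D) ?_
  · rw [← hmap, Measure.map_apply hφ (hext hA), Measure.map_apply hφ (hext hB), ← hAe, ← hBe] at h3
    exact h3
  · intro a ha b hb ha0 hb0
    have h4 := H _ ha _ hb (fun e => by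
      simp only [ext]; split_ifs
      · exact ha0 _
      · exact le_rfl) (fun e => by
      simp only [ext]; split_ifs
      · exact hb0 _
      · exact le_rfl)
    refine h4.trans (le_of_eq ?_)
    rw [← Finset.sum_coe_sort S]
    rw [← Equiv.sum_comp eq]
    refine Finset.sum_congr rfl fun e _ => ?_
    simp only [ext, dif_pos e.2]

/-- the infimum over the self-avoiding walks with at most `N` steps -/
noncomputable def TS (w : Sym2 (ℤ × ℤ) → ℝ) (N : ℕ) (x y : ℤ × ℤ) : ℝ :=
  sInf {s : ℝ | ∃ n p, (IsW x y n p ∧ n ≤ N ∧ Set.InjOn p (Set.Iic n)) ∧ s = Wt w p n}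

lemma measurable_TS (N : ℕ) (x y : ℤ × ℤ) : Measurable (fun w : Ed → ℝ => TS (pw w) N x y) :=
  measurable_inf (fun n p => IsW x y n p ∧ n ≤ N ∧ Set.InjOn p (Set.Iic n))
    (fun n p p' h hp => ⟨isW_congr h hp.1, hp.2.1, fun i hi j hj hij => by
      rw [← h i hi, ← h j hj] at hij
      exact hp.2.2 hi hj hij⟩)

lemma TS_nonempty (w : Ed → ℝ) {N : ℕ} {x y : ℤ × ℤ} (h : dd x y ≤ N) :
    {s : ℝ | ∃ n p, (IsW x y n p ∧ n ≤ N ∧ Set.InjOn p (Set.Iic n)) ∧ s = Wt w p n}.Nonempty := by
  obtain ⟨p, h1, h2⟩ := exists_geo' x y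
  exact ⟨_, dd x y, p, ⟨h1, h, h2⟩, rfl⟩

lemma TS_bdd {w : Ed → ℝ} (hw : ∀ e, 0 ≤ w e) (N : ℕ) (x y : ℤ × ℤ) :
    BddBelow {s : ℝ | ∃ n p, (IsW x y n p ∧ n ≤ N ∧ Set.InjOn p (Set.Iic n)) ∧ s = Wt w p n} := by
  refine ⟨0, ?_⟩
  rintro s ⟨n, p, -, rfl⟩
  exact Wt_nonneg hw p n

lemma TT_le_TS {w : Ed → ℝ} (hw : ∀ e, 0 ≤ w e) {N : ℕ} {x y : ℤ × ℤ} (h : dd x y ≤ N) :
    TT w x y ≤ TS w N x y := by
  refine le_csInf (TS_nonempty w h) ?_
  rintro s ⟨n, p, ⟨h1, -, -⟩, rfl⟩
  exact TT_le hw h1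

lemma TS_anti {w : Ed → ℝ} (hw : ∀ e, 0 ≤ w e) {N M : ℕ} {x y : ℤ × ℤ} (h : dd x y ≤ N)
    (hNM : N ≤ M) : TS w M x y ≤ TS w N x y := by
  refine csInf_le_csInf (TS_bdd hw M x y) (TS_nonempty w h) ?_
  rintro s ⟨n, p, ⟨h1, h2, h3⟩, rfl⟩
  exact ⟨n, p, ⟨h1, h2.trans hNM, h3⟩, rfl⟩

lemma exists_TS {w : Ed → ℝ} (hw : ∀ e, 0 ≤ w e) {x y : ℤ × ℤ} {a : ℝ} (h : TT w x y < a) :
    ∃ N, dd x y ≤ N ∧ TS w N x y < a := by
  obtain ⟨n, p, h1, h2⟩ := Q70.Fp.exists_lt h
  obtain ⟨n', p', h3, h4, h5⟩ := exists_saw hw x y n p h1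
  refine ⟨max n' (dd x y), le_max_right _ _, ?_⟩
  refine lt_of_le_of_lt (csInf_le (TS_bdd hw _ x y) ⟨n', p', ⟨h3, le_max_left _ _, h5⟩, rfl⟩) ?_
  exact lt_of_le_of_lt h4 h2

lemma sqrt_tri {ι : Type*} (s : Finset ι) (f g : ι → ℝ) :
    Real.sqrt (∑ i ∈ s, g i ^ 2) ≤ Real.sqrt (∑ i ∈ s, f i ^ 2) +
      Real.sqrt (∑ i ∈ s, (f i - g i) ^ 2) := by
  have h0 : 0 ≤ ∑ i ∈ s, f i ^ 2 := Finset.sum_nonneg fun i _ => sq_nonneg _
  have h1 : 0 ≤ ∑ i ∈ s, (f i - g i) ^ 2 := Finset.sum_nonneg fun i _ => sq_nonneg _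
  refine Real.sqrt_le_iff.2 ⟨by positivity, ?_⟩
  have hcs := Finset.sum_mul_sq_le_sq_mul_sq s f (fun i => f i - g i)
  have h2 : -(∑ i ∈ s, f i * (f i - g i)) ≤
      Real.sqrt (∑ i ∈ s, f i ^ 2) * Real.sqrt (∑ i ∈ s, (f i - g i) ^ 2) := by
    rw [← Real.sqrt_mul h0]
    refine Real.le_sqrt_of_sq_le ?_
    rw [neg_sq]
    exact hcs
  have h3 : ∑ i ∈ s, g i ^ 2 = ∑ i ∈ s, f i ^ 2 - 2 * ∑ i ∈ s, f i * (f i - g i) +
      ∑ i ∈ s, (f i - g i) ^ 2 := by
    rw [Finset.mul_sum, ← Finset.sum_sub_distrib, ← Finset.sum_add_distrib]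
    refine Finset.sum_congr rfl fun i _ => ?_
    ring
  rw [h3, add_sq, Real.sq_sqrt h0, Real.sq_sqrt h1]
  linarith

/-- **square root concentration**, for walks of bounded length -/
lemma sqrt_conc_TS {x y : ℤ × ℤ} {N : ℕ} (hN : dd x y ≤ N) {a b : ℝ} (ha : 0 ≤ a) (hab : a ≤ b) :
    nu {w | TS (pw w) N x y < a} * nu {w | b ≤ TS (pw w) N x y} ≤
      ENNReal.ofReal (Real.exp (-((Real.sqrt b - Real.sqrt a) ^ 2 / 2))) := by
  have hdep : ∀ w w' : Ed → ℝ, (∀ e ∈ be N x, w e = w' e) → TS (pw w) N x y = TS (pw w') N x y := by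
    have key : ∀ {w w' : Ed → ℝ}, (∀ e ∈ be N x, w e = w' e) → ∀ {n p}, IsW x y n p → n ≤ N →
        Wt (pw w) p n = Wt (pw w') p n := by
      intro w w' h n p hp hn
      refine Finset.sum_congr rfl fun i hi => ?_
      rw [Finset.mem_range] at hi
      simp only [pw]
      rw [h _ (mem_be.2 ⟨(dd_walk hp i hi.le).trans (by omega),
        (dd_walk hp (i + 1) (by omega)).trans (by omega)⟩)]
    intro w w' h
    unfold TS
    congr 1
    ext s
    constructor
    · rintro ⟨n, p, ⟨h1, h2, h3⟩, rfl⟩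
      exact ⟨n, p, ⟨h1, h2, h3⟩, key h h1 h2⟩
    · rintro ⟨n, p, ⟨h1, h2, h3⟩, rfl⟩
      exact ⟨n, p, ⟨h1, h2, h3⟩, key (fun e he => (h e he).symm) h1 h2⟩
  refine nu_far (be N x) (D := (Real.sqrt b - Real.sqrt a) ^ 2)
    (measurableSet_lt (measurable_TS N x y) measurable_const)
    (measurableSet_le measurable_const (measurable_TS N x y)) ?_ ?_ ?_
  · intro w w' h hw
    simp only [mem_ofPred_eq] at hw ⊢
    rwa [← hdep w w' h]
  · intro w w' h hw
    simp only [mem_ofPred_eq] at hw ⊢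
    rwa [← hdep w w' h]
  · intro w hw w' hw' h0 h0'
    simp only [mem_ofPred_eq] at hw hw'
    have e1 : pw w = w := by funext e; exact max_eq_left (h0 e)
    have e2 : pw w' = w' := by funext e; exact max_eq_left (h0' e)
    rw [e1] at hw
    rw [e2] at hw'
    obtain ⟨s, ⟨n, p, ⟨h1, h2, h3⟩, rfl⟩, h4⟩ := exists_lt_of_csInf_lt (TS_nonempty w hN) hw
    have h5 : b ≤ Wt w' p n := hw'.trans (csInf_le (TS_bdd h0' N x y) ⟨n, p, ⟨h1, h2, h3⟩, rfl⟩)
    rw [Wt_eds h3] at h4 h5
    have hsub : eds p n ⊆ be N x := by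
      intro e he
      simp only [eds, Finset.mem_image, Finset.mem_range] at he
      obtain ⟨i, hi, rfl⟩ := he
      exact mem_be.2 ⟨(dd_walk h1 i hi.le).trans (by omega),
        (dd_walk h1 (i + 1) (by omega)).trans (by omega)⟩
    refine le_trans ?_ (Finset.sum_le_sum_of_subset_of_nonneg hsub fun e _ _ => sq_nonneg _)
    have h6 := sqrt_tri (eds p n) (fun e => Real.sqrt (w e)) (fun e => Real.sqrt (w' e))
    simp only [Real.sq_sqrt (h0 _), Real.sq_sqrt (h0' _)] at h6
    have h7 : Real.sqrt b - Real.sqrt a ≤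
        Real.sqrt (∑ i ∈ eds p n, (Real.sqrt (w i) - Real.sqrt (w' i)) ^ 2) := by
      have e3 := Real.sqrt_le_sqrt h5
      have e4 := Real.sqrt_le_sqrt h4.le
      linarith
    have h8 : 0 ≤ Real.sqrt b - Real.sqrt a := by
      have := Real.sqrt_le_sqrt hab
      linarith
    have h9 := pow_le_pow_left₀ h8 h7 2
    rwa [Real.sq_sqrt (Finset.sum_nonneg fun i _ => sq_nonneg _)] at h9

/-- **square root concentration** -/
theorem sqrt_conc (x y : ℤ × ℤ) {a b : ℝ} (ha : 0 ≤ a) (hab : a ≤ b) :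
    nu.real {w | TT (pw w) x y < a} * nu.real {w | b ≤ TT (pw w) x y} ≤
      Real.exp (-((Real.sqrt b - Real.sqrt a) ^ 2 / 2)) := by
  set c := ENNReal.ofReal (Real.exp (-((Real.sqrt b - Real.sqrt a) ^ 2 / 2)))
  have h1 : {w : Ed → ℝ | TT (pw w) x y < a} = ⋃ k : ℕ, {w | TS (pw w) (dd x y + k) x y < a} := by
    ext w
    simp only [mem_ofPred_eq, mem_iUnion]
    constructor
    · intro h
      obtain ⟨N, h2, h3⟩ := exists_TS (pw_nonneg w) h
      exact ⟨N - dd x y, by rwa [Nat.add_sub_cancel' h2]⟩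
    · rintro ⟨k, hk⟩
      exact lt_of_le_of_lt (TT_le_TS (pw_nonneg w) (by omega)) hk
  have hmono : Monotone fun k : ℕ => {w : Ed → ℝ | TS (pw w) (dd x y + k) x y < a} := by
    intro k l hkl w hw
    exact lt_of_le_of_lt (TS_anti (pw_nonneg w) (by omega) (by omega)) hw
  have h2 : nu {w | TT (pw w) x y < a} * nu {w | b ≤ TT (pw w) x y} ≤ c := by
    rw [h1, hmono.measure_iUnion, ENNReal.iSup_mul]
    refine iSup_le fun k => ?_
    refine le_trans (mul_le_mul_right ?_ _) (sqrt_conc_TS (N := dd x y + k) (by omega) ha hab)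
    refine measure_mono fun w hw => ?_
    exact le_trans hw (TT_le_TS (pw_nonneg w) (by omega))
  have h3 := ENNReal.toReal_mono ENNReal.ofReal_ne_top h2
  rw [ENNReal.toReal_mul, ENNReal.toReal_ofReal (Real.exp_pos _).le] at h3
  exact h3

end Pool.Agent.H948
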