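import Pool.Agent.H948.FastStep

/-!
# Fast steps give deviations below the time constant
-/

set_option autoImplicit false

open MeasureTheory ProbabilityTheory Finset Filter
open scoped Topology

namespace Pool.Agent.H948

open Q70.Fp

variable {μ : ℝ × ℝ → ℝ}

/-- the probability of an event under scaling -/
lemma tilt_prob {S Q : Finset Ed} (hSQ : S ⊆ Q) {c : ℝ} (hc : 0 < c) (hc1 : c < 1)
    {A : Set (Ed → ℝ)} (hA : MeasurableSet A)
    (hAQ : ∀ w w' : Ed → ℝ, (∀ e ∈ Q, w e = w' e) → w ∈ A → w' ∈ A) :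
    (nu.real {w | tlt S c w ∈ A}) ^ 2 ≤ ((c * (2 - c))⁻¹) ^ S.card * nu.real A := by
  obtain ⟨h1, h2⟩ := LR_sq S hc hc1
  have hF : Measurable (A.indicator (fun _ => (1:ℝ))) := measurable_const.indicator hA
  have h3 := tilt_int hSQ hc hF (by
    intro w w' hw
    by_cases hw1 : w ∈ A
    · rw [Set.indicator_of_mem hw1, Set.indicator_of_mem (hAQ w w' hw hw1)]
    · rw [Set.indicator_of_notMem hw1,
        Set.indicator_of_notMem (fun h' => hw1 (hAQ w' w (fun e he => (hw e he).symm) h'))])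
  have hmt : MeasurableSet {w | tlt S c w ∈ A} := measurable_tlt S c hA
  have h4 : ∫ w, A.indicator (fun _ => (1:ℝ)) (tlt S c w) ∂nu = nu.real {w | tlt S c w ∈ A} := by
    have e1 : (fun w => A.indicator (fun _ => (1:ℝ)) (tlt S c w)) =
        {w | tlt S c w ∈ A}.indicator (fun _ => (1:ℝ)) := by
      funext w
      by_cases hw : tlt S c w ∈ A
      · rw [Set.indicator_of_mem hw, Set.indicator_of_mem (show w ∈ {w | tlt S c w ∈ A} from hw)]
      · rw [Set.indicator_of_notMem hw,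
          Set.indicator_of_notMem (show w ∉ {w | tlt S c w ∈ A} from hw)]
    rw [e1, integral_indicator_const _ hmt]
    simp
  have hF2 : MemLp (A.indicator (fun _ => (1:ℝ))) 2 nu := memLp_indicator_const 2 hA 1
    (Or.inr (measure_ne_top _ _))
  have h5 := cs h1 hF2
  have h6 : ∫ w, (A.indicator (fun _ => (1:ℝ)) w) ^ 2 ∂nu = nu.real A := by
    have e1 : (fun w => (A.indicator (fun _ => (1:ℝ)) w) ^ 2) = A.indicator (fun _ => (1:ℝ)) := by
      funext w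
      by_cases hw : w ∈ A
      · rw [Set.indicator_of_mem hw]; norm_num
      · rw [Set.indicator_of_notMem hw]; norm_num
    rw [e1, integral_indicator_const _ hA]
    simp
  rw [← h3, h4, h6, h2] at h5
  exact h5

lemma real_sh (x y : ℤ × ℤ) (c : ℝ) :
    nu.real {w | TT (pw w) x y < c} = nu.real {w | TT (pw w) 0 (y - x) < c} := by
  have e1 : {w : Ed → ℝ | TT (pw w) x y < c} = sh x ⁻¹' {w | TT (pw w) 0 (y - x) < c} := by
    ext w
    simp only [Set.mem_ofPred_eq, Set.mem_preimage, TT_sh, zero_add, sub_add_cancel]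
  rw [e1]
  conv_rhs => rw [← map_sh x]
  rw [map_measureReal_apply (measurable_sh _) (measurableSet_lt (measurable_TT _ _) measurable_const)]

lemma tilt_step (h : Shape μ) {p : ℝ × ℝ} (hd : Dir μ p) {b a : ℝ} (hb : 0 < b) (hba : b < a)
    (ha : a < 1 / 5) : ∀ᶠ m : ℕ in atTop, Hyp μ b m → ∀ u : ℤ × ℤ, m ≤ dd 0 u → dd 0 u ≤ 70 * m →
      (m:ℝ) ^ (-(8:ℝ)) < nu.real {w | TT (pw w) 0 u < lf μ p u + (m:ℝ) ^ a} →
      (m:ℝ) ^ (-(16:ℝ)) / 8 ≤ nu.real {w | TT (pw w) 0 u < mz μ u - (m:ℝ) ^ a} := by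
  classical
  have hp0 := hd.pos
  obtain ⟨C, hC, hhalf⟩ := half_poly 18 (by norm_num)
  have F1 := pow_small (c := -10) (a := 0) (K := 2 * 9241 ^ 2 + 2 * C) (by norm_num)
  have F2 := pow_small (c := a) (a := 1) (K := 88) (by linarith)
  have F3 := pow_small (c := b) (a := 1) (K := 44) (by linarith)
  have F4 := pow_small (c := (5 * a - 1) / 2) (a := 0) (K := 184820 * (300 / μ p) * 88 ^ 2)
    (by linarith)
  have F5 := pow_small (c := 0) (a := (1 + a) / 2) (K := μ p / 300) (by linarith)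
  filter_upwards [F1, F2, F3, F4, F5, eventually_ge_atTop 4] with m F1 F2 F3 F4 F5 hm4 hH u hu1 hu2 hu
  have hm4' : (4:ℝ) ≤ m := by exact_mod_cast hm4
  have hm1 : (1:ℝ) ≤ m := by linarith
  have hm0 : (0:ℝ) < m := by linarith
  rw [Real.rpow_zero] at F1 F4 F5
  rw [Real.rpow_one] at F2 F3
  set D0 : ℝ := (m:ℝ) ^ b with hD0
  set κ : ℝ := (m:ℝ) ^ a with hκ
  have hD01 : 1 ≤ D0 := Real.one_le_rpow hm1 hb.le
  have hκ1 : 1 ≤ κ := Real.one_le_rpow hm1 (by linarith)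
  have hDκ : D0 ≤ κ := Real.rpow_le_rpow_of_exponent_le hm1 hba.le
  have hκm : κ ≤ m := by linarith
  have hu1' : (m:ℝ) ≤ dd 0 u := by exact_mod_cast hu1
  have hu2' : (dd 0 u : ℝ) ≤ 70 * m := by exact_mod_cast hu2
  set R : ℕ := 66 * dd 0 u with hR
  have hR' : (R:ℝ) ≤ 4620 * m := by rw [hR]; push_cast; linarith
  set L : ℝ := 300 / μ p * (m:ℝ) ^ ((1 + a) / 2) with hL
  have hL1 : 1 ≤ L := by
    rw [hL]
    have e1 : 300 / μ p * (μ p / 300 * 1) ≤ 300 / μ p * ((m:ℝ) ^ ((1 + a) / 2) / 4) :=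
      mul_le_mul_of_nonneg_left F5 (by positivity)
    have e2 : 300 / μ p * (μ p / 300 * 1) = 1 := by field_simp
    have e3 : 0 < 300 / μ p * (m:ℝ) ^ ((1 + a) / 2) := by positivity
    linarith
  have hLsq : (μ p) ^ 2 * L ^ 2 = 90000 * (m * κ) := by
    have e1 : ((m:ℝ) ^ ((1 + a) / 2)) ^ 2 = m * κ := by
      rw [← Real.rpow_natCast, ← Real.rpow_mul hm0.le, hκ]
      conv_rhs => enter [1]; rw [← Real.rpow_one (m:ℝ)]
      rw [← Real.rpow_add hm0]
      congr 1; push_cast; ring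
    rw [hL, mul_pow, e1]
    field_simp
    norm_num
  -- the region
  set D := Tu p R L with hD
  set S := Sd D with hS
  set Q := be R 0 ∪ S with hQ
  have hcard : (S.card : ℝ) ≤ 184820 * (m * L) := by
    have e1 : ((Sd D).card : ℝ) ≤ 4 * D.card := by exact_mod_cast card_Sd D
    have e2 := card_Tu hd.cir R (L := L) (by linarith)
    have e4 : 3 * L + 2 ≤ 5 * L := by linarith
    have e5 : 2 * (R:ℝ) + 1 ≤ 9241 * m := by linarith
    have e3 : (3 * L + 2) * (2 * (R:ℝ) + 1) ≤ (5 * L) * (9241 * m) := by gcongr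
    calc ((Sd D).card : ℝ) ≤ 4 * D.card := e1
      _ ≤ 4 * ((5 * L) * (9241 * m)) := by linarith
      _ = _ := by ring
  set η : ℝ := 88 * κ / m with hη
  have hη0 : 0 < η := by rw [hη]; positivity
  have hη1 : η < 1 := by
    rw [hη, div_lt_one hm0]
    linarith
  have hSη : (S.card : ℝ) * η ^ 2 ≤ 1 / 2 := by
    have e1 : 184820 * (m * L) * η ^ 2 =
        184820 * (300 / μ p) * 88 ^ 2 * (m:ℝ) ^ ((5 * a - 1) / 2) := by
      have e2 : (m:ℝ) ^ ((5 * a - 1) / 2) = (m:ℝ) ^ ((1 + a) / 2) * κ * κ / m := by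
        rw [eq_div_iff hm0.ne', hκ]
        conv_lhs => enter [2]; rw [← Real.rpow_one (m:ℝ)]
        rw [← Real.rpow_add hm0, ← Real.rpow_add hm0, ← Real.rpow_add hm0]
        congr 1; ring
      rw [e2, hη, hL]
      field_simp
    calc (S.card : ℝ) * η ^ 2 ≤ 184820 * (m * L) * η ^ 2 := by gcongr
      _ = 184820 * (300 / μ p) * 88 ^ 2 * (m:ℝ) ^ ((5 * a - 1) / 2) := e1
      _ ≤ 1 / 2 := by linarith
  have hLR : (((1 - η) * (2 - (1 - η)))⁻¹) ^ S.card ≤ 2 := by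
    have e1 : (1 - η) * (2 - (1 - η)) = 1 - η ^ 2 := by ring
    rw [e1, inv_pow]
    have hg3 : η ^ 2 < 1 := by nlinarith
    have e2 := one_add_mul_le_pow (a := -η ^ 2) (by nlinarith) S.card
    have e3 : 1 / 2 ≤ (1 - η ^ 2) ^ S.card := by
      have e4 : 1 + -η ^ 2 = 1 - η ^ 2 := by ring
      rw [e4] at e2
      linarith
    rw [inv_le_comm₀ (by linarith) (by norm_num)]
    linarith
  -- the exceptional sets
  set B1 : Set (Ed → ℝ) := ⋃ x ∈ ball R 0, {w | TT (pw w) 0 x < mz μ x - D0} with hB1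
  set B2 : Set (Ed → ℝ) := ⋃ x ∈ ball R 0, {w | TT (pw w) x u < mz μ (u - x) - D0} with hB2
  set B3 : Set (Ed → ℝ) := {w | TT (pw w) 0 u < TB (pw w) (66 * dd 0 u) 0 u} with hB3
  have hballc : ((ball R 0).card : ℝ) ≤ (9241 * m) ^ 2 := by
    have e1 : ((ball R 0).card : ℝ) ≤ ((2 * R + 1 : ℕ) : ℝ) ^ 2 := by exact_mod_cast card_ball R
    refine e1.trans (pow_le_pow_left₀ (by positivity) ?_ 2)
    push_cast
    linarith
  have hxR : ∀ x ∈ ball R 0, dd 0 x ≤ 4620 * m := by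
    intro x hx
    have := mem_ball.1 hx
    omega
  have hP1 : nu.real B1 ≤ (9241 * (m:ℝ)) ^ 2 * (m:ℝ) ^ (-(20:ℝ)) := by
    refine (measureReal_biUnion_finset_le _ _).trans ?_
    calc _ ≤ ∑ _x ∈ ball R 0, (m:ℝ) ^ (-(20:ℝ)) := Finset.sum_le_sum fun x hx =>
          hH x (by have := hxR x hx; omega)
      _ = ((ball R 0).card : ℝ) * (m:ℝ) ^ (-(20:ℝ)) := by rw [Finset.sum_const, nsmul_eq_mul]
      _ ≤ _ := by gcongr
  have hP2 : nu.real B2 ≤ (9241 * (m:ℝ)) ^ 2 * (m:ℝ) ^ (-(20:ℝ)) := by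
    refine (measureReal_biUnion_finset_le _ _).trans ?_
    calc _ ≤ ∑ _x ∈ ball R 0, (m:ℝ) ^ (-(20:ℝ)) := Finset.sum_le_sum fun x hx => by
          rw [real_sh]
          refine hH (u - x) ?_
          have e1 := hxR x hx
          have e2 := dd_tri x 0 u
          rw [dd_comm x 0] at e2
          rw [dd_sub]
          omega
      _ = ((ball R 0).card : ℝ) * (m:ℝ) ^ (-(20:ℝ)) := by rw [Finset.sum_const, nsmul_eq_mul]
      _ ≤ _ := by gcongr
  have hP3 : nu.real B3 ≤ 2 * (C * (m:ℝ) ^ (-(18:ℝ))) := by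
    refine (local_le (le_refl (dd 0 u))).trans ?_
    have e1 := hhalf (dd 0 u)
    have e2 : ((dd 0 u : ℝ) + 1) ^ (-(18:ℝ)) ≤ (m:ℝ) ^ (-(18:ℝ)) :=
      Real.rpow_le_rpow_of_nonpos hm0 (by linarith) (by norm_num)
    have e3 : C * ((dd 0 u : ℝ) + 1) ^ (-(18:ℝ)) ≤ C * (m:ℝ) ^ (-(18:ℝ)) := by gcongr
    linarith
  have hm18 : (9241 * (m:ℝ)) ^ 2 * (m:ℝ) ^ (-(20:ℝ)) = 9241 ^ 2 * (m:ℝ) ^ (-(18:ℝ)) := by
    have e1 : (m:ℝ) ^ (-(18:ℝ)) = (m:ℝ) ^ 2 * (m:ℝ) ^ (-(20:ℝ)) := by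
      rw [← Real.rpow_natCast (m:ℝ) 2, ← Real.rpow_add hm0]; norm_num
    rw [e1]; ring
  have hBp : nu.real ((B1 ∪ B2) ∪ B3) ≤ (m:ℝ) ^ (-(8:ℝ)) / 2 := by
    have e1 := measureReal_union_le (μ := nu) (B1 ∪ B2) B3
    have e2 := measureReal_union_le (μ := nu) B1 B2
    rw [hm18] at hP1 hP2
    have e3 : (2 * 9241 ^ 2 + 2 * C) * (m:ℝ) ^ (-(18:ℝ)) ≤ (m:ℝ) ^ (-(8:ℝ)) / 4 := by
      have e4 : (m:ℝ) ^ (-(18:ℝ)) = (m:ℝ) ^ (-10:ℝ) * (m:ℝ) ^ (-(8:ℝ)) := by
        rw [← Real.rpow_add hm0]; norm_num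
      rw [e4, ← mul_assoc]
      have e5 : (0:ℝ) ≤ (m:ℝ) ^ (-(8:ℝ)) := by positivity
      calc (2 * 9241 ^ 2 + 2 * C) * (m:ℝ) ^ (-10:ℝ) * (m:ℝ) ^ (-(8:ℝ)) ≤
          (1 / 4) * (m:ℝ) ^ (-(8:ℝ)) := mul_le_mul_of_nonneg_right F1 e5
        _ = _ := by ring
    have e6 : (0:ℝ) ≤ (m:ℝ) ^ (-(8:ℝ)) := by positivity
    linarith
  -- the fast event after scaling
  set A : Set (Ed → ℝ) := {w | Bk u 0 w < mz μ u - κ} with hA
  have hAm : MeasurableSet A := measurableSet_lt (measurable_Bk u 0) measurable_const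
  have hsub : {w : Ed → ℝ | TT (pw w) 0 u < lf μ p u + κ} ⊆
      ((B1 ∪ B2) ∪ B3) ∪ {w | tlt S (1 - η) w ∈ A} := by
    intro w hw
    by_contra hcon
    simp only [Set.mem_union, not_or] at hcon
    obtain ⟨⟨⟨w1, w2⟩, w3⟩, w4⟩ := hcon
    have hw' : TT (pw w) 0 u < lf μ p u + κ := hw
    have g1 : ∀ x ∈ ball R 0, mz μ x - D0 ≤ TT (pw w) 0 x := by
      intro x hx
      by_contra hno
      push Not at hno
      exact w1 (Set.mem_biUnion (t := fun x => {w : Ed → ℝ | TT (pw w) 0 x < mz μ x - D0})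
        (Finset.mem_coe.2 hx) hno)
    have g2 : ∀ x ∈ ball R 0, mz μ (u - x) - D0 ≤ TT (pw w) x u := by
      intro x hx
      by_contra hno
      push Not at hno
      exact w2 (Set.mem_biUnion (t := fun x => {w : Ed → ℝ | TT (pw w) x u < mz μ (u - x) - D0})
        (Finset.mem_coe.2 hx) hno)
    have g3 : TB (pw w) (66 * dd 0 u) 0 u ≤ TT (pw w) 0 u := by
      by_contra hno
      push Not at hno
      exact w3 hno
    have hne := nonemptyB (pw w) (R := 66 * dd 0 u) (x := 0) (y := u) (by omega)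
    have hlt : TB (pw w) (66 * dd 0 u) 0 u < lf μ p u + κ := lt_of_le_of_lt g3 hw'
    obtain ⟨_, ⟨N, q, ⟨hq, hqb⟩, rfl⟩, hqW⟩ := exists_lt_of_csInf_lt hne hlt
    have hqin : ∀ i ≤ N, q i ∈ ball R 0 := fun i hi => mem_ball.2 (hqb i hi)
    have hqD : ∀ i ≤ N, q i ∈ D := by
      intro i hi
      have e1 := Wt_two (pw_nonneg w) hi hq.2.2
      rw [hq.1, hq.2.1] at e1
      have e2 := g1 _ (hqin i hi)
      have e3 := g2 _ (hqin i hi)
      have e4 := hd.lf_le h (u - q i)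
      rw [lf_sub] at e4
      have e5 : mz μ (q i) ≤ lf μ p (q i) + (κ + 2 * D0) := by linarith
      have e6 : (dd 0 (q i) : ℝ) ≤ 4620 * m := by exact_mod_cast hxR _ (hqin i hi)
      have e7 := hd.near h (by linarith) e6 e5
      rw [hD, Tu, Finset.mem_filter]
      refine ⟨hqin i hi, ?_⟩
      have e8 : (μ p) ^ 2 * (zc p (q i)) ^ 2 < (μ p) ^ 2 * L ^ 2 := by
        rw [hLsq]
        have f1 : κ + 2 * D0 ≤ 3 * κ := by linarith
        have f2 : 4 * (4620 * (m:ℝ)) * (κ + 2 * D0) ≤ 4 * (4620 * m) * (3 * κ) := by gcongr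
        have f3 : (κ + 2 * D0) ^ 2 ≤ (3 * κ) ^ 2 := pow_le_pow_left₀ (by linarith) f1 2
        have f4 : κ * κ ≤ m * κ := by gcongr
        have f5 : 0 < m * κ := by positivity
        nlinarith
      have e9 : (zc p (q i)) ^ 2 < L ^ 2 := lt_of_mul_lt_mul_left e8 (by positivity)
      exact abs_lt_of_sq_lt_sq e9 (by linarith)
    have hedge : ∀ i, 0 ≤ i → i < N → s(q i, q (i + 1)) ∈ S := by
      intro i _ hi2
      exact mem_Sd (hqD i hi2.le) (hq.2.2 i hi2)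
    have hsc := scaled (w := w) (c := 1 - η) (by linarith) hq hqb (Nat.zero_le N) le_rfl hedge
      (by linarith)
    rw [hq.1, hq.2.1] at hsc
    have e1 : 1 - (1 - η) = η := by ring
    rw [e1] at hsc
    apply w4
    show Bk u 0 (tlt S (1 - η) w) < mz μ u - κ
    have e2 := g1 u (mem_ball.2 (by omega))
    have e3 := mz_low h u
    have e4 : (m:ℝ) / 44 ≤ TT (pw w) 0 u := by
      have : (m:ℝ) / 22 ≤ mz μ u := le_trans (by linarith) e3
      linarith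
    have e5 : η * (m / 44) ≤ η * TT (pw w) 0 u := by gcongr
    have e6 : η * (m / 44) = 2 * κ := by rw [hη]; field_simp; norm_num
    have e7 := hd.lf_le h u
    linarith
  have hprob : (m:ℝ) ^ (-(8:ℝ)) / 2 ≤ nu.real {w | tlt S (1 - η) w ∈ A} := by
    have e1 := (measureReal_mono hsub (measure_ne_top nu _)).trans (measureReal_union_le _ _)
    linarith
  have htp := tilt_prob (S := S) (Q := Q) Finset.subset_union_right (c := 1 - η) (by linarith)
    (by linarith) hAm (fun w w' hw hwA => by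
      show Bk u 0 w' < mz μ u - κ
      rw [← Bk_dep (u := u) (x := 0) (fun e he => hw e (Finset.mem_union_left _ he))]
      exact hwA)
  have e1 : ((m:ℝ) ^ (-(8:ℝ)) / 2) ^ 2 ≤ (nu.real {w | tlt S (1 - η) w ∈ A}) ^ 2 :=
    pow_le_pow_left₀ (by positivity) hprob 2
  have e2 : (((1 - η) * (2 - (1 - η)))⁻¹) ^ S.card * nu.real A ≤ 2 * nu.real A :=
    mul_le_mul_of_nonneg_right hLR measureReal_nonneg
  have e3 : nu.real A ≤ nu.real {w | TT (pw w) 0 u < mz μ u - κ} := by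
    refine measureReal_mono ?_ (measure_ne_top _ _)
    intro w hw
    have hw' : Bk u 0 w < mz μ u - κ := hw
    have := TT_le_Bk u 0 w
    rw [zero_add] at this
    show TT (pw w) 0 u < mz μ u - κ
    linarith
  have e4 : ((m:ℝ) ^ (-(8:ℝ)) / 2) ^ 2 = (m:ℝ) ^ (-(16:ℝ)) / 4 := by
    rw [div_pow, ← Real.rpow_natCast, ← Real.rpow_mul hm0.le]
    norm_num
  linarith

/-- **Deviations below the time constant.** -/
theorem below (h : Shape μ) {a : ℝ} (ha : a < 1 / 5) : ∀ᶠ n : ℕ in atTop, ∃ u : ℤ × ℤ, dd 0 u ≤ n ∧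
    (n:ℝ) ^ (-(20:ℝ)) < nu.real {w | TT (pw w) 0 u < mz μ u - (n:ℝ) ^ a} := by
  obtain ⟨p, hp1, hp2, hp3, hp4⟩ := exists_dir h
  have hd : Dir μ p := ⟨hp1, hp2, hp3, hp4⟩
  set a0 : ℝ := max a (1 / 10) with ha0
  have h1 : a ≤ a0 := le_max_left _ _
  have h2 : 1 / 10 ≤ a0 := le_max_right _ _
  have h3 : a0 < 1 / 5 := max_lt ha (by norm_num)
  set b : ℝ := a0 + (1 / 5 - a0) / 3 with hb
  set c : ℝ := a0 + 2 * (1 / 5 - a0) / 3 with hc
  have hb0 : 0 < b := by rw [hb]; linarith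
  have hbc : b < c := by rw [hb, hc]; linarith
  have hc5 : c < 1 / 5 := by rw [hc]; linarith
  have hab : a < b := by rw [hb]; linarith
  have T1 := exists_fast h hd hb0 hbc (by linarith)
  have T2 := tilt_step h hd hb0 hbc hc5
  have T3 : ∀ᶠ m : ℕ in atTop, ¬ Hyp μ b m := by
    have F1 := pow_small (c := -20) (a := -16) (K := 16) (by norm_num)
    filter_upwards [T1, T2, F1, eventually_ge_atTop 1] with m T1 T2 F1 hm hH
    have hm1 : (1:ℝ) ≤ m := by exact_mod_cast hm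
    have hm0 : (0:ℝ) < m := by linarith
    obtain ⟨u, u1, u2, u3⟩ := T1 hH
    have e1 := T2 hH u u1 u2 u3
    have e2 := hH u (by omega)
    have e3 : nu.real {w | TT (pw w) 0 u < mz μ u - (m:ℝ) ^ c} ≤
        nu.real {w | TT (pw w) 0 u < mz μ u - (m:ℝ) ^ b} := by
      refine measureReal_mono ?_ (measure_ne_top _ _)
      intro w hw
      have hw' : TT (pw w) 0 u < mz μ u - (m:ℝ) ^ c := hw
      have : (m:ℝ) ^ b ≤ (m:ℝ) ^ c := Real.rpow_le_rpow_of_exponent_le hm1 hbc.le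
      show TT (pw w) 0 u < mz μ u - (m:ℝ) ^ b
      linarith
    have e4 : (0:ℝ) < (m:ℝ) ^ (-(16:ℝ)) := by positivity
    have e5 : (m:ℝ) ^ (-(20:ℝ)) = (m:ℝ) ^ (-20:ℝ) := rfl
    have e6 : (m:ℝ) ^ (-(16:ℝ)) = (m:ℝ) ^ (-16:ℝ) := rfl
    linarith
  have td : Tendsto (fun n : ℕ => n / 4700) atTop atTop :=
    Nat.tendsto_div_const_atTop (by norm_num)
  have F2 := pow_small (c := a) (a := b) (K := 9400 ^ b) hab
  filter_upwards [td.eventually T3, F2, eventually_ge_atTop 4700] with n T3 F2 hn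
  have hn1 : (4700:ℝ) ≤ n := by exact_mod_cast hn
  have hn0 : (0:ℝ) < n := by linarith
  set m : ℕ := n / 4700 with hm
  have hmn : 4700 * m ≤ n := Nat.mul_div_le n 4700
  have hm2 : (n:ℝ) / 9400 ≤ m := by
    have e1 : n < 4700 * (m + 1) := by omega
    have e2 : 1 ≤ m := by omega
    have e3 : (n:ℝ) < 4700 * ((m:ℝ) + 1) := by exact_mod_cast e1
    have e4 : (1:ℝ) ≤ m := by exact_mod_cast e2
    linarith
  have hm0 : (0:ℝ) < m := lt_of_lt_of_le (by positivity) hm2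
  have hmn' : (m:ℝ) ≤ n := by
    have : m ≤ n := by omega
    exact_mod_cast this
  unfold Hyp at T3
  push Not at T3
  obtain ⟨z, z1, z2⟩ := T3
  refine ⟨z, by omega, ?_⟩
  have e1 : (n:ℝ) ^ (-(20:ℝ)) ≤ (m:ℝ) ^ (-(20:ℝ)) :=
    Real.rpow_le_rpow_of_nonpos hm0 hmn' (by norm_num)
  refine lt_of_le_of_lt e1 (lt_of_lt_of_le z2 (measureReal_mono ?_ (measure_ne_top _ _)))
  intro w hw
  have hw' : TT (pw w) 0 z < mz μ z - (m:ℝ) ^ b := hw
  show TT (pw w) 0 z < mz μ z - (n:ℝ) ^ a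
  have e2 : (n:ℝ) ^ a ≤ (m:ℝ) ^ b := by
    have f1 : ((n:ℝ) / 9400) ^ b ≤ (m:ℝ) ^ b := Real.rpow_le_rpow (by positivity) hm2 hb0.le
    rw [Real.div_rpow hn0.le (by norm_num)] at f1
    have f2 : (n:ℝ) ^ a ≤ (n:ℝ) ^ b / 9400 ^ b := by
      rw [le_div_iff₀ (by positivity)]
      have : (0:ℝ) ≤ (n:ℝ) ^ b := by positivity
      linarith
    linarith
  linarith

end Pool.Agent.H948
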