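import Pool.Agent.H948.Defect

/-!
# The mean determines the upper tail
-/

set_option autoImplicit false

open MeasureTheory ProbabilityTheory Filter Set
open scoped ENNReal Topology

namespace Pool.Agent.H948

open Q70.Fp
open Q69.FM (hm sq_up TB_sh add_pow_le abs_int)
open Q69.FL (Se neg_of_Se)

variable {μ : ℝ × ℝ → ℝ}

lemma second_split {v : ℤ × ℤ} {C3 : ℝ}
    (i2 : Integrable (fun w => |Bk v 0 w - TT (pw w) 0 (0 + v)| ^ (2:ℝ)) nu)
    (j2 : ∫ w, |Bk v 0 w - TT (pw w) 0 (0 + v)| ^ (2:ℝ) ∂nu ≤ C3) :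
    ∫ w, (TT (pw w) 0 v - mz μ v) ^ 2 ∂nu ≤ 3 * C3 + 3 * ∫ w, (Bk v 0 w - fb v) ^ 2 ∂nu +
      3 * (fb v - mz μ v) ^ 2 := by
  have m1 := memLp_Bk v 0
  have m2 := memLp_TT' 0 v
  have e1 : ∀ w, (TT (pw w) 0 v - mz μ v) ^ 2 ≤ 3 * |Bk v 0 w - TT (pw w) 0 (0 + v)| ^ (2:ℝ) +
      3 * (Bk v 0 w - fb v) ^ 2 + 3 * (fb v - mz μ v) ^ 2 := by
    intro w
    rw [Real.rpow_two, sq_abs, zero_add]
    set x := Bk v 0 w - TT (pw w) 0 v with hx
    set y := Bk v 0 w - fb v with hy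
    set z := fb v - mz μ v with hz
    have : TT (pw w) 0 v - mz μ v = -x + y + z := by rw [hx, hy, hz]; ring
    rw [this]
    nlinarith [sq_nonneg (x + y), sq_nonneg (x + z), sq_nonneg (y - z)]
  have i1 : Integrable (fun w => (TT (pw w) 0 v - mz μ v) ^ 2) nu := by
    have := (m2.sub (memLp_const (mz μ v))).integrable_sq
    simpa using this
  have i3 : Integrable (fun w => (Bk v 0 w - fb v) ^ 2) nu := (m1.sub (memLp_const _)).integrable_sq
  have i4 : Integrable (fun w => 3 * |Bk v 0 w - TT (pw w) 0 (0 + v)| ^ (2:ℝ) +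
      3 * (Bk v 0 w - fb v) ^ 2) nu := (i2.const_mul 3).add (i3.const_mul 3)
  have i5 : Integrable (fun w => 3 * |Bk v 0 w - TT (pw w) 0 (0 + v)| ^ (2:ℝ) +
      3 * (Bk v 0 w - fb v) ^ 2 + 3 * (fb v - mz μ v) ^ 2) nu := i4.add (integrable_const _)
  refine (integral_mono i1 i5 e1).trans ?_
  rw [integral_add i4 (integrable_const _), integral_add (i2.const_mul 3) (i3.const_mul 3),
    integral_const_mul, integral_const_mul]
  simp only [integral_const, probReal_univ, smul_eq_mul, one_mul]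
  linarith

lemma core (h : Shape μ) {s b p : ℝ} (hb : 0 < b) (hbs : b < s) (hs : s ≤ 1 / 2) (hp : 2 < p)
    (hM : ∀ η : ℝ, 0 < η → ∃ C : ℝ, ∀ v : ℤ × ℤ, v ≠ 0 →
      ∫ w, |TT (pw w) 0 v - mz μ v| ^ p ∂nu ≤ C * (dd 0 v : ℝ) ^ ((s + η) * p))
    (hB : ∀ ζ : ℝ, 0 < ζ → ∃ C : ℝ, ∀ v : ℤ × ℤ, v ≠ 0 → hm v ≤ mz μ v + C * (dd 0 v : ℝ) ^ (b + ζ))
    (hL : ∀ η : ℝ, 0 < η → ∀ N : ℕ, ∃ v : ℤ × ℤ, v ≠ 0 ∧ N ≤ dd 0 v ∧
      (dd 0 v : ℝ) ^ (2 * (s - η)) ≤ ∫ w, (TT (pw w) 0 v - mz μ v) ^ 2 ∂nu) : False := by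
  set g : ℝ := s - b with hg
  have hg0 : 0 < g := by rw [hg]; linarith
  have hp0 : 0 < p := by linarith
  set η : ℝ := g * (p - 2) / (8 * p) with hη
  have hη0 : 0 < η := by rw [hη]; have : 0 < p - 2 := by linarith
                         positivity
  have hη1 : η * (8 * p) = g * (p - 2) := by rw [hη]; field_simp
  have hη2 : 8 * η ≤ g := by
    by_contra hc
    push Not at hc
    nlinarith
  set e : ℝ := 2 * s - b - 7 * η with he
  set κ : ℝ := 2 * s - 6 * η with hκ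
  have hκ0 : 0 < κ := by rw [hκ]; linarith
  have hκ1 : κ ≤ 1 := by rw [hκ]; linarith
  obtain ⟨C1, hC1, h1⟩ := Df_sq h (p := p) (a := s + η) (β := b + η) (e := e) hp (by linarith)
    (by linarith) (by linarith) (hM η hη0) (hB η hη0)
  have x1 : e + (b + η) = κ := by rw [he, hκ]; ring
  have x2 : (s + η) * p - (p - 2) * e ≤ κ := by
    rw [he, hκ]
    have : b = s - g := by rw [hg]; ring
    rw [this]
    nlinarith
  obtain ⟨C2, hC2, h2⟩ := two_tracks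
  obtain ⟨C3, hC3, h3⟩ := Bk_TT (p := 2) (by norm_num)
  obtain ⟨C4, h4⟩ := hB η hη0
  obtain ⟨C5, hC5, h5⟩ := fb_le
  set δ : ℝ := η / (2 * p + 1) with hδ
  have hδ0 : 0 < δ := by positivity
  have hδ1 : δ * (2 * p + 1) = η := by rw [hδ]; field_simp
  set J : ℕ := ⌈2 / δ⌉₊ with hJ
  have hJ1 : 2 ≤ δ * J := by
    have := Nat.le_ceil (2 / δ)
    rw [div_le_iff₀ hδ0] at this
    rw [mul_comm]; exact this
  set K : ℝ := 3 * C3 + 3 * (3 * 542 ^ J * (2 * C1 * 3 ^ (2 * p + 1)) + C2) +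
    3 * (max C4 1 + C5) ^ 2 with hK
  obtain ⟨N0, hN0⟩ := eventually_atTop.1 (pow_small (c := 2 * s - 5 * η) (a := 2 * (s - η)) (K := K)
    (by linarith))
  obtain ⟨v, hv, hvN, hvL⟩ := hL η hη0 (max N0 2)
  have hn0' := hN0 (dd 0 v) ((le_max_left _ _).trans hvN)
  have hn2 : (2:ℝ) ≤ dd 0 v := by exact_mod_cast (le_max_right _ _).trans hvN
  set n : ℝ := (dd 0 v : ℝ) with hn
  have hn0 : 0 < n := by linarith
  have hn1 : 1 ≤ n := by linarith
  -- the number of blocks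
  set k : ℕ := ⌈n ^ δ⌉₊ with hk
  have hnδ : 1 < n ^ δ := Real.one_lt_rpow (by linarith) hδ0
  have hk1 : n ^ δ ≤ k := Nat.le_ceil _
  have hk2 : 2 ≤ k := by
    have : (1:ℝ) < k := lt_of_lt_of_le hnδ hk1
    exact_mod_cast this
  have hk3 : (k:ℝ) + 1 ≤ 3 * n ^ δ := by
    have := Nat.ceil_lt_add_one (show 0 ≤ n ^ δ by positivity)
    have h0 : (k:ℝ) < n ^ δ + 1 := this
    linarith
  have hkR : (1:ℝ) ≤ k := by linarith
  have hK1 : ((k:ℝ) + 1) ^ (2 * p + 1) ≤ 3 ^ (2 * p + 1) * n ^ η := by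
    calc ((k:ℝ) + 1) ^ (2 * p + 1) ≤ (3 * n ^ δ) ^ (2 * p + 1) :=
          Real.rpow_le_rpow (by positivity) hk3 (by linarith)
      _ = _ := by
          rw [Real.mul_rpow (by norm_num) (by positivity), ← Real.rpow_mul hn0.le, hδ1]
  have hkJ : n ^ 2 ≤ (k:ℝ) ^ J := by
    calc n ^ 2 = n ^ (2:ℝ) := (Real.rpow_two n).symm
      _ ≤ n ^ (δ * J) := Real.rpow_le_rpow_of_exponent_le hn1 hJ1
      _ = (n ^ δ) ^ J := by rw [Real.rpow_mul hn0.le, Real.rpow_natCast]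
      _ ≤ (k:ℝ) ^ J := pow_le_pow_left₀ (by positivity) hk1 J
  set E : ℝ := 2 * C1 * ((k:ℝ) + 1) ^ (2 * p + 1) * n ^ κ with hE
  have hE0 : 0 ≤ E := by positivity
  have hD : ∀ j < J, ∫ w, Df (kv v k j) k 0 w ^ 2 ∂nu ≤ (k:ℝ) ^ j * E := by
    intro j _
    have hkj1 : 1 ≤ k ^ j := Nat.one_le_pow _ _ (by omega)
    have hkv : kv v k j ≠ 0 := by
      intro h0
      have e1 := dd_kv v k j
      rw [h0, dd_self] at e1
      have e2 : 1 ≤ k ^ j * dd 0 v := Nat.mul_pos hkj1 (dd_pos hv)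
      omega
    have e1 := h1 _ hkv k hk2
    rw [x1] at e1
    have e2 : ((dd 0 (kv v k j) : ℕ) : ℝ) = (k:ℝ) ^ j * n := by
      rw [dd_kv]; push_cast; rfl
    rw [e2] at e1
    have hkj : (1:ℝ) ≤ (k:ℝ) ^ j := one_le_pow₀ hkR
    have hm1 : (1:ℝ) ≤ (k:ℝ) ^ j * n := by nlinarith
    have e3 : ((k:ℝ) ^ j * n) ^ ((s + η) * p - (p - 2) * e) ≤ ((k:ℝ) ^ j * n) ^ κ :=
      Real.rpow_le_rpow_of_exponent_le hm1 x2
    have e4 : ((k:ℝ) ^ j * n) ^ κ ≤ (k:ℝ) ^ j * n ^ κ := by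
      rw [Real.mul_rpow (by positivity) hn0.le]
      gcongr
      calc ((k:ℝ) ^ j) ^ κ ≤ ((k:ℝ) ^ j) ^ (1:ℝ) := Real.rpow_le_rpow_of_exponent_le hkj hκ1
        _ = _ := Real.rpow_one _
    calc ∫ w, Df (kv v k j) k 0 w ^ 2 ∂nu ≤ C1 * ((k:ℝ) + 1) ^ (2 * p + 1) *
          (((k:ℝ) ^ j * n) ^ κ + ((k:ℝ) ^ j * n) ^ ((s + η) * p - (p - 2) * e)) := e1
      _ ≤ C1 * ((k:ℝ) + 1) ^ (2 * p + 1) * ((k:ℝ) ^ j * n ^ κ + (k:ℝ) ^ j * n ^ κ) := by
          have := e3.trans e4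
          gcongr
      _ = (k:ℝ) ^ j * E := by rw [hE]; ring
  have hmain := h2 v hv k (by omega) J E hE0 hD
  rw [← hn] at hmain
  set V : ℝ := ∫ w, (Bk v 0 w - fb v) ^ 2 ∂nu with hV
  have hkJ0 : 0 < (k:ℝ) ^ J := by positivity
  have hV1 : V ≤ 3 * 542 ^ J * E + C2 := by
    have e1 : (k:ℝ) ^ J * V ≤ (k:ℝ) ^ J * (3 * 542 ^ J * E + C2) := by
      calc (k:ℝ) ^ J * V ≤ 3 * ((542 * (k:ℝ)) ^ J * E) + C2 * n ^ 2 := hmain
        _ ≤ 3 * ((542 * (k:ℝ)) ^ J * E) + C2 * (k:ℝ) ^ J := by gcongr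
        _ = _ := by rw [mul_pow]; ring
    exact le_of_mul_le_mul_left e1 hkJ0
  have hE1 : E ≤ 2 * C1 * 3 ^ (2 * p + 1) * n ^ (2 * s - 5 * η) := by
    calc E ≤ 2 * C1 * (3 ^ (2 * p + 1) * n ^ η) * n ^ κ := by rw [hE]; gcongr
      _ = 2 * C1 * 3 ^ (2 * p + 1) * (n ^ η * n ^ κ) := by ring
      _ = _ := by
          rw [← Real.rpow_add hn0]
          congr 2; rw [hκ]; ring
  have hone : (1:ℝ) ≤ n ^ (2 * s - 5 * η) := Real.one_le_rpow hn1 (by linarith)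
  -- the second moment
  have hup : ∫ w, (TT (pw w) 0 v - mz μ v) ^ 2 ∂nu ≤ 3 * C3 + 3 * V + 3 * (fb v - mz μ v) ^ 2 :=
    second_split (h3 v hv 0).1 (h3 v hv 0).2
  have hfm : (fb v - mz μ v) ^ 2 ≤ (max C4 1 + C5) ^ 2 * n ^ (2 * s - 5 * η) := by
    have e0 : 0 ≤ fb v - mz μ v := by
      have := (mz_le_mean h v).trans (hm_le_fb v)
      linarith
    have hnb : (1:ℝ) ≤ n ^ (b + η) := Real.one_le_rpow hn1 (by linarith)
    have e1 : fb v - mz μ v ≤ (max C4 1 + C5) * n ^ (b + η) := by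
      have f1 := h5 v hv
      have f2 := h4 v hv
      rw [← hn] at f2
      have f3 : C4 * n ^ (b + η) ≤ max C4 1 * n ^ (b + η) := by gcongr; exact le_max_left _ _
      nlinarith
    calc (fb v - mz μ v) ^ 2 ≤ ((max C4 1 + C5) * n ^ (b + η)) ^ 2 := pow_le_pow_left₀ e0 e1 2
      _ = (max C4 1 + C5) ^ 2 * n ^ (2 * (b + η)) := by
          rw [mul_pow, ← Real.rpow_natCast (n ^ (b + η)), ← Real.rpow_mul hn0.le]
          congr 2; push_cast; ring
      _ ≤ _ := by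
          have hexp : 2 * (b + η) ≤ 2 * s - 5 * η := by linarith
          gcongr
  have hfin : n ^ (2 * (s - η)) ≤ K * n ^ (2 * s - 5 * η) := by
    have c1 : V ≤ (3 * 542 ^ J * (2 * C1 * 3 ^ (2 * p + 1)) + C2) * n ^ (2 * s - 5 * η) := by
      calc V ≤ 3 * 542 ^ J * E + C2 := hV1
        _ ≤ 3 * 542 ^ J * (2 * C1 * 3 ^ (2 * p + 1) * n ^ (2 * s - 5 * η)) +
            C2 * n ^ (2 * s - 5 * η) := by
          gcongr
          nlinarith
        _ = _ := by ring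
    have c2 : C3 ≤ C3 * n ^ (2 * s - 5 * η) := by nlinarith
    calc n ^ (2 * (s - η)) ≤ 3 * C3 + 3 * V + 3 * (fb v - mz μ v) ^ 2 := hvL.trans hup
      _ ≤ 3 * (C3 * n ^ (2 * s - 5 * η)) +
          3 * ((3 * 542 ^ J * (2 * C1 * 3 ^ (2 * p + 1)) + C2) * n ^ (2 * s - 5 * η)) +
          3 * ((max C4 1 + C5) ^ 2 * n ^ (2 * s - 5 * η)) := by gcongr
      _ = _ := by rw [hK]; ring
  have hpos : 0 < n ^ (2 * (s - η)) := by positivity
  linarith

/-- moments of order larger than two, at every exponent above the critical one -/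
lemma crit_moment (h : Shape μ) {s : ℝ} (hs0 : 0 < s) (hs : s ≤ 1 / 2) (hH : ∀ a, s < a → HH μ a) :
    ∃ p : ℝ, 2 < p ∧ ∀ η : ℝ, 0 < η → ∃ C : ℝ, ∀ v : ℤ × ℤ, v ≠ 0 →
      ∫ w, |TT (pw w) 0 v - mz μ v| ^ p ∂nu ≤ C * (dd 0 v : ℝ) ^ ((s + η) * p) := by
  rcases hs.lt_or_eq with h1 | h1
  · set a1 : ℝ := (s + 1 / 2) / 2 with ha1
    have ha10 : s < a1 := by rw [ha1]; linarith
    have ha11 : a1 < 1 / 2 := by rw [ha1]; linarith
    have ha1p : 0 < a1 := by linarith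
    refine ⟨1 + 1 / (2 * a1), ?_, fun η hη => ?_⟩
    · have : 1 < 1 / (2 * a1) := by rw [lt_div_iff₀ (by positivity)]; linarith
      linarith
    · set p : ℝ := 1 + 1 / (2 * a1) with hp
      have hp0 : 0 < p := by positivity
      set x : ℝ := min (s + η) a1 with hx
      have hxs : s < x := lt_min (by linarith) ha10
      have hx1 : x ≤ a1 := min_le_right _ _
      have hx2 : x ≤ s + η := min_le_left _ _
      have hpa : p * x < 1 := by
        calc p * x ≤ p * a1 := by gcongr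
          _ = a1 + 1 / 2 := by rw [hp]; field_simp
          _ < 1 := by linarith
      obtain ⟨C, hC, hc⟩ := two_moment h (a := x) (by linarith) (by linarith) (hH x hxs) hp0 hpa
      refine ⟨C, fun v hv => (hc v hv).2.trans ?_⟩
      have hn := dd_one hv
      gcongr
  · refine ⟨3, by norm_num, fun η hη => ?_⟩
    have hS := (half h).1 (s + η) (by linarith)
    obtain ⟨C1, hC1, h2⟩ := pos_moment h (a := s + η) (by linarith) (hH _ (by linarith)) (p := 3)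
      (by norm_num)
    obtain ⟨C2, hC2, h3⟩ := neg_of_Se h (a := s + η) (by linarith) hS (p := 3) (by norm_num)
    refine ⟨C1 + C2, fun v hv => ?_⟩
    obtain ⟨i1, j1⟩ := h2 v hv
    have j2 := h3 v hv
    have i2 := neg_int h (p := 3) (by norm_num) v
    have e1 : ∫ w, |TT (pw w) 0 v - mz μ v| ^ (3:ℝ) ∂nu ≤
        ∫ w, (max (TT (pw w) 0 v - mz μ v) 0 ^ (3:ℝ) + max (mz μ v - TT (pw w) 0 v) 0 ^ (3:ℝ)) ∂nu := by
      refine integral_mono (abs_int h (by norm_num) hv) (i1.add i2) fun w => ?_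
      show |TT (pw w) 0 v - mz μ v| ^ (3:ℝ) ≤ max (TT (pw w) 0 v - mz μ v) 0 ^ (3:ℝ) +
        max (mz μ v - TT (pw w) 0 v) 0 ^ (3:ℝ)
      rcases le_total (mz μ v) (TT (pw w) 0 v) with hc | hc
      · rw [abs_of_nonneg (by linarith), max_eq_left (by linarith)]
        have : 0 ≤ max (mz μ v - TT (pw w) 0 v) 0 ^ (3:ℝ) := by positivity
        linarith
      · rw [abs_of_nonpos (by linarith), max_eq_left (a := mz μ v - TT (pw w) 0 v) (by linarith),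
          neg_sub]
        have : 0 ≤ max (TT (pw w) 0 v - mz μ v) 0 ^ (3:ℝ) := by positivity
        linarith
    rw [integral_add i1 i2] at e1
    rw [add_mul]
    linarith

/-- if the upper tail is not small at some exponent, then the second moment is large -/
lemma second_large (h : Shape μ) {s' : ℝ} (hs' : 0 < s') (hs1 : s' < 1) {a : ℝ} (ha : s' < a)
    (hH : ¬ HH μ a) (N : ℕ) : ∃ v : ℤ × ℤ, v ≠ 0 ∧ N ≤ dd 0 v ∧
      (dd 0 v : ℝ) ^ (2 * s') ≤ ∫ w, (TT (pw w) 0 v - mz μ v) ^ 2 ∂nu := by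
  by_contra hc
  push Not at hc
  apply hH
  refine boost h hs' hs1 ?_ ha
  refine tl_of_moment (p := 2) (by norm_num) fun ζ hζ => ?_
  obtain ⟨C, hC, hc2⟩ := pos_moment h (a := 2) (by norm_num) (HH_two h) (p := 2) (by norm_num)
  set M : ℝ := max (N:ℝ) 1 with hMdef
  refine ⟨max 1 (C * M ^ (4:ℝ)), fun v hv => ⟨(hc2 v hv).1, ?_⟩⟩
  have hn := dd_one hv
  have hn0 : (0:ℝ) < dd 0 v := by linarith
  have hnp : (1:ℝ) ≤ (dd 0 v : ℝ) ^ (s' * 2 + ζ) := Real.one_le_rpow hn (by positivity)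
  by_cases hN : N ≤ dd 0 v
  · have h1 := hc v hv hN
    have h2 : ∫ w, max (TT (pw w) 0 v - mz μ v) 0 ^ (2:ℝ) ∂nu ≤
        ∫ w, (TT (pw w) 0 v - mz μ v) ^ 2 ∂nu := by
      have i1 : Integrable (fun w => (TT (pw w) 0 v - mz μ v) ^ 2) nu := by
        have m2 := memLp_TT' 0 v
        have := (m2.sub (memLp_const (mz μ v))).integrable_sq
        simpa using this
      refine integral_mono (hc2 v hv).1 i1 fun w => ?_
      show max (TT (pw w) 0 v - mz μ v) 0 ^ (2:ℝ) ≤ (TT (pw w) 0 v - mz μ v) ^ 2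
      rw [Real.rpow_two]
      rcases le_total (mz μ v) (TT (pw w) 0 v) with hc | hc
      · rw [max_eq_left (by linarith)]
      · rw [max_eq_right (by linarith)]
        nlinarith [sq_nonneg (TT (pw w) 0 v - mz μ v)]
    have h3 : (dd 0 v : ℝ) ^ (2 * s') ≤ (dd 0 v : ℝ) ^ (s' * 2 + ζ) :=
      Real.rpow_le_rpow_of_exponent_le hn (by linarith)
    have h4 : (1:ℝ) ≤ max 1 (C * M ^ (4:ℝ)) := le_max_left _ _
    nlinarith
  · push Not at hN
    have h1 := (hc2 v hv).2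
    have h2 : (dd 0 v : ℝ) ≤ M := by
      have : (dd 0 v : ℝ) < N := by exact_mod_cast hN
      exact this.le.trans (le_max_left _ _)
    have h3 : (dd 0 v : ℝ) ^ ((2:ℝ) * 2) ≤ M ^ (4:ℝ) := by
      rw [show (2:ℝ) * 2 = 4 by norm_num]
      exact Real.rpow_le_rpow hn0.le h2 (by norm_num)
    calc ∫ w, max (TT (pw w) 0 v - mz μ v) 0 ^ (2:ℝ) ∂nu ≤ C * (dd 0 v : ℝ) ^ ((2:ℝ) * 2) := h1
      _ ≤ C * M ^ (4:ℝ) := by gcongr
      _ ≤ max 1 (C * M ^ (4:ℝ)) * 1 := by rw [mul_one]; exact le_max_right _ _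
      _ ≤ _ := by gcongr

/-- for exponents below `1 / 2`: a bound for the mean gives the upper tail -/
theorem mean_to_inner (h : Shape μ) {b : ℝ} (hb : 0 < b)
    (hB : ∀ ζ : ℝ, 0 < ζ → ∃ C : ℝ, ∀ v : ℤ × ℤ, v ≠ 0 → hm v ≤ mz μ v + C * (dd 0 v : ℝ) ^ (b + ζ))
    {a : ℝ} (ha : b < a) : HH μ a := by
  by_contra hna
  set A : Set ℝ := {x | b < x ∧ HH μ x} with hA
  have hup : ∀ x y, x ∈ A → x ≤ y → y ∈ A := fun x y hx hxy =>
    ⟨lt_of_lt_of_le hx.1 hxy, HH_mono hxy hx.2⟩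
  have hbd : BddBelow A := ⟨b, fun x hx => hx.1.le⟩
  have hlow : ∀ x ∈ A, a ≤ x := by
    intro x hx
    by_contra hc
    push Not at hc
    exact hna (hup x a hx hc.le).2
  have ha2 : a ≤ 1 / 2 := by
    by_contra hc
    push Not at hc
    exact hna ((half h).2 a hc)
  have hne : A.Nonempty := ⟨1, by linarith, (half h).2 1 (by norm_num)⟩
  set s : ℝ := sInf A with hs
  have hsa : a ≤ s := le_csInf hne hlow
  have hs2 : s ≤ 1 / 2 := by
    refine le_of_forall_pos_le_add fun ε hε => ?_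
    exact csInf_le hbd ⟨by linarith, (half h).2 _ (by linarith)⟩
  have hH : ∀ x, s < x → HH μ x := by
    intro x hx
    obtain ⟨y, hy, hyx⟩ := exists_lt_of_csInf_lt hne hx
    exact (hup y x hy hyx.le).2
  obtain ⟨p, hp, hM⟩ := crit_moment h (by linarith) hs2 hH
  refine core h hb (by linarith) hs2 hp hM hB fun η hη N => ?_
  -- a smaller exponent
  set η' : ℝ := min η ((s - b) / 2) with hη'
  have h1 : η' ≤ η := min_le_left _ _
  have h2 : η' ≤ (s - b) / 2 := min_le_right _ _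
  have h3 : 0 < η' := lt_min hη (by linarith)
  have hnot : ¬ HH μ (s - η' / 2) := by
    intro hcon
    have : s ≤ s - η' / 2 := csInf_le hbd ⟨by linarith, hcon⟩
    linarith
  obtain ⟨v, hv, hvN, hvL⟩ := second_large h (s' := s - η') (by linarith) (by linarith)
    (a := s - η' / 2) (by linarith) hnot N
  refine ⟨v, hv, hvN, le_trans ?_ hvL⟩
  exact Real.rpow_le_rpow_of_exponent_le (dd_one hv) (by linarith)

end Pool.Agent.H948
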