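import Pool.Agent.H948.Wind

/-!
# The lower tail for many pairs of points at the same time
-/

set_option autoImplicit false

open MeasureTheory ProbabilityTheory Finset Filter
open scoped Topology

namespace Pool.Agent.H948

open Q70.Fp

variable {μ : ℝ × ℝ → ℝ}

lemma be_sub {R R' : ℕ} {x x' : ℤ × ℤ} (h : R + dd x' x ≤ R') : be R x ⊆ be R' x' := by
  intro e
  refine Sym2.ind (fun a b => ?_) e
  rw [mem_be, mem_be]
  rintro ⟨h1, h2⟩
  have h3 := dd_tri x' x a
  have h4 := dd_tri x' x b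
  constructor <;> omega

/-- many independent attempts, with a set of pairs of points -/
lemma attemptsP (h : Shape μ) {v : ℤ × ℤ} (hv : v ≠ 0) {K B : ℕ} (hK : 1 ≤ K) (hB : 1 ≤ B) {ρ s : ℝ}
    (hs : s ≤ ρ / 8) (hρ : 0 < ρ) (W : Finset ((ℤ × ℤ) × (ℤ × ℤ))) (τ : (ℤ × ℤ) → (ℤ × ℤ) → ℝ)
    (hW : ∀ x ∈ W, dd 0 x.1 ≤ B * dd 0 v ∧ dd 0 x.2 ≤ B * dd 0 v ∧
      mz μ x.1 + τ x.1 x.2 + mz μ (v - x.2) ≤ mz μ v - ρ)
    {g : ℝ} (hg : ∀ u, dd 0 u ≤ K * (403 * B * dd 0 v) →
      nu.real {w | mz μ u + s < TT (pw w) 0 u} ≤ g)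
    (hlow : nu.real {w | TT (pw w) 0 (((K * (400 * B) : ℕ) : ℤ) • v) ≤
      mz μ (((K * (400 * B) : ℕ) : ℤ) • v) - ρ / 2} ≤ 1 / 8)
    (hsmall : K * (2 * W.card) * g ≤ 1 / 8) :
    nu.real {w | ∃ x ∈ W, TT (pw w) x.1 x.2 < τ x.1 x.2} ≤
      1 / K + W.card * (2 * (1 / 2) ^ (2 * (B * dd 0 v))) := by
  classical
  set n := dd 0 v with hn
  have hn1 : 1 ≤ n := dd_pos hv
  set b := B * n with hb
  have hb1 : 1 ≤ b := Nat.mul_pos hB hn1
  set R := 66 * (2 * b) with hR
  let X : ℕ → ℤ × ℤ := fun i => (((i * (400 * B) : ℕ) : ℤ)) • v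
  let E : ℕ → Set (Ed → ℝ) := fun i =>
    {w | ∃ x ∈ W, TB (pw w) R (X i + x.1) (X i + x.2) < τ x.1 x.2}
  have hEeq : ∀ i, E i = ⋃ x ∈ W, {w | TB (pw w) R (X i + x.1) (X i + x.2) < τ x.1 x.2} := by
    intro i; ext w; simp [E]
  have hEm : ∀ i, MeasurableSet (E i) := fun i => by
    rw [hEeq]
    exact Finset.measurableSet_biUnion _ fun u _ =>
      measurableSet_lt (measurable_TB _ _ _) measurable_const
  have hdist : ∀ x ∈ W, dd x.1 x.2 ≤ 2 * b := by
    intro x hx
    have h1 := (hW x hx).1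
    have h2 := (hW x hx).2.1
    have h3 := dd_tri x.1 0 x.2
    rw [dd_comm x.1 0] at h3
    omega
  set A : Set (Ed → ℝ) := {w | ∃ x ∈ W, TT (pw w) x.1 x.2 < τ x.1 x.2} with hA
  set π : ℝ := nu.real A - W.card * (2 * (1 / 2) ^ (2 * b)) with hπ
  have hAm : MeasurableSet A := by
    have : A = ⋃ x ∈ W, {w | TT (pw w) x.1 x.2 < τ x.1 x.2} := by ext w; simp [hA]
    rw [this]
    exact Finset.measurableSet_biUnion _ fun u _ => measurableSet_lt (measurable_TT _ _) measurable_const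
  have hE : ∀ i, π ≤ nu.real (E i) := by
    intro i
    have hsub : sh (X i) ⁻¹' A ⊆ E i ∪
        ⋃ x ∈ W, {w | TT (pw w) (X i + x.1) (X i + x.2) < TB (pw w) R (X i + x.1) (X i + x.2)} := by
      intro w hw
      obtain ⟨x, hx, hlt⟩ := hw
      rw [TT_sh, add_comm x.1, add_comm x.2] at hlt
      by_contra hcon
      simp only [Set.mem_union, Set.mem_iUnion, not_or, not_exists, E, Set.mem_ofPred_eq,
        not_and, not_lt] at hcon
      have h1 := hcon.1 x hx
      have h2 := hcon.2 x hx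
      linarith
    have e0 : nu.real (sh (X i) ⁻¹' A) = nu.real A := by
      conv_rhs => rw [← map_sh (X i)]
      rw [map_measureReal_apply (measurable_sh _) hAm]
    have e1 := (measureReal_mono hsub (measure_ne_top nu _)).trans (measureReal_union_le _ _)
    rw [e0] at e1
    have e2 : nu.real (⋃ x ∈ W, {w | TT (pw w) (X i + x.1) (X i + x.2) <
        TB (pw w) R (X i + x.1) (X i + x.2)}) ≤ W.card * (2 * (1 / 2) ^ (2 * b)) := by
      refine (measureReal_biUnion_finset_le _ _).trans ?_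
      calc _ ≤ ∑ _u ∈ W, (2 * (1 / 2 : ℝ) ^ (2 * b)) := by
            refine Finset.sum_le_sum fun x hx => ?_
            refine local_le ?_
            rw [add_comm (X i), add_comm (X i), dd_add]
            exact hdist x hx
        _ = _ := by rw [Finset.sum_const, nsmul_eq_mul]
    rw [hπ]
    linarith
  have hXd : ∀ i j, i < j → 2 * (R + b) < dd (X i) (X j) := by
    intro i j hij
    have e1 : dd (X i) (X j) = (j - i) * (400 * b) := by
      obtain ⟨k, rfl⟩ : ∃ k, j = i + k := ⟨j - i, by omega⟩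
      have e3 : X (i + k) = X i + (((k * (400 * B) : ℕ) : ℤ)) • v := by
        have e9 : (((i + k) * (400 * B) : ℕ) : ℤ) =
          ((i * (400 * B) : ℕ) : ℤ) + ((k * (400 * B) : ℕ) : ℤ) := by push_cast; ring
        simp only [X]
        rw [← add_smul, e9]
      rw [e3, dd_add_right, dd_zero_smul, ← hn]
      have : i + k - i = k := by omega
      rw [this, hb]; ring
    rw [e1, hR]
    have : 1 ≤ j - i := by omega
    calc 2 * (66 * (2 * b) + b) < 1 * (400 * b) := by omega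
      _ ≤ _ := Nat.mul_le_mul_right _ this
  have hprod : nu.real {w | ∀ i ∈ range K, w ∉ E i} = ∏ i ∈ range K, (1 - nu.real (E i)) := by
    refine indep_none K (fun i => be (R + b) (X i)) E hEm ?_ ?_
    · rintro i w w' hw ⟨x, hx, hlt⟩
      refine ⟨x, hx, ?_⟩
      rw [← TB_dep (fun e he => hw e (be_sub ?_ he))]
      · exact hlt
      · rw [dd_add_right]
        have := (hW x hx).1
        omega
    · intro i _ j _ hij
      rcases lt_or_gt_of_ne hij with h3 | h3
      · exact be_disj (hXd i j h3)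
      · exact (be_disj (hXd j i h3)).symm
  have hsucc : {w | ∀ i ∈ range K, w ∉ E i}ᶜ ⊆
      {w | TT (pw w) 0 (((K * (400 * B) : ℕ) : ℤ) • v) ≤
        mz μ (((K * (400 * B) : ℕ) : ℤ) • v) - ρ / 2} ∪
      (⋃ i ∈ range K, ⋃ x ∈ W, ({w | TT (pw w) 0 (X i + x.1) ∈ Set.Ioi (mz μ (X i + x.1) + s)} ∪
        {w | TT (pw w) (X i + x.2) (X K) ∈ Set.Ioi (mz μ (X K - (X i + x.2)) + s)})) := by
    intro w hw
    by_contra hcon
    simp only [Set.mem_compl_iff, Set.mem_ofPred_eq, not_forall, not_not, exists_prop] at hw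
    obtain ⟨i, hi, x, hx, hwi⟩ := hw
    simp only [Set.mem_union, Set.mem_iUnion, Set.mem_ofPred_eq, not_or, not_exists, not_le,
      exists_prop, not_and, Set.mem_Ioi, not_lt] at hcon
    obtain ⟨c1, c2⟩ := hcon
    obtain ⟨c3, c4⟩ := c2 i hi x hx
    have d1 := TT_tri (pw_nonneg w) 0 (X i + x.1) (X K)
    have d2 := TT_tri (pw_nonneg w) (X i + x.1) (X i + x.2) (X K)
    have d3 : TT (pw w) (X i + x.1) (X i + x.2) ≤ TB (pw w) R (X i + x.1) (X i + x.2) :=
      TT_le_TB (pw_nonneg w) (by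
        rw [add_comm (X i), add_comm (X i), dd_add]
        exact (hdist x hx).trans (by rw [hR]; omega))
    have hiK : i < K := Finset.mem_range.1 hi
    have m1 : mz μ (X i + x.1) ≤ ((i * (400 * B) : ℕ) : ℝ) * mz μ v + mz μ x.1 := by
      have := mz_add h (X i) x.1
      have e1 : mz μ (X i) = ((i * (400 * B) : ℕ) : ℝ) * mz μ v := mz_smul h _ v
      rw [e1] at this
      exact this
    have m2 : mz μ (X K) = ((K * (400 * B) : ℕ) : ℝ) * mz μ v := mz_smul h _ v
    have hle : i * (400 * B) + 1 ≤ K * (400 * B) := by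
      have : (i + 1) * (400 * B) ≤ K * (400 * B) := Nat.mul_le_mul_right _ hiK
      nlinarith
    have m3 : mz μ (X K - (X i + x.2)) ≤ mz μ (v - x.2) +
        ((K * (400 * B) - (i * (400 * B) + 1) : ℕ) : ℝ) * mz μ v := by
      rw [← mz_smul h _ v]
      have e5 : X K - (X i + x.2) = (v - x.2) +
          ((K * (400 * B) - (i * (400 * B) + 1) : ℕ) : ℤ) • v := by
        have e6 : ((K * (400 * B) : ℕ) : ℤ) = ((i * (400 * B) : ℕ) : ℤ) + 1 +
            ((K * (400 * B) - (i * (400 * B) + 1) : ℕ) : ℤ) := by omega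
        simp only [X]
        rw [e6, add_smul, add_smul, one_smul]
        abel
      rw [e5]
      exact mz_add h _ _
    have m4 : ((K * (400 * B) - (i * (400 * B) + 1) : ℕ) : ℝ) =
        ((K * (400 * B) : ℕ) : ℝ) - (((i * (400 * B) : ℕ) : ℝ) + 1) := by
      rw [Nat.cast_sub hle]; push_cast; ring
    rw [m4] at m3
    have c1' : mz μ (X K) - ρ / 2 < TT (pw w) 0 (X K) := c1
    rw [m2] at c1'
    have hc := (hW x hx).2.2
    linarith
  have hms : MeasurableSet {w : Ed → ℝ | ∀ i ∈ range K, w ∉ E i} := by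
    have : {w : Ed → ℝ | ∀ i ∈ range K, w ∉ E i} = ⋂ i ∈ range K, (E i)ᶜ := by
      ext w; simp
    rw [this]
    exact Finset.measurableSet_biInter _ fun i _ => (hEm i).compl
  have hfail : nu.real {w | ∀ i ∈ range K, w ∉ E i}ᶜ ≤ 1 / 4 := by
    refine (measureReal_mono hsucc (measure_ne_top nu _)).trans ((measureReal_union_le _ _).trans ?_)
    have e1 : nu.real (⋃ i ∈ range K, ⋃ x ∈ W,
        ({w | TT (pw w) 0 (X i + x.1) ∈ Set.Ioi (mz μ (X i + x.1) + s)} ∪
        {w | TT (pw w) (X i + x.2) (X K) ∈ Set.Ioi (mz μ (X K - (X i + x.2)) + s)})) ≤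
        K * (2 * W.card) * g := by
      refine (measureReal_biUnion_finset_le _ _).trans ?_
      calc _ ≤ ∑ _i ∈ range K, ((W.card : ℝ) * (g + g)) := by
            refine Finset.sum_le_sum fun i hi => ?_
            have hiK : i < K := Finset.mem_range.1 hi
            refine (measureReal_biUnion_finset_le _ _).trans ?_
            calc _ ≤ ∑ _x ∈ W, (g + g) := by
                  refine Finset.sum_le_sum fun x hx => ?_
                  obtain ⟨w1, w2, -⟩ := hW x hx
                  refine (measureReal_union_le _ _).trans (add_le_add ?_ ?_)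
                  · refine hg _ ?_
                    have e7 := dd_tri 0 (X i) (X i + x.1)
                    rw [dd_add_right] at e7
                    have e8 : dd 0 (X i) = i * (400 * B) * n := by
                      simp only [X]; rw [dd_zero_smul]
                    have e9 : i * (400 * B) * n ≤ K * (400 * b) := by
                      have : i * (400 * B) * n = i * (400 * b) := by rw [hb]; ring
                      rw [this]
                      exact Nat.mul_le_mul_right _ hiK.le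
                    have e10 : K * (403 * B * n) = K * (400 * b) + 3 * (K * b) := by rw [hb]; ring
                    have e11 : b ≤ K * b := Nat.le_mul_of_pos_left _ hK
                    omega
                  · rw [nu_TT_sh (X i + x.2) (X K) measurableSet_Ioi]
                    refine hg _ ?_
                    have e5 : X K - (X i + x.2) = ((K * (400 * B) - i * (400 * B) : ℕ) : ℤ) • v +
                        (-x.2) := by
                      have hle : i * (400 * B) ≤ K * (400 * B) := Nat.mul_le_mul_right _ hiK.le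
                      have e6 : ((K * (400 * B) : ℕ) : ℤ) = ((i * (400 * B) : ℕ) : ℤ) +
                          ((K * (400 * B) - i * (400 * B) : ℕ) : ℤ) := by omega
                      simp only [X]
                      rw [e6, add_smul]
                      abel
                    have e7 := dd_tri 0 (((K * (400 * B) - i * (400 * B) : ℕ) : ℤ) • v)
                      (((K * (400 * B) - i * (400 * B) : ℕ) : ℤ) • v + (-x.2))
                    rw [dd_add_right, dd_zero_smul, show dd 0 (-x.2) = dd 0 x.2 by simp [dd],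
                      ← hn] at e7
                    rw [e5]
                    have e8 : (K * (400 * B) - i * (400 * B)) * n ≤ K * (400 * b) := by
                      have : (K * (400 * B) - i * (400 * B)) * n ≤ K * (400 * B) * n :=
                        Nat.mul_le_mul_right _ (Nat.sub_le _ _)
                      have e9 : K * (400 * B) * n = K * (400 * b) := by rw [hb]; ring
                      omega
                    have e10 : K * (403 * B * n) = K * (400 * b) + 3 * (K * b) := by rw [hb]; ring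
                    have e11 : b ≤ K * b := Nat.le_mul_of_pos_left _ hK
                    omega
              _ = _ := by rw [Finset.sum_const, nsmul_eq_mul]
        _ = _ := by rw [Finset.sum_const, Finset.card_range, nsmul_eq_mul]; ring
    linarith
  rw [probReal_compl_eq_one_sub hms, hprod] at hfail
  have hKpos : (0:ℝ) < K := by exact_mod_cast hK
  by_cases hπ0 : π ≤ 0
  · have : (0:ℝ) ≤ 1 / K := by positivity
    rw [hπ] at hπ0
    linarith
  · push Not at hπ0
    have hle1 : ∀ i, 0 ≤ 1 - nu.real (E i) := fun i => by linarith [measureReal_le_one (μ := nu) (s := E i)]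
    have e1 : ∏ i ∈ range K, (1 - nu.real (E i)) ≤ Real.exp (-(K * π)) := by
      calc _ ≤ ∏ _i ∈ range K, Real.exp (-π) := by
            refine Finset.prod_le_prod (fun i _ => hle1 i) fun i _ => ?_
            have := Real.add_one_le_exp (-π)
            linarith [hE i]
        _ = _ := by
            rw [Finset.prod_const, Finset.card_range, ← Real.exp_nat_mul]; congr 1; ring
    have e2 : 3 / 4 ≤ Real.exp (-(K * π)) := by linarith
    have e3 : K * π ≤ 1 := by
      by_contra hcon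
      push Not at hcon
      have e4 : Real.exp (-(K * π)) < Real.exp (-1) := Real.exp_lt_exp.2 (by linarith)
      have e5 : Real.exp (-1) ≤ 1 / 2 := by
        rw [Real.exp_neg, inv_le_comm₀ (Real.exp_pos _) (by norm_num)]
        have := Real.add_one_le_exp (1:ℝ)
        linarith
      linarith
    have e6 : π ≤ 1 / K := by
      rw [le_div_iff₀ hKpos]; linarith
    rw [hπ] at e6
    linarith

/-- the lower tail for a set of pairs of points -/
lemma lower_tailP (h : Shape μ) {a : ℝ} (ha : 0 < a) (ha1 : a < 1) (hH : HH μ a) {B : ℕ}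
    (hB : 1 ≤ B) :
    ∃ C : ℝ, 0 < C ∧ ∀ v : ℤ × ℤ, v ≠ 0 → ∀ ρ : ℝ, 0 < ρ →
      ∀ (W : Finset ((ℤ × ℤ) × (ℤ × ℤ))) (τ : (ℤ × ℤ) → (ℤ × ℤ) → ℝ),
      (∀ x ∈ W, dd 0 x.1 ≤ B * dd 0 v ∧ dd 0 x.2 ≤ B * dd 0 v ∧
        mz μ x.1 + τ x.1 x.2 + mz μ (v - x.2) ≤ mz μ v - ρ) →
      nu.real {w | ∃ x ∈ W, TT (pw w) x.1 x.2 < τ x.1 x.2} ≤
        C * ((dd 0 v : ℝ) * ρ ^ (-(1 / a))) := by
  obtain ⟨C1, hC1, h1⟩ := abs_moment h ha hH
  obtain ⟨C2, hC2, h2⟩ := unif h ha (δ := 5 / a) (by positivity) (hH _ (by positivity))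
  obtain ⟨C3, hC3, h3⟩ := half_poly (5 + 1 / a) (by positivity)
  rw [min_eq_left ha1.le, show 5 / a * a = 5 by field_simp] at h2
  have hB0 : (1:ℝ) ≤ B := by exact_mod_cast hB
  set c0 : ℝ := min (1 / 8) (1 / (16 * C1)) with hc0
  have hc0pos : 0 < c0 := lt_min (by norm_num) (by positivity)
  have hc1 : c0 ≤ 1 / 8 := min_le_left _ _
  have hc2 : c0 ≤ 1 / (16 * C1) := min_le_right _ _
  -- constants
  set Z : ℝ := 1296 * (B:ℝ) ^ 4 * C2 with hZ
  have hZ0 : 0 < Z := by positivity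
  set D : ℝ := max (806 * B * c0 ^ (-(1 / a))) ((3 * Z + 3) ^ (1 / a)) with hD
  have hD0 : 0 < D := lt_max_of_lt_left (by positivity)
  refine ⟨D + 162 * (B:ℝ) ^ 4 * C3 * 3 ^ (1 / a), by positivity, fun v hv ρ hρ W τ hW => ?_⟩
  set n := dd 0 v with hn
  have hn1' : 1 ≤ n := dd_pos hv
  have hn1 : (1:ℝ) ≤ n := by exact_mod_cast hn1'
  have hn0 : (0:ℝ) < n := by linarith
  have hρp : 0 < ρ ^ (-(1 / a)) := by positivity
  have hP1 : nu.real {w | ∃ x ∈ W, TT (pw w) x.1 x.2 < τ x.1 x.2} ≤ 1 := measureReal_le_one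
  by_cases hbig : 3 * (n:ℝ) < ρ
  · have : {w : Ed → ℝ | ∃ x ∈ W, TT (pw w) x.1 x.2 < τ x.1 x.2} = ∅ := by
      ext w
      simp only [Set.mem_ofPred_eq, Set.mem_empty_iff_false, iff_false, not_exists, not_and, not_lt]
      intro x hx
      have e1 := mz_up h v
      have e2 := TT_nonneg (pw_nonneg w) x.1 x.2
      have e3 := (hW x hx).2.2
      have e4 := mz_nonneg h x.1
      have e5 := mz_nonneg h (v - x.2)
      linarith
    rw [this, measureReal_empty]
    positivity
  push Not at hbig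
  set b := B * n with hb
  have hbr : (b:ℝ) = B * n := by rw [hb]; push_cast; ring
  have hb1 : (1:ℝ) ≤ b := by rw [hbr]; nlinarith
  have hcard : (W.card : ℝ) ≤ 81 * (b:ℝ) ^ 4 := by
    have hsub : W ⊆ ball b 0 ×ˢ ball b 0 := by
      intro x hx
      exact Finset.mem_product.2 ⟨mem_ball.2 (hW x hx).1, mem_ball.2 (hW x hx).2.1⟩
    have e1 := Finset.card_le_card hsub
    rw [Finset.card_product] at e1
    have e2 := card_ball b
    have e3 : W.card ≤ (2 * b + 1) ^ 2 * (2 * b + 1) ^ 2 := e1.trans (Nat.mul_le_mul e2 e2)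
    have e4 : (W.card : ℝ) ≤ (2 * b + 1) ^ 2 * (2 * b + 1) ^ 2 := by exact_mod_cast e3
    refine e4.trans ?_
    have e5 : (2 * (b:ℝ) + 1) ≤ 3 * b := by linarith
    calc (2 * (b:ℝ) + 1) ^ 2 * (2 * b + 1) ^ 2 ≤ (3 * b) ^ 2 * (3 * b) ^ 2 := by gcongr
      _ = _ := by ring
  have hlocal : W.card * (2 * (1 / 2 : ℝ) ^ (2 * b)) ≤ 162 * (B:ℝ) ^ 4 * C3 * 3 ^ (1 / a) *
      ((n:ℝ) * ρ ^ (-(1 / a))) := by
    have e1 := h3 b
    have e2 : ((b:ℝ) + 1) ^ (-(5 + 1 / a)) ≤ (b:ℝ) ^ (-(5 + 1 / a)) :=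
      Real.rpow_le_rpow_of_nonpos (by linarith) (by linarith) (by
        have : 0 < 1 / a := by positivity
        linarith)
    have hb0 : (0:ℝ) < b := by linarith
    have e3 : (b:ℝ) ^ (-(5 + 1 / a)) = (1 / (b:ℝ) ^ 5) * (b:ℝ) ^ (-(1 / a)) := by
      rw [neg_add, Real.rpow_add hb0, Real.rpow_neg hb0.le, show (5:ℝ) = ((5:ℕ):ℝ) by norm_num,
        Real.rpow_natCast, one_div ((b:ℝ) ^ 5)]
    have e4 : (b:ℝ) ^ (-(1 / a)) ≤ 3 ^ (1 / a) * ρ ^ (-(1 / a)) := by
      have e5 : (b:ℝ) ^ (-(1 / a)) ≤ (ρ / 3) ^ (-(1 / a)) := by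
        apply Real.rpow_le_rpow_of_nonpos (by positivity) _ (by rw [neg_nonpos]; positivity)
        rw [hbr]; nlinarith
      refine e5.trans (le_of_eq ?_)
      rw [Real.div_rpow hρ.le (by norm_num), Real.rpow_neg (by norm_num : (0:ℝ) ≤ 3)]
      field_simp
    have e6 : (1 / 2 : ℝ) ^ (2 * b) ≤ (1 / 2) ^ b :=
      pow_le_pow_of_le_one (by norm_num) (by norm_num) (by omega)
    calc W.card * (2 * (1 / 2 : ℝ) ^ (2 * b)) ≤
        81 * (b:ℝ) ^ 4 * (2 * (C3 * ((1 / (b:ℝ) ^ 5) * (3 ^ (1 / a) * ρ ^ (-(1 / a)))))) := by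
          have : (1 / 2 : ℝ) ^ (2 * b) ≤ C3 * ((1 / (b:ℝ) ^ 5) * (3 ^ (1 / a) * ρ ^ (-(1 / a)))) := by
            refine e6.trans (e1.trans ?_)
            have e7 := e2.trans (le_of_eq e3)
            have e8 : (1 / (b:ℝ) ^ 5) * (b:ℝ) ^ (-(1 / a)) ≤
              (1 / (b:ℝ) ^ 5) * (3 ^ (1 / a) * ρ ^ (-(1 / a))) := by gcongr
            exact mul_le_mul_of_nonneg_left (e7.trans e8) hC3.le
          gcongr
      _ = (162 * C3 * 3 ^ (1 / a)) * (1 / b) * ρ ^ (-(1 / a)) := by field_simp; ring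
      _ ≤ (162 * C3 * 3 ^ (1 / a)) * ((B:ℝ) ^ 4 * n) * ρ ^ (-(1 / a)) := by
          have e7 : 1 / (b:ℝ) ≤ 1 := by rw [div_le_one hb0]; exact hb1
          have e8 : (1:ℝ) ≤ (B:ℝ) ^ 4 * n := by
            have : (1:ℝ) ≤ (B:ℝ) ^ 4 := one_le_pow₀ hB0
            nlinarith
          have := e7.trans e8
          gcongr
      _ = _ := by ring
  set L : ℝ := (c0 * ρ) ^ (1 / a) with hL
  have hL0 : 0 < L := by positivity
  set K : ℕ := ⌊L / (403 * b)⌋₊ with hK
  have hLρ : L = c0 ^ (1 / a) * ρ ^ (1 / a) := Real.mul_rpow hc0pos.le hρ.le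
  have hinv : ρ ^ (-(1 / a)) = (ρ ^ (1 / a))⁻¹ := Real.rpow_neg hρ.le _
  have hc0inv : c0 ^ (-(1 / a)) = (c0 ^ (1 / a))⁻¹ := Real.rpow_neg hc0pos.le _
  have hLn : 806 * b / L ≤ D * ((n:ℝ) * ρ ^ (-(1 / a))) := by
    have e1 : 806 * b / L = 806 * B * c0 ^ (-(1 / a)) * ((n:ℝ) * ρ ^ (-(1 / a))) := by
      rw [hLρ, hinv, hc0inv, hbr]; field_simp
    rw [e1]
    gcongr
    exact le_max_left _ _
  have hnn : 0 ≤ 162 * (B:ℝ) ^ 4 * C3 * 3 ^ (1 / a) * ((n:ℝ) * ρ ^ (-(1 / a))) := by positivity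
  rw [add_mul]
  have hb0 : (0:ℝ) < b := by linarith
  by_cases hK0 : K = 0
  · have e1 : L / (403 * b) < 1 := by
      have := Nat.lt_floor_add_one (L / (403 * b))
      rw [← hK, hK0] at this
      simpa using this
    have e2 : 1 ≤ 806 * b / L := by
      rw [div_lt_one (by positivity)] at e1
      rw [le_div_iff₀ hL0]; linarith
    linarith
  have hK1 : 1 ≤ K := Nat.one_le_iff_ne_zero.2 hK0
  have hKr : (1:ℝ) ≤ K := by exact_mod_cast hK1
  have hKL : (K:ℝ) * (403 * b) ≤ L := by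
    have := Nat.floor_le (show 0 ≤ L / (403 * b) by positivity)
    rw [← hK, le_div_iff₀ (by positivity)] at this
    exact this
  have hKL2 : 1 / (K:ℝ) ≤ 806 * b / L := by
    have := Nat.lt_floor_add_one (L / (403 * b))
    rw [← hK, div_lt_iff₀ (by positivity)] at this
    rw [div_le_div_iff₀ (by positivity) hL0]
    nlinarith
  set l : ℕ := K * (403 * B * n) with hl
  have hlr : (l:ℝ) = K * (403 * b) := by rw [hl, hbr]; push_cast; ring
  have hlr1 : (1:ℝ) ≤ l := by rw [hlr]; nlinarith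
  have hl1 : 1 ≤ l := by exact_mod_cast hlr1
  have hla : (l:ℝ) ^ a ≤ c0 * ρ := by
    calc (l:ℝ) ^ a ≤ L ^ a := Real.rpow_le_rpow (by positivity) (by rw [hlr]; exact hKL) ha.le
      _ = c0 * ρ := by
        rw [hL, ← Real.rpow_mul (by positivity), one_div_mul_cancel ha.ne', Real.rpow_one]
  by_cases hsmall : (l:ℝ) < Z
  · -- bounded scales
    have e1 : (n:ℝ) ≤ l := by rw [hlr, hbr]; nlinarith
    have e2 : ρ ≤ 3 * Z + 3 := by linarith
    have e3 : 1 ≤ (3 * Z + 3) ^ (1 / a) * ρ ^ (-(1 / a)) := by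
      rw [hinv, ← div_eq_mul_inv, one_le_div (by positivity)]
      exact Real.rpow_le_rpow hρ.le e2 (by positivity)
    have e4 : (3 * Z + 3) ^ (1 / a) ≤ D := le_max_right _ _
    have e5 : (3 * Z + 3) ^ (1 / a) * ρ ^ (-(1 / a)) ≤ D * ((n:ℝ) * ρ ^ (-(1 / a))) := by
      have : ρ ^ (-(1 / a)) ≤ (n:ℝ) * ρ ^ (-(1 / a)) := by nlinarith
      gcongr
    linarith
  push Not at hsmall
  have hz0 : (((K * (400 * B) : ℕ) : ℤ) • v) ≠ 0 := by
    intro h0
    have e1 := dd_zero_smul (K * (400 * B)) v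
    rw [h0, dd_self, ← hn] at e1
    have : 0 < K * (400 * B) * n := by positivity
    omega
  have hddz : (dd 0 (((K * (400 * B) : ℕ) : ℤ) • v) : ℝ) ≤ l := by
    have : dd 0 (((K * (400 * B) : ℕ) : ℤ) • v) ≤ l := by
      rw [dd_zero_smul, ← hn, hl]; nlinarith [Nat.zero_le (K * B * n)]
    exact_mod_cast this
  have hatt := attemptsP h hv hK1 hB (ρ := ρ) (s := (l:ℝ) ^ a) (by nlinarith) hρ W τ hW
    (g := C2 * (l:ℝ) ^ (-(5:ℝ))) (fun u hu => h2 l hl1 u hu) ?_ ?_
  · linarith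
  · have e1 := h1 _ hz0
    have e1' : ∫ w, |TT (pw w) 0 (((K * (400 * B) : ℕ) : ℤ) • v) -
        mz μ (((K * (400 * B) : ℕ) : ℤ) • v)| ∂nu ≤ C1 * (l:ℝ) ^ a := by
      refine e1.trans ?_
      gcongr
    have e2 := mul_meas_ge_le_integral_of_nonneg (μ := nu)
      (f := fun w => |TT (pw w) 0 (((K * (400 * B) : ℕ) : ℤ) • v) -
        mz μ (((K * (400 * B) : ℕ) : ℤ) • v)|)
      (Eventually.of_forall fun w => abs_nonneg _)
      (((integrable_TT 0 _).sub (integrable_const _)).abs) (ρ / 2)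
    have e3 : nu.real {w | TT (pw w) 0 (((K * (400 * B) : ℕ) : ℤ) • v) ≤
        mz μ (((K * (400 * B) : ℕ) : ℤ) • v) - ρ / 2} ≤ nu.real {w | ρ / 2 ≤
        |TT (pw w) 0 (((K * (400 * B) : ℕ) : ℤ) • v) -
        mz μ (((K * (400 * B) : ℕ) : ℤ) • v)|} := by
      refine measureReal_mono ?_ (measure_ne_top _ _)
      intro w hw
      simp only [Set.mem_ofPred_eq] at hw ⊢
      rw [le_abs]
      right
      linarith
    have e4 : C1 * (l:ℝ) ^ a ≤ ρ / 16 := by
      calc C1 * (l:ℝ) ^ a ≤ C1 * (c0 * ρ) := by gcongr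
        _ ≤ C1 * (1 / (16 * C1) * ρ) := by gcongr
        _ = ρ / 16 := by field_simp
    have e5 : ρ / 2 * nu.real {w | TT (pw w) 0 (((K * (400 * B) : ℕ) : ℤ) • v) ≤
        mz μ (((K * (400 * B) : ℕ) : ℤ) • v) - ρ / 2} ≤ ρ / 16 :=
      (mul_le_mul_of_nonneg_left e3 (by positivity)).trans (e2.trans (e1'.trans e4))
    by_contra hcon
    push Not at hcon
    nlinarith
  · have e2 : (l:ℝ) ^ (-(5:ℝ)) = 1 / ((l:ℝ) ^ 4 * l) := by
      rw [Real.rpow_neg (by positivity), show (5:ℝ) = ((5:ℕ):ℝ) by norm_num, Real.rpow_natCast]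
      field_simp
    rw [e2]
    have e6 : (K:ℝ) * (2 * W.card) ≤ 162 * (l:ℝ) ^ 4 := by
      have f1 : (K:ℝ) * (2 * W.card) ≤ K * (2 * (81 * (b:ℝ) ^ 4)) := by gcongr
      have f3 : (K:ℝ) * (b:ℝ) ^ 4 ≤ (l:ℝ) ^ 4 := by
        have f4 : (K:ℝ) * (b:ℝ) ^ 4 ≤ (K * b) ^ 4 := by
          rw [mul_pow]
          have : (K:ℝ) ≤ (K:ℝ) ^ 4 := by
            calc (K:ℝ) = K * 1 := (mul_one _).symm
              _ ≤ K * K ^ 3 := by gcongr; exact one_le_pow₀ hKr
              _ = _ := by ring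
          gcongr
        refine f4.trans ?_
        have : (K:ℝ) * b ≤ l := by rw [hlr]; nlinarith
        gcongr
      linarith
    calc (K:ℝ) * (2 * W.card) * (C2 * (1 / ((l:ℝ) ^ 4 * l))) ≤
          162 * (l:ℝ) ^ 4 * (C2 * (1 / ((l:ℝ) ^ 4 * l))) := by gcongr
      _ = 162 * C2 / l := by field_simp
      _ ≤ 1 / 8 := by
          rw [div_le_iff₀ (by positivity)]
          have e7 : 1296 * C2 ≤ Z := by
            rw [hZ]
            have : (1:ℝ) ≤ (B:ℝ) ^ 4 := one_le_pow₀ hB0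
            nlinarith
          linarith

end Pool.Agent.H948
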