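import Pool.Agent.H948.Coord
import Pool.Agent.H948.Pair

/-!
# Supporting functionals and a net for the region around a segment
-/

set_option autoImplicit false

open MeasureTheory ProbabilityTheory Filter Set
open scoped ENNReal Topology

namespace Pool.Agent.H948

open Q70.Fp
open Q69.FM (mu_add)

variable {μ : ℝ × ℝ → ℝ}

/-- `ℓ` supports `μ` at `v` -/
def Sup (μ : ℝ × ℝ → ℝ) (v : ℝ × ℝ) (ℓ : ℝ × ℝ →ₗ[ℝ] ℝ) : Prop := (∀ x, ℓ x ≤ μ x) ∧ ℓ v = μ v

lemma exists_sup (h : Shape μ) (v : ℝ × ℝ) : ∃ ℓ, Sup μ v ℓ := by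
  by_cases hv : v = 0
  · refine ⟨0, fun x => ?_, ?_⟩
    · simpa using mu_nonneg h x
    · rw [hv, mu_zero h]; simp
  · let F : (ℝ × ℝ) →ₗ.[ℝ] ℝ := LinearPMap.mkSpanSingleton v (μ v) hv
    have hF : ∀ (c : ℝ) (hx : c • v ∈ F.domain), F ⟨c • v, hx⟩ = c • μ v :=
      fun c hx => LinearPMap.mkSpanSingleton'_apply v (μ v) _ c hx
    obtain ⟨g, h1, h2⟩ := exists_extension_of_le_sublinear F μ (fun c hc x => h.hom x c hc.le)
      (mu_add h) (by
        rintro ⟨x, hx⟩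
        obtain ⟨c, rfl⟩ := Submodule.mem_span_singleton.1 hx
        rw [hF, smul_eq_mul]
        show c * μ v ≤ μ (c • v)
        rcases le_total 0 c with hc | hc
        · rw [h.hom _ _ hc]
        · have e2 := mu_nonneg h v
          have e3 := mu_nonneg h (c • v)
          nlinarith)
    refine ⟨g, h2, ?_⟩
    have hv1 : (1:ℝ) • v ∈ F.domain := Submodule.mem_span_singleton.2 ⟨1, rfl⟩
    have e1 := h1 ⟨(1:ℝ) • v, hv1⟩
    rw [hF] at e1
    simpa using e1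

/-- a supporting functional -/
noncomputable def ls (μ : ℝ × ℝ → ℝ) (v : ℝ × ℝ) : ℝ × ℝ →ₗ[ℝ] ℝ := Classical.epsilon (Sup μ v)

lemma ls_spec (h : Shape μ) (v : ℝ × ℝ) : Sup μ v (ls μ v) := Classical.epsilon_spec (exists_sup h v)

/-- the excess over the supporting functional -/
noncomputable def ef (μ : ℝ × ℝ → ℝ) (ℓ : ℝ × ℝ →ₗ[ℝ] ℝ) (x : ℝ × ℝ) : ℝ := μ x - ℓ x

lemma ef_nonneg {v : ℝ × ℝ} {ℓ : ℝ × ℝ →ₗ[ℝ] ℝ} (hl : Sup μ v ℓ) (x : ℝ × ℝ) : 0 ≤ ef μ ℓ x := by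
  have := hl.1 x
  unfold ef
  linarith

lemma ef_self {v : ℝ × ℝ} {ℓ : ℝ × ℝ →ₗ[ℝ] ℝ} (hl : Sup μ v ℓ) : ef μ ℓ v = 0 := by
  unfold ef; rw [hl.2, sub_self]

lemma ef_add (h : Shape μ) (ℓ : ℝ × ℝ →ₗ[ℝ] ℝ) (x y : ℝ × ℝ) :
    ef μ ℓ (x + y) ≤ ef μ ℓ x + ef μ ℓ y := by
  unfold ef
  rw [map_add]
  linarith [mu_add h x y]

lemma ef_smul (h : Shape μ) (ℓ : ℝ × ℝ →ₗ[ℝ] ℝ) {c : ℝ} (hc : 0 ≤ c) (x : ℝ × ℝ) :
    ef μ ℓ (c • x) = c * ef μ ℓ x := by
  unfold ef
  rw [map_smul, h.hom _ _ hc, smul_eq_mul]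
  ring

lemma mu_le (h : Shape μ) (x : ℝ × ℝ) : μ x ≤ 3 * (|x.1| + |x.2|) := by
  have := mu_lip h 0 x
  rw [mu_zero h] at this
  simpa using this

lemma ls_low (h : Shape μ) {v : ℝ × ℝ} {ℓ : ℝ × ℝ →ₗ[ℝ] ℝ} (hl : Sup μ v ℓ) (x : ℝ × ℝ) :
    -(3 * (|x.1| + |x.2|)) ≤ ℓ x := by
  have h1 := hl.1 (-x)
  have h2 := mu_le h (-x)
  rw [map_neg] at h1
  simp only [Prod.fst_neg, Prod.snd_neg, abs_neg] at h2
  linarith

lemma ef_le (h : Shape μ) {v : ℝ × ℝ} {ℓ : ℝ × ℝ →ₗ[ℝ] ℝ} (hl : Sup μ v ℓ) (x : ℝ × ℝ) :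
    ef μ ℓ x ≤ 6 * (|x.1| + |x.2|) := by
  have h1 := mu_le h x
  have h2 := ls_low h hl x
  unfold ef
  linarith

/-- the region around the segment from `0` to `v` -/
def Rg (μ : ℝ × ℝ → ℝ) (v : ℤ × ℤ) (E : ℝ) (x : ℤ × ℤ) : Prop :=
  mz μ x + mz μ (v - x) ≤ mz μ v + 2 * E

lemma Rg_size (h : Shape μ) {v x : ℤ × ℤ} {E : ℝ} (hE : E ≤ mz μ v) (hx : Rg μ v E x) :
    (dd 0 x : ℝ) ≤ 198 * dd 0 v := by
  have h1 := mz_nonneg h (v - x)
  have h2 := mz_low h x
  have h3 := mz_up h v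
  unfold Rg at hx
  linarith

lemma Rg_ef (h : Shape μ) {v x : ℤ × ℤ} {E : ℝ} {ℓ : ℝ × ℝ →ₗ[ℝ] ℝ} (hl : Sup μ (em v) ℓ)
    (hx : Rg μ v E x) : ef μ ℓ (em x) ≤ 2 * E ∧ ef μ ℓ (em v - em x) ≤ 2 * E := by
  have h1 : ef μ ℓ (em x) + ef μ ℓ (em v - em x) ≤ 2 * E := by
    unfold ef
    rw [map_sub, hl.2, ← em_sub]
    unfold Rg at hx
    rw [mz_em, mz_em, mz_em] at hx
    linarith
  have h2 := ef_nonneg hl (em x)
  have h3 := ef_nonneg hl (em v - em x)
  constructor <;> linarith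

/-- the determinant -/
def dt (v x : ℤ × ℤ) : ℤ := v.1 * x.2 - v.2 * x.1

/-- coordinates with respect to `v` and the difference of two extreme points -/
lemma coord (v r1 r2 x : ℤ × ℤ) (hv : v ≠ 0) (h0 : dt v r2 ≤ 0) (h0' : 0 ≤ dt v r1)
    (h1 : dt v r2 ≤ dt v x) (h2 : dt v x ≤ dt v r1) {T : ℝ} (hT : ∀ y ∈ ({r1, r2, x} : Set (ℤ × ℤ)),
      (dd 0 y : ℝ) ≤ T * dd 0 v) :
    ∃ τ lam : ℝ, |lam| ≤ 1 ∧ |τ| ≤ 6 * T ∧ em x = τ • em v + lam • (em r1 - em r2) := by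
  have hn : (1:ℝ) ≤ dd 0 v := by exact_mod_cast dd_pos hv
  set q : ℝ := (v.1 : ℝ) ^ 2 + (v.2 : ℝ) ^ 2 with hq
  have hq1 : (dd 0 v : ℝ) ^ 2 ≤ 2 * q := by
    rw [dd_real, hq]
    have e1 := sq_abs (v.1 : ℝ)
    have e2 := sq_abs (v.2 : ℝ)
    nlinarith [sq_nonneg (|(v.1 : ℝ)| - |(v.2 : ℝ)|)]
  have hq0 : 0 < q := by nlinarith
  set t : ℤ × ℤ → ℝ := fun y => ((y.1 : ℝ) * v.1 + (y.2 : ℝ) * v.2) / q with ht
  have hem : ∀ y : ℤ × ℤ, em y = t y • em v + ((dt v y : ℝ) / q) • ((-(v.2 : ℝ), (v.1 : ℝ)) : ℝ × ℝ) := by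
    intro y
    ext
    · simp only [em, ht, dt, Prod.fst_add, Prod.smul_fst, smul_eq_mul]
      push_cast
      field_simp
      rw [hq]; ring
    · simp only [em, ht, dt, Prod.snd_add, Prod.smul_snd, smul_eq_mul]
      push_cast
      field_simp
      rw [hq]; ring
  have ht1 : ∀ y ∈ ({r1, r2, x} : Set (ℤ × ℤ)), |t y| ≤ 2 * T := by
    intro y hy
    have e1 := hT y hy
    have e2 : |(y.1 : ℝ) * v.1 + (y.2 : ℝ) * v.2| ≤ (dd 0 y : ℝ) * dd 0 v := by
      rw [dd_real, dd_real]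
      calc _ ≤ |(y.1 : ℝ) * v.1| + |(y.2 : ℝ) * v.2| := abs_add_le _ _
        _ = |(y.1 : ℝ)| * |(v.1 : ℝ)| + |(y.2 : ℝ)| * |(v.2 : ℝ)| := by rw [abs_mul, abs_mul]
        _ ≤ (|(y.1 : ℝ)| + |(y.2 : ℝ)|) * (|(v.1 : ℝ)| + |(v.2 : ℝ)|) := by
            have a1 := abs_nonneg (y.1 : ℝ)
            have a2 := abs_nonneg (y.2 : ℝ)
            have a3 := abs_nonneg (v.1 : ℝ)
            have a4 := abs_nonneg (v.2 : ℝ)
            nlinarith [mul_nonneg a1 a4, mul_nonneg a2 a3]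
    simp only [ht]
    rw [abs_div, abs_of_pos hq0, div_le_iff₀ hq0]
    have e3 : (dd 0 y : ℝ) * dd 0 v ≤ T * dd 0 v * dd 0 v := by gcongr
    have e4 : 0 ≤ T := by
      have e5 : (0:ℝ) ≤ dd 0 y := Nat.cast_nonneg _
      by_contra hc
      push Not at hc
      nlinarith
    nlinarith
  obtain ⟨lam, hl1, hl2⟩ : ∃ lam : ℝ, |lam| ≤ 1 ∧ lam * ((dt v r1 : ℝ) - dt v r2) = dt v x := by
    by_cases hw : dt v r1 - dt v r2 = 0
    · refine ⟨0, by simp, ?_⟩
      have : dt v x = 0 := by omega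
      rw [this]; simp
    · have hw0 : 0 < dt v r1 - dt v r2 := by omega
      have hw1 : (0:ℝ) < (dt v r1 : ℝ) - dt v r2 := by exact_mod_cast hw0
      refine ⟨dt v x / ((dt v r1 : ℝ) - dt v r2), ?_, by field_simp⟩
      rw [abs_div, abs_of_pos hw1, div_le_one hw1]
      have e1 : |(dt v x : ℝ)| ≤ (dt v r1 : ℝ) - dt v r2 := by
        have : |dt v x| ≤ dt v r1 - dt v r2 := by rw [abs_le]; constructor <;> omega
        exact_mod_cast this
      exact e1
  refine ⟨t x - lam * (t r1 - t r2), lam, hl1, ?_, ?_⟩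
  · have a1 := ht1 x (by simp)
    have a2 := ht1 r1 (by simp)
    have a3 := ht1 r2 (by simp)
    calc |t x - lam * (t r1 - t r2)| ≤ |t x| + |lam * (t r1 - t r2)| := abs_sub _ _
      _ = |t x| + |lam| * |t r1 - t r2| := by rw [abs_mul]
      _ ≤ |t x| + 1 * (|t r1| + |t r2|) := by
          gcongr
          exact abs_sub _ _
      _ ≤ 6 * T := by linarith
  · rw [hem x, hem r1, hem r2]
    have e1 : (dt v x : ℝ) / q = lam * ((dt v r1 : ℝ) / q - (dt v r2 : ℝ) / q) := by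
      rw [← hl2]; ring
    rw [e1]
    ext
    · simp only [Prod.fst_add, Prod.fst_sub, Prod.smul_fst, smul_eq_mul]; ring
    · simp only [Prod.snd_add, Prod.snd_sub, Prod.smul_snd, smul_eq_mul]; ring

/-- a net for the region -/
lemma net (h : Shape μ) {v : ℤ × ℤ} (hv : v ≠ 0) {E : ℝ} (hE : 0 ≤ E) (hEv : E ≤ mz μ v) {k : ℕ}
    (hk : 1000000 ≤ k) {ℓ : ℝ × ℝ →ₗ[ℝ] ℝ} (hl : Sup μ (em v) ℓ) :
    ∃ N : Finset (ℤ × ℤ), (N.card : ℝ) ≤ (3000 * k) ^ 2 ∧
      (∀ x, Rg μ v E x → ∃ x0 ∈ N, ef μ ℓ (em x - em x0) ≤ 4 * E / k + 12 ∧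
        (dd x0 x : ℝ) ≤ dd 0 v / 1000 + 2) ∧
      (∀ y, Rg μ v E y → ∃ y0 ∈ N, ef μ ℓ (em y0 - em y) ≤ 4 * E / k + 12 ∧
        (dd (y + v) y0 : ℝ) ≤ dd 0 v / 1000 + 2) := by
  classical
  have hn : (1:ℝ) ≤ dd 0 v := by exact_mod_cast dd_pos hv
  set n : ℝ := (dd 0 v : ℝ) with hnn
  have hk0 : (1000000:ℝ) ≤ k := by exact_mod_cast hk
  have hkp : (0:ℝ) < k := by linarith
  -- the extreme points
  set S : Finset (ℤ × ℤ) := (ball (198 * dd 0 v) 0).filter (Rg μ v E) with hS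
  have hmem : ∀ x, Rg μ v E x → x ∈ S := by
    intro x hx
    rw [hS, Finset.mem_filter]
    refine ⟨mem_ball.2 ?_, hx⟩
    have := Rg_size h hEv hx
    exact_mod_cast this
  have h0R : Rg μ v E 0 := by
    unfold Rg
    rw [sub_zero, mz_zero h]
    linarith
  have h0S := hmem 0 h0R
  obtain ⟨r1, hr1, hr1'⟩ := Finset.exists_max_image S (dt v) ⟨0, h0S⟩
  obtain ⟨r2, hr2, hr2'⟩ := Finset.exists_min_image S (dt v) ⟨0, h0S⟩
  have hr1R : Rg μ v E r1 := (Finset.mem_filter.1 hr1).2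
  have hr2R : Rg μ v E r2 := (Finset.mem_filter.1 hr2).2
  have hd0 : dt v 0 = 0 := by simp [dt]
  have hr1s := Rg_size h hEv hr1R
  have hr2s := Rg_size h hEv hr2R
  rw [← hnn] at hr1s hr2s
  have hr1e := (Rg_ef h hl hr1R).1
  have hr2e := (Rg_ef h hl hr2R).2
  have hcoord : ∀ x, Rg μ v E x → ∃ τ lam : ℝ, |lam| ≤ 1 ∧ |τ| ≤ 1188 ∧
      em x = τ • em v + lam • (em r1 - em r2) := by
    intro x hx
    have a1 := hr1' 0 h0S
    have a2 := hr2' 0 h0S
    rw [hd0] at a1 a2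
    obtain ⟨τ, lam, b1, b2, b3⟩ := coord v r1 r2 x hv a2 a1 (hr2' x (hmem x hx)) (hr1' x (hmem x hx))
      (T := 198) (by
        intro y hy
        simp only [Set.mem_insert_iff, Set.mem_singleton_iff] at hy
        rcases hy with rfl | rfl | rfl
        · exact hr1s
        · exact hr2s
        · exact Rg_size h hEv hx)
    exact ⟨τ, lam, b1, by linarith, b3⟩
  let pt : ℤ → ℤ → ℝ × ℝ := fun i j => ((i:ℝ) / k) • em v + ((j:ℝ) / k) • (em r1 - em r2)
  set I : Finset ℤ := Finset.Icc (-(1200 * (k:ℤ))) (1200 * (k:ℤ)) with hI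
  set N : Finset (ℤ × ℤ) := (I ×ˢ I).image (fun a => rd (pt a.1 a.2)) with hN
  have hmemN : ∀ i j : ℤ, |(i:ℝ)| ≤ 1200 * k → |(j:ℝ)| ≤ 1200 * k → rd (pt i j) ∈ N := by
    intro i j hi hj
    rw [hN, Finset.mem_image]
    refine ⟨(i, j), ?_, rfl⟩
    rw [Finset.mem_product, hI, Finset.mem_Icc, Finset.mem_Icc]
    have hi' : |i| ≤ 1200 * (k:ℤ) := by exact_mod_cast hi
    have hj' : |j| ≤ 1200 * (k:ℤ) := by exact_mod_cast hj
    rw [abs_le] at hi' hj'
    exact ⟨hi', hj'⟩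
  -- the size of the vectors
  have hem1 : |(em v).1| + |(em v).2| = n := by rw [hnn, dd_real]; rfl
  have her : |(em r1 - em r2).1| + |(em r1 - em r2).2| ≤ 396 * n := by
    have a1 : |(em r1).1| + |(em r1).2| = (dd 0 r1 : ℝ) := by rw [dd_real]; rfl
    have a2 : |(em r2).1| + |(em r2).2| = (dd 0 r2 : ℝ) := by rw [dd_real]; rfl
    have a3 := abs_sub (em r1).1 (em r2).1
    have a4 := abs_sub (em r1).2 (em r2).2
    simp only [Prod.fst_sub, Prod.snd_sub]
    linarith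
  have hlen : ∀ α β : ℝ, |α| ≤ 2 / k → |β| ≤ 1 / k →
      |(α • em v + β • (em r1 - em r2)).1| + |(α • em v + β • (em r1 - em r2)).2| ≤ n / 1000 := by
    intro α β hα hβ
    have a1 := abs_add_le (α * (em v).1) (β * (em r1 - em r2).1)
    have a2 := abs_add_le (α * (em v).2) (β * (em r1 - em r2).2)
    simp only [Prod.fst_add, Prod.snd_add, Prod.smul_fst, Prod.smul_snd, smul_eq_mul]
    rw [abs_mul, abs_mul] at a1 a2
    have a3 : |α| * (|(em v).1| + |(em v).2|) ≤ 2 / k * n := by rw [hem1]; gcongr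
    have a4 : |β| * (|(em r1 - em r2).1| + |(em r1 - em r2).2|) ≤ 1 / k * (396 * n) := by gcongr
    have a5 : 2 / k * n + 1 / k * (396 * n) ≤ n / 1000 := by
      have : 2 / k * n + 1 / k * (396 * n) = 398 * n / k := by field_simp; ring
      rw [this, div_le_div_iff₀ hkp (by norm_num)]
      nlinarith
    linarith
  -- the excess of the difference
  have hef : ∀ α β : ℝ, 0 ≤ β → β ≤ 1 / k → β ≤ α →
      ef μ ℓ (α • em v + β • (em r1 - em r2)) ≤ 4 * E / k := by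
    intro α β hβ hβ1 hαβ
    have e1 : α • em v + β • (em r1 - em r2) =
        (α - β) • em v + (β • em r1 + β • (em v - em r2)) := by
      rw [smul_sub, smul_sub, sub_smul]; abel
    rw [e1]
    have e2 := ef_add h ℓ ((α - β) • em v) (β • em r1 + β • (em v - em r2))
    have e3 := ef_add h ℓ (β • em r1) (β • (em v - em r2))
    rw [ef_smul h ℓ (by linarith), ef_self hl, mul_zero] at e2
    rw [ef_smul h ℓ hβ, ef_smul h ℓ hβ] at e3
    have e4 : β * ef μ ℓ (em r1) ≤ β * (2 * E) := by gcongr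
    have e5 : β * ef μ ℓ (em v - em r2) ≤ β * (2 * E) := by gcongr
    have e6 : β * (4 * E) ≤ 1 / k * (4 * E) := by gcongr
    have e7 : 1 / k * (4 * E) = 4 * E / k := by ring
    linarith
  have hround : ∀ x : ℝ × ℝ, |(x - em (rd x)).1| + |(x - em (rd x)).2| ≤ 2 ∧
      |(em (rd x) - x).1| + |(em (rd x) - x).2| ≤ 2 := by
    intro x
    obtain ⟨a1, a2⟩ := rd_abs x
    have b1 : (x - em (rd x)).1 = -(((rd x).1 : ℝ) - x.1) := by
      simp only [em, Prod.fst_sub]; ring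
    have b2 : (x - em (rd x)).2 = -(((rd x).2 : ℝ) - x.2) := by
      simp only [em, Prod.snd_sub]; ring
    have b3 : (em (rd x) - x).1 = ((rd x).1 : ℝ) - x.1 := by simp only [em, Prod.fst_sub]
    have b4 : (em (rd x) - x).2 = ((rd x).2 : ℝ) - x.2 := by simp only [em, Prod.snd_sub]
    rw [b1, b2, b3, b4, abs_neg, abs_neg]
    constructor <;> linarith
  refine ⟨N, ?_, ?_, ?_⟩
  · have e1 : N.card ≤ (2400 * k + 1) * (2400 * k + 1) := by
      rw [hN]
      refine Finset.card_image_le.trans ?_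
      rw [Finset.card_product, hI, Int.card_Icc]
      apply le_of_eq
      congr 1 <;> omega
    have e2 : (N.card : ℝ) ≤ (2400 * k + 1) * (2400 * k + 1) := by exact_mod_cast e1
    nlinarith
  · intro x hx
    obtain ⟨τ, lam, b1, b2, b3⟩ := hcoord x hx
    set i : ℤ := ⌊τ * k⌋ - 1 with hi
    set j : ℤ := ⌊lam * k⌋ with hj
    have f1 := Int.floor_le (τ * k)
    have f2 := Int.lt_floor_add_one (τ * k)
    have f3 := Int.floor_le (lam * k)
    have f4 := Int.lt_floor_add_one (lam * k)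
    obtain ⟨g1, g2⟩ := abs_le.1 b1
    obtain ⟨g3, g4⟩ := abs_le.1 b2
    have hir : (i:ℝ) = (⌊τ * k⌋ : ℝ) - 1 := by rw [hi]; push_cast; ring
    have hτk : -(1188 * k) ≤ τ * k ∧ τ * k ≤ 1188 * k := by constructor <;> nlinarith
    have hlk : -(1 * k) ≤ lam * k ∧ lam * k ≤ 1 * k := by constructor <;> nlinarith
    refine ⟨rd (pt i j), hmemN i j ?_ ?_, ?_, ?_⟩
    · rw [hir, abs_le]; constructor <;> linarith [hτk.1, hτk.2]
    · rw [abs_le]; constructor <;> linarith [hlk.1, hlk.2]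
    all_goals
      have e1 : em x - pt i j = (τ - i / k) • em v + (lam - j / k) • (em r1 - em r2) := by
        rw [b3]
        simp only [pt, sub_smul]
        abel
      have c1 : τ - i / k = (τ * k - ⌊τ * k⌋ + 1) / k := by rw [hir]; field_simp; ring
      have c2 : lam - j / k = (lam * k - ⌊lam * k⌋) / k := by rw [hj]; field_simp
      have d1 : 0 ≤ lam - j / k := by rw [c2]; apply div_nonneg _ hkp.le; linarith
      have d2 : lam - j / k ≤ 1 / k := by rw [c2]; gcongr; linarith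
      have d3 : 1 / k ≤ τ - i / k := by rw [c1]; gcongr; linarith
      have d4 : τ - i / k ≤ 2 / k := by rw [c1]; gcongr; linarith
    · have e2 : em x - em (rd (pt i j)) = (em x - pt i j) + (pt i j - em (rd (pt i j))) := by abel
      rw [e2]
      refine (ef_add h ℓ _ _).trans ?_
      have e3 := ef_le h hl (pt i j - em (rd (pt i j)))
      have e4 := (hround (pt i j)).1
      rw [e1]
      have e5 := hef _ _ d1 d2 (d2.trans d3)
      linarith
    · have e4 := (hround (pt i j)).1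
      have d0 : (0:ℝ) ≤ 1 / k := by positivity
      have e5 := hlen (τ - i / k) (lam - j / k) (by rw [abs_of_nonneg (by linarith)]; exact d4)
        (by rw [abs_of_nonneg d1]; exact d2)
      rw [← e1] at e5
      rw [dd_real']
      have e6 : (x.1 : ℝ) - (rd (pt i j)).1 = (em x - pt i j).1 + (pt i j - em (rd (pt i j))).1 := by
        simp only [em, Prod.fst_sub]; ring
      have e7 : (x.2 : ℝ) - (rd (pt i j)).2 = (em x - pt i j).2 + (pt i j - em (rd (pt i j))).2 := by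
        simp only [em, Prod.snd_sub]; ring
      rw [e6, e7]
      have a1 := abs_add_le (em x - pt i j).1 (pt i j - em (rd (pt i j))).1
      have a2 := abs_add_le (em x - pt i j).2 (pt i j - em (rd (pt i j))).2
      linarith
  · intro y hy
    obtain ⟨τ, lam, b1, b2, b3⟩ := hcoord y hy
    set i : ℤ := ⌊τ * k⌋ + 2 + k with hi
    set j : ℤ := ⌊lam * k⌋ + 1 with hj
    have f1 := Int.floor_le (τ * k)
    have f2 := Int.lt_floor_add_one (τ * k)
    have f3 := Int.floor_le (lam * k)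
    have f4 := Int.lt_floor_add_one (lam * k)
    obtain ⟨g1, g2⟩ := abs_le.1 b1
    obtain ⟨g3, g4⟩ := abs_le.1 b2
    have hir : (i:ℝ) = (⌊τ * k⌋ : ℝ) + 2 + k := by rw [hi]; push_cast; ring
    have hjr : (j:ℝ) = (⌊lam * k⌋ : ℝ) + 1 := by rw [hj]; push_cast; ring
    have hτk : -(1188 * k) ≤ τ * k ∧ τ * k ≤ 1188 * k := by constructor <;> nlinarith
    have hlk : -(1 * k) ≤ lam * k ∧ lam * k ≤ 1 * k := by constructor <;> nlinarith
    refine ⟨rd (pt i j), hmemN i j ?_ ?_, ?_, ?_⟩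
    · rw [hir, abs_le]; constructor <;> linarith [hτk.1, hτk.2]
    · rw [hjr, abs_le]; constructor <;> linarith [hlk.1, hlk.2]
    all_goals
      have e1 : pt i j - em y = (i / k - τ) • em v + (j / k - lam) • (em r1 - em r2) := by
        rw [b3]
        simp only [pt, sub_smul]
        abel
      have c1 : i / k - τ = 1 + (⌊τ * k⌋ + 2 - τ * k) / k := by rw [hir]; field_simp; ring
      have c2 : j / k - lam = (⌊lam * k⌋ + 1 - lam * k) / k := by rw [hjr]; field_simp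
      have d1 : 0 ≤ j / k - lam := by rw [c2]; apply div_nonneg _ hkp.le; linarith
      have d2 : j / k - lam ≤ 1 / k := by rw [c2]; gcongr; linarith
      have d3 : 1 / k ≤ i / k - τ - 1 := by rw [c1, add_sub_cancel_left]; gcongr; linarith
      have d4 : i / k - τ - 1 ≤ 2 / k := by rw [c1, add_sub_cancel_left]; gcongr; linarith
    · have e2 : em (rd (pt i j)) - em y = (pt i j - em y) + (em (rd (pt i j)) - pt i j) := by abel
      rw [e2]
      refine (ef_add h ℓ _ _).trans ?_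
      have e3 := ef_le h hl (em (rd (pt i j)) - pt i j)
      have e4 := (hround (pt i j)).2
      rw [e1]
      have e5 := hef (i / k - τ) (j / k - lam) d1 d2 (by linarith)
      linarith
    · have e4 := (hround (pt i j)).2
      have d0 : (0:ℝ) ≤ 1 / k := by positivity
      have e5 := hlen (i / k - τ - 1) (j / k - lam) (by rw [abs_of_nonneg (by linarith)]; exact d4)
        (by rw [abs_of_nonneg d1]; exact d2)
      have e8 : (i / k - τ - 1) • em v + (j / k - lam) • (em r1 - em r2) = pt i j - em y - em v := by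
        rw [e1, sub_smul _ (1:ℝ), one_smul]; abel
      rw [e8] at e5
      rw [dd_real']
      have e6 : ((rd (pt i j)).1 : ℝ) - ((y + v).1 : ℤ) = (pt i j - em y - em v).1 +
          (em (rd (pt i j)) - pt i j).1 := by
        simp only [em, Prod.fst_sub, Prod.fst_add, Int.cast_add]; ring
      have e7 : ((rd (pt i j)).2 : ℝ) - ((y + v).2 : ℤ) = (pt i j - em y - em v).2 +
          (em (rd (pt i j)) - pt i j).2 := by
        simp only [em, Prod.snd_sub, Prod.snd_add, Int.cast_add]; ring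
      rw [e6, e7]
      have a1 := abs_add_le (pt i j - em y - em v).1 (em (rd (pt i j)) - pt i j).1
      have a2 := abs_add_le (pt i j - em y - em v).2 (em (rd (pt i j)) - pt i j).2
      linarith

end Pool.Agent.H948
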