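import Pool.Agent.H948.VarLow

/-!
# The exponent is at least one fifth
-/

set_option autoImplicit false

open MeasureTheory ProbabilityTheory Filter Set
open scoped ENNReal Topology

namespace Pool.Agent.H948

open Q70.Fp
open Q69.FM (mu_add hm)

variable {μ : ℝ × ℝ → ℝ}

/-- the inner half at an exponent below `1 / 5` is impossible -/
lemma one_fifth (h : Shape μ) {b : ℝ} (hb : 0 < b) (hb5 : b < 1 / 5) (hH : ∀ a, b < a → HH μ a) :
    False := by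
  set ε : ℝ := (1 - 5 * b) / 12 with hε
  have hε0 : 0 < ε := by rw [hε]; linarith
  have hε1 : b + ε ≤ 1 / 2 := by rw [hε]; linarith
  have hHa := hH (b + ε) (by linarith)
  obtain ⟨c5, hc5, h5⟩ := var_lower h hb hε0 hε1 hHa
  obtain ⟨C1, hC1, h1⟩ := two_moment h (a := b + ε) (by linarith) (by linarith) hHa (p := 2)
    (by norm_num) (by rw [hε]; linarith)
  obtain ⟨C2, hC2, h2⟩ := Bk_moment h (p := 2) (a := (b + ε) * 2) (by norm_num) (by nlinarith)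
    ⟨C1, fun v hv => (h1 v hv).2⟩
  have E1 := pow_small (c := (b + ε) * 2) (a := (1 - b) / 2 - ε)
    (K := C2 * 2 ^ ((b + ε) * 2) / c5) (by rw [hε]; linarith)
  obtain ⟨n, ⟨v, hv1, hv2, hv3⟩, F1, hn⟩ := (h5.and (E1.and (eventually_ge_atTop 4))).exists
  have hn4 : (4:ℝ) ≤ n := by exact_mod_cast hn
  have hn0 : (0:ℝ) < n := by linarith
  have hv0 : v ≠ 0 := by
    intro h0
    rw [h0, dd_self] at hv1
    norm_num at hv1
    linarith
  have e1 : ∫ w, (Bk v 0 w - fb v) ^ 2 ∂nu ≤ C2 * (dd 0 v : ℝ) ^ ((b + ε) * 2) := by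
    obtain ⟨i1, i2⟩ := h2 v hv0 0
    refine le_trans ?_ i2
    have mX : MemLp (fun w => Bk v 0 w - mz μ v) 2 nu := (memLp_Bk v 0).sub (memLp_const _)
    have e2 := centred_sq mX
    have e3 : ∫ w, (Bk v 0 w - mz μ v) ∂nu = fb v - mz μ v := by
      rw [integral_sub ((memLp_Bk v 0).integrable one_le_two) (integrable_const _)]
      simp [fb]
    rw [e3] at e2
    calc ∫ w, (Bk v 0 w - fb v) ^ 2 ∂nu = ∫ w, (Bk v 0 w - mz μ v - (fb v - mz μ v)) ^ 2 ∂nu := by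
          refine integral_congr_ae (Eventually.of_forall fun w => ?_)
          show (Bk v 0 w - fb v) ^ 2 = (Bk v 0 w - mz μ v - (fb v - mz μ v)) ^ 2
          ring
      _ ≤ ∫ w, (Bk v 0 w - mz μ v) ^ 2 ∂nu := e2
      _ = ∫ w, |Bk v 0 w - mz μ v| ^ (2:ℝ) ∂nu := by
          refine integral_congr_ae (Eventually.of_forall fun w => ?_)
          show (Bk v 0 w - mz μ v) ^ 2 = |Bk v 0 w - mz μ v| ^ (2:ℝ)
          rw [show (2:ℝ) = ((2:ℕ):ℝ) by norm_num, Real.rpow_natCast, sq_abs]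
  have e2 : (dd 0 v : ℝ) ^ ((b + ε) * 2) ≤ 2 ^ ((b + ε) * 2) * (n:ℝ) ^ ((b + ε) * 2) := by
    rw [← Real.mul_rpow (by norm_num) hn0.le]
    exact Real.rpow_le_rpow (Nat.cast_nonneg _) (by linarith) (by nlinarith)
  have e3 : c5 * (n:ℝ) ^ ((1 - b) / 2 - ε) ≤
      C2 * (2 ^ ((b + ε) * 2) * (n:ℝ) ^ ((b + ε) * 2)) := by
    refine hv3.trans (e1.trans ?_)
    gcongr
  have e4 : c5 * (C2 * 2 ^ ((b + ε) * 2) / c5 * (n:ℝ) ^ ((b + ε) * 2)) ≤
      c5 * ((n:ℝ) ^ ((1 - b) / 2 - ε) / 4) := mul_le_mul_of_nonneg_left F1 hc5.le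
  have e5 : c5 * (C2 * 2 ^ ((b + ε) * 2) / c5 * (n:ℝ) ^ ((b + ε) * 2)) =
      C2 * (2 ^ ((b + ε) * 2) * (n:ℝ) ^ ((b + ε) * 2)) := by field_simp
  rw [e5] at e4
  have e6 : 0 < (n:ℝ) ^ ((1 - b) / 2 - ε) := by positivity
  nlinarith

/-- the variance of the passage time itself -/
lemma var_TT (h : Shape μ) {b : ℝ} (hb : 0 < b) (hb2 : b < 1 / 2) (hH : ∀ a, b < a → HH μ a)
    {ζ : ℝ} (hζ : 0 < ζ) : ∀ᶠ n : ℕ in atTop, ∃ v : ℤ × ℤ,
      (n:ℝ) - 2 ≤ dd 0 v ∧ (dd 0 v : ℝ) ≤ 3 / 2 * n + 2 ∧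
      (n:ℝ) ^ ((1 - b) / 2 - ζ) ≤ ∫ w, (TT (pw w) 0 v - hm v) ^ 2 ∂nu := by
  set ε : ℝ := min (ζ / 2) (min ((1 / 2 - b) / 2) ((1 - b) / 4)) with hε
  have hε0 : 0 < ε := lt_min (by linarith) (lt_min (by linarith) (by linarith))
  have hε1 : ε ≤ ζ / 2 := min_le_left _ _
  have hε2 : ε ≤ (1 / 2 - b) / 2 := (min_le_right _ _).trans (min_le_left _ _)
  have hε3 : ε ≤ (1 - b) / 4 := (min_le_right _ _).trans (min_le_right _ _)
  obtain ⟨c5, hc5, h5⟩ := var_lower h hb hε0 (by linarith) (hH (b + ε) (by linarith))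
  obtain ⟨C2, hC2, h2⟩ := Bk_TT (p := 2) (by norm_num)
  have E1 := pow_small (c := (1 - b) / 2 - ζ) (a := (1 - b) / 2 - ε) (K := 1 / c5) (by linarith)
  have E2 := pow_small (c := 0) (a := (1 - b) / 2 - ε) (K := C2 / c5) (by linarith)
  filter_upwards [h5, E1, E2, eventually_ge_atTop 4] with n ⟨v, hv1, hv2, hv3⟩ F1 F2 hn
  have hn4 : (4:ℝ) ≤ n := by exact_mod_cast hn
  have hn0 : (0:ℝ) < n := by linarith
  refine ⟨v, hv1, hv2, ?_⟩
  have hv0 : v ≠ 0 := by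
    intro h0
    rw [h0, dd_self] at hv1
    norm_num at hv1
    linarith
  have mX := memLp_Bk v 0
  have mY : MemLp (fun w => TT (pw w) 0 v) 2 nu := memLp_TT v
  have mD : MemLp (fun w => Bk v 0 w - TT (pw w) 0 v) 2 nu := mX.sub mY
  have mD' : MemLp (fun w => (Bk v 0 w - TT (pw w) 0 v) - (fb v - hm v)) 2 nu :=
    mD.sub (memLp_const _)
  have mY' : MemLp (fun w => TT (pw w) 0 v - hm v) 2 nu := mY.sub (memLp_const _)
  have mX' : MemLp (fun w => Bk v 0 w - fb v) 2 nu := mX.sub (memLp_const _)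
  have e1 : ∫ w, (Bk v 0 w - fb v) ^ 2 ∂nu ≤ 2 * ∫ w, (TT (pw w) 0 v - hm v) ^ 2 ∂nu +
      2 * ∫ w, ((Bk v 0 w - TT (pw w) 0 v) - (fb v - hm v)) ^ 2 ∂nu := by
    rw [← integral_const_mul, ← integral_const_mul, ← integral_add (mY'.integrable_sq.const_mul 2)
      (mD'.integrable_sq.const_mul 2)]
    refine integral_mono mX'.integrable_sq ((mY'.integrable_sq.const_mul 2).add
      (mD'.integrable_sq.const_mul 2)) fun w => ?_
    show (Bk v 0 w - fb v) ^ 2 ≤ 2 * (TT (pw w) 0 v - hm v) ^ 2 +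
      2 * ((Bk v 0 w - TT (pw w) 0 v) - (fb v - hm v)) ^ 2
    nlinarith [sq_nonneg ((TT (pw w) 0 v - hm v) - ((Bk v 0 w - TT (pw w) 0 v) - (fb v - hm v)))]
  have e2 : ∫ w, ((Bk v 0 w - TT (pw w) 0 v) - (fb v - hm v)) ^ 2 ∂nu ≤ C2 := by
    have e3 := centred_sq mD
    have e4 : ∫ w, (Bk v 0 w - TT (pw w) 0 v) ∂nu = fb v - hm v := by
      rw [integral_sub (mX.integrable one_le_two) (mY.integrable one_le_two)]
      rfl
    rw [e4] at e3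
    refine e3.trans (le_trans (le_of_eq ?_) (h2 v hv0 0).2)
    refine integral_congr_ae (Eventually.of_forall fun w => ?_)
    show (Bk v 0 w - TT (pw w) 0 v) ^ 2 = |Bk v 0 w - TT (pw w) 0 (0 + v)| ^ (2:ℝ)
    rw [zero_add, show (2:ℝ) = ((2:ℕ):ℝ) by norm_num, Real.rpow_natCast, sq_abs]
  rw [Real.rpow_zero, mul_one] at F2
  have f1 : c5 * (1 / c5 * (n:ℝ) ^ ((1 - b) / 2 - ζ)) ≤ c5 * ((n:ℝ) ^ ((1 - b) / 2 - ε) / 4) :=
    mul_le_mul_of_nonneg_left F1 hc5.le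
  have f2 : c5 * (C2 / c5) ≤ c5 * ((n:ℝ) ^ ((1 - b) / 2 - ε) / 4) :=
    mul_le_mul_of_nonneg_left F2 hc5.le
  have f3 : c5 * (1 / c5 * (n:ℝ) ^ ((1 - b) / 2 - ζ)) = (n:ℝ) ^ ((1 - b) / 2 - ζ) := by field_simp
  have f4 : c5 * (C2 / c5) = C2 := by field_simp
  linarith

end Pool.Agent.H948
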