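import Pool.Agent.H948.Sym

/-!
# Passage times in opposite directions are almost independent
-/

set_option autoImplicit false

open MeasureTheory ProbabilityTheory Filter Set
open scoped ENNReal Topology

namespace Pool.Agent.H948

open Q70.Fp
open Q69.FL (Se Ll)

variable {μ : ℝ × ℝ → ℝ}

/-- the points that a nearly optimal walk to `v` can visit -/
def EV (μ : ℝ × ℝ → ℝ) (η : ℝ) (v : ℤ × ℤ) : Set (ℤ × ℤ) :=
  {u | mz μ u + mz μ (v - u) ≤ mz μ v + η}

/-- the ball of the time constant -/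
def BL (μ : ℝ × ℝ → ℝ) (η : ℝ) : Set (ℤ × ℤ) := {u | mz μ u ≤ η}

/-- the walks outside the ball -/
def WQ (μ : ℝ × ℝ → ℝ) (η : ℝ) (v : ℤ × ℤ) (n : ℕ) (p : ℕ → ℤ × ℤ) : Prop :=
  p 0 ∈ BL μ η ∧ p n = v ∧ (∀ i < n, Adj (p i) (p (i + 1))) ∧ (∀ i ≤ n, p i ∈ EV μ η v) ∧
    ∀ i < n, p (i + 1) ∉ BL μ η

/-- the passage time outside the ball, with the time constant inside -/
noncomputable def WV (μ : ℝ × ℝ → ℝ) (η : ℝ) (v : ℤ × ℤ) (w : Ed → ℝ) : ℝ :=
  sInf {s : ℝ | ∃ n p, WQ μ η v n p ∧ s = mz μ (p 0) + Wt w p n}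

/-- the edges outside the ball -/
def SV (μ : ℝ × ℝ → ℝ) (η : ℝ) (v : ℤ × ℤ) : Set Ed :=
  {e | ∃ a b, e = s(a, b) ∧ a ∈ EV μ η v ∧ b ∈ EV μ η v ∧ b ∉ BL μ η}

lemma WQ_congr (η : ℝ) (v : ℤ × ℤ) : ∀ n p p', (∀ i ≤ n, p i = p' i) → WQ μ η v n p →
    WQ μ η v n p' := by
  rintro n p p' h ⟨h1, h2, h3, h4, h5⟩
  refine ⟨by rw [← h 0 (Nat.zero_le _)]; exact h1, by rw [← h n le_rfl]; exact h2,
    fun i hi => ?_, fun i hi => ?_, fun i hi => ?_⟩
  · rw [← h i (by omega), ← h (i + 1) (by omega)]; exact h3 i hi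
  · rw [← h i hi]; exact h4 i hi
  · rw [← h (i + 1) (by omega)]; exact h5 i hi

lemma measurable_WV (hS : Shape μ) (η : ℝ) (v : ℤ × ℤ) :
    Measurable (fun w : Ed → ℝ => WV μ η v (pw w)) := by
  by_cases hne : ∃ n p, WQ μ η v n p
  · refine measurable_of_Iio fun a => ?_
    have : (fun w : Ed → ℝ => WV μ η v (pw w)) ⁻¹' Set.Iio a
        = ⋃ (n : ℕ) (q : Fin (n + 1) → ℤ × ℤ) (_ : WQ μ η v n (ex q)),
          {w | mz μ (ex q 0) + Wt (pw w) (ex q) n < a} := by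
      ext w
      simp only [Set.mem_preimage, Set.mem_Iio, Set.mem_iUnion, Set.mem_ofPred_eq, exists_prop]
      constructor
      · intro h
        obtain ⟨n0, p0, h0⟩ := hne
        obtain ⟨s, ⟨n, p, hp, rfl⟩, hs⟩ := exists_lt_of_csInf_lt
          (⟨_, n0, p0, h0, rfl⟩ : Set.Nonempty {s : ℝ | ∃ n p, WQ μ η v n p ∧
            s = mz μ (p 0) + Wt (pw w) p n}) h
        refine ⟨n, fun j => p j, WQ_congr η v n p _ (ex_spec n p) hp, ?_⟩
        rw [← Wt_congr (ex_spec n p), ← ex_spec n p 0 (Nat.zero_le _)]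
        exact hs
      · rintro ⟨n, q, hq, h⟩
        refine lt_of_le_of_lt (csInf_le ⟨0, ?_⟩ ⟨n, ex q, hq, rfl⟩) h
        rintro s ⟨n, p, -, rfl⟩
        exact add_nonneg (mz_nonneg hS _) (Wt_nonneg (pw_nonneg w) p n)
    rw [this]
    refine MeasurableSet.iUnion fun n => MeasurableSet.iUnion fun q => MeasurableSet.iUnion fun _ => ?_
    exact measurableSet_lt ((measurable_Wt _ _).const_add _) measurable_const
  · have : (fun w : Ed → ℝ => WV μ η v (pw w)) = fun _ => sInf ∅ := by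
      funext w
      unfold WV
      congr 1
      ext s
      simp only [Set.mem_ofPred_eq, Set.mem_empty_iff_false, iff_false]
      rintro ⟨n, p, hp, -⟩
      exact hne ⟨n, p, hp⟩
    rw [this]
    exact measurable_const

lemma WV_dep {η : ℝ} {v : ℤ × ℤ} {w w' : Ed → ℝ} (h : ∀ e ∈ SV μ η v, w e = w' e) :
    WV μ η v (pw w) = WV μ η v (pw w') := by
  have key : ∀ {w w' : Ed → ℝ}, (∀ e ∈ SV μ η v, w e = w' e) → ∀ {n p}, WQ μ η v n p →
      Wt (pw w) p n = Wt (pw w') p n := by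
    intro w w' h n p hp
    refine Finset.sum_congr rfl fun i hi => ?_
    rw [Finset.mem_range] at hi
    simp only [pw]
    rw [h _ ⟨p i, p (i + 1), rfl, hp.2.2.2.1 i hi.le, hp.2.2.2.1 (i + 1) hi, hp.2.2.2.2 i hi⟩]
  unfold WV
  congr 1
  ext s
  constructor
  · rintro ⟨n, p, h1, rfl⟩
    exact ⟨n, p, h1, by rw [key h h1]⟩
  · rintro ⟨n, p, h1, rfl⟩
    exact ⟨n, p, h1, by rw [key (fun e he => (h e he).symm) h1]⟩

/-- the two regions meet only in the ball -/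
lemma regions_disj (hS : Shape μ) {η : ℝ} {v : ℤ × ℤ} : Disjoint (SV μ η v) (SV μ η (-v)) := by
  rw [Set.disjoint_left]
  rintro e ⟨a, b, rfl, ha, hb, hb'⟩ ⟨c, d, hcd, hc, hd, -⟩
  have key : ∀ u, u ∈ EV μ η v → u ∈ EV μ η (-v) → u ∈ BL μ η := by
    intro u h1 h2
    have h3 : mz μ u + mz μ (v - u) ≤ mz μ v + η := h1
    have h4 : mz μ u + mz μ (-v - u) ≤ mz μ (-v) + η := h2
    rw [mz_neg hS, show -v - u = -(v + u) by abel, mz_neg hS] at h4
    have h5 := Q69.FL.mz_add hS (v - u) (v + u)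
    have h6 := mz_smul hS 2 v
    have h7 : ((2:ℕ):ℤ) • v = v - u + (v + u) := by push_cast; rw [two_smul]; abel
    rw [h7] at h6
    rw [h6] at h5
    push_cast at h5
    show mz μ u ≤ η
    linarith
  rcases Sym2.eq_iff.1 hcd with ⟨h1, h2⟩ | ⟨h1, h2⟩
  · subst h1; subst h2
    exact hb' (key _ hb hd)
  · subst h1; subst h2
    exact hb' (key _ hb hc)

lemma indep_opp (hS : Shape μ) (η : ℝ) (v : ℤ × ℤ) :
    IndepFun (fun w => WV μ η v (pw w)) (fun w => WV μ η (-v) (pw w)) nu := by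
  refine indep_set (SV μ η v) (measurable_WV hS η v) (measurable_WV hS η (-v))
    (fun w w' h => WV_dep h) (fun w w' h => WV_dep fun e he => h e ?_)
  intro hc
  exact Set.disjoint_left.1 (regions_disj hS) hc he

/-- comparison with the passage time, on a good event -/
lemma WV_close (hS : Shape μ) {w : Ed → ℝ} (hw : ∀ e, 0 ≤ w e) {v : ℤ × ℤ} {η δ δ' : ℝ} {R R' : ℕ}
    (hη0 : 0 ≤ η) (hv : η < mz μ v) (hη : 3 * δ + 1 ≤ η) (hδ' : 0 ≤ δ')
    (hR' : 22 * η ≤ R')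
    (G1 : ∀ x ∈ ball R 0, ∀ y ∈ ball R 0, |TT w x y - mz μ (y - x)| ≤ δ)
    (G2 : ∀ n p, IsW 0 v n p → Wt w p n ≤ TT w 0 v + 1 → ∀ i ≤ n, dd 0 (p i) ≤ R)
    (G3 : ∀ y ∈ ball R' 0, |TT w 0 y - mz μ y| ≤ δ') :
    |TT w 0 v - WV μ η v w| ≤ δ' + 1 := by
  have hballB : ∀ x, x ∈ BL μ η → x ∈ ball R' 0 := by
    intro x hx
    rw [mem_ball]
    have h1 := mz_low hS x
    have h2 : mz μ x ≤ η := hx
    have : (dd 0 x : ℝ) ≤ R' := by linarith
    exact_mod_cast this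
  -- a walk outside the ball
  obtain ⟨n, p, hp, hpw⟩ := Q70.Fp.exists_lt (show TT w 0 v < TT w 0 v + 1 by linarith)
  have hin : ∀ i ≤ n, p i ∈ ball R 0 := fun i hi => mem_ball.2 (G2 n p hp hpw.le i hi)
  have h0R : (0 : ℤ × ℤ) ∈ ball R 0 := by rw [mem_ball, dd_self]; exact Nat.zero_le _
  have hvR : v ∈ ball R 0 := by have := hin n le_rfl; rwa [hp.2.1] at this
  have hEV : ∀ i ≤ n, p i ∈ EV μ η v := by
    intro i hi
    have h1 := G1 0 h0R (p i) (hin i hi)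
    have h2 := G1 (p i) (hin i hi) v hvR
    have h3 := G1 0 h0R v hvR
    rw [sub_zero] at h1 h3
    rw [abs_le] at h1 h2 h3
    have h4 : TT w 0 (p i) + TT w (p i) v ≤ Wt w p n := by
      have e1 : IsW 0 (p i) i p := ⟨hp.1, rfl, fun j hj => hp.2.2 j (by omega)⟩
      have e2 : IsW (p i) v (n - i) (fun j => p (i + j)) := by
        refine ⟨by simp, ?_, fun j hj => ?_⟩
        · show p (i + (n - i)) = v
          rw [Nat.add_sub_cancel' hi]; exact hp.2.1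
        · exact hp.2.2 (i + j) (by omega)
      have e3 : Wt w p n = Wt w p i + Wt w (fun j => p (i + j)) (n - i) := by
        unfold Wt
        conv_lhs => rw [← Nat.add_sub_cancel' hi, Finset.sum_range_add]
        rfl
      rw [e3]
      exact add_le_add (TT_le hw e1) (TT_le hw e2)
    show mz μ (p i) + mz μ (v - p i) ≤ mz μ v + η
    linarith [h1.1, h2.1, h3.2]
  have hp0 : p 0 ∈ BL μ η := by
    rw [hp.1]
    show mz μ 0 ≤ η
    rw [mz_zero hS]; exact hη0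
  have hvB : v ∉ BL μ η := by
    intro hc
    have : mz μ v ≤ η := hc
    linarith
  -- the last visit to the ball
  classical
  obtain ⟨j, ⟨hj1, hj2⟩, hj3⟩ : ∃ j, (j ≤ n ∧ p j ∈ BL μ η) ∧ ∀ k, j < k → k ≤ n → p k ∉ BL μ η := by
    have hf : (0:ℕ) ∈ (Finset.range (n + 1)).filter (fun j => p j ∈ BL μ η) := by
      simp [hp0]
    obtain ⟨j, hj, hmax⟩ := Finset.exists_max_image
      ((Finset.range (n + 1)).filter (fun j => p j ∈ BL μ η)) id ⟨0, hf⟩
    simp only [Finset.mem_filter, Finset.mem_range, id] at hj hmax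
    refine ⟨j, ⟨by omega, hj.2⟩, fun k hk hkn hc => ?_⟩
    have := hmax k ⟨by omega, hc⟩
    omega
  have hQ : WQ μ η v (n - j) (fun i => p (j + i)) := by
    refine ⟨hj2, ?_, fun i hi => hp.2.2 (j + i) (by omega), fun i hi => hEV (j + i) (by omega),
      fun i hi => hj3 (j + (i + 1)) (by omega) (by omega)⟩
    show p (j + (n - j)) = v
    rw [Nat.add_sub_cancel' hj1]; exact hp.2.1
  have hbdd : BddBelow {s : ℝ | ∃ n p, WQ μ η v n p ∧ s = mz μ (p 0) + Wt w p n} := by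
    refine ⟨0, ?_⟩
    rintro s ⟨n, p, -, rfl⟩
    exact add_nonneg (mz_nonneg hS _) (Wt_nonneg hw p n)
  have hup : WV μ η v w ≤ TT w 0 v + (δ' + 1) := by
    have e1 : WV μ η v w ≤ mz μ (p j) + Wt w (fun i => p (j + i)) (n - j) :=
      csInf_le hbdd ⟨n - j, _, hQ, rfl⟩
    have e2 := G3 (p j) (hballB _ hj2)
    rw [abs_le] at e2
    have e3 : TT w 0 (p j) ≤ Wt w p j := TT_le hw ⟨hp.1, rfl, fun i hi => hp.2.2 i (by omega)⟩
    have e4 : Wt w p n = Wt w p j + Wt w (fun i => p (j + i)) (n - j) := by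
      unfold Wt
      conv_lhs => rw [← Nat.add_sub_cancel' hj1, Finset.sum_range_add]
      rfl
    linarith [e2.1]
  have hlo : TT w 0 v ≤ WV μ η v w + δ' := by
    rw [← sub_le_iff_le_add]
    refine le_csInf ⟨_, n - j, _, hQ, rfl⟩ ?_
    rintro s ⟨k, q, hq, rfl⟩
    have e1 := G3 (q 0) (hballB _ hq.1)
    rw [abs_le] at e1
    have e2 := TT_tri hw 0 (q 0) v
    have e3 : TT w (q 0) v ≤ Wt w q k := TT_le hw ⟨rfl, hq.2.1, hq.2.2.1⟩
    linarith [e1.2]
  rw [abs_le]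
  constructor <;> linarith

end Pool.Agent.H948
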