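import Pool.Agent.H948.Opp

/-!
# Concentration from the comparison of opposite directions
-/

set_option autoImplicit false

open MeasureTheory ProbabilityTheory Filter Set
open scoped ENNReal Topology

namespace Pool.Agent.H948

open Q70.Fp
open Q69.FL (Se Ll)

variable {μ : ℝ × ℝ → ℝ}

/-- the passage times to `v` and `-v` differ by `|v| ^ (b + ζ)` at most, with the rate `3 (1 - b)` -/
def Diff (b : ℝ) : Prop := ∀ ζ : ℝ, 0 < ζ → ∃ C : ℝ, ∀ v : ℤ × ℤ, v ≠ 0 →
  nu.real {w | (dd 0 v : ℝ) ^ (b + ζ) < |TT (pw w) 0 v - TT (pw w) 0 (-v)|} ≤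
    C * (dd 0 v : ℝ) ^ (-(3 * (1 - b)) + ζ)

lemma dd_neg (v : ℤ × ℤ) : dd 0 (-v) = dd 0 v := by simp [dd]

/-- the bad event -/
def BadE (μ : ℝ × ℝ → ℝ) (δ δ' : ℝ) (R R' : ℕ) (v : ℤ × ℤ) : Set (Ed → ℝ) :=
  {w | ∃ x ∈ ball R 0, ∃ y ∈ ball R 0, δ < |TT (pw w) x y - mz μ (y - x)|} ∪
  {w | ∃ n p, IsW 0 v n p ∧ Wt (pw w) p n ≤ TT (pw w) 0 v + 1 ∧ ∃ i ≤ n, R < dd 0 (p i)} ∪
  {w | ∃ n p, IsW 0 (-v) n p ∧ Wt (pw w) p n ≤ TT (pw w) 0 (-v) + 1 ∧ ∃ i ≤ n, R < dd 0 (p i)} ∪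
  {w | ∃ x ∈ ball R' 0, ∃ y ∈ ball R' 0, δ' < |TT (pw w) x y - mz μ (y - x)|}

lemma close_off (hS : Shape μ) {v : ℤ × ℤ} {η δ δ' : ℝ} {R R' : ℕ}
    (hη0 : 0 ≤ η) (hv : η < mz μ v) (hη : 3 * δ + 1 ≤ η) (hδ' : 0 ≤ δ')
    (hR' : 22 * η ≤ R') {w : Ed → ℝ} (hw : w ∉ BadE μ δ δ' R R' v) :
    |TT (pw w) 0 v - WV μ η v (pw w)| ≤ δ' + 1 ∧
      |TT (pw w) 0 (-v) - WV μ η (-v) (pw w)| ≤ δ' + 1 := by
  simp only [BadE, mem_union, not_or] at hw
  obtain ⟨⟨⟨h1, h2⟩, h3⟩, h4⟩ := hw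
  have G1 : ∀ x ∈ ball R 0, ∀ y ∈ ball R 0, |TT (pw w) x y - mz μ (y - x)| ≤ δ := by
    intro x hx y hy
    by_contra hc
    exact h1 ⟨x, hx, y, hy, not_le.1 hc⟩
  have G3 : ∀ y ∈ ball R' 0, |TT (pw w) 0 y - mz μ y| ≤ δ' := by
    intro y hy
    by_contra hc
    refine h4 ⟨0, by rw [mem_ball, dd_self]; exact Nat.zero_le _, y, hy, ?_⟩
    rw [sub_zero]
    exact not_le.1 hc
  constructor
  · refine WV_close hS (pw_nonneg w) hη0 hv hη hδ' hR' G1 ?_ G3
    intro n p hp hpw i hi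
    by_contra hc
    exact h2 ⟨n, p, hp, hpw, i, hi, not_le.1 hc⟩
  · refine WV_close hS (pw_nonneg w) hη0 (by rwa [mz_neg hS]) hη hδ' hR' G1 ?_ G3
    intro n p hp hpw i hi
    by_contra hc
    exact h3 ⟨n, p, hp, hpw, i, hi, not_le.1 hc⟩

lemma centre_of_diff (hS : Shape μ) {v : ℤ × ℤ} {η δ δ' D : ℝ} {R R' : ℕ}
    (hη0 : 0 ≤ η) (hv : η < mz μ v) (hη : 3 * δ + 1 ≤ η) (hδ' : 0 ≤ δ')
    (hR' : 22 * η ≤ R') (hD : 8 * (δ' + 1) ≤ D) :
    ∃ m : ℝ, nu.real {w | D < |TT (pw w) 0 v - m|} ≤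
      nu.real {w | D / 4 < |TT (pw w) 0 v - TT (pw w) 0 (-v)|} + 2 * nu.real (BadE μ δ δ' R R' v) := by
  obtain ⟨m, hm⟩ := exists_centre (measurable_WV hS η v) (measurable_WV hS η (-v))
    (indep_opp hS η v) (D / 2)
  refine ⟨m, ?_⟩
  have h1 : nu.real {w | D / 2 < |WV μ η v (pw w) - WV μ η (-v) (pw w)|} ≤
      nu.real {w | D / 4 < |TT (pw w) 0 v - TT (pw w) 0 (-v)|} + nu.real (BadE μ δ δ' R R' v) := by
    refine le_trans (measureReal_mono ?_ (measure_ne_top _ _)) (measureReal_union_le _ _)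
    intro w hw
    by_cases hb : w ∈ BadE μ δ δ' R R' v
    · right; exact hb
    · left
      obtain ⟨e1, e2⟩ := close_off hS hη0 hv hη hδ' hR' hb
      have hw' : D / 2 < |WV μ η v (pw w) - WV μ η (-v) (pw w)| := hw
      show D / 4 < |TT (pw w) 0 v - TT (pw w) 0 (-v)|
      have e3 : |WV μ η v (pw w) - WV μ η (-v) (pw w)| ≤ |TT (pw w) 0 v - TT (pw w) 0 (-v)| +
          (|TT (pw w) 0 v - WV μ η v (pw w)| + |TT (pw w) 0 (-v) - WV μ η (-v) (pw w)|) := by
        have : WV μ η v (pw w) - WV μ η (-v) (pw w) = (TT (pw w) 0 v - TT (pw w) 0 (-v)) +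
          (-(TT (pw w) 0 v - WV μ η v (pw w)) + (TT (pw w) 0 (-v) - WV μ η (-v) (pw w))) := by ring
        rw [this]
        refine (abs_add_le _ _).trans (add_le_add le_rfl ((abs_add_le _ _).trans ?_))
        rw [abs_neg]
      linarith
  have h2 : nu.real {w | D < |TT (pw w) 0 v - m|} ≤
      nu.real {w | D / 2 < |WV μ η v (pw w) - m|} + nu.real (BadE μ δ δ' R R' v) := by
    refine le_trans (measureReal_mono ?_ (measure_ne_top _ _)) (measureReal_union_le _ _)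
    intro w hw
    by_cases hb : w ∈ BadE μ δ δ' R R' v
    · right; exact hb
    · left
      obtain ⟨e1, -⟩ := close_off hS hη0 hv hη hδ' hR' hb
      have hw' : D < |TT (pw w) 0 v - m| := hw
      show D / 2 < |WV μ η v (pw w) - m|
      have e3 : |TT (pw w) 0 v - m| ≤ |TT (pw w) 0 v - WV μ η v (pw w)| +
          |WV μ η v (pw w) - m| := by
        have : TT (pw w) 0 v - m = (TT (pw w) 0 v - WV μ η v (pw w)) + (WV μ η v (pw w) - m) := by
          ring
        rw [this]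
        exact abs_add_le _ _
      linarith
  linarith

lemma Conc_of_small {b : ℝ} {ζ0 : ℝ} (hζ0 : 0 < ζ0)
    (H : ∀ ζ : ℝ, 0 < ζ → ζ ≤ ζ0 → ∃ m : ℤ × ℤ → ℝ, ∃ C : ℝ, ∀ v : ℤ × ℤ, v ≠ 0 →
      nu.real {w | (dd 0 v : ℝ) ^ (b + ζ) < |TT (pw w) 0 v - m v|} ≤
      C * (dd 0 v : ℝ) ^ (-(3 * (1 - b)) + ζ)) : Conc b := by
  intro ζ hζ
  obtain ⟨m, C, hC⟩ := H (min ζ ζ0) (lt_min hζ hζ0) (min_le_right _ _)
  refine ⟨m, max C 1, fun v hv => ?_⟩
  have hn := dd_one hv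
  have h1 : (dd 0 v : ℝ) ^ (b + min ζ ζ0) ≤ (dd 0 v : ℝ) ^ (b + ζ) :=
    Real.rpow_le_rpow_of_exponent_le hn (by linarith [min_le_left ζ ζ0])
  have h2 : (dd 0 v : ℝ) ^ (-(3 * (1 - b)) + min ζ ζ0) ≤ (dd 0 v : ℝ) ^ (-(3 * (1 - b)) + ζ) :=
    Real.rpow_le_rpow_of_exponent_le hn (by linarith [min_le_left ζ ζ0])
  refine (measureReal_mono ?_ (measure_ne_top _ _)).trans ((hC v hv).trans ?_)
  · intro w hw
    have hw' : (dd 0 v : ℝ) ^ (b + ζ) < |TT (pw w) 0 v - m v| := hw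
    exact lt_of_le_of_lt h1 hw'
  · calc C * (dd 0 v : ℝ) ^ (-(3 * (1 - b)) + min ζ ζ0)
        ≤ max C 1 * (dd 0 v : ℝ) ^ (-(3 * (1 - b)) + min ζ ζ0) := by
          gcongr; exact le_max_left _ _
      _ ≤ _ := by gcongr

/-- **the step**: from the exponent `b0` to the exponent `max b (b0 ^ 2)` -/
lemma opp_step (hS : Shape μ) {b0 b b1 : ℝ} (hb0 : 0 < b0) (hb01 : b0 < 1) (hB : Both μ b0)
    (hD : Diff b) (hb1 : b ≤ b1) (hb2 : b0 * b0 < b1) (hb11 : b1 < 1) : Conc b1 := by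
  refine Conc_of_small (ζ0 := (1 - b1)) (by linarith) fun ζ hζ hζ1 => ?_
  -- the exponents
  obtain ⟨a0, ha0, ha1, ha2⟩ : ∃ a0, b0 < a0 ∧ a0 < 1 ∧ a0 * a0 < b1 := by
    have hs : b0 < min 1 (Real.sqrt b1) := lt_min hb01 (Real.lt_sqrt_of_sq_lt (by rw [sq]; exact hb2))
    obtain ⟨a0, h1, h2⟩ := exists_between hs
    refine ⟨a0, h1, h2.trans_le (min_le_left _ _), ?_⟩
    have h3 : a0 < Real.sqrt b1 := h2.trans_le (min_le_right _ _)
    have h4 : a0 * a0 < Real.sqrt b1 * Real.sqrt b1 := mul_self_lt_mul_self (by linarith) h3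
    rwa [Real.mul_self_sqrt (by nlinarith)] at h4
  set a : ℝ := (b0 + a0) / 2 with ha
  have hab0 : b0 < a := by rw [ha]; linarith
  have haa0 : a < a0 := by rw [ha]; linarith
  have ha00 : 0 < a0 := by linarith
  have hapos : 0 < a := by linarith
  obtain ⟨C1, hC1, hbox⟩ := box_event hS hapos (hB.1 a hab0) (hB.2 a hab0) (q := 3 / a0 + 3)
    (by positivity)
  obtain ⟨C2, hC2⟩ := hD (ζ / 2) (by linarith)
  obtain ⟨C3, hC3, hhalf⟩ := half_poly 3 (by norm_num)
  set q : ℝ := 3 * (1 - b1) - ζ with hq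
  have hq0 : 0 < q := by rw [hq]; linarith
  have hq3 : q ≤ 3 := by nlinarith
  -- the bound for large `v`
  have hev : ∀ᶠ n : ℕ in atTop, ∀ v : ℤ × ℤ, dd 0 v = n → ∃ m : ℝ,
      nu.real {w | (dd 0 v : ℝ) ^ (b1 + ζ) < |TT (pw w) 0 v - m|} ≤
        (max C2 1 + 4 * C1 + 8 * C3) * (n:ℝ) ^ (-q) := by
    have k1 := pow_small (c := a) (a := a0) (K := 12 * 264 ^ a) haa0
    have k2 := pow_small (c := a0) (a := 1) (K := 22) ha1
    have k3 := pow_small (c := a0 * a) (a := b1 + ζ) (K := 8 * 46 ^ a) (by nlinarith)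
    have k4 := pow_small (c := 0) (a := b1 + ζ) (K := 8) (by nlinarith)
    have k5 := pow_small (c := 0) (a := a0) (K := 1) ha00
    have k6 := pow_small (c := b + ζ / 2) (a := b1 + ζ) (K := 1) (by linarith)
    filter_upwards [k1, k2, k3, k4, k5, k6, eventually_ge_atTop 1] with n k1 k2 k3 k4 k5 k6 hn1 v hv
    rw [Real.rpow_zero] at k4 k5
    rw [Real.rpow_one] at k2
    have hn : (1:ℝ) ≤ n := by exact_mod_cast hn1
    have hn0 : (0:ℝ) < n := by linarith
    have hv0 : v ≠ 0 := by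
      intro hc
      rw [hc, dd_self] at hv
      omega
    have hvn : (dd 0 v : ℝ) = n := by exact_mod_cast hv
    set R : ℕ := 132 * n with hR
    set η : ℝ := (n:ℝ) ^ a0 with hη
    have hη1 : 4 ≤ η := by linarith
    set R' : ℕ := ⌈22 * η⌉₊ with hR'
    have hR'1 : 22 * η ≤ (R' : ℝ) := Nat.le_ceil _
    have hR'2 : (R' : ℝ) ≤ 23 * η := by
      have := Nat.ceil_lt_add_one (show 0 ≤ 22 * η by linarith)
      linarith
    set δ : ℝ := ((2 * R : ℕ) : ℝ) ^ a with hδ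
    set δ' : ℝ := ((2 * R' : ℕ) : ℝ) ^ a with hδ'
    have hδ0 : 0 ≤ δ' := by positivity
    have e1 : δ = 264 ^ a * (n:ℝ) ^ a := by
      rw [hδ, hR, ← Real.mul_rpow (by norm_num) hn0.le]
      congr 1; push_cast; ring
    have e2 : δ' ≤ 46 ^ a * (n:ℝ) ^ (a0 * a) := by
      rw [hδ', Real.rpow_mul hn0.le, ← Real.mul_rpow (by norm_num) (by positivity)]
      apply Real.rpow_le_rpow (by positivity) _ hapos.le
      push_cast
      linarith
    have hηδ : 3 * δ + 1 ≤ η := by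
      rw [e1]
      have : 12 * 264 ^ a * (n:ℝ) ^ a = 4 * (3 * (264 ^ a * (n:ℝ) ^ a)) := by ring
      rw [this] at k1
      linarith
    have hηv : η < mz μ v := by
      have := mz_low hS v
      rw [hvn] at this
      linarith
    obtain ⟨m, hm⟩ := centre_of_diff hS (v := v) (η := η) (δ := δ) (δ' := δ')
      (D := (n:ℝ) ^ (b1 + ζ)) (R := R) (R' := R') (by linarith) hηv hηδ hδ0 hR'1 (by
        have : 8 * 46 ^ a * (n:ℝ) ^ (a0 * a) = 8 * (46 ^ a * (n:ℝ) ^ (a0 * a)) := by ring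
        rw [this] at k3
        linarith)
    refine ⟨m, ?_⟩
    rw [hvn]
    refine hm.trans ?_
    -- the difference
    have f1 : nu.real {w | (n:ℝ) ^ (b1 + ζ) / 4 < |TT (pw w) 0 v - TT (pw w) 0 (-v)|} ≤
        max C2 1 * (n:ℝ) ^ (-q) := by
      have h1 := hC2 v hv0
      rw [hvn] at h1
      refine (measureReal_mono ?_ (measure_ne_top _ _)).trans (h1.trans ?_)
      · intro w hw
        have hw' : (n:ℝ) ^ (b1 + ζ) / 4 < |TT (pw w) 0 v - TT (pw w) 0 (-v)| := hw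
        show (n:ℝ) ^ (b + ζ / 2) < |TT (pw w) 0 v - TT (pw w) 0 (-v)|
        linarith
      · have h2 : (n:ℝ) ^ (-(3 * (1 - b)) + ζ / 2) ≤ (n:ℝ) ^ (-q) :=
          Real.rpow_le_rpow_of_exponent_le hn (by rw [hq]; linarith)
        calc C2 * (n:ℝ) ^ (-(3 * (1 - b)) + ζ / 2)
            ≤ max C2 1 * (n:ℝ) ^ (-(3 * (1 - b)) + ζ / 2) := by
              gcongr; exact le_max_left _ _
          _ ≤ _ := by gcongr
    -- the bad event
    have f2 : nu.real (BadE μ δ δ' R R' v) ≤ (2 * C1 + 4 * C3) * (n:ℝ) ^ (-q) := by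
      have h3 : (n:ℝ) ^ (-(3:ℝ)) ≤ (n:ℝ) ^ (-q) :=
        Real.rpow_le_rpow_of_exponent_le hn (by linarith)
      have g1 : nu.real {w | ∃ x ∈ ball R 0, ∃ y ∈ ball R 0, δ < |TT (pw w) x y - mz μ (y - x)|} ≤
          C1 * (n:ℝ) ^ (-(3:ℝ)) := by
        refine (hbox R (by omega)).trans ?_
        have : (R:ℝ) ^ (-(3 / a0 + 3)) ≤ (n:ℝ) ^ (-(3:ℝ)) := by
          calc (R:ℝ) ^ (-(3 / a0 + 3)) ≤ (n:ℝ) ^ (-(3 / a0 + 3)) := by
                apply Real.rpow_le_rpow_of_nonpos hn0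
                · rw [hR]; push_cast; linarith
                · have : 0 < 3 / a0 := by positivity
                  linarith
            _ ≤ _ := Real.rpow_le_rpow_of_exponent_le hn (by
                  have : 0 < 3 / a0 := by positivity
                  linarith)
        gcongr
      have g4 : nu.real {w | ∃ x ∈ ball R' 0, ∃ y ∈ ball R' 0,
          δ' < |TT (pw w) x y - mz μ (y - x)|} ≤ C1 * (n:ℝ) ^ (-(3:ℝ)) := by
        have hR'0 : 1 ≤ R' := by
          have : (1:ℝ) ≤ R' := by linarith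
          exact_mod_cast this
        refine (hbox R' hR'0).trans ?_
        have : (R':ℝ) ^ (-(3 / a0 + 3)) ≤ (n:ℝ) ^ (-(3:ℝ)) := by
          calc (R':ℝ) ^ (-(3 / a0 + 3)) ≤ η ^ (-(3 / a0 + 3)) := by
                apply Real.rpow_le_rpow_of_nonpos (by linarith)
                · linarith
                · have : 0 < 3 / a0 := by positivity
                  linarith
            _ = (n:ℝ) ^ (-(3 + 3 * a0)) := by
                rw [hη, ← Real.rpow_mul hn0.le]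
                congr 1
                field_simp
            _ ≤ _ := Real.rpow_le_rpow_of_exponent_le hn (by nlinarith)
        gcongr
      have g23 : ((1:ℝ) / 2) ^ n ≤ C3 * (n:ℝ) ^ (-(3:ℝ)) := by
        refine (hhalf n).trans ?_
        have : ((n:ℝ) + 1) ^ (-(3:ℝ)) ≤ (n:ℝ) ^ (-(3:ℝ)) :=
          Real.rpow_le_rpow_of_nonpos hn0 (by linarith) (by norm_num)
        gcongr
      have g2 : nu.real {w | ∃ n p, IsW 0 v n p ∧ Wt (pw w) p n ≤ TT (pw w) 0 v + 1 ∧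
          ∃ i ≤ n, R < dd 0 (p i)} ≤ 2 * (C3 * (n:ℝ) ^ (-(3:ℝ))) := by
        have := stay_ball hv0
        rw [hv] at this
        linarith
      have g3 : nu.real {w | ∃ n p, IsW 0 (-v) n p ∧ Wt (pw w) p n ≤ TT (pw w) 0 (-v) + 1 ∧
          ∃ i ≤ n, R < dd 0 (p i)} ≤ 2 * (C3 * (n:ℝ) ^ (-(3:ℝ))) := by
        have := stay_ball (v := -v) (by simpa using hv0)
        rw [dd_neg, hv] at this
        linarith
      unfold BadE
      refine (measureReal_union_le _ _).trans ?_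
      refine (add_le_add (measureReal_union_le _ _) le_rfl).trans ?_
      refine (add_le_add (add_le_add (measureReal_union_le _ _) le_rfl) le_rfl).trans ?_
      have : (2 * C1 + 4 * C3) * (n:ℝ) ^ (-(3:ℝ)) ≤ (2 * C1 + 4 * C3) * (n:ℝ) ^ (-q) := by gcongr
      linarith
    have : (max C2 1 + 4 * C1 + 8 * C3) * (n:ℝ) ^ (-q) = max C2 1 * (n:ℝ) ^ (-q) +
        2 * ((2 * C1 + 4 * C3) * (n:ℝ) ^ (-q)) := by ring
    rw [this]
    linarith
  -- all `v`
  classical
  let K : ℝ := max C2 1 + 4 * C1 + 8 * C3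
  let m : ℤ × ℤ → ℝ := fun v => if hm : ∃ m : ℝ,
      nu.real {w | (dd 0 v : ℝ) ^ (b1 + ζ) < |TT (pw w) 0 v - m|} ≤ K * (dd 0 v : ℝ) ^ (-q)
    then hm.choose else 0
  have hK : 0 < K := by
    have : (1:ℝ) ≤ max C2 1 := le_max_right _ _
    show 0 < max C2 1 + 4 * C1 + 8 * C3
    linarith
  obtain ⟨C', hC', hfin⟩ := of_ev
    (P := fun v => nu.real {w | (dd 0 v : ℝ) ^ (b1 + ζ) < |TT (pw w) 0 v - m v|})
    (fun v => measureReal_le_one) hq0 hK (by
      filter_upwards [hev] with n hn v hv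
      have h1 := hn v hv
      have hvn : (dd 0 v : ℝ) = n := by exact_mod_cast hv
      rw [← hvn] at h1
      have h2 : m v = h1.choose := by
        simp only [m]
        rw [dif_pos h1]
      have h3 := h1.choose_spec
      rw [← h2, hvn] at h3
      rw [hvn]
      exact h3)
  refine ⟨m, C', fun v hv => ?_⟩
  rw [show -(3 * (1 - b1)) + ζ = -q by rw [hq]; ring]
  exact hfin v hv

/-- **concentration from the comparison of opposite directions** -/
theorem both_of_diff (hS : Shape μ) {b : ℝ} (hb : 0 < b) (hb1 : b < 1) (hD : Diff b) :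
    Both μ b := by
  -- the iteration of squares
  have key : ∀ k : ℕ, ∀ c, b ≤ c → (1 / 2 : ℝ) ^ (2 ^ k) ≤ c → c < 1 → Both μ c := by
    intro k
    induction k with
    | zero =>
      intro c _ h2 h3
      rw [pow_zero, pow_one] at h2
      exact ⟨fun a ha => (half hS).1 a (by linarith), fun a ha => (half hS).2 a (by linarith)⟩
    | succ k ih =>
      intro c h1 h2 h3
      -- it is enough to treat all exponents above `c`
      have hc0 : 0 < c := by linarith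
      have main : ∀ c', c < c' → c' < 1 → Both μ c' := by
        intro c' hc' hc'1
        -- an exponent whose square is below `c'`
        have hsq : c < Real.sqrt c' * Real.sqrt c' := by rw [Real.mul_self_sqrt (by linarith)]; exact hc'
        set d : ℝ := Real.sqrt c with hd
        have hd1 : d < 1 := by
          rw [hd, Real.sqrt_lt' one_pos]; simpa using h3
        have hd0 : 0 < d := Real.sqrt_pos.2 hc0
        have hdd : d * d = c := Real.mul_self_sqrt hc0.le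
        have hbd : b ≤ d := by nlinarith
        have hkd : (1 / 2 : ℝ) ^ (2 ^ k) ≤ d := by
          apply Real.le_sqrt_of_sq_le
          rw [← pow_mul, ← pow_succ]
          exact h2
        have hBd := ih d hbd hkd hd1
        exact both_of_conc hS (by linarith) hc'1
          (opp_step hS hd0 hd1 hBd hD (by linarith) (by rw [hdd]; exact hc') hc'1)
      constructor
      · intro a ha
        obtain ⟨c', h4, h5⟩ := exists_between (lt_min ha h3)
        exact (main c' h4 (h5.trans_le (min_le_right _ _))).1 a (h5.trans_le (min_le_left _ _))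
      · intro a ha
        obtain ⟨c', h4, h5⟩ := exists_between (lt_min ha h3)
        exact (main c' h4 (h5.trans_le (min_le_right _ _))).2 a (h5.trans_le (min_le_left _ _))
  obtain ⟨k, hk⟩ := exists_pow_lt_of_lt_one hb (show (1 / 2 : ℝ) < 1 by norm_num)
  refine key k b le_rfl ?_ hb1
  refine le_trans ?_ hk.le
  exact pow_le_pow_of_le_one (by norm_num) (by norm_num) (Nat.lt_two_pow_self).le

end Pool.Agent.H948
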