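import Pool.Agent.H948.Extr

/-!
# The lower tail at one scale
-/

set_option autoImplicit false

open MeasureTheory ProbabilityTheory Finset Filter
open scoped Topology

namespace Pool.Agent.H948

open Q70.Fp

variable {μ : ℝ × ℝ → ℝ}

/-- many events far from each other are unlikely -/
lemma indep_gen (Q : Finset (ℤ × ℤ)) (R r : ℕ) (Ev : ℤ × ℤ → Set (Ed → ℝ))
    (hm : ∀ x, MeasurableSet (Ev x))
    (hdep : ∀ x (w w' : Ed → ℝ), (∀ e ∈ be R x, w e = w' e) → w ∈ Ev x → w' ∈ Ev x) {p : ℝ}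
    (hp : ∀ x ∈ Q, nu.real (Ev x) ≤ p) (hp0 : 0 ≤ p) :
    nu.real {w | ∃ I : Finset (ℤ × ℤ), I ⊆ Q ∧ I.card = r ∧
      (∀ x ∈ I, ∀ y ∈ I, x ≠ y → 2 * R < dd x y) ∧ ∀ x ∈ I, w ∈ Ev x} ≤ (Q.card * p) ^ r := by
  classical
  obtain ⟨F, hF⟩ : ∃ F : Finset (ℤ × ℤ) → Prop,
      F = fun I => ∀ x ∈ I, ∀ y ∈ I, x ≠ y → 2 * R < dd x y := ⟨_, rfl⟩
  set P := (Q.powersetCard r).filter F with hP
  have hsub : {w | ∃ I : Finset (ℤ × ℤ), I ⊆ Q ∧ I.card = r ∧
      (∀ x ∈ I, ∀ y ∈ I, x ≠ y → 2 * R < dd x y) ∧ ∀ x ∈ I, w ∈ Ev x} ⊆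
      ⋃ I ∈ P, {w | ∀ x ∈ I, w ∈ Ev x} := by
    rintro w ⟨I, h1, h2, h3, h4⟩
    simp only [Set.mem_iUnion, Set.mem_ofPred_eq, exists_prop]
    refine ⟨I, ?_, h4⟩
    rw [hP, Finset.mem_filter, Finset.mem_powersetCard, hF]
    exact ⟨⟨h1, h2⟩, h3⟩
  refine (measureReal_mono hsub (measure_ne_top _ _)).trans
    ((measureReal_biUnion_finset_le _ _).trans ?_)
  have key : ∀ I ∈ P, nu.real {w | ∀ x ∈ I, w ∈ Ev x} ≤ p ^ r := by
    intro I hI
    rw [hP, Finset.mem_filter, Finset.mem_powersetCard, hF] at hI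
    obtain ⟨⟨h1, h2⟩, h3⟩ := hI
    have hms : MeasurableSet {w : Ed → ℝ | ∀ x ∈ I, w ∈ Ev x} := by
      have : {w : Ed → ℝ | ∀ x ∈ I, w ∈ Ev x} = ⋂ x ∈ I, Ev x := by
        ext w; simp
      rw [this]
      exact Finset.measurableSet_biInter _ fun x _ => hm x
    have e1 : nu.real {w | ∀ x ∈ I, w ∈ Ev x} =
        ∫ w, ∏ x ∈ I, Set.indicator (Ev x) (1 : (Ed → ℝ) → ℝ) w ∂nu := by
      rw [← integral_indicator_one hms]
      refine integral_congr_ae (Eventually.of_forall fun w => ?_)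
      beta_reduce
      by_cases hw : ∀ x ∈ I, w ∈ Ev x
      · rw [Set.indicator_of_mem (show w ∈ {w : Ed → ℝ | ∀ x ∈ I, w ∈ Ev x} from hw)]
        rw [Finset.prod_eq_one]
        · rfl
        · intro x hx
          rw [Set.indicator_of_mem (hw x hx)]
          rfl
      · rw [Set.indicator_of_notMem (show w ∉ {w : Ed → ℝ | ∀ x ∈ I, w ∈ Ev x} from hw)]
        push Not at hw
        obtain ⟨x, hx, hx'⟩ := hw
        symm
        refine Finset.prod_eq_zero hx ?_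
        rw [Set.indicator_of_notMem hx']
    rw [e1, integral_prod_disj I (fun x => be R x)
      (fun x => Set.indicator (Ev x) (1 : (Ed → ℝ) → ℝ))]
    · calc _ ≤ ∏ _x ∈ I, p := by
            refine Finset.prod_le_prod (fun x _ => integral_nonneg fun w => ?_) fun x hx => ?_
            · exact Set.indicator_nonneg (fun _ _ => zero_le_one) w
            · rw [integral_indicator_one (hm x)]
              exact hp x (h1 hx)
        _ = p ^ r := by rw [Finset.prod_const, h2]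
    · intro x
      exact measurable_one.indicator (hm x)
    · intro x w w' hw
      have hw' : ∀ e ∈ be R x, w' e = w e := fun e he => (hw e he).symm
      by_cases h5 : w ∈ Ev x
      · rw [Set.indicator_of_mem h5, Set.indicator_of_mem (hdep x w w' hw h5)]
        rfl
      · rw [Set.indicator_of_notMem h5,
          Set.indicator_of_notMem (fun h6 => h5 (hdep x w' w hw' h6))]
    · intro x hx y hy hxy
      exact be_disj (h3 x hx y hy hxy)
  calc _ ≤ ∑ _I ∈ P, p ^ r := Finset.sum_le_sum key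
    _ = P.card * p ^ r := by rw [Finset.sum_const, nsmul_eq_mul]
    _ ≤ (Q.card : ℝ) ^ r * p ^ r := by
        refine mul_le_mul_of_nonneg_right ?_ (by positivity)
        have e1 : P.card ≤ Q.card ^ r := by
          refine (Finset.card_filter_le _ _).trans ?_
          rw [Finset.card_powersetCard]
          exact Nat.choose_le_pow _ _
        exact_mod_cast e1
    _ = _ := by rw [mul_pow]

lemma measurable_CF (m s : ℕ) (xs ys : ℤ × ℤ) (E g : ℝ) (q : ℤ × ℤ) :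
    MeasurableSet {w : Ed → ℝ | CF μ m s xs ys E g q (pw w)} := by
  have : {w : Ed → ℝ | CF μ m s xs ys E g q (pw w)} = ⋃ x : ℤ × ℤ, ⋃ y : ℤ × ℤ,
      {w | (Q69.FL.rd s x = q ∧ dd x y = m ∧ Rg μ (ys - xs) E (x - xs) ∧
        Rg μ (ys - xs) E (y - xs)) ∧
        TB (pw w) (66 * m) x y < ls μ (em (ys - xs)) (em y - em x) - g} := by
    ext w
    simp only [CF, Set.mem_ofPred_eq, Set.mem_iUnion, and_assoc]
  rw [this]
  refine MeasurableSet.iUnion fun x => MeasurableSet.iUnion fun y => ?_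
  exact (MeasurableSet.const _).inter (measurableSet_lt (measurable_TB _ _ _) measurable_const)

lemma CF_dep {m s : ℕ} (hs : 1 ≤ s) {xs ys : ℤ × ℤ} {E g : ℝ} {q : ℤ × ℤ} {w w' : Ed → ℝ}
    (hw : ∀ e ∈ be (66 * m + 2 * s) q, w e = w' e) (hC : CF μ m s xs ys E g q (pw w)) :
    CF μ m s xs ys E g q (pw w') := by
  obtain ⟨x, y, h1, h2, h3, h4, h5⟩ := hC
  refine ⟨x, y, h1, h2, h3, h4, ?_⟩
  rw [← TB_dep (fun e he => hw e (be_sub ?_ he))]
  · exact h5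
  · have := Q69.FL.dd_rd hs x
    rw [← h1, dd_comm]
    omega

lemma CF_le (h : Shape μ) {m s : ℕ} {xs ys : ℤ × ℤ} {E g p : ℝ} (hE : E ≤ mz μ (ys - xs))
    (q : ℤ × ℤ) (hp : nu.real {w | FP μ (ys - xs) E g (ls μ (em (ys - xs))) w} ≤ p) :
    nu.real {w : Ed → ℝ | CF μ m s xs ys E g q (pw w)} ≤ p := by
  have hsub : {w : Ed → ℝ | CF μ m s xs ys E g q (pw w)} ⊆
      sh xs ⁻¹' {w | FP μ (ys - xs) E g (ls μ (em (ys - xs))) w} := by
    rintro w ⟨x, y, h1, h2, h3, h4, h5⟩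
    refine ⟨x - xs, y - xs, h3, h4, ?_⟩
    have e1 : em (y - xs) - em (x - xs) = em y - em x := by rw [em_sub, em_sub]; abel
    rw [TT_sh, sub_add_cancel, sub_add_cancel, e1]
    exact lt_of_le_of_lt (TT_le_TB (pw_nonneg w) (by omega)) h5
  refine (measureReal_mono hsub (measure_ne_top nu _)).trans ?_
  have e0 : nu.real (sh xs ⁻¹' {w | FP μ (ys - xs) E g (ls μ (em (ys - xs))) w}) =
      nu.real {w | FP μ (ys - xs) E g (ls μ (em (ys - xs))) w} := by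
    conv_rhs => rw [← map_sh xs]
    rw [map_measureReal_apply (measurable_sh _) (measurable_FP h _ hE _ _)]
  rw [e0]
  exact hp

/-- the lower tail at one scale -/
lemma outer_prob (h : Shape μ) {v : ℤ × ℤ} {n m₁ r : ℕ} (hn : dd 0 v = n) (hn1 : 1 ≤ n)
    (hm1 : 1 ≤ m₁) (hmn : m₁ ≤ n) {S D p d0 : ℝ} (hS1 : 2 ≤ S) (hD : 0 ≤ D) (hp0 : 0 ≤ p)
    (hd0 : 0 ≤ d0)
    (h5 : ∀ z : ℤ × ℤ, dd 0 z ≤ 66 * m₁ → nu.real {w | TT (pw w) 0 z < mz μ z - D} ≤ d0)
    (hp : ∀ (V : ℤ × ℤ) (j : ℕ), dd 0 V ≤ 132 * n → S / 2 * 2 ^ j ≤ mz μ V →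
      nu.real {w | FP μ V (S / 2 * 2 ^ j) (S / 2 * 2 ^ j * m₁ / (4 * n)) (ls μ (em V)) w} ≤ p)
    (hr : 43825 * (r:ℝ) * D + D ≤ S / 4) :
    nu.real {w | TT (pw w) 0 v < mz μ v - S} ≤ (133 * (n:ℝ)) ^ 4 * (5 * (1 / 2) ^ m₁ + d0) +
      (133 * (n:ℝ)) ^ 4 * (1000 * n *
        ((((ball (66 * n) 0).image (Q69.FL.rd m₁)).card : ℝ) * p) ^ r) := by
  classical
  set Bl := ball (66 * n) 0 with hBl
  set Q := Bl.image (Q69.FL.rd m₁) with hQ
  have hn1' : (1:ℝ) ≤ n := by exact_mod_cast hn1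
  have hcard : (Bl.card : ℝ) ≤ (133 * n) ^ 2 := by
    have e1 : Bl.card ≤ (133 * n) ^ 2 := by
      refine (card_ball (66 * n)).trans (Nat.pow_le_pow_left (by omega) 2)
    exact_mod_cast e1
  have hN2 : (1:ℝ) ≤ (133 * (n:ℝ)) ^ 2 := one_le_pow₀ (by linarith)
  have hN4 : (133 * (n:ℝ)) ^ 4 = (133 * n) ^ 2 * (133 * n) ^ 2 := by ring
  have hN24 : (133 * (n:ℝ)) ^ 2 ≤ (133 * n) ^ 4 := by
    rw [hN4]; exact le_mul_of_one_le_left (by positivity) hN2
  have hN14 : (1:ℝ) ≤ (133 * (n:ℝ)) ^ 4 := hN2.trans hN24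
  -- the exceptional sets
  let A1 : Set (Ed → ℝ) := {w | Bad (pw w) 0 (66 * n + 1) (3 * (n:ℝ))}
  let A2 : Set (Ed → ℝ) := ⋃ x ∈ Bl, ⋃ y ∈ Bl.filter (fun y => dd x y = 66 * m₁),
    {w | TT (pw w) x y < 3 * (m₁:ℝ)}
  let A3 : Set (Ed → ℝ) := ⋃ x ∈ Bl, ⋃ y ∈ Bl.filter (fun y => dd x y ≤ 664 * (66 * m₁)),
    {w | 3 * ((664 * (66 * m₁) : ℕ) : ℝ) ≤ TT (pw w) x y}
  let A4 : Set (Ed → ℝ) := ∅
  let A5 : Set (Ed → ℝ) := ⋃ x ∈ Bl, ⋃ y ∈ Bl.filter (fun y => dd x y = 66 * m₁),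
    {w | TT (pw w) x y < TB (pw w) (66 * (66 * m₁)) x y}
  let A6 : Set (Ed → ℝ) := ⋃ x ∈ Bl, ⋃ y ∈ Bl.filter (fun y => dd x y ≤ 66 * m₁),
    {w | TT (pw w) x y < mz μ (y - x) - D}
  let A7 : Set (Ed → ℝ) := ⋃ xs ∈ Bl, ⋃ ys ∈ Bl, ⋃ j ∈ (Finset.range (1000 * n)).filter
      (fun j => S / 2 * 2 ^ j ≤ mz μ (ys - xs)),
    {w | ∃ I : Finset (ℤ × ℤ), I ⊆ Q ∧ I.card = r ∧
      (∀ x ∈ I, ∀ y ∈ I, x ≠ y → 2 * (66 * (66 * m₁) + 2 * m₁) < dd x y) ∧
      ∀ q ∈ I, w ∈ {w | CF μ (66 * m₁) m₁ xs ys (S / 2 * 2 ^ j)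
        (S / 2 * 2 ^ j * m₁ / (4 * n)) q (pw w)}}
  have key := Q69.FL.union7 {w | TT (pw w) 0 v < mz μ v - S} A1 A2 A3 A4 A5 A6 A7 (by
    intro w hw n1 n2 n3 _ n5 n6
    simp only [A2, A3, A5, A6, Set.mem_iUnion, Set.mem_ofPred_eq, exists_prop, not_exists,
      Finset.mem_filter, not_and, not_lt, and_imp, not_le] at n2 n3 n5 n6
    obtain ⟨xs, hxs, ys, hys, j, hj, hE, I, i1, i2, i3, i4⟩ := far_cells h (pw_nonneg w) hn hn1 hm1 hm1
      le_rfl hS1 hD hw n1 n2 n3 n5 n6 hr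
    simp only [A7, Set.mem_iUnion, Finset.mem_filter, Finset.mem_range]
    exact ⟨xs, hxs, ys, hys, j, ⟨hj, hE⟩, I, i1, i2, i3, i4⟩)
  have b1 : nu.real A1 ≤ (133 * (n:ℝ)) ^ 4 * (1 / 2) ^ m₁ := by
    calc _ ≤ ((1:ℝ) / 2) ^ n := bad_le 0 (by omega)
      _ ≤ (1 / 2) ^ m₁ := Q69.FL.half_mono (by omega)
      _ ≤ _ := le_mul_of_one_le_left (by positivity) hN14
  have hcf : ∀ P : (ℤ × ℤ) → Prop, ∀ [DecidablePred P], (Bl.filter P).card ≤ Bl.card :=
    fun P _ => Finset.card_filter_le _ _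
  have hBB : (Bl.card : ℝ) * Bl.card ≤ (133 * (n:ℝ)) ^ 4 := by
    rw [hN4]; exact mul_le_mul hcard hcard (by positivity) (by positivity)
  have pairs : ∀ (P : (ℤ × ℤ) → (ℤ × ℤ) → Prop) [∀ x, DecidablePred (P x)]
      (T : (ℤ × ℤ) → (ℤ × ℤ) → Set (Ed → ℝ)) (p : ℝ), 0 ≤ p → (∀ x y, P x y → nu.real (T x y) ≤ p) →
      nu.real (⋃ x ∈ Bl, ⋃ y ∈ Bl.filter (P x), T x y) ≤ (133 * (n:ℝ)) ^ 4 * p := by
    intro P _ T p hp' hT
    refine (Q69.FL.union_pairs Bl _ T hp' (fun x _ => hcf _) fun x _ y hy => hT x y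
      (Finset.mem_filter.1 hy).2).trans ?_
    rw [← mul_assoc]
    exact mul_le_mul_of_nonneg_right hBB hp'
  have b2 : nu.real A2 ≤ (133 * (n:ℝ)) ^ 4 * (1 / 2) ^ m₁ :=
    pairs (fun x y => dd x y = 66 * m₁) (fun x y => {w | TT (pw w) x y < 3 * (m₁:ℝ)}) _ (by positivity)
      fun x y hxy => (low_le hxy.ge)
  have b3 : nu.real A3 ≤ (133 * (n:ℝ)) ^ 4 * (1 / 2) ^ m₁ :=
    pairs (fun x y => dd x y ≤ 664 * (66 * m₁))
      (fun x y => {w | 3 * ((664 * (66 * m₁) : ℕ) : ℝ) ≤ TT (pw w) x y}) _ (by positivity)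
      fun x y hxy => (straight hxy).trans (Q69.FL.half_mono (by omega))
  have b4 : nu.real A4 = 0 := by simp [A4]
  have b5 : nu.real A5 ≤ (133 * (n:ℝ)) ^ 4 * (2 * (1 / 2) ^ m₁) :=
    pairs (fun x y => dd x y = 66 * m₁)
      (fun x y => {w | TT (pw w) x y < TB (pw w) (66 * (66 * m₁)) x y}) _ (by positivity)
      fun x y hxy => (local_le hxy.le).trans (by
        have e5 : ((1:ℝ) / 2) ^ (66 * m₁) ≤ (1 / 2) ^ m₁ := Q69.FL.half_mono (by omega)
        linarith)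
  have b6 : nu.real A6 ≤ (133 * (n:ℝ)) ^ 4 * d0 :=
    pairs (fun x y => dd x y ≤ 66 * m₁) (fun x y => {w | TT (pw w) x y < mz μ (y - x) - D}) _ hd0
      fun x y hxy => by
        have hd : dd 0 (y - x) = dd x y := dd_sub x y
        have e1 := nu_TT_sh x y (measurableSet_Iio (a := mz μ (y - x) - D))
        have e2 := h5 (y - x) (by rw [hd]; exact hxy)
        have e3 : {w : Ed → ℝ | TT (pw w) x y < mz μ (y - x) - D} =
          {w | TT (pw w) x y ∈ Set.Iio (mz μ (y - x) - D)} := rfl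
        rw [e3, e1]
        exact e2
  set pr : ℝ := ((Q.card : ℝ) * p) ^ r with hpr
  have hpr0 : 0 ≤ pr := by positivity
  have b7 : nu.real A7 ≤ (133 * (n:ℝ)) ^ 4 * (1000 * n * pr) := by
    have hdd : ∀ xs ∈ Bl, ∀ ys ∈ Bl, dd 0 (ys - xs) ≤ 132 * n := by
      intro xs hxs ys hys
      have e1 := mem_ball.1 hxs
      have e2 := mem_ball.1 hys
      have e3 := dd_tri xs 0 ys
      rw [dd_comm xs 0] at e3
      rw [dd_sub]
      omega
    have inner : ∀ xs ∈ Bl, ∀ ys ∈ Bl, nu.real (⋃ j ∈ (Finset.range (1000 * n)).filter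
        (fun j => S / 2 * 2 ^ j ≤ mz μ (ys - xs)),
        {w | ∃ I : Finset (ℤ × ℤ), I ⊆ Q ∧ I.card = r ∧
          (∀ x ∈ I, ∀ y ∈ I, x ≠ y → 2 * (66 * (66 * m₁) + 2 * m₁) < dd x y) ∧
          ∀ q ∈ I, w ∈ {w | CF μ (66 * m₁) m₁ xs ys (S / 2 * 2 ^ j)
            (S / 2 * 2 ^ j * m₁ / (4 * n)) q (pw w)}}) ≤ 1000 * n * pr := by
      intro xs hxs ys hys
      refine (measureReal_biUnion_finset_le _ _).trans ?_
      calc _ ≤ ∑ _j ∈ (Finset.range (1000 * n)).filter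
            (fun j => S / 2 * 2 ^ j ≤ mz μ (ys - xs)), pr := by
            refine Finset.sum_le_sum fun j hj => ?_
            have hE := (Finset.mem_filter.1 hj).2
            refine indep_gen Q (66 * (66 * m₁) + 2 * m₁) r _
              (fun q => measurable_CF _ _ _ _ _ _ _) ?_ ?_ hp0
            · intro q w w' hw hC
              exact CF_dep hm1 hw hC
            · intro q _
              exact CF_le h hE q (hp (ys - xs) j (hdd xs hxs ys hys) hE)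
        _ = (((Finset.range (1000 * n)).filter
            (fun j => S / 2 * 2 ^ j ≤ mz μ (ys - xs))).card : ℝ) * pr := by
            rw [Finset.sum_const, nsmul_eq_mul]
        _ ≤ 1000 * n * pr := by
            refine mul_le_mul_of_nonneg_right ?_ hpr0
            have := Finset.card_filter_le (Finset.range (1000 * n))
              (fun j => S / 2 * 2 ^ j ≤ mz μ (ys - xs))
            rw [Finset.card_range] at this
            exact_mod_cast this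
    refine (measureReal_biUnion_finset_le _ _).trans ?_
    calc _ ≤ ∑ _xs ∈ Bl, ((Bl.card : ℝ) * (1000 * n * pr)) := by
          refine Finset.sum_le_sum fun xs hxs => ?_
          refine (measureReal_biUnion_finset_le _ _).trans ?_
          calc _ ≤ ∑ _ys ∈ Bl, (1000 * n * pr) :=
                Finset.sum_le_sum fun ys hys => inner xs hxs ys hys
            _ = _ := by rw [Finset.sum_const, nsmul_eq_mul]
      _ = ((Bl.card : ℝ) * Bl.card) * (1000 * n * pr) := by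
          rw [Finset.sum_const, nsmul_eq_mul]; ring
      _ ≤ _ := mul_le_mul_of_nonneg_right hBB (by positivity)
  linarith

end Pool.Agent.H948
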