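import Pool.Agent.H948.OuterProb
import Pool.Agent.H948.Core

/-!
# The upper tail controls the lower tail
-/

set_option autoImplicit false

open MeasureTheory ProbabilityTheory Finset Filter
open scoped Topology

namespace Pool.Agent.H948

open Q70.Fp

variable {μ : ℝ × ℝ → ℝ}

/-- the step from one scale to a larger one -/
lemma stepO (h : Shape μ) {a c a' η : ℝ} (ha : 0 < a) (ha1 : a < 1) (ha' : 0 < a') (hη : 0 < η)
    (hη1 : η < 1) (hc : 0 < c) (hca : (1 - η) * c < a') (hδ : 6 * η + 1 < (a' - η) / a)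
    (hH : HH μ a) (hS : Q69.FL.Se μ c) : Q69.FL.Ll μ a' 3 := by
  set τ : ℝ := 1 - η with hτ
  have hτ0 : 0 < τ := by rw [hτ]; linarith
  have hτ1 : τ < 1 := by rw [hτ]; linarith
  set δ : ℝ := (a' - η) / a - 1 - 6 * η with hδdef
  have hδ0 : 0 < δ := by rw [hδdef]; linarith
  have haη : 0 < a' - η := by
    have : 0 < (a' - η) / a := by linarith
    by_contra hcon
    push Not at hcon
    have := div_nonpos_of_nonpos_of_nonneg hcon ha.le
    linarith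
  set r : ℕ := ⌈10 / δ⌉₊ with hr
  have hrδ : 10 ≤ δ * r := by
    have : 10 / δ ≤ r := Nat.le_ceil _
    rw [div_le_iff₀ hδ0] at this
    linarith
  obtain ⟨κ5, c5, C5, hκ5, hc5, hC5, hU⟩ := Q69.FL.unifL h hc hS
  obtain ⟨C1, hC1, h1⟩ := fast_pair h ha ha1 hH
  obtain ⟨C3, hC3, h3⟩ := half_poly (8 / τ) (by positivity)
  obtain ⟨C4, hC4, h4⟩ := exp_poly (8 / (τ * κ5)) (by positivity) hc5
  set K1 : ℝ := C1 * 1000300 ^ 4 * 132 * 16 ^ (1 / a) with hK1
  have hK10 : 0 < K1 := by positivity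
  have tt : Tendsto (fun n : ℕ => (n:ℝ) ^ τ) atTop atTop :=
    (tendsto_rpow_atTop hτ0).comp tendsto_natCast_atTop_atTop
  refine of_ev (P := fun v => nu.real {w | TT (pw w) 0 v < mz μ v - (dd 0 v : ℝ) ^ a'})
    (fun v => measureReal_le_one) (q := 3)
    (C := 133 ^ 4 * 5 * C3 + 133 ^ 4 * (C5 * C4) + 133 ^ 4 * 1000 * (70756 * K1) ^ r)
    (by norm_num) (by positivity) ?_
  filter_upwards [eventually_ge_atTop 1, tt.eventually_ge_atTop 2,
    pow_small (c := 0) (a := a') (K := 500) ha',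
    pow_small (c := τ * c) (a := a') (K := (43825 * r + 1) * 66 ^ c) hca,
    pow_small (c := 0) (a := a' - η) (K := 384) haη] with n hn1 u2 u3 u4 u5 v hv
  rw [Real.rpow_zero, mul_one] at u3 u5
  have hn1' : (1:ℝ) ≤ n := by exact_mod_cast hn1
  have hn0 : (0:ℝ) < n := by linarith
  set t : ℝ := (n:ℝ) ^ τ with ht
  have ht0 : 0 < t := by positivity
  have htn : t ≤ n := by
    calc t ≤ (n:ℝ) ^ (1:ℝ) := Real.rpow_le_rpow_of_exponent_le hn1' hτ1.le
      _ = n := Real.rpow_one _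
  have hne1 : (1:ℝ) ≤ (n:ℝ) ^ η := Real.one_le_rpow hn1' hη.le
  have hnt : (n:ℝ) = (n:ℝ) ^ η * t := by
    rw [ht, ← Real.rpow_add hn0, hτ, show η + (1 - η) = 1 by ring, Real.rpow_one]
  set m₁ : ℕ := ⌊t⌋₊ with hm₁
  have m_up : (m₁:ℝ) ≤ t := Nat.floor_le ht0.le
  have m_lo' : t < m₁ + 1 := Nat.lt_floor_add_one t
  have m_lo : t / 2 ≤ m₁ := by linarith
  have hm1 : 1 ≤ m₁ := by
    have : (1:ℝ) ≤ m₁ := by linarith
    exact_mod_cast this
  have hmn : m₁ ≤ n := by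
    have : (m₁:ℝ) ≤ n := by linarith
    exact_mod_cast this
  have hm0 : (0:ℝ) < m₁ := by exact_mod_cast hm1
  have hnm : (n:ℝ) / m₁ ≤ 2 * (n:ℝ) ^ η := by
    rw [div_le_iff₀ hm0]
    calc (n:ℝ) = (n:ℝ) ^ η * t := hnt
      _ = 2 * (n:ℝ) ^ η * (t / 2) := by ring
      _ ≤ 2 * (n:ℝ) ^ η * m₁ := by gcongr
  set S : ℝ := (n:ℝ) ^ a' with hSdef
  set D : ℝ := ((66 * m₁ : ℕ) : ℝ) ^ c with hD
  have hpush : ((66 * m₁ : ℕ) : ℝ) = 66 * m₁ := by push_cast; ring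
  have D_up : D ≤ 66 ^ c * (n:ℝ) ^ (τ * c) := by
    rw [hD, hpush, Real.rpow_mul hn0.le, ← Real.mul_rpow (by norm_num) ht0.le]
    exact Real.rpow_le_rpow (by positivity) (by linarith) hc.le
  have hD0 : 0 ≤ D := by positivity
  -- the probability of a fast pair
  set p : ℝ := K1 * (n:ℝ) ^ (4 * η + 1 - (a' - η) / a) with hp
  have hp0 : 0 ≤ p := by positivity
  have hfp : ∀ (V : ℤ × ℤ) (j : ℕ), dd 0 V ≤ 132 * n → S / 2 * 2 ^ j ≤ mz μ V →
      nu.real {w | FP μ V (S / 2 * 2 ^ j) (S / 2 * 2 ^ j * m₁ / (4 * n)) (ls μ (em V)) w} ≤ p := by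
    intro V j hV hE
    set E : ℝ := S / 2 * 2 ^ j with hEdef
    have hj1 : (1:ℝ) ≤ 2 ^ j := one_le_pow₀ (by norm_num)
    have hS0 : 0 < S := by linarith
    have hES : S / 2 ≤ E := by rw [hEdef]; nlinarith
    have hE0 : 0 < E := by linarith
    have hmV : 1000 ≤ mz μ V := by linarith
    have hV0 : V ≠ 0 := by
      intro h0
      rw [h0, mz_zero h] at hmV
      linarith
    have hg0 : (n:ℝ) ^ (a' - η) / 16 ≤ E * m₁ / (4 * n) := by
      have e1 : (n:ℝ) ^ (a' - η) = S / (n:ℝ) ^ η := by rw [hSdef, Real.rpow_sub hn0]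
      rw [e1]
      have e2 : S / (n:ℝ) ^ η / 16 = (S / 2) * (t / 2) / (4 * n) := by
        conv_rhs => rw [hnt]
        field_simp
        norm_num
      rw [e2]
      gcongr
    set k : ℕ := 1000000 + ⌈128 * (n:ℝ) / m₁⌉₊ with hk
    have hk1 : 128 * (n:ℝ) / m₁ ≤ k := by
      have := Nat.le_ceil (128 * (n:ℝ) / m₁)
      rw [hk]; push_cast; linarith
    have hk2 : (k:ℝ) ≤ 1000300 * (n:ℝ) ^ η := by
      have e1 := Nat.ceil_lt_add_one (show 0 ≤ 128 * (n:ℝ) / m₁ by positivity)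
      have e2 : 128 * (n:ℝ) / m₁ = 128 * (n / m₁) := by ring
      rw [hk]; push_cast
      rw [e2] at e1 ⊢
      linarith
    have hk0 : (0:ℝ) < k := by
      have : (0:ℝ) < 128 * (n:ℝ) / m₁ := by positivity
      linarith
    have hEk : 32 * E / k ≤ E * m₁ / (4 * n) := by
      rw [div_le_div_iff₀ hk0 (by positivity)]
      have e1 : 128 * (n:ℝ) ≤ k * m₁ := by rwa [div_le_iff₀ hm0] at hk1
      have e2 := mul_le_mul_of_nonneg_left e1 hE0.le
      linarith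
    have main := h1 V hV0 E (E * m₁ / (4 * n)) k hE0.le hE (by linarith) hmV (by omega) hEk
      (ls μ (em V)) (ls_spec h _)
    refine main.trans ?_
    have e1 : (E * m₁ / (4 * n)) ^ (-(1 / a)) ≤ ((n:ℝ) ^ (a' - η) / 16) ^ (-(1 / a)) :=
      Real.rpow_le_rpow_of_nonpos (by positivity) hg0 (by rw [neg_nonpos]; positivity)
    have e2 : ((n:ℝ) ^ (a' - η) / 16) ^ (-(1 / a)) = 16 ^ (1 / a) * (n:ℝ) ^ (-((a' - η) / a)) := by
      rw [Real.div_rpow (by positivity) (by norm_num), ← Real.rpow_mul hn0.le,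
        Real.rpow_neg (by norm_num : (0:ℝ) ≤ 16), div_inv_eq_mul, mul_comm]
      congr 2; ring
    have e3 : (dd 0 V : ℝ) ≤ 132 * n := by exact_mod_cast hV
    calc C1 * ((k:ℝ) ^ 4 * ((dd 0 V : ℝ) * (E * m₁ / (4 * n)) ^ (-(1 / a)))) ≤
        C1 * ((1000300 * (n:ℝ) ^ η) ^ 4 * ((132 * n) *
          (16 ^ (1 / a) * (n:ℝ) ^ (-((a' - η) / a))))) := by
          have e4 := e1.trans (le_of_eq e2)
          gcongr
      _ = K1 * (((n:ℝ) ^ η) ^ 4 * (n * (n:ℝ) ^ (-((a' - η) / a)))) := by rw [hK1]; ring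
      _ = p := by
          rw [hp]
          congr 1
          rw [← Real.rpow_natCast, ← Real.rpow_mul hn0.le]
          conv_lhs => enter [2, 1]; rw [← Real.rpow_one (n : ℝ)]
          rw [← Real.rpow_add hn0, ← Real.rpow_add hn0]
          congr 1; push_cast; ring
  have h5 : ∀ z : ℤ × ℤ, dd 0 z ≤ 66 * m₁ → nu.real {w | TT (pw w) 0 z < mz μ z - D} ≤
      C5 * Real.exp (-(c5 * ((66 * m₁ : ℕ) : ℝ) ^ κ5)) :=
    fun z hz => hU (66 * m₁) (by omega) z hz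
  have hr' : 43825 * (r:ℝ) * D + D ≤ S / 4 := by
    have e1 : 43825 * (r:ℝ) * D + D = (43825 * r + 1) * D := by ring
    rw [e1]
    calc (43825 * (r:ℝ) + 1) * D ≤ (43825 * r + 1) * (66 ^ c * (n:ℝ) ^ (τ * c)) := by gcongr
      _ = (43825 * r + 1) * 66 ^ c * (n:ℝ) ^ (τ * c) := by ring
      _ ≤ S / 4 := u4
  have main := outer_prob h hv hn1 hm1 hmn (by linarith : 2 ≤ S) hD0 hp0 (by positivity) h5 hfp hr'
  rw [hv]
  refine main.trans ?_
  -- the numbers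
  have hn8 : (n:ℝ) ^ 4 * (n:ℝ) ^ (-(8:ℝ)) ≤ (n:ℝ) ^ (-(3:ℝ)) := by
    rw [← Real.rpow_natCast, ← Real.rpow_add hn0]
    exact Real.rpow_le_rpow_of_exponent_le hn1' (by push_cast; norm_num)
  have t1 : (1 / 2 : ℝ) ^ m₁ ≤ C3 * (n:ℝ) ^ (-(8:ℝ)) := by
    refine (h3 m₁).trans ?_
    have e1 : ((m₁:ℝ) + 1) ^ (-(8 / τ)) ≤ t ^ (-(8 / τ)) :=
      Real.rpow_le_rpow_of_nonpos ht0 m_lo'.le (by rw [neg_nonpos]; positivity)
    have e2 : t ^ (-(8 / τ)) = (n:ℝ) ^ (-(8:ℝ)) := by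
      rw [ht, ← Real.rpow_mul hn0.le]; congr 1; field_simp
    rw [e2] at e1
    gcongr
  have t2 : Real.exp (-(c5 * ((66 * m₁ : ℕ) : ℝ) ^ κ5)) ≤ C4 * (n:ℝ) ^ (-(8:ℝ)) := by
    have e0 : t ≤ ((66 * m₁ : ℕ) : ℝ) := by rw [hpush]; linarith
    have e0' : (1:ℝ) ≤ ((66 * m₁ : ℕ) : ℝ) := by linarith
    refine (h4 _ (Real.one_le_rpow e0' hκ5.le)).trans ?_
    have e1 : (((66 * m₁ : ℕ) : ℝ) ^ κ5) ^ (-(8 / (τ * κ5))) ≤ (n:ℝ) ^ (-(8:ℝ)) := by
      rw [← Real.rpow_mul (by linarith)]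
      have e2 : κ5 * -(8 / (τ * κ5)) = -(8 / τ) := by field_simp
      rw [e2]
      have e3 : (((66 * m₁ : ℕ) : ℝ)) ^ (-(8 / τ)) ≤ t ^ (-(8 / τ)) :=
        Real.rpow_le_rpow_of_nonpos ht0 e0 (by rw [neg_nonpos]; positivity)
      refine e3.trans (le_of_eq ?_)
      rw [ht, ← Real.rpow_mul hn0.le]; congr 1; field_simp
    gcongr
  have cQ : (((ball (66 * n) 0).image (Q69.FL.rd m₁)).card : ℝ) ≤ 70756 * (n:ℝ) ^ (2 * η) := by
    have e1 : (((ball (66 * n) 0).image (Q69.FL.rd m₁)).card : ℝ) ≤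
        (2 * ((66 * n / m₁ : ℕ) : ℝ) + 2) ^ 2 := by
      exact_mod_cast Q69.FL.count_rd hm1 (66 * n)
    have e2 : ((66 * n / m₁ : ℕ) : ℝ) ≤ 132 * (n:ℝ) ^ η := by
      refine Nat.cast_div_le.trans ?_
      push_cast
      have : (66:ℝ) * n / m₁ = 66 * (n / m₁) := by ring
      rw [this]
      linarith
    have e3 : 2 * ((66 * n / m₁ : ℕ) : ℝ) + 2 ≤ 266 * (n:ℝ) ^ η := by linarith
    have e4 : ((n:ℝ) ^ η) ^ 2 = (n:ℝ) ^ (2 * η) := by
      rw [← Real.rpow_natCast, ← Real.rpow_mul hn0.le]; congr 1; push_cast; ring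
    calc _ ≤ (2 * ((66 * n / m₁ : ℕ) : ℝ) + 2) ^ 2 := e1
      _ ≤ (266 * (n:ℝ) ^ η) ^ 2 := pow_le_pow_left₀ (by positivity) e3 2
      _ = _ := by
          have e5 : (266:ℝ) ^ 2 = 70756 := by norm_num
          rw [mul_pow, e4, e5]
  have t3 : ((((ball (66 * n) 0).image (Q69.FL.rd m₁)).card : ℝ) * p) ^ r ≤
      (70756 * K1) ^ r * (n:ℝ) ^ (-(10:ℝ)) := by
    have e1 : (((ball (66 * n) 0).image (Q69.FL.rd m₁)).card : ℝ) * p ≤
        70756 * K1 * (n:ℝ) ^ (-δ) := by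
      calc _ ≤ 70756 * (n:ℝ) ^ (2 * η) * p := by gcongr
        _ = 70756 * K1 * ((n:ℝ) ^ (2 * η) * (n:ℝ) ^ (4 * η + 1 - (a' - η) / a)) := by rw [hp]; ring
        _ = _ := by
            rw [← Real.rpow_add hn0]
            congr 2
            rw [hδdef]; ring
    calc _ ≤ (70756 * K1 * (n:ℝ) ^ (-δ)) ^ r :=
          pow_le_pow_left₀ (mul_nonneg (Nat.cast_nonneg _) hp0) e1 r
      _ = (70756 * K1) ^ r * (n:ℝ) ^ (-(δ * r)) := by
          rw [mul_pow, ← Real.rpow_natCast ((n:ℝ) ^ (-δ)), ← Real.rpow_mul hn0.le]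
          congr 2; ring
      _ ≤ _ := by
          have : (n:ℝ) ^ (-(δ * r)) ≤ (n:ℝ) ^ (-(10:ℝ)) :=
            Real.rpow_le_rpow_of_exponent_le hn1' (by linarith)
          gcongr
  have hn10 : (n:ℝ) ^ 4 * (n * (n:ℝ) ^ (-(10:ℝ))) ≤ (n:ℝ) ^ (-(3:ℝ)) := by
    rw [← Real.rpow_natCast]
    conv_lhs => enter [2, 1]; rw [← Real.rpow_one (n : ℝ)]
    rw [← Real.rpow_add hn0, ← Real.rpow_add hn0]
    exact Real.rpow_le_rpow_of_exponent_le hn1' (by push_cast; norm_num)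
  have f1 : (133 * (n:ℝ)) ^ 4 * (5 * (1 / 2) ^ m₁) ≤ 133 ^ 4 * 5 * C3 * (n:ℝ) ^ (-(3:ℝ)) := by
    calc (133 * (n:ℝ)) ^ 4 * (5 * (1 / 2) ^ m₁) ≤ (133 * (n:ℝ)) ^ 4 * (5 * (C3 * (n:ℝ) ^ (-(8:ℝ)))) := by
          gcongr
      _ = 133 ^ 4 * 5 * C3 * ((n:ℝ) ^ 4 * (n:ℝ) ^ (-(8:ℝ))) := by ring
      _ ≤ _ := by gcongr
  have f2 : (133 * (n:ℝ)) ^ 4 * (C5 * Real.exp (-(c5 * ((66 * m₁ : ℕ) : ℝ) ^ κ5))) ≤
      133 ^ 4 * (C5 * C4) * (n:ℝ) ^ (-(3:ℝ)) := by
    calc _ ≤ (133 * (n:ℝ)) ^ 4 * (C5 * (C4 * (n:ℝ) ^ (-(8:ℝ)))) := by gcongr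
      _ = 133 ^ 4 * (C5 * C4) * ((n:ℝ) ^ 4 * (n:ℝ) ^ (-(8:ℝ))) := by ring
      _ ≤ _ := by gcongr
  have f3 : (133 * (n:ℝ)) ^ 4 * (1000 * n *
      ((((ball (66 * n) 0).image (Q69.FL.rd m₁)).card : ℝ) * p) ^ r) ≤
      133 ^ 4 * 1000 * (70756 * K1) ^ r * (n:ℝ) ^ (-(3:ℝ)) := by
    calc _ ≤ (133 * (n:ℝ)) ^ 4 * (1000 * n * ((70756 * K1) ^ r * (n:ℝ) ^ (-(10:ℝ)))) := by gcongr
      _ = 133 ^ 4 * 1000 * (70756 * K1) ^ r * ((n:ℝ) ^ 4 * (n * (n:ℝ) ^ (-(10:ℝ)))) := by ring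
      _ ≤ _ := by gcongr
  rw [mul_add]
  linarith

/-- the upper tail at the exponent `b` gives the lower tail at the exponent `b` -/
theorem lower_of_upper (h : Shape μ) {b : ℝ} (hb : 0 < b) (hH : ∀ a, b < a → HH μ a) :
    ∀ a, b < a → Q69.FL.Se μ a := by
  -- a fixed exponent
  have key : ∀ a s : ℝ, 0 < a → a < s → s < 1 → HH μ a → ∀ c, s < c → Q69.FL.Se μ c := by
    intro a s ha has hs1 hHa
    set η : ℝ := min (1 / 2) ((s - a) / (2 * (6 * a + 1))) with hη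
    have hden : 0 < 2 * (6 * a + 1) := by linarith
    have hη0 : 0 < η := lt_min (by norm_num) (div_pos (by linarith) hden)
    have hη1 : η ≤ 1 / 2 := min_le_left _ _
    have hη2 : η * (2 * (6 * a + 1)) ≤ s - a := by
      rw [← le_div_iff₀ hden]; exact min_le_right _ _
    have iter : ∀ j : ℕ, ∀ c, max s ((1 - η / 2) ^ j) < c → Q69.FL.Se μ c := by
      intro j
      induction j with
      | zero =>
        intro c hc
        have : 1 < c := lt_of_le_of_lt (by rw [pow_zero]; exact le_max_right _ _) hc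
        exact (half h).1 c (by linarith)
      | succ j ih =>
        intro c hc
        obtain ⟨a', ha1, ha2⟩ := exists_between hc
        have hsa : s < a' := lt_of_le_of_lt (le_max_left _ _) ha1
        by_cases hbig : 1 / 2 < c
        · exact (half h).1 c hbig
        push Not at hbig
        -- an exponent for which the bound is known
        have hlt : max s ((1 - η / 2) ^ j) < a' / (1 - η) := by
          have h1η : 0 < 1 - η := by linarith
          rw [lt_div_iff₀ h1η, max_mul_of_nonneg _ _ h1η.le, max_lt_iff]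
          constructor
          · nlinarith
          · have e1 : (1 - η / 2) ^ (j + 1) < a' := lt_of_le_of_lt (le_max_right _ _) ha1
            rw [pow_succ] at e1
            have e2 : 0 < (1 - η / 2) ^ j := pow_pos (by linarith) j
            nlinarith
        obtain ⟨c0, hc0, hc1⟩ := exists_between hlt
        have hS0 := ih c0 hc0
        have hc0pos : 0 < c0 := by
          have : s < c0 := lt_of_le_of_lt (le_max_left _ _) hc0
          linarith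
        have hL := stepO h ha (by linarith) (by linarith : 0 < a') hη0 (by linarith) hc0pos
          (by
            have h1η : 0 < 1 - η := by linarith
            rw [lt_div_iff₀ h1η] at hc1
            linarith)
          (by
            rw [lt_div_iff₀ ha]
            nlinarith) hHa hS0
        exact Q69.FL.boostL h (by linarith) (by linarith) (by norm_num) (by nlinarith) hL ha2
    intro c hc
    have hlim : Tendsto (fun j : ℕ => (1 - η / 2) ^ j) atTop (𝓝 0) :=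
      tendsto_pow_atTop_nhds_zero_of_lt_one (by linarith) (by linarith)
    obtain ⟨j, hj⟩ := (hlim.eventually (gt_mem_nhds (show (0:ℝ) < s by linarith))).exists
    exact iter j c (by rw [max_eq_left hj.le]; exact hc)
  intro a ha
  by_cases hbig : 1 / 2 < a
  · exact (half h).1 a hbig
  push Not at hbig
  obtain ⟨s, hs1, hs2⟩ := exists_between ha
  obtain ⟨a0, h1, h2⟩ := exists_between hs1
  exact key a0 s (by linarith) h2 (by linarith) (hH a0 h1) a hs2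

end Pool.Agent.H948
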