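import Pool.Agent.H948.Net

/-!
# Fast pairs in the region around a segment
-/

set_option autoImplicit false

open MeasureTheory ProbabilityTheory Filter Set
open scoped ENNReal Topology

namespace Pool.Agent.H948

open Q70.Fp
open Q69.FM (mu_add)

variable {μ : ℝ × ℝ → ℝ}

/-- some pair in the region is fast with respect to `ℓ` -/
def FP (μ : ℝ × ℝ → ℝ) (v : ℤ × ℤ) (E g : ℝ) (ℓ : ℝ × ℝ →ₗ[ℝ] ℝ) (w : Ed → ℝ) : Prop :=
  ∃ x y, Rg μ v E x ∧ Rg μ v E y ∧ TT (pw w) x y < ℓ (em y - em x) - g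

/-- the pairs which are served by the base points `x0` and `y0` -/
def Sv (μ : ℝ × ℝ → ℝ) (v : ℤ × ℤ) (E : ℝ) (k : ℕ) (ℓ : ℝ × ℝ →ₗ[ℝ] ℝ) (x0 y0 : ℤ × ℤ)
    (x : (ℤ × ℤ) × (ℤ × ℤ)) : Prop :=
  (Rg μ v E x.1 ∧ Rg μ v E x.2) ∧
    (ef μ ℓ (em x.1 - em x0) ≤ 4 * E / k + 12 ∧ (dd x0 x.1 : ℝ) ≤ dd 0 v / 1000 + 2) ∧
    (ef μ ℓ (em y0 - em x.2) ≤ 4 * E / k + 12 ∧ (dd (x.2 + v) y0 : ℝ) ≤ dd 0 v / 1000 + 2) ∧
    0 ≤ ℓ (em x.2 - em x.1)

lemma em_abs (x y : ℤ × ℤ) : |(em y - em x).1| + |(em y - em x).2| = (dd x y : ℝ) := by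
  rw [dd_real']; rfl

lemma served (h : Shape μ) {a : ℝ} (ha : 0 < a) (ha1 : a < 1) (hH : HH μ a) : ∃ C : ℝ, 0 < C ∧
    ∀ v : ℤ × ℤ, v ≠ 0 → ∀ (E g : ℝ) (k : ℕ), 0 ≤ E → E ≤ mz μ v → 96 ≤ g → 1000 ≤ mz μ v →
      1 ≤ k → 32 * E / k ≤ g → ∀ ℓ, Sup μ (em v) ℓ → ∀ x0 y0 : ℤ × ℤ,
      nu.real {w | ∃ x, Sv μ v E k ℓ x0 y0 x ∧ TT (pw w) x.1 x.2 < ℓ (em x.2 - em x.1) - g} ≤
        C * ((dd 0 v : ℝ) * g ^ (-(1 / a))) := by
  classical
  obtain ⟨C1, hC1, h1⟩ := lower_tailP h ha ha1 hH (B := 52800) (by norm_num)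
  refine ⟨C1 * 402 * 2 ^ (1 / a), by positivity, ?_⟩
  intro v hv E g k hE hEv hg hmv hk hEk ℓ hl x0 y0
  have hn : (1:ℝ) ≤ dd 0 v := by exact_mod_cast dd_pos hv
  set n : ℝ := (dd 0 v : ℝ) with hnn
  have hn22 : n ≤ 22 * mz μ v := by have := mz_low h v; linarith
  have hg0 : 0 < g := by linarith
  have hk0 : (1:ℝ) ≤ k := by exact_mod_cast hk
  by_cases hne : ∃ x, Sv μ v E k ℓ x0 y0 x
  · -- the base vector
    have hbase : ∀ x, Sv μ v E k ℓ x0 y0 x → (dd x0 x.1 : ℝ) ≤ 400 * n ∧ (dd x0 x.2 : ℝ) ≤ 400 * n ∧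
        (dd x0 y0 : ℝ) ≤ 402 * n ∧ mz μ v / 2 ≤ mz μ (y0 - x0) := by
      rintro x ⟨⟨s1, s2⟩, ⟨s3, s4⟩, ⟨s5, s6⟩, s7⟩
      have a1 := Rg_size h hEv s1
      have a2 := Rg_size h hEv s2
      rw [← hnn] at a1 a2 s4 s6
      have a3 : (dd x.1 x.2 : ℝ) ≤ 396 * n := by
        have e1 := dd_tri x.1 0 x.2
        rw [dd_comm x.1 0] at e1
        have e2 : (dd x.1 x.2 : ℝ) ≤ dd 0 x.1 + dd 0 x.2 := by exact_mod_cast e1
        linarith
      have a4 : (dd x0 x.2 : ℝ) ≤ dd x0 x.1 + dd x.1 x.2 := by exact_mod_cast dd_tri x0 x.1 x.2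
      have a5 : (dd x0 y0 : ℝ) ≤ dd x0 x.2 + dd x.2 y0 := by exact_mod_cast dd_tri x0 x.2 y0
      have a6 : (dd x.2 y0 : ℝ) ≤ dd x.2 (x.2 + v) + dd (x.2 + v) y0 := by
        exact_mod_cast dd_tri x.2 (x.2 + v) y0
      rw [dd_add_right, ← hnn] at a6
      refine ⟨by linarith, by linarith, by linarith, ?_⟩
      have e1 : em (y0 - x0) = (em y0 - em (x.2 + v)) + em v + (em x.2 - em x.1) +
          (em x.1 - em x0) := by
        have e2 : em (x.2 + v) = em x.2 + em v := by ext <;> simp [em]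
        rw [em_sub, e2]; abel
      have e2 : ℓ (em (y0 - x0)) ≤ mz μ (y0 - x0) := hl.1 _
      rw [e1, map_add, map_add, map_add, hl.2] at e2
      have e3 := ls_low h hl (em y0 - em (x.2 + v))
      have e4 := ls_low h hl (em x.1 - em x0)
      rw [em_abs] at e3 e4
      have e5 : μ (em v) = mz μ v := rfl
      rw [e5] at e2
      linarith
    obtain ⟨xx, hxx⟩ := hne
    obtain ⟨-, -, hV1, hV2⟩ := hbase xx hxx
    set V := y0 - x0 with hVdef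
    have hV0 : V ≠ 0 := by
      intro h0
      rw [h0, mz_zero h] at hV2
      linarith
    have hV3 : n ≤ 132 * dd 0 V := by
      have e1 := mz_up h V
      linarith
    have hV4 : (dd 0 V : ℝ) ≤ 402 * n := by
      rw [hVdef, dd_sub]; exact hV1
    -- the shifted pairs
    set W0 : Finset ((ℤ × ℤ) × (ℤ × ℤ)) :=
      (ball (198 * dd 0 v) 0 ×ˢ ball (198 * dd 0 v) 0).filter (Sv μ v E k ℓ x0 y0) with hW0
    set W : Finset ((ℤ × ℤ) × (ℤ × ℤ)) := W0.image (fun x => (x.1 - x0, x.2 - x0)) with hWdef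
    set τ : ℤ × ℤ → ℤ × ℤ → ℝ := fun x y => ℓ (em y - em x) - g with hτ
    have hmemW : ∀ x, Sv μ v E k ℓ x0 y0 x → x ∈ W0 := by
      intro x hx
      rw [hW0, Finset.mem_filter, Finset.mem_product]
      have a1 := Rg_size h hEv hx.1.1
      have a2 := Rg_size h hEv hx.1.2
      exact ⟨⟨mem_ball.2 (by exact_mod_cast a1), mem_ball.2 (by exact_mod_cast a2)⟩, hx⟩
    have hW : ∀ x ∈ W, dd 0 x.1 ≤ 52800 * dd 0 V ∧ dd 0 x.2 ≤ 52800 * dd 0 V ∧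
        mz μ x.1 + τ x.1 x.2 + mz μ (V - x.2) ≤ mz μ V - g / 2 := by
      intro x' hx'
      obtain ⟨x, hx, rfl⟩ := Finset.mem_image.1 hx'
      have hS := (Finset.mem_filter.1 hx).2
      obtain ⟨b1, b2, -, -⟩ := hbase x hS
      obtain ⟨⟨s1, s2⟩, ⟨s3, s4⟩, ⟨s5, s6⟩, s7⟩ := hS
      refine ⟨?_, ?_, ?_⟩
      · have : (dd 0 (x.1 - x0) : ℝ) ≤ 52800 * dd 0 V := by rw [dd_sub]; linarith
        exact_mod_cast this
      · have : (dd 0 (x.2 - x0) : ℝ) ≤ 52800 * dd 0 V := by rw [dd_sub]; linarith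
        exact_mod_cast this
      · show mz μ (x.1 - x0) + (ℓ (em (x.2 - x0) - em (x.1 - x0)) - g) + mz μ (V - (x.2 - x0)) ≤
          mz μ V - g / 2
        have e1 : em (x.2 - x0) - em (x.1 - x0) = em x.2 - em x.1 := by
          rw [em_sub, em_sub]; abel
        have e2 : V - (x.2 - x0) = y0 - x.2 := by rw [hVdef]; abel
        have e3 : mz μ (x.1 - x0) = ef μ ℓ (em x.1 - em x0) + ℓ (em x.1 - em x0) := by
          rw [mz_em, em_sub]; unfold ef; ring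
        have e4 : mz μ (y0 - x.2) = ef μ ℓ (em y0 - em x.2) + ℓ (em y0 - em x.2) := by
          rw [mz_em, em_sub]; unfold ef; ring
        have e5 : ℓ (em V) = ℓ (em x.1 - em x0) + ℓ (em x.2 - em x.1) + ℓ (em y0 - em x.2) := by
          rw [← map_add, ← map_add, hVdef, em_sub]; congr 1; abel
        have e6 : ℓ (em V) ≤ mz μ V := hl.1 _
        have e7 : 2 * (4 * E / k + 12) ≤ g / 2 := by
          have : 32 * E / k = 4 * (2 * (4 * E / k)) := by ring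
          rw [this] at hEk
          linarith
        rw [e1, e2, e3, e4]
        linarith
    have main := h1 V hV0 (g / 2) (by linarith) W τ hW
    have hms : MeasurableSet {w : Ed → ℝ | ∃ x ∈ W, TT (pw w) x.1 x.2 < τ x.1 x.2} := by
      have : {w : Ed → ℝ | ∃ x ∈ W, TT (pw w) x.1 x.2 < τ x.1 x.2} =
          ⋃ x ∈ W, {w | TT (pw w) x.1 x.2 < τ x.1 x.2} := by ext w; simp
      rw [this]
      exact Finset.measurableSet_biUnion _ fun u _ => measurableSet_lt (measurable_TT _ _) measurable_const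
    have hsub : {w | ∃ x, Sv μ v E k ℓ x0 y0 x ∧ TT (pw w) x.1 x.2 < ℓ (em x.2 - em x.1) - g} ⊆
        sh x0 ⁻¹' {w : Ed → ℝ | ∃ x ∈ W, TT (pw w) x.1 x.2 < τ x.1 x.2} := by
      rintro w ⟨x, hx, hlt⟩
      refine ⟨(x.1 - x0, x.2 - x0), Finset.mem_image.2 ⟨x, hmemW x hx, rfl⟩, ?_⟩
      show TT (pw (sh x0 w)) (x.1 - x0) (x.2 - x0) < ℓ (em (x.2 - x0) - em (x.1 - x0)) - g
      rw [TT_sh, sub_add_cancel, sub_add_cancel, em_sub, em_sub]
      have e1 : em x.2 - em x0 - (em x.1 - em x0) = em x.2 - em x.1 := by abel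
      rw [e1]; exact hlt
    have e0 : nu.real (sh x0 ⁻¹' {w : Ed → ℝ | ∃ x ∈ W, TT (pw w) x.1 x.2 < τ x.1 x.2}) =
        nu.real {w : Ed → ℝ | ∃ x ∈ W, TT (pw w) x.1 x.2 < τ x.1 x.2} := by
      conv_rhs => rw [← map_sh x0]
      rw [map_measureReal_apply (measurable_sh _) hms]
    refine (measureReal_mono hsub (measure_ne_top nu _)).trans ?_
    rw [e0]
    refine main.trans ?_
    have e1 : (g / 2) ^ (-(1 / a)) = 2 ^ (1 / a) * g ^ (-(1 / a)) := by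
      rw [Real.div_rpow hg0.le (by norm_num), Real.rpow_neg (by norm_num : (0:ℝ) ≤ 2)]
      field_simp
    rw [e1]
    have e2 : 0 < g ^ (-(1 / a)) := by positivity
    calc C1 * ((dd 0 V : ℝ) * (2 ^ (1 / a) * g ^ (-(1 / a)))) ≤
        C1 * ((402 * n) * (2 ^ (1 / a) * g ^ (-(1 / a)))) := by gcongr
      _ = _ := by ring
  · have : {w : Ed → ℝ | ∃ x, Sv μ v E k ℓ x0 y0 x ∧
        TT (pw w) x.1 x.2 < ℓ (em x.2 - em x.1) - g} = ∅ := by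
      ext w
      simp only [Set.mem_ofPred_eq, Set.mem_empty_iff_false, iff_false]
      rintro ⟨x, hx, -⟩
      exact hne ⟨x, hx⟩
    rw [this, measureReal_empty]
    positivity

/-- a fast pair in the region is unlikely -/
lemma fast_pair (h : Shape μ) {a : ℝ} (ha : 0 < a) (ha1 : a < 1) (hH : HH μ a) : ∃ C : ℝ, 0 < C ∧
    ∀ v : ℤ × ℤ, v ≠ 0 → ∀ (E g : ℝ) (k : ℕ), 0 ≤ E → E ≤ mz μ v → 96 ≤ g → 1000 ≤ mz μ v →
      1000000 ≤ k → 32 * E / k ≤ g → ∀ ℓ, Sup μ (em v) ℓ →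
      nu.real {w | FP μ v E g ℓ w} ≤ C * ((k:ℝ) ^ 4 * ((dd 0 v : ℝ) * g ^ (-(1 / a)))) := by
  classical
  obtain ⟨C1, hC1, h1⟩ := served h ha ha1 hH
  refine ⟨3000 ^ 4 * C1, by positivity, ?_⟩
  intro v hv E g k hE hEv hg hmv hk hEk ℓ hl
  obtain ⟨N, hN1, hN2, hN3⟩ := net h hv hE hEv hk hl
  have hk0 : (0:ℝ) ≤ k := Nat.cast_nonneg k
  have hsub : {w | FP μ v E g ℓ w} ⊆ ⋃ x0 ∈ N, ⋃ y0 ∈ N,
      {w | ∃ x, Sv μ v E k ℓ x0 y0 x ∧ TT (pw w) x.1 x.2 < ℓ (em x.2 - em x.1) - g} := by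
    rintro w ⟨x, y, hx, hy, hlt⟩
    obtain ⟨x0, m1, m2, m3⟩ := hN2 x hx
    obtain ⟨y0, m4, m5, m6⟩ := hN3 y hy
    simp only [Set.mem_iUnion]
    refine ⟨x0, m1, y0, m4, (x, y), ⟨⟨hx, hy⟩, ⟨m2, m3⟩, ⟨m5, m6⟩, ?_⟩, hlt⟩
    have e1 := TT_nonneg (pw_nonneg w) x y
    show 0 ≤ ℓ (em y - em x)
    linarith
  set p : ℝ := C1 * ((dd 0 v : ℝ) * g ^ (-(1 / a))) with hp
  have hg0 : 0 < g := by linarith
  have hp0 : 0 ≤ p := by positivity
  refine (measureReal_mono hsub (measure_ne_top nu _)).trans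
    ((measureReal_biUnion_finset_le _ _).trans ?_)
  calc _ ≤ ∑ _x0 ∈ N, ((N.card : ℝ) * p) := by
        refine Finset.sum_le_sum fun x0 _ => ?_
        refine (measureReal_biUnion_finset_le _ _).trans ?_
        calc _ ≤ ∑ _y0 ∈ N, p := Finset.sum_le_sum fun y0 _ =>
              h1 v hv E g k hE hEv hg hmv (by omega) hEk ℓ hl x0 y0
          _ = _ := by rw [Finset.sum_const, nsmul_eq_mul]
    _ = (N.card : ℝ) * ((N.card : ℝ) * p) := by rw [Finset.sum_const, nsmul_eq_mul]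
    _ ≤ (3000 * k) ^ 2 * ((3000 * k) ^ 2 * p) := by gcongr
    _ = _ := by rw [hp]; ring

lemma measurable_FP (h : Shape μ) (v : ℤ × ℤ) {E : ℝ} (hE : E ≤ mz μ v) (g : ℝ)
    (ℓ : ℝ × ℝ →ₗ[ℝ] ℝ) : MeasurableSet {w | FP μ v E g ℓ w} := by
  classical
  have : {w | FP μ v E g ℓ w} = ⋃ x ∈ (ball (198 * dd 0 v) 0).filter (Rg μ v E),
      ⋃ y ∈ (ball (198 * dd 0 v) 0).filter (Rg μ v E), {w | TT (pw w) x y < ℓ (em y - em x) - g} := by
    ext w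
    simp only [FP, Set.mem_ofPred_eq, Set.mem_iUnion, Finset.mem_filter, exists_prop, mem_ball]
    constructor
    · rintro ⟨x, y, hx, hy, hlt⟩
      have a1 := Rg_size h hE hx
      have a2 := Rg_size h hE hy
      exact ⟨x, ⟨by exact_mod_cast a1, hx⟩, y, ⟨by exact_mod_cast a2, hy⟩, hlt⟩
    · rintro ⟨x, ⟨-, hx⟩, y, ⟨-, hy⟩, hlt⟩
      exact ⟨x, y, hx, hy, hlt⟩
  rw [this]
  exact Finset.measurableSet_biUnion _ fun x _ => Finset.measurableSet_biUnion _ fun y _ =>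
    measurableSet_lt (measurable_TT _ _) measurable_const

end Pool.Agent.H948
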