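import Pool.Agent.H948.Core

/-!
# Opposite directions: symmetry, box events, independence, existence of a centre
-/

set_option autoImplicit false

open MeasureTheory ProbabilityTheory Filter Set
open scoped ENNReal Topology

namespace Pool.Agent.H948

open Q70.Fp
open Q69.FL (Se Ll)

variable {μ : ℝ × ℝ → ℝ}

/-! ### reversal and symmetry -/

lemma isW_rev {x y : ℤ × ℤ} {n : ℕ} {p : ℕ → ℤ × ℤ} (h : IsW x y n p) :
    IsW y x n (fun i => p (n - i)) := by
  refine ⟨by simpa using h.2.1, by simpa using h.1, fun i hi => ?_⟩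
  have h1 := h.2.2 (n - i - 1) (by omega)
  have e1 : n - i - 1 + 1 = n - i := by omega
  have e2 : n - (i + 1) = n - i - 1 := by omega
  rw [e1] at h1
  show Adj (p (n - i)) (p (n - (i + 1)))
  rw [e2, adj_iff, dd_comm, ← adj_iff]
  exact h1

lemma Wt_rev (w : Ed → ℝ) (p : ℕ → ℤ × ℤ) (n : ℕ) : Wt w (fun i => p (n - i)) n = Wt w p n := by
  unfold Wt
  rw [← Finset.sum_range_reflect]
  refine Finset.sum_congr rfl fun i hi => ?_
  rw [Finset.mem_range] at hi
  have e1 : n - (n - 1 - i) = i + 1 := by omega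
  have e2 : n - (n - 1 - i + 1) = i := by omega
  show w s(p (n - (n - 1 - i)), p (n - (n - 1 - i + 1))) = w s(p i, p (i + 1))
  rw [e1, e2, Sym2.eq_swap]

lemma TT_symm (w : Ed → ℝ) (x y : ℤ × ℤ) : TT w x y = TT w y x := by
  have key : ∀ x y : ℤ × ℤ, {s : ℝ | ∃ n p, IsW x y n p ∧ s = Wt w p n} ⊆
      {s : ℝ | ∃ n p, IsW y x n p ∧ s = Wt w p n} := by
    rintro x y s ⟨n, p, h, rfl⟩
    exact ⟨n, _, isW_rev h, (Wt_rev w p n).symm⟩
  unfold TT
  rw [Subset.antisymm (key x y) (key y x)]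

lemma nu_neg (v : ℤ × ℤ) {S : Set ℝ} (hS : MeasurableSet S) :
    nu.real {w | TT (pw w) 0 (-v) ∈ S} = nu.real {w | TT (pw w) 0 v ∈ S} := by
  have h1 := nu_TT_sh v 0 hS
  rw [zero_sub] at h1
  rw [← h1]
  simp only [TT_symm _ v 0]

lemma mz_neg (h : Shape μ) (v : ℤ × ℤ) : mz μ (-v) = mz μ v := by
  have key : ∀ v : ℤ × ℤ, mz μ (-v) ≤ mz μ v := by
    intro v
    refine le_of_forall_pos_le_add fun ε hε => ?_
    have hε3 : 0 < ε / 2 := by positivity
    have hA := prob_lim h v hε3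
    have hB := prob_lim h (-v) hε3
    have hB' : ∀ n : ℕ, nu.real {w | ε / 2 ≤ |TT (pw w) 0 ((n : ℤ) • (-v)) / (n : ℝ) - mz μ (-v)|} =
        nu.real {w | ε / 2 ≤ |TT (pw w) 0 ((n : ℤ) • v) / (n : ℝ) - mz μ (-v)|} := by
      intro n
      have hS : MeasurableSet {s : ℝ | ε / 2 ≤ |s / (n : ℝ) - mz μ (-v)|} := by
        apply measurableSet_le measurable_const
        fun_prop
      have h1 := nu_neg ((n : ℤ) • v) hS
      rw [← smul_neg] at h1
      exact h1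
    simp only [hB'] at hB
    have hlim := (hA.add hB).add (tendsto_const_nhds (x := (0:ℝ)))
    simp only [add_zero] at hlim
    obtain ⟨n, hn⟩ := (hlim.eventually (gt_mem_nhds one_pos)).exists
    obtain ⟨w, h1, h2, -⟩ := exists_out _ _ (∅ : Set (Ed → ℝ)) (by simpa using hn)
    simp only [mem_ofPred_eq, not_le] at h1 h2
    rw [abs_lt] at h1 h2
    linarith [h1.1, h1.2, h2.1, h2.2]
  refine le_antisymm (key v) ?_
  have := key (-v)
  rwa [neg_neg] at this

/-! ### box events -/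

lemma sum_pairs (m : ℕ) (T : (ℤ × ℤ) → (ℤ × ℤ) → Set (Ed → ℝ)) {p : ℝ} (hp0 : 0 ≤ p)
    (hp : ∀ x ∈ ball m 0, ∀ y ∈ ball m 0, nu.real (T x y) ≤ p) :
    nu.real {w | ∃ x ∈ ball m 0, ∃ y ∈ ball m 0, w ∈ T x y} ≤ (2 * (m:ℝ) + 1) ^ 4 * p := by
  have h1 : {w : Ed → ℝ | ∃ x ∈ ball m 0, ∃ y ∈ ball m 0, w ∈ T x y} =
      ⋃ x ∈ ball m 0, ⋃ y ∈ ball m 0, T x y := by
    ext w; simp
  rw [h1]
  have h2 := Q69.FL.union_pairs (ball m 0) (fun _ => ball m 0) T (c := (2 * m + 1) ^ 2) (p := p) hp0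
    (fun x _ => card_ball m) hp
  refine h2.trans ?_
  have h3 : ((ball m 0).card : ℝ) ≤ (2 * (m:ℝ) + 1) ^ 2 := by
    have := card_ball m
    exact_mod_cast this
  have h4 : (((2 * m + 1) ^ 2 : ℕ) : ℝ) = (2 * (m:ℝ) + 1) ^ 2 := by push_cast; ring
  rw [h4]
  calc ((ball m 0).card : ℝ) * ((2 * (m:ℝ) + 1) ^ 2 * p) ≤
      (2 * (m:ℝ) + 1) ^ 2 * ((2 * (m:ℝ) + 1) ^ 2 * p) := by gcongr
    _ = _ := by ring

/-- both one-sided bounds at all exponents above `b` -/
def Both (μ : ℝ × ℝ → ℝ) (b : ℝ) : Prop := (∀ a, b < a → Se μ a) ∧ (∀ a, b < a → HH μ a)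

/-- a stretched exponential is smaller than a power -/
lemma exp_small {κ c q : ℝ} (hκ : 0 < κ) (hc : 0 < c) (hq : 0 < q) :
    ∃ C : ℝ, 0 < C ∧ ∀ x : ℝ, 1 ≤ x → Real.exp (-(c * x ^ κ)) ≤ C * x ^ (-q) := by
  obtain ⟨C, hC, h⟩ := exp_poly (q / κ) (by positivity) hc
  refine ⟨C, hC, fun x hx => ?_⟩
  have := h (x ^ κ) (Real.one_le_rpow hx hκ.le)
  rwa [← Real.rpow_mul (by linarith), show κ * -(q / κ) = -q by field_simp] at this

lemma one_point (h : Shape μ) {a : ℝ} (ha : 0 < a) (hS : Se μ a) (hH : HH μ a) {q : ℝ}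
    (hq : 0 < q) : ∃ C : ℝ, 0 < C ∧ ∀ m : ℕ, 1 ≤ m → ∀ z, dd 0 z ≤ m →
      nu.real {w | (m:ℝ) ^ a < |TT (pw w) 0 z - mz μ z|} ≤ C * (m:ℝ) ^ (-q) := by
  obtain ⟨κ, c, C1, hκ, hc, hC1, h1⟩ := Q69.FL.unifL h ha hS
  have hmin : 0 < min a 1 := lt_min ha one_pos
  obtain ⟨C2, hC2, h2⟩ := unif h ha (δ := q / min a 1) (by positivity) (hH _ (by positivity))
  obtain ⟨C3, hC3, h3⟩ := exp_small hκ hc hq
  refine ⟨C1 * C3 + C2, by positivity, fun m hm z hz => ?_⟩
  have hm1 : (1:ℝ) ≤ m := by exact_mod_cast hm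
  have e1 := h1 m hm z hz
  have e2 := h2 m hm z hz
  rw [show -(q / min a 1 * min a 1) = -q by field_simp] at e2
  have e3 := h3 m hm1
  have hsub : {w : Ed → ℝ | (m:ℝ) ^ a < |TT (pw w) 0 z - mz μ z|} ⊆
      {w | TT (pw w) 0 z < mz μ z - (m:ℝ) ^ a} ∪ {w | mz μ z + (m:ℝ) ^ a < TT (pw w) 0 z} := by
    intro w hw
    rcases lt_abs.1 (show (m:ℝ) ^ a < |TT (pw w) 0 z - mz μ z| from hw) with h | h
    · right; show mz μ z + (m:ℝ) ^ a < TT (pw w) 0 z; linarith
    · left; show TT (pw w) 0 z < mz μ z - (m:ℝ) ^ a; linarith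
  refine (measureReal_mono hsub (measure_ne_top _ _)).trans ((measureReal_union_le _ _).trans ?_)
  have e4 : C1 * Real.exp (-(c * (m:ℝ) ^ κ)) ≤ C1 * (C3 * (m:ℝ) ^ (-q)) := by gcongr
  linarith

/-- all passage times in a box are close to the time constant -/
lemma box_event (h : Shape μ) {a : ℝ} (ha : 0 < a) (hS : Se μ a) (hH : HH μ a) {q : ℝ}
    (hq : 0 < q) : ∃ C : ℝ, 0 < C ∧ ∀ m : ℕ, 1 ≤ m →
      nu.real {w | ∃ x ∈ ball m 0, ∃ y ∈ ball m 0,
        ((2 * m : ℕ) : ℝ) ^ a < |TT (pw w) x y - mz μ (y - x)|} ≤ C * (m:ℝ) ^ (-q) := by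
  obtain ⟨C, hC, h1⟩ := one_point h ha hS hH (q := q + 4) (by linarith)
  refine ⟨81 * C, by positivity, fun m hm => ?_⟩
  have hm1 : (1:ℝ) ≤ m := by exact_mod_cast hm
  have hm0 : (0:ℝ) < m := by linarith
  have h2 := sum_pairs m (fun x y => {w : Ed → ℝ | ((2 * m : ℕ) : ℝ) ^ a <
    |TT (pw w) x y - mz μ (y - x)|}) (p := C * ((2 * m : ℕ):ℝ) ^ (-(q + 4))) (by positivity) (by
      intro x hx y hy
      rw [mem_ball] at hx hy
      have hS : MeasurableSet {s : ℝ | ((2 * m : ℕ) : ℝ) ^ a < |s - mz μ (y - x)|} := by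
        apply measurableSet_lt measurable_const
        fun_prop
      have e1 := nu_TT_sh x y hS
      have e2 := h1 (2 * m) (by omega) (y - x) (by
        have e3 : dd 0 (y - x) = dd x y := by
          have := dd_add 0 (y - x) x
          rw [zero_add, sub_add_cancel] at this
          exact this.symm
        rw [e3]
        have := dd_tri x 0 y
        have := dd_comm x 0
        omega)
      exact (le_of_eq e1).trans e2)
  refine h2.trans ?_
  have e4 : ((2 * m : ℕ):ℝ) ^ (-(q + 4)) ≤ (m:ℝ) ^ (-(q + 4)) := by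
    apply Real.rpow_le_rpow_of_nonpos hm0
    · push_cast; linarith
    · linarith
  have e5 : (2 * (m:ℝ) + 1) ^ 4 ≤ 81 * (m:ℝ) ^ 4 := by
    have : (2 * (m:ℝ) + 1) ^ 4 ≤ (3 * (m:ℝ)) ^ 4 := by gcongr; linarith
    calc _ ≤ _ := this
      _ = _ := by ring
  have e6 : (m:ℝ) ^ 4 * (m:ℝ) ^ (-(q + 4)) = (m:ℝ) ^ (-q) := by
    rw [← Real.rpow_natCast, ← Real.rpow_add hm0]
    congr 1; push_cast; ring
  calc (2 * (m:ℝ) + 1) ^ 4 * (C * ((2 * m : ℕ):ℝ) ^ (-(q + 4)))
      ≤ (81 * (m:ℝ) ^ 4) * (C * (m:ℝ) ^ (-(q + 4))) := by gcongr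
    _ = 81 * C * ((m:ℝ) ^ 4 * (m:ℝ) ^ (-(q + 4))) := by ring
    _ = _ := by rw [e6]

/-- nearly optimal walks from the origin stay in a ball -/
lemma stay_ball {v : ℤ × ℤ} (hv : v ≠ 0) : nu.real {w | ∃ n p, IsW 0 v n p ∧
    Wt (pw w) p n ≤ TT (pw w) 0 v + 1 ∧ ∃ i ≤ n, 132 * dd 0 v < dd 0 (p i)} ≤
      2 * (1 / 2) ^ dd 0 v := by
  have hn := dd_pos hv
  have h1 := straight (x := 0) (y := v) le_rfl
  have h2 := bad_le 0 (R := 132 * dd 0 v + 1) (m := 2 * dd 0 v) (by omega)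
  have hsub : {w : Ed → ℝ | ∃ n p, IsW 0 v n p ∧ Wt (pw w) p n ≤ TT (pw w) 0 v + 1 ∧
      ∃ i ≤ n, 132 * dd 0 v < dd 0 (p i)} ⊆ {w | 3 * (dd 0 v : ℝ) ≤ TT (pw w) 0 v} ∪
      {w | Bad (pw w) 0 (132 * dd 0 v + 1) (3 * ((2 * dd 0 v : ℕ) : ℝ))} := by
    rintro w ⟨n, p, hp, hw, i, hi, hd⟩
    by_cases h3 : 3 * (dd 0 v : ℝ) ≤ TT (pw w) 0 v
    · left; exact h3
    · right
      push Not at h3
      obtain ⟨q, e1, e2, e3, e4⟩ := bad_of_exit (pw_nonneg w) hp hi hd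
      refine ⟨q, e1, e2, e3, e4.trans ?_⟩
      have : (1:ℝ) ≤ dd 0 v := by exact_mod_cast hn
      push_cast
      linarith
  refine (measureReal_mono hsub (measure_ne_top _ _)).trans ((measureReal_union_le _ _).trans ?_)
  have h3 : ((1:ℝ) / 2) ^ (2 * dd 0 v) ≤ (1 / 2) ^ dd 0 v := Q69.FL.half_mono (by omega)
  linarith

/-! ### independence and existence of a centre -/

lemma indep_set {f g : (Ed → ℝ) → ℝ} (S : Set Ed)
    (hf : Measurable f) (hg : Measurable g)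
    (hfS : ∀ w w', (∀ e ∈ S, w e = w' e) → f w = f w')
    (hgS : ∀ w w', (∀ e ∈ Sᶜ, w e = w' e) → g w = g w') : IndepFun f g nu := by
  classical
  have hind : iIndepFun (fun (e : Ed) (w : Ed → ℝ) => w e) nu :=
    iIndepFun_infinitePi (P := fun _ => expMeasure 1) (X := fun _ x => x) (fun _ => measurable_id)
  have h1 := indep_iSup_of_disjoint (fun e => (measurable_pi_apply e).comap_le) hind.iIndep
    (disjoint_compl_right : Disjoint S Sᶜ)
  have key : ∀ (U : Set Ed) (k : (Ed → ℝ) → ℝ), Measurable k →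
      (∀ w w', (∀ e ∈ U, w e = w' e) → k w = k w') →
      MeasurableSpace.comap k inferInstance ≤
        ⨆ e ∈ U, MeasurableSpace.comap (fun w : Ed → ℝ => w e) inferInstance := by
    intro U k hk hkU
    have h2 : k = k ∘ (fun (w : Ed → ℝ) (e : Ed) => if e ∈ U then w e else 0) := by
      funext w
      refine hkU _ _ fun e he => ?_
      simp [he]
    rw [h2, ← MeasurableSpace.comap_comp]
    refine (MeasurableSpace.comap_mono hk.comap_le).trans ?_
    rw [← measurable_iff_comap_le]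
    refine @measurable_pi_lambda _ _ _ (⨆ e ∈ U,
      MeasurableSpace.comap (fun w : Ed → ℝ => w e) inferInstance) _ _ fun e => ?_
    by_cases he : e ∈ U
    · simp only [he, if_true]
      rw [measurable_iff_comap_le]
      exact le_iSup₂ (f := fun e (_ : e ∈ U) =>
        MeasurableSpace.comap (fun w : Ed → ℝ => w e) inferInstance) e he
    · simp only [he, if_false]
      exact measurable_const
  exact indep_of_indep_of_le_left (indep_of_indep_of_le_right h1 (key _ g hg hgS)) (key _ f hf hfS)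

/-- an independent variable may be replaced by a constant -/
lemma exists_centre {f g : (Ed → ℝ) → ℝ} (hf : Measurable f) (hg : Measurable g)
    (hI : IndepFun f g nu) (s : ℝ) :
    ∃ m : ℝ, nu.real {w | s < |f w - m|} ≤ nu.real {w | s < |f w - g w|} := by
  have hD : MeasurableSet {z : ℝ × ℝ | s < |z.1 - z.2|} := by
    apply measurableSet_lt measurable_const
    fun_prop
  have h1 : nu {w | s < |f w - g w|} = (nu.map (fun w => (f w, g w))) {z : ℝ × ℝ | s < |z.1 - z.2|} := by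
    rw [Measure.map_apply (hf.prodMk hg) hD]
    rfl
  rw [(indepFun_iff_map_prod_eq_prod_map_map hf.aemeasurable hg.aemeasurable).1 hI] at h1
  have : IsProbabilityMeasure (nu.map f) := Measure.isProbabilityMeasure_map hf.aemeasurable
  have : IsProbabilityMeasure (nu.map g) := Measure.isProbabilityMeasure_map hg.aemeasurable
  rw [Measure.prod_apply_symm hD] at h1
  obtain ⟨m, hm⟩ := exists_le_lintegral (μ := nu.map g)
    (f := fun y => (nu.map f) ((fun x => (x, y)) ⁻¹' {z : ℝ × ℝ | s < |z.1 - z.2|}))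
    (measurable_measure_prodMk_right hD).aemeasurable
  rw [← h1] at hm
  refine ⟨m, ?_⟩
  have h2 : (nu.map f) ((fun x => (x, m)) ⁻¹' {z : ℝ × ℝ | s < |z.1 - z.2|}) =
      nu {w | s < |f w - m|} := by
    rw [Measure.map_apply hf]
    · rfl
    · exact measurable_prodMk_right hD
  rw [h2] at hm
  exact ENNReal.toReal_mono (measure_ne_top _ _) hm

end Pool.Agent.H948
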