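import Pool.Agent.H948.OppStep

/-!
# An almost symmetric cluster gives close passage times in opposite directions
-/

set_option autoImplicit false

open MeasureTheory ProbabilityTheory Filter Set
open scoped ENNReal Topology

namespace Pool.Agent.H948

open Q70.Fp
open Q69.FL (Se Ll)

variable {μ : ℝ × ℝ → ℝ}

/-- the cluster at time `t` contains `v` but no point near `-v` -/
def Asym (s t : ℝ) : Set (Ed → ℝ) :=
  {w | ∃ v : ℤ × ℤ, TT (pw w) 0 v ≤ t ∧ ∀ u : ℤ × ℤ, TT (pw w) 0 u ≤ t → s < (dd u (-v) : ℝ)}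

lemma measurable_Asym (s t : ℝ) : MeasurableSet (Asym s t) := by
  have : Asym s t = ⋃ v : ℤ × ℤ, ({w : Ed → ℝ | TT (pw w) 0 v ≤ t} ∩
      ⋂ u : ℤ × ℤ, ({w : Ed → ℝ | ¬ TT (pw w) 0 u ≤ t} ∪ {w : Ed → ℝ | s < (dd u (-v) : ℝ)})) := by
    ext w
    simp only [Asym, mem_ofPred_eq, mem_iUnion, mem_inter_iff, mem_iInter, mem_union]
    constructor
    · rintro ⟨v, h1, h2⟩
      exact ⟨v, h1, fun u => by by_cases h : TT (pw w) 0 u ≤ t
                                · right; exact h2 u h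
                                · left; exact h⟩
    · rintro ⟨v, h1, h2⟩
      exact ⟨v, h1, fun u hu => (h2 u).resolve_left fun h => h hu⟩
  rw [this]
  refine MeasurableSet.iUnion fun v => MeasurableSet.inter
    (measurableSet_le (measurable_TT 0 v) measurable_const) ?_
  refine MeasurableSet.iInter fun u => MeasurableSet.union
    (measurableSet_le (measurable_TT 0 u) measurable_const).compl ?_
  exact MeasurableSet.const _

/-- pairs of points at distance at most `k` -/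
lemma near_pairs (m k : ℕ) : nu.real {w | ∃ x ∈ ball m 0, ∃ y ∈ ball m 0, dd x y ≤ k ∧
    3 * (k:ℝ) ≤ TT (pw w) x y} ≤ (2 * (m:ℝ) + 1) ^ 4 * (1 / 2) ^ k := by
  have h2 := sum_pairs m (fun x y => {w : Ed → ℝ | dd x y ≤ k ∧ 3 * (k:ℝ) ≤ TT (pw w) x y})
    (p := (1 / 2) ^ k) (by positivity) (by
      intro x _ y _
      by_cases h : dd x y ≤ k
      · refine (measureReal_mono ?_ (measure_ne_top _ _)).trans (straight h)
        intro w hw
        exact hw.2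
      · have : {w : Ed → ℝ | dd x y ≤ k ∧ 3 * (k:ℝ) ≤ TT (pw w) x y} = ∅ := by
          ext w
          simp [h]
        rw [this]
        simp only [measureReal_empty]
        positivity)
  exact h2

/-- one direction, on a good event -/
lemma one_dir {w : Ed → ℝ} {v : ℤ × ℤ} {n k : ℕ} {f : ℝ → ℝ} {t0 : ℝ}
    (hv : dd 0 v = n) (hf : ∀ t : ℕ, (t:ℝ) ≤ 3 * n → f t ≤ k) (hk : k ≤ n)
    (G1 : TT (pw w) 0 v < 3 * (n:ℝ)) (G2 : t0 ≤ TT (pw w) 0 v)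
    (G3 : ∀ t : ℕ, t0 ≤ (t:ℝ) → (t:ℝ) ≤ 3 * n → w ∉ Asym (f t) t)
    (G4 : ∀ x ∈ ball (2 * n) 0, ∀ y ∈ ball (2 * n) 0, dd x y ≤ k → TT (pw w) x y < 3 * (k:ℝ)) :
    TT (pw w) 0 (-v) ≤ TT (pw w) 0 v + 1 + 3 * (k:ℝ) := by
  set t : ℕ := ⌈TT (pw w) 0 v⌉₊ with ht
  have h0 := TT_nonneg (pw_nonneg w) 0 v
  have ht1 : TT (pw w) 0 v ≤ (t:ℝ) := Nat.le_ceil _
  have ht2 : (t:ℝ) ≤ TT (pw w) 0 v + 1 := (Nat.ceil_lt_add_one h0).le
  have ht3 : t ≤ 3 * n := by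
    rw [ht]
    refine Nat.ceil_le.2 ?_
    push_cast
    exact G1.le
  have ht4 : (t:ℝ) ≤ 3 * n := by exact_mod_cast ht3
  have h1 := G3 t (G2.trans ht1) ht4
  have h2 : ∃ u : ℤ × ℤ, TT (pw w) 0 u ≤ t ∧ (dd u (-v) : ℝ) ≤ f t := by
    by_contra hc
    push Not at hc
    exact h1 ⟨v, ht1, hc⟩
  obtain ⟨u, hu1, hu2⟩ := h2
  have hu3 : dd u (-v) ≤ k := by
    have := hu2.trans (hf t ht4)
    exact_mod_cast this
  have hvn : dd 0 (-v) = n := by rw [dd_neg]; exact hv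
  have hu4 : dd 0 u ≤ 2 * n := by
    have e1 := dd_tri 0 (-v) u
    have e2 := dd_comm u (-v)
    omega
  have h3 := G4 u (mem_ball.2 hu4) (-v) (mem_ball.2 (by omega)) hu3
  have h4 := TT_tri (pw_nonneg w) 0 u (-v)
  linarith

theorem diff_of_sym {b : ℝ} (hb : 0 < b) (hb1 : b < 1)
    (H : ∀ ζ : ℝ, 0 < ζ → ζ < 1 - b → ∃ C : ℝ, ∀ᶠ t : ℕ in atTop,
      nu.real (Asym ((t:ℝ) ^ (b + ζ)) t) ≤ C * (t:ℝ) ^ (-(4 - 3 * b))) : Diff b := by
  -- small `ζ` is enough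
  have main : ∀ ζ : ℝ, 0 < ζ → ζ < 1 - b → ∃ C : ℝ, 0 < C ∧ ∀ v : ℤ × ℤ, v ≠ 0 →
      nu.real {w | (dd 0 v : ℝ) ^ (b + ζ) < |TT (pw w) 0 v - TT (pw w) 0 (-v)|} ≤
        C * (dd 0 v : ℝ) ^ (-(3 * (1 - b))) := by
    intro ζ hζ hζ1
    obtain ⟨C0, hC0⟩ := H (ζ / 2) (by linarith) (by linarith)
    obtain ⟨C3, hC3, hhalf⟩ := half_poly 3 (by norm_num)
    obtain ⟨C4, hC4, hexp⟩ := half_poly (7 / b) (by positivity)
    set C1 : ℝ := max C0 1 with hC1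
    have hC11 : 1 ≤ C1 := le_max_right _ _
    obtain ⟨T0, hT0⟩ := eventually_atTop.1 hC0
    refine of_ev (q := 3 * (1 - b)) (C := 4 * C1 * 132 ^ (4 - 3 * b) + 10 ^ 4 * C4 + 2 * C3 +
      2 * C3 * 66 ^ (3:ℝ)) (fun v => measureReal_le_one) (by linarith) (by positivity) ?_
    have k1 := pow_small (c := b + ζ / 2) (a := b + ζ) (K := 48 * 3 ^ (b + ζ / 2)) (by linarith)
    have k2 := pow_small (c := 0) (a := b + ζ) (K := 64) (by linarith)
    have k3 := pow_small (c := b + ζ) (a := 1) (K := 1) (by linarith)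
    filter_upwards [k1, k2, k3, eventually_ge_atTop (max 66 (66 * T0 + 66))] with n k1 k2 k3 hn1 v hv
    have hn66 : 66 ≤ n := (le_max_left _ _).trans hn1
    have hnT : 66 * T0 + 66 ≤ n := (le_max_right _ _).trans hn1
    rw [Real.rpow_zero] at k2
    rw [Real.rpow_one] at k3
    have hn : (1:ℝ) ≤ n := by exact_mod_cast (show 1 ≤ n by omega)
    have hn0 : (0:ℝ) < n := by linarith
    have hvn : (dd 0 v : ℝ) = n := by exact_mod_cast hv
    rw [hvn]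
    set k : ℕ := ⌈((3 * n : ℕ) : ℝ) ^ (b + ζ / 2)⌉₊ with hk
    have hk1 : ((3 * n : ℕ) : ℝ) ^ (b + ζ / 2) ≤ k := Nat.le_ceil _
    have hk2 : (k:ℝ) ≤ 3 ^ (b + ζ / 2) * (n:ℝ) ^ (b + ζ / 2) + 1 := by
      rw [← Real.mul_rpow (by norm_num) hn0.le]
      have := (Nat.ceil_lt_add_one (show (0:ℝ) ≤ ((3 * n : ℕ) : ℝ) ^ (b + ζ / 2) by positivity)).le
      rw [← hk] at this
      push_cast at this
      exact this
    have hk3 : 1 + 3 * (k:ℝ) ≤ (n:ℝ) ^ (b + ζ) := by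
      have : 48 * 3 ^ (b + ζ / 2) * (n:ℝ) ^ (b + ζ / 2) =
        48 * (3 ^ (b + ζ / 2) * (n:ℝ) ^ (b + ζ / 2)) := by ring
      rw [this] at k1
      linarith
    have hkn : k ≤ n := by
      have : (k:ℝ) ≤ n := by linarith
      exact_mod_cast this
    set j : ℕ := n / 66 with hj
    have hj1 : 66 * j ≤ n := Nat.mul_div_le n 66
    have hj2 : n < 66 * (j + 1) := Nat.lt_mul_div_succ n (by norm_num)
    have hjT : T0 ≤ j := by omega
    have hj0 : 1 ≤ j := by omega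
    -- the bad event
    have hsub : {w : Ed → ℝ | (n:ℝ) ^ (b + ζ) < |TT (pw w) 0 v - TT (pw w) 0 (-v)|} ⊆
        (⋃ t ∈ Finset.Icc j (3 * n), Asym ((t:ℝ) ^ (b + ζ / 2)) t) ∪
        {w | ∃ x ∈ ball (2 * n) 0, ∃ y ∈ ball (2 * n) 0, dd x y ≤ k ∧ 3 * (k:ℝ) ≤ TT (pw w) x y} ∪
        ({w | 3 * (n:ℝ) ≤ TT (pw w) 0 v} ∪ {w | 3 * (n:ℝ) ≤ TT (pw w) 0 (-v)}) ∪
        ({w | TT (pw w) 0 v < 3 * (j:ℝ)} ∪ {w | TT (pw w) 0 (-v) < 3 * (j:ℝ)}) := by
      intro w hw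
      by_contra hc
      simp only [mem_union, mem_iUnion, mem_ofPred_eq, not_or, not_exists, not_and,
        not_le, not_lt] at hc
      obtain ⟨⟨⟨c1, c2⟩, c3, c3'⟩, c4, c4'⟩ := hc
      have G3 : ∀ t : ℕ, (j:ℝ) ≤ (t:ℝ) → (t:ℝ) ≤ 3 * n → w ∉ Asym ((t:ℝ) ^ (b + ζ / 2)) t := by
        intro t h1 h2
        exact c1 t (Finset.mem_Icc.2 ⟨by exact_mod_cast h1, by exact_mod_cast h2⟩)
      have hf : ∀ t : ℕ, (t:ℝ) ≤ 3 * n → (t:ℝ) ^ (b + ζ / 2) ≤ k := by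
        intro t ht
        refine le_trans ?_ hk1
        apply Real.rpow_le_rpow (by positivity) _ (by linarith)
        push_cast; exact ht
      have hj3 : (j:ℝ) ≤ 3 * j := by
        have : (0:ℝ) ≤ j := by positivity
        linarith
      have e1 := one_dir (w := w) (v := v) (n := n) (k := k) (f := fun t => t ^ (b + ζ / 2))
        (t0 := j) hv hf hkn c3 (hj3.trans c4) G3 (fun x hx y hy hxy => c2 x hx y hy hxy)
      have e2 := one_dir (w := w) (v := -v) (n := n) (k := k) (f := fun t => t ^ (b + ζ / 2))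
        (t0 := j) (by rw [dd_neg]; exact hv) hf hkn c3' (hj3.trans c4') G3
        (fun x hx y hy hxy => c2 x hx y hy hxy)
      rw [neg_neg] at e2
      have hw' : (n:ℝ) ^ (b + ζ) < |TT (pw w) 0 v - TT (pw w) 0 (-v)| := hw
      have : |TT (pw w) 0 v - TT (pw w) 0 (-v)| ≤ (n:ℝ) ^ (b + ζ) := by
        rw [abs_le]
        constructor <;> linarith
      linarith
    refine (measureReal_mono hsub (measure_ne_top _ _)).trans ?_
    refine (measureReal_union_le _ _).trans ?_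
    refine (add_le_add (measureReal_union_le _ _) (measureReal_union_le _ _)).trans ?_
    refine (add_le_add (add_le_add (measureReal_union_le _ _) (measureReal_union_le _ _)) le_rfl).trans ?_
    -- the asymmetric events
    have f1 : nu.real (⋃ t ∈ Finset.Icc j (3 * n), Asym ((t:ℝ) ^ (b + ζ / 2)) t) ≤
        4 * C1 * 132 ^ (4 - 3 * b) * (n:ℝ) ^ (-(3 * (1 - b))) := by
      refine (measureReal_biUnion_finset_le _ _).trans ?_
      have g1 : ∀ t ∈ Finset.Icc j (3 * n), nu.real (Asym ((t:ℝ) ^ (b + ζ / 2)) t) ≤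
          C1 * (132 ^ (4 - 3 * b) * (n:ℝ) ^ (-(4 - 3 * b))) := by
        intro t ht
        rw [Finset.mem_Icc] at ht
        have e1 := hT0 t (by omega)
        have ht0 : (0:ℝ) < t := by
          have : 1 ≤ t := by omega
          exact_mod_cast this
        have e2 : (t:ℝ) ^ (-(4 - 3 * b)) ≤ 132 ^ (4 - 3 * b) * (n:ℝ) ^ (-(4 - 3 * b)) := by
          have e3 : (n:ℝ) / 132 ≤ t := by
            rw [div_le_iff₀ (by norm_num)]
            have : n ≤ t * 132 := by omega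
            exact_mod_cast this
          have e4 : (132:ℝ) ^ (4 - 3 * b) * (n:ℝ) ^ (-(4 - 3 * b)) = ((n:ℝ) / 132) ^ (-(4 - 3 * b)) := by
            rw [Real.div_rpow hn0.le (by norm_num), Real.rpow_neg (by norm_num : (0:ℝ) ≤ 132),
              div_eq_mul_inv, inv_inv, mul_comm]
          rw [e4]
          exact Real.rpow_le_rpow_of_nonpos (by positivity) e3 (by linarith)
        calc _ ≤ C0 * (t:ℝ) ^ (-(4 - 3 * b)) := e1
          _ ≤ C1 * (t:ℝ) ^ (-(4 - 3 * b)) := by gcongr; exact le_max_left _ _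
          _ ≤ _ := by gcongr
      refine (Finset.sum_le_card_nsmul _ _ _ g1).trans ?_
      rw [nsmul_eq_mul]
      have g2 : ((Finset.Icc j (3 * n)).card : ℝ) ≤ 4 * n := by
        rw [Nat.card_Icc]
        have : 3 * n + 1 - j ≤ 4 * n := by omega
        exact_mod_cast this
      have g3 : (n:ℝ) * (n:ℝ) ^ (-(4 - 3 * b)) = (n:ℝ) ^ (-(3 * (1 - b))) := by
        nth_rewrite 1 [← Real.rpow_one (n:ℝ)]
        rw [← Real.rpow_add hn0]
        congr 1; ring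
      calc ((Finset.Icc j (3 * n)).card : ℝ) * (C1 * (132 ^ (4 - 3 * b) * (n:ℝ) ^ (-(4 - 3 * b))))
          ≤ (4 * n) * (C1 * (132 ^ (4 - 3 * b) * (n:ℝ) ^ (-(4 - 3 * b)))) := by gcongr
        _ = 4 * C1 * 132 ^ (4 - 3 * b) * ((n:ℝ) * (n:ℝ) ^ (-(4 - 3 * b))) := by ring
        _ = _ := by rw [g3]
    have hpow3 : (n:ℝ) ^ (-(3:ℝ)) ≤ (n:ℝ) ^ (-(3 * (1 - b))) :=
      Real.rpow_le_rpow_of_exponent_le hn (by linarith)
    have f2 : nu.real {w | ∃ x ∈ ball (2 * n) 0, ∃ y ∈ ball (2 * n) 0, dd x y ≤ k ∧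
        3 * (k:ℝ) ≤ TT (pw w) x y} ≤ 10 ^ 4 * C4 * (n:ℝ) ^ (-(3 * (1 - b))) := by
      refine (near_pairs (2 * n) k).trans ?_
      have e1 := hexp k
      have hk0 : (n:ℝ) ^ b ≤ (k:ℝ) + 1 := by
        have : (n:ℝ) ^ b ≤ ((3 * n : ℕ) : ℝ) ^ (b + ζ / 2) := by
          calc (n:ℝ) ^ b ≤ (n:ℝ) ^ (b + ζ / 2) := Real.rpow_le_rpow_of_exponent_le hn (by linarith)
            _ ≤ _ := by
              apply Real.rpow_le_rpow hn0.le _ (by linarith)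
              push_cast; linarith
        linarith
      have e2 : ((k:ℝ) + 1) ^ (-(7 / b)) ≤ (n:ℝ) ^ (-(7:ℝ)) := by
        calc ((k:ℝ) + 1) ^ (-(7 / b)) ≤ ((n:ℝ) ^ b) ^ (-(7 / b)) :=
              Real.rpow_le_rpow_of_nonpos (by positivity) hk0 (by
                have : 0 < 7 / b := by positivity
                linarith)
          _ = _ := by
              rw [← Real.rpow_mul hn0.le]
              congr 1
              field_simp
      have e3 : (2 * ((2 * n : ℕ) : ℝ) + 1) ^ 4 ≤ 10 ^ 4 * (n:ℝ) ^ (4:ℝ) := by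
        have : (2 * ((2 * n : ℕ) : ℝ) + 1) ^ 4 ≤ (10 * (n:ℝ)) ^ 4 := by
          push_cast
          gcongr
          linarith
        refine this.trans (le_of_eq ?_)
        rw [mul_pow]
        norm_num
      have e4 : (n:ℝ) ^ (4:ℝ) * (n:ℝ) ^ (-(7:ℝ)) = (n:ℝ) ^ (-(3:ℝ)) := by
        rw [← Real.rpow_add hn0]; norm_num
      calc (2 * ((2 * n : ℕ) : ℝ) + 1) ^ 4 * (1 / 2) ^ k
          ≤ (10 ^ 4 * (n:ℝ) ^ (4:ℝ)) * (C4 * (n:ℝ) ^ (-(7:ℝ))) := by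
            gcongr
            exact e1.trans (by gcongr)
        _ = 10 ^ 4 * C4 * ((n:ℝ) ^ (4:ℝ) * (n:ℝ) ^ (-(7:ℝ))) := by ring
        _ = 10 ^ 4 * C4 * (n:ℝ) ^ (-(3:ℝ)) := by rw [e4]
        _ ≤ _ := by gcongr
    have g23 : ((1:ℝ) / 2) ^ n ≤ C3 * (n:ℝ) ^ (-(3 * (1 - b))) := by
      refine (hhalf n).trans ?_
      have : ((n:ℝ) + 1) ^ (-(3:ℝ)) ≤ (n:ℝ) ^ (-(3:ℝ)) :=
        Real.rpow_le_rpow_of_nonpos hn0 (by linarith) (by norm_num)
      have := this.trans hpow3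
      gcongr
    have f3 : nu.real {w | 3 * (n:ℝ) ≤ TT (pw w) 0 v} ≤ C3 * (n:ℝ) ^ (-(3 * (1 - b))) :=
      (straight (by omega)).trans g23
    have f3' : nu.real {w | 3 * (n:ℝ) ≤ TT (pw w) 0 (-v)} ≤ C3 * (n:ℝ) ^ (-(3 * (1 - b))) :=
      (straight (by rw [dd_neg]; omega)).trans g23
    have g4 : ((1:ℝ) / 2) ^ j ≤ C3 * 66 ^ (3:ℝ) * (n:ℝ) ^ (-(3 * (1 - b))) := by
      refine (hhalf j).trans ?_
      have e1 : (n:ℝ) / 66 ≤ (j:ℝ) + 1 := by
        rw [div_le_iff₀ (by norm_num)]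
        have : n ≤ (j + 1) * 66 := by omega
        exact_mod_cast this
      have e2 : ((j:ℝ) + 1) ^ (-(3:ℝ)) ≤ ((n:ℝ) / 66) ^ (-(3:ℝ)) :=
        Real.rpow_le_rpow_of_nonpos (by positivity) e1 (by norm_num)
      have e3 : ((n:ℝ) / 66) ^ (-(3:ℝ)) = 66 ^ (3:ℝ) * (n:ℝ) ^ (-(3:ℝ)) := by
        rw [Real.div_rpow hn0.le (by norm_num), Real.rpow_neg (by norm_num : (0:ℝ) ≤ 66),
          div_eq_mul_inv, inv_inv, mul_comm]
      calc C3 * ((j:ℝ) + 1) ^ (-(3:ℝ)) ≤ C3 * (66 ^ (3:ℝ) * (n:ℝ) ^ (-(3:ℝ))) := by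
            rw [← e3]; gcongr
        _ ≤ C3 * (66 ^ (3:ℝ) * (n:ℝ) ^ (-(3 * (1 - b)))) := by gcongr
        _ = _ := by ring
    have f4 : nu.real {w | TT (pw w) 0 v < 3 * (j:ℝ)} ≤
        C3 * 66 ^ (3:ℝ) * (n:ℝ) ^ (-(3 * (1 - b))) := (low_le (by omega)).trans g4
    have f4' : nu.real {w | TT (pw w) 0 (-v) < 3 * (j:ℝ)} ≤
        C3 * 66 ^ (3:ℝ) * (n:ℝ) ^ (-(3 * (1 - b))) := (low_le (by rw [dd_neg]; omega)).trans g4
    have : (4 * C1 * 132 ^ (4 - 3 * b) + 10 ^ 4 * C4 + 2 * C3 + 2 * C3 * 66 ^ (3:ℝ)) *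
        (n:ℝ) ^ (-(3 * (1 - b))) = 4 * C1 * 132 ^ (4 - 3 * b) * (n:ℝ) ^ (-(3 * (1 - b))) +
        10 ^ 4 * C4 * (n:ℝ) ^ (-(3 * (1 - b))) + 2 * (C3 * (n:ℝ) ^ (-(3 * (1 - b)))) +
        2 * (C3 * 66 ^ (3:ℝ) * (n:ℝ) ^ (-(3 * (1 - b)))) := by ring
    rw [this]
    linarith
  intro ζ hζ
  set ζ' : ℝ := min ζ ((1 - b) / 2) with hζ'
  have k0 : 0 < ζ' := lt_min hζ (by linarith)
  have k1 : ζ' ≤ ζ := min_le_left _ _
  have k2 : ζ' ≤ (1 - b) / 2 := min_le_right _ _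
  obtain ⟨C, hC, h1⟩ := main ζ' k0 (by linarith)
  refine ⟨C, fun v hv => ?_⟩
  have hn := dd_one hv
  have h2 : (dd 0 v : ℝ) ^ (b + ζ') ≤ (dd 0 v : ℝ) ^ (b + ζ) :=
    Real.rpow_le_rpow_of_exponent_le hn (by linarith)
  have h3 : (dd 0 v : ℝ) ^ (-(3 * (1 - b))) ≤ (dd 0 v : ℝ) ^ (-(3 * (1 - b)) + ζ) :=
    Real.rpow_le_rpow_of_exponent_le hn (by linarith)
  refine (measureReal_mono ?_ (measure_ne_top _ _)).trans ((h1 v hv).trans ?_)
  · intro w hw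
    exact lt_of_le_of_lt h2 hw
  · gcongr

end Pool.Agent.H948
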