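import Pool.Agent.H948.Cross

/-!
# A lower bound for the variance
-/

set_option autoImplicit false

open MeasureTheory ProbabilityTheory Filter Set
open scoped ENNReal Topology

namespace Pool.Agent.H948

open Q70.Fp
open Q69.FM (mu_add)

variable {μ : ℝ × ℝ → ℝ}

/-- on this set some pair of distant points is close in the passage time -/
def Fast (R m : ℕ) (w : Ed → ℝ) : Prop :=
  ∃ x ∈ ball R 0, ∃ y ∈ ball R 0, 66 * m ≤ dd x y ∧ TT (pw w) x y < 3 * (m:ℝ)

lemma Fast_eq (R m : ℕ) : {w | Fast R m w} = ⋃ x ∈ ball R 0, ⋃ y ∈ (ball R 0).filter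
    (fun y => 66 * m ≤ dd x y), {w | TT (pw w) x y < 3 * (m:ℝ)} := by
  ext w
  simp only [Fast, Set.mem_ofPred_eq, Set.mem_iUnion, Finset.mem_filter, exists_prop, and_assoc]

lemma measurable_Fast (R m : ℕ) : MeasurableSet {w | Fast R m w} := by
  rw [Fast_eq]
  exact Finset.measurableSet_biUnion _ fun x _ => Finset.measurableSet_biUnion _ fun y _ =>
    measurableSet_lt (measurable_TT _ _) measurable_const

lemma Fast_le (R m : ℕ) : nu.real {w | Fast R m w} ≤ ((2 * R + 1 : ℕ) : ℝ) ^ 4 * (1 / 2) ^ m := by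
  rw [Fast_eq]
  have hc : ((ball R 0).card : ℝ) ≤ ((2 * R + 1 : ℕ) : ℝ) ^ 2 := by exact_mod_cast card_ball R
  refine (measureReal_biUnion_finset_le _ _).trans ?_
  calc _ ≤ ∑ _x ∈ ball R 0, (((2 * R + 1 : ℕ) : ℝ) ^ 2 * (1 / 2) ^ m) := by
        refine Finset.sum_le_sum fun x _ => ?_
        refine (measureReal_biUnion_finset_le _ _).trans ?_
        calc _ ≤ ∑ _y ∈ (ball R 0).filter (fun y => 66 * m ≤ dd x y), ((1:ℝ) / 2) ^ m :=
              Finset.sum_le_sum fun y hy => low_le (Finset.mem_filter.1 hy).2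
          _ = (((ball R 0).filter (fun y => 66 * m ≤ dd x y)).card : ℝ) * (1 / 2) ^ m := by
              rw [Finset.sum_const, nsmul_eq_mul]
          _ ≤ _ := by
              have : ((((ball R 0).filter (fun y => 66 * m ≤ dd x y)).card : ℕ) : ℝ) ≤
                (ball R 0).card := by exact_mod_cast Finset.card_filter_le _ _
              have := this.trans hc
              gcongr
    _ = ((ball R 0).card : ℝ) * (((2 * R + 1 : ℕ) : ℝ) ^ 2 * (1 / 2) ^ m) := by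
        rw [Finset.sum_const, nsmul_eq_mul]
    _ ≤ ((2 * R + 1 : ℕ) : ℝ) ^ 2 * (((2 * R + 1 : ℕ) : ℝ) ^ 2 * (1 / 2) ^ m) := by gcongr
    _ = _ := by ring

lemma Fast_small : ∀ᶠ n : ℕ in atTop, nu.real {w | Fast (140 * n) (n / 200) w} ≤ 1 / 16 := by
  obtain ⟨C, hC, h1⟩ := half_poly 5 (by norm_num)
  have E1 := pow_small (c := -1) (a := 0) (K := 4 * (281 ^ 4 * (C * 200 ^ 5))) (by norm_num)
  filter_upwards [E1, eventually_ge_atTop 1] with n F1 hn
  have hn1 : (1:ℝ) ≤ n := by exact_mod_cast hn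
  have hn0 : (0:ℝ) < n := by linarith
  refine (Fast_le _ _).trans ?_
  have e1 : ((2 * (140 * n) + 1 : ℕ) : ℝ) ≤ 281 * n := by push_cast; linarith
  have e2 := h1 (n / 200)
  have e3 : (((n / 200 : ℕ) : ℝ) + 1) ^ (-(5:ℝ)) ≤ 200 ^ 5 / (n:ℝ) ^ 5 := by
    have e4 : (n:ℝ) / 200 ≤ ((n / 200 : ℕ) : ℝ) + 1 := by
      have : n < 200 * (n / 200 + 1) := by omega
      have h2 : (n:ℝ) < 200 * (((n / 200 : ℕ) : ℝ) + 1) := by exact_mod_cast this
      linarith
    have e5 : (((n / 200 : ℕ) : ℝ) + 1) ^ (-(5:ℝ)) ≤ ((n:ℝ) / 200) ^ (-(5:ℝ)) :=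
      Real.rpow_le_rpow_of_nonpos (by positivity) e4 (by norm_num)
    refine e5.trans (le_of_eq ?_)
    rw [Real.rpow_neg (by positivity), show (5:ℝ) = ((5:ℕ):ℝ) by norm_num, Real.rpow_natCast,
      div_pow, inv_div]
  have e4 : (1 / 2 : ℝ) ^ (n / 200) ≤ C * (200 ^ 5 / (n:ℝ) ^ 5) := e2.trans (by gcongr)
  rw [Real.rpow_zero, Real.rpow_neg_one] at F1
  calc ((2 * (140 * n) + 1 : ℕ) : ℝ) ^ 4 * (1 / 2) ^ (n / 200) ≤
      (281 * n) ^ 4 * (C * (200 ^ 5 / (n:ℝ) ^ 5)) := by gcongr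
    _ = 281 ^ 4 * (C * 200 ^ 5) * (n:ℝ)⁻¹ := by field_simp
    _ ≤ 1 / 16 := by linarith

/-- the variance is at least a multiple of the inverse of the width -/
lemma var_lower (h : Shape μ) {b ε : ℝ} (hb : 0 < b) (hε : 0 < ε) (hbε : b + ε ≤ 1 / 2)
    (hH : HH μ (b + ε)) : ∃ c5 : ℝ, 0 < c5 ∧ ∀ᶠ n : ℕ in atTop, ∃ v : ℤ × ℤ,
      (n:ℝ) - 2 ≤ dd 0 v ∧ (dd 0 v : ℝ) ≤ 3 / 2 * n + 2 ∧
      c5 * (n:ℝ) ^ ((1 - b) / 2 - ε) ≤ ∫ w, (Bk v 0 w - fb v) ^ 2 ∂nu := by
  classical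
  refine ⟨9 / 208000 ^ 2, by norm_num, ?_⟩
  obtain ⟨c0, hc0, hc01, q, hq, hcurv⟩ := curv_low h
  have hab : 0 < b + ε := by linarith
  obtain ⟨C1, hC1, h1⟩ := unif h hab (δ := 1 / (b + ε)) (by positivity) (hH _ (by positivity))
  rw [min_eq_left (by linarith : b + ε ≤ 1), one_div_mul_cancel hab.ne'] at h1
  have E1 := pow_small (c := b + ε) (a := b + 2 * ε) (K := 2 ^ (b + ε) / c0) (by linarith)
  have E2 := pow_small (c := 0) (a := b + 2 * ε) (K := 10 / c0) (by linarith)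
  have E3 := pow_small (c := 0) (a := (1 + b) / 2 + ε) (K := 1 / 2) (by linarith)
  have E4 := pow_small (c := -1) (a := 0) (K := 4 * C1) (by norm_num)
  have E5 := pow_small (c := ((b - 1) / 2 + ε) / 2) (a := 0) (K := 26000 / 3) (by linarith)
  filter_upwards [E1, E2, E3, E4, E5, early_small h hb hε hbε hH, Fast_small,
    eventually_ge_atTop 400] with n F1 F2 F3 F4 F5 hearly hfast hn
  have hn400 : (400:ℝ) ≤ n := by exact_mod_cast hn
  have hn0 : (0:ℝ) < n := by linarith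
  have hn1 : (1:ℝ) ≤ n := by linarith
  rw [Real.rpow_zero] at F2 F3 F4 F5
  obtain ⟨e, he, hmax⟩ := exists_max h (wd b ε n)
  set δ : ℝ := wd b ε n with hδ
  set A : ℝ := Ac μ e δ with hA
  have hδ0 : 0 < δ := by rw [hδ, wd]; positivity
  have hδ1 : δ ≤ 1 := by
    rw [hδ, wd]
    exact Real.rpow_le_one_of_one_le_of_nonpos hn1 (by linarith)
  have hAlow : c0 * δ ^ 2 ≤ A := (hcurv δ hδ0.le hδ1).trans (hmax q hq)
  have hδ2 : (n : ℝ) * δ ^ 2 = (n : ℝ) ^ (b + 2 * ε) := by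
    rw [hδ, wd, ← Real.rpow_natCast _ 2, ← Real.rpow_mul hn0.le]
    conv_lhs => enter [1]; rw [← Real.rpow_one (n : ℝ)]
    rw [← Real.rpow_add hn0]
    congr 1; push_cast; ring
  have hδ3 : δ * (n : ℝ) = (n : ℝ) ^ ((1 + b) / 2 + ε) := by
    rw [hδ, wd]
    conv_lhs => enter [2]; rw [← Real.rpow_one (n : ℝ)]
    rw [← Real.rpow_add hn0]
    congr 1; ring
  have hnA : c0 * (n : ℝ) ^ (b + 2 * ε) ≤ n * A := by
    rw [← hδ2]; nlinarith
  set s : ℝ := ((2 * n : ℕ) : ℝ) ^ (b + ε) with hs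
  have hsA : s + 19 < n * A := by
    have e1 : s = 2 ^ (b + ε) * (n:ℝ) ^ (b + ε) := by
      rw [hs]; push_cast; rw [Real.mul_rpow (by norm_num) hn0.le]
    have e2 : c0 * (4 * (2 ^ (b + ε) / c0 * (n:ℝ) ^ (b + ε))) ≤ c0 * (n : ℝ) ^ (b + 2 * ε) := by
      apply mul_le_mul_of_nonneg_left _ hc0.le
      linarith
    have e3 : c0 * (4 * (2 ^ (b + ε) / c0 * (n:ℝ) ^ (b + ε))) = 4 * s := by
      rw [e1]; field_simp
    have e4 : c0 * (4 * (10 / c0 * 1)) ≤ c0 * (n : ℝ) ^ (b + 2 * ε) := by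
      apply mul_le_mul_of_nonneg_left _ hc0.le
      linarith
    have e5 : c0 * (4 * (10 / c0 * 1)) = 40 := by field_simp; norm_num
    have e6 : 0 ≤ s := by rw [hs]; positivity
    linarith
  have hδn : 2 ≤ δ * n := by rw [hδ3]; linarith
  set v : ℤ × ℤ := rd ((n:ℝ) • e) with hv
  obtain ⟨hv1, hv2⟩ := rd_size he hn0
  rw [← hv] at hv1 hv2
  refine ⟨v, hv1, hv2, ?_⟩
  have hvn : dd 0 v ≤ 2 * n := by
    have : (dd 0 v : ℝ) ≤ 2 * n := by linarith
    exact_mod_cast this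
  -- the exceptional sets
  have hB1 := hearly e he hmax
  have hB2 : nu.real (sh v ⁻¹' {w | Early μ (-e) n δ (140 * n) w}) ≤ 1 / 16 := by
    have e1 : nu.real (sh v ⁻¹' {w | Early μ (-e) n δ (140 * n) w}) =
        nu.real {w | Early μ (-e) n δ (140 * n) w} := by
      conv_rhs => rw [← map_sh v]
      rw [map_measureReal_apply (measurable_sh _) (measurable_Early _ _ _ _ _)]
    rw [e1]
    refine hearly (-e) (Cir_neg he) fun e' he' => ?_
    rw [Ac_neg h]
    exact hmax e' he'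
  have hB3 : nu.real {w | mz μ v + s < TT (pw w) 0 v} ≤ 1 / 16 := by
    have e1 := h1 (2 * n) (by omega) v hvn
    rw [Real.rpow_neg_one] at e1
    have e2 : C1 * (((2 * n : ℕ) : ℝ))⁻¹ ≤ C1 * (n:ℝ)⁻¹ := by
      have : (n:ℝ) ≤ ((2 * n : ℕ) : ℝ) := by push_cast; linarith
      gcongr
    rw [Real.rpow_neg_one] at F4
    linarith
  have hB4 : nu.real {w | TT (pw w) 0 v < TB (pw w) (66 * dd 0 v) 0 v} ≤ 1 / 16 := by
    refine (local_le (le_refl (dd 0 v))).trans ?_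
    have e1 : 5 ≤ dd 0 v := by
      have : (5:ℝ) ≤ dd 0 v := by linarith
      exact_mod_cast this
    have e2 : (1 / 2 : ℝ) ^ dd 0 v ≤ (1 / 2) ^ 5 :=
      pow_le_pow_of_le_one (by norm_num) (by norm_num) e1
    linarith
  -- the region
  set D := Tu e (66 * dd 0 v) (3 * δ * n) with hD
  set S := Sd D with hS
  set Q := be (66 * dd 0 v) 0 ∪ S with hQ
  have hcard : (S.card : ℝ) ≤ 8000 * n ^ 2 * δ := by
    have e1 : ((Sd D).card : ℝ) ≤ 4 * D.card := by exact_mod_cast card_Sd D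
    have e2 := card_Tu he (66 * dd 0 v) (L := 3 * δ * n) (by positivity)
    have e3 : (3 * (3 * δ * n) + 2) * (2 * ((66 * dd 0 v : ℕ) : ℝ) + 1) ≤
        (10 * (δ * n)) * (200 * n) := by
      have e4 : 3 * (3 * δ * n) + 2 ≤ 10 * (δ * n) := by linarith
      have e5 : 2 * ((66 * dd 0 v : ℕ) : ℝ) + 1 ≤ 200 * n := by
        push_cast
        linarith
      gcongr
    have e6 : (D.card : ℝ) ≤ (10 * (δ * n)) * (200 * n) := e2.trans e3
    calc ((Sd D).card : ℝ) ≤ 4 * D.card := e1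
      _ ≤ 4 * ((10 * (δ * n)) * (200 * n)) := by gcongr
      _ = _ := by ring
  -- the factor
  set r : ℝ := Real.sqrt δ with hr
  have hr0 : 0 < r := Real.sqrt_pos.2 hδ0
  have hr2 : r * r = δ := Real.mul_self_sqrt hδ0.le
  have hrδ : δ ≤ r := by
    have : r ≤ 1 := by rw [hr]; exact Real.sqrt_le_one.2 hδ1
    nlinarith
  set g : ℝ := 1 / (130 * n * r) with hg
  have hg0 : 0 < g := by positivity
  have hg1 : g < 1 := by
    rw [hg, div_lt_one (by positivity)]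
    nlinarith
  have hg2 : g ^ 2 * (16900 * n ^ 2 * δ) = 1 := by
    rw [hg, ← hr2]; field_simp; norm_num
  have hNg : (S.card : ℝ) * g ^ 2 ≤ 1 / 2 := by
    calc (S.card : ℝ) * g ^ 2 ≤ 8000 * n ^ 2 * δ * g ^ 2 := by gcongr
      _ = 8000 / 16900 * (g ^ 2 * (16900 * n ^ 2 * δ)) := by ring
      _ ≤ 1 / 2 := by rw [hg2]; norm_num
  have hLR : (((1 - g) * (2 - (1 - g)))⁻¹) ^ S.card - 1 ≤ 1 := by
    have e1 : (1 - g) * (2 - (1 - g)) = 1 - g ^ 2 := by ring
    rw [e1, inv_pow]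
    have hg3 : g ^ 2 < 1 := by nlinarith
    have e2 := one_add_mul_le_pow (a := -g ^ 2) (by nlinarith) S.card
    have e3 : 1 / 2 ≤ (1 - g ^ 2) ^ S.card := by
      have e4 : 1 + -g ^ 2 = 1 - g ^ 2 := by ring
      rw [e4] at e2
      linarith
    have e4 : ((1 - g ^ 2) ^ S.card)⁻¹ ≤ 2 := by
      rw [inv_le_comm₀ (by linarith) (by norm_num)]
      linarith
    linarith
  -- the gain
  set m : ℕ := n / 200 with hm
  have hm1 : (n:ℝ) / 400 ≤ m := by
    have : n < 200 * (n / 200 + 1) := by omega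
    have h2 : (n:ℝ) < 200 * (((n / 200 : ℕ) : ℝ) + 1) := by exact_mod_cast this
    rw [hm]; linarith
  have hgm : 3 / (52000 * r) ≤ g * (3 * m) := by
    calc 3 / (52000 * r) = g * (3 * (n / 400)) := by rw [hg]; field_simp; norm_num
      _ ≤ _ := by gcongr
  have hr3 : 2 ≤ 3 / (52000 * r) := by
    have e1 : r = (n:ℝ) ^ (((b - 1) / 2 + ε) / 2) := by
      rw [hr, Real.sqrt_eq_rpow, hδ, wd, ← Real.rpow_mul hn0.le]
      congr 1; ring
    rw [← e1] at F5
    rw [le_div_iff₀ (by positivity)]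
    linarith
  set κ : ℝ := g * (3 * m) - 1 with hκ
  have hκ1 : 1 / 2 * (3 / (52000 * r)) ≤ κ := by linarith
  have hκ0 : 0 < κ := by linarith
  set B : Set (Ed → ℝ) := ((({w | Early μ e n δ (140 * n) w} ∪
    sh v ⁻¹' {w | Early μ (-e) n δ (140 * n) w}) ∪ {w | mz μ v + s < TT (pw w) 0 v}) ∪
    {w | TT (pw w) 0 v < TB (pw w) (66 * dd 0 v) 0 v}) ∪ {w | Fast (140 * n) m w} with hB
  have hBm : MeasurableSet B := by
    refine MeasurableSet.union (MeasurableSet.union (MeasurableSet.union (MeasurableSet.union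
      (measurable_Early _ _ _ _ _) (measurable_sh _ (measurable_Early _ _ _ _ _)))
      (measurableSet_lt measurable_const (measurable_TT _ _)))
      (measurableSet_lt (measurable_TT _ _) (measurable_TB _ _ _))) (measurable_Fast _ _)
  have hBp : nu.real B ≤ 1 / 2 := by
    have b1 := measureReal_union_le (μ := nu) ((({w | Early μ e n δ (140 * n) w} ∪
      sh v ⁻¹' {w | Early μ (-e) n δ (140 * n) w}) ∪ {w | mz μ v + s < TT (pw w) 0 v}) ∪
      {w | TT (pw w) 0 v < TB (pw w) (66 * dd 0 v) 0 v}) {w | Fast (140 * n) m w}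
    have b2 := measureReal_union_le (μ := nu) (({w | Early μ e n δ (140 * n) w} ∪
      sh v ⁻¹' {w | Early μ (-e) n δ (140 * n) w}) ∪ {w | mz μ v + s < TT (pw w) 0 v})
      {w | TT (pw w) 0 v < TB (pw w) (66 * dd 0 v) 0 v}
    have b3 := measureReal_union_le (μ := nu) ({w | Early μ e n δ (140 * n) w} ∪
      sh v ⁻¹' {w | Early μ (-e) n δ (140 * n) w}) {w | mz μ v + s < TT (pw w) 0 v}
    have b4 := measureReal_union_le (μ := nu) {w | Early μ e n δ (140 * n) w}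
      (sh v ⁻¹' {w | Early μ (-e) n δ (140 * n) w})
    rw [← hB] at b1
    linarith
  have hgain : ∀ w, w ∉ B → κ ≤ Bk v 0 w - Bk v 0 (tlt S (1 - g) w) := by
    intro w hw
    rw [hB] at hw
    simp only [Set.mem_union, not_or, Set.mem_preimage, Set.mem_ofPred_eq, not_lt] at hw
    obtain ⟨⟨⟨⟨w1, w2⟩, w3⟩, w4⟩, w5⟩ := hw
    -- a good walk in the box
    have hBk : Bk v 0 w = TB (pw w) (66 * dd 0 v) 0 v := by
      unfold Bk; rw [zero_add]
    have hne := nonemptyB (pw w) (R := 66 * dd 0 v) (x := 0) (y := v) (by omega)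
    have hlt : TB (pw w) (66 * dd 0 v) 0 v < Bk v 0 w + 1 := by rw [hBk]; linarith
    obtain ⟨_, ⟨N, p, ⟨hp, hpb⟩, rfl⟩, hpW⟩ := exists_lt_of_csInf_lt hne hlt
    have hWt : Wt (pw w) p N ≤ mz μ v + s + 1 := by
      rw [hBk] at hpW; linarith
    have hconf := fun i hi ht ht1 => conf h he (by omega) hδ0 hδn hsA w1 w2 hp hpb hWt
      (i := i) hi ht ht1
    obtain ⟨a', b', hab', hbN, hmid, hdist⟩ := crossing he (by omega : 40 ≤ n) hp
    have hedge : ∀ i, a' ≤ i → i < b' → s(p i, p (i + 1)) ∈ S := by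
      intro i hi1 hi2
      rw [hS]
      refine mem_Sd ?_ (hp.2.2 i (by omega))
      rw [hD, Tu, Finset.mem_filter]
      obtain ⟨m1, m2⟩ := hmid i hi1 hi2.le
      exact ⟨mem_ball.2 (hpb i (by omega)), hconf i (by omega) m1 m2⟩
    have hsc := scaled (w := w) (c := 1 - g) (by linarith) hp hpb hab' hbN hedge (by linarith)
    have hTT : 3 * (m:ℝ) ≤ TT (pw w) (p a') (p b') := by
      by_contra hcon
      push Not at hcon
      apply w5
      have hball : ∀ i ≤ N, p i ∈ ball (140 * n) 0 := by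
        intro i hi
        rw [mem_ball]
        have e1 := hpb i hi
        have e2 : (dd 0 (p i) : ℝ) ≤ 66 * dd 0 v := by exact_mod_cast e1
        have e3 : (dd 0 (p i) : ℝ) ≤ 140 * n := by linarith
        exact_mod_cast e3
      refine ⟨p a', hball a' (by omega), p b', hball b' hbN, ?_, hcon⟩
      have e1 : 66 * (m:ℝ) ≤ dd (p a') (p b') := by
        have e2 : (m:ℝ) ≤ n / 200 := by rw [hm]; exact Nat.cast_div_le
        linarith
      exact_mod_cast e1
    have e1 : 1 - (1 - g) = g := by ring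
    rw [e1] at hsc
    have e2 : g * (3 * m) ≤ g * TT (pw w) (p a') (p b') := by gcongr
    rw [hκ]
    linarith
  -- the integral
  have iF : Integrable (Bk v 0) nu := (memLp_Bk v 0).integrable one_le_two
  have hle := Bk_tlt_le v S (c := 1 - g) (by linarith) (by linarith)
  have iG : Integrable (fun w => Bk v 0 (tlt S (1 - g) w)) nu := by
    refine iF.mono' ((measurable_Bk v 0).comp (measurable_tlt S _)).aestronglyMeasurable
      (Eventually.of_forall fun w => ?_)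
    rw [Real.norm_eq_abs, abs_of_nonneg (Bk_nonneg _ _ _)]
    exact hle w
  have hdiff : 1 / 2 * κ ≤ ∫ w, Bk v 0 w ∂nu - ∫ w, Bk v 0 (tlt S (1 - g) w) ∂nu := by
    rw [← integral_sub iF iG]
    have e1 : ∫ w, Bᶜ.indicator (fun _ => κ) w ∂nu ≤
        ∫ w, (Bk v 0 w - Bk v 0 (tlt S (1 - g) w)) ∂nu := by
      refine integral_mono ((integrable_const κ).indicator hBm.compl) (iF.sub iG) fun w => ?_
      by_cases hw : w ∈ B
      · rw [Set.indicator_of_notMem (by simpa using hw)]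
        show 0 ≤ Bk v 0 w - Bk v 0 (tlt S (1 - g) w)
        linarith [hle w]
      · rw [Set.indicator_of_mem (by simpa using hw)]
        exact hgain w hw
    rw [integral_indicator_const _ hBm.compl, probReal_compl_eq_one_sub hBm, smul_eq_mul] at e1
    have e2 : 1 / 2 * κ ≤ (1 - nu.real B) * κ := by gcongr; linarith
    linarith
  have htilt := tilt (S := S) (Q := Q) Finset.subset_union_right (c := 1 - g) (by linarith)
    (by linarith) (measurable_Bk v 0) (fun w w' hw => Bk_dep fun e he =>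
      hw e (Finset.mem_union_left _ he)) (memLp_Bk v 0)
  have hV0 : 0 ≤ ∫ w, (Bk v 0 w - ∫ w, Bk v 0 w ∂nu) ^ 2 ∂nu := integral_nonneg fun w => sq_nonneg _
  have hfin : (1 / 2 * κ) ^ 2 ≤ ∫ w, (Bk v 0 w - fb v) ^ 2 ∂nu := by
    have e1 : (1 / 2 * κ) ^ 2 ≤ (∫ w, Bk v 0 w ∂nu - ∫ w, Bk v 0 (tlt S (1 - g) w) ∂nu) ^ 2 :=
      pow_le_pow_left₀ (by positivity) hdiff 2
    have e2 : (∫ w, (Bk v 0 w - ∫ w, Bk v 0 w ∂nu) ^ 2 ∂nu) *
        ((((1 - g) * (2 - (1 - g)))⁻¹) ^ S.card - 1) ≤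
        (∫ w, (Bk v 0 w - ∫ w, Bk v 0 w ∂nu) ^ 2 ∂nu) * 1 := by gcongr
    rw [mul_one] at e2
    exact e1.trans (htilt.trans e2)
  refine le_trans ?_ hfin
  have e1 : (3 / (208000 * r)) ^ 2 = 9 / 208000 ^ 2 * (n:ℝ) ^ ((1 - b) / 2 - ε) := by
    have e2 : (n:ℝ) ^ ((1 - b) / 2 - ε) = δ⁻¹ := by
      rw [hδ, wd, ← Real.rpow_neg hn0.le]; congr 1; ring
    rw [e2, ← hr2]; field_simp; norm_num
  rw [← e1]
  have e3 : 3 / (208000 * r) ≤ 1 / 2 * κ := by
    have e4 : 3 / (208000 * r) = 1 / 2 * (1 / 2 * (3 / (52000 * r))) := by field_simp; norm_num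
    rw [e4]
    linarith
  exact pow_le_pow_left₀ (by positivity) e3 2

end Pool.Agent.H948
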